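import Pool.Agent.Lib.MP_629a14_nt.Col.PrimeNu
import Pool.Agent.Lib.MP_629a14_nt.Sm.FGL2

/-! The number of representations on average. -/

set_option autoImplicit false

namespace Pool.Agent.Lib.MP_629a14_nt.Col

open Finset Pool.Agent.Lib.MP_629a14_nt Pool.Agent.Lib.MP_629a14_nt.Rob

/-- `sig v n = 2 ∏_{3 ≤ p ≤ v} (p/(p-1) or p(p-2)/(p-1)²)`, see `SigLow.ratio_primorial`. -/
theorem sig_pi2 (v n : ℕ) (hv : 2 ≤ v) : sig v n = 2 * Pi2 2 v n := by
  rw [SigLow.sig_eq v n hv]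
  unfold Pi2
  rw [Finset.prod_ite, Finset.filter_filter, Finset.filter_filter]
  unfold SigLow.RR SigLow.QQ SigLow.od
  rw [Finset.filter_filter, Finset.filter_filter, ← mul_assoc]
  rfl

private theorem Asym_log (K ε : ℝ) (hK : 0 < K) (hε : 0 < ε) : ∃ N₀ : ℕ, ∀ N : ℕ, N₀ ≤ N →
    Real.log N * K ≤ ε * N := by
  have h1 := (Real.isLittleO_log_id_atTop.def (show 0 < ε / K by positivity))
  have h2 := tendsto_natCast_atTop_atTop (R := ℝ) |>.eventually h1
  obtain ⟨N₀, hN₀⟩ := Filter.eventually_atTop.1 h2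
  refine ⟨N₀, fun N hN => ?_⟩
  have h3 := hN₀ N hN
  rw [Real.norm_of_nonneg (Real.log_natCast_nonneg N)] at h3
  have h4 : ‖(id (N : ℝ) : ℝ)‖ = N := by
    rw [id]
    exact Real.norm_of_nonneg (Nat.cast_nonneg N)
  rw [h4] at h3
  calc Real.log N * K ≤ ε / K * N * K := mul_le_mul_of_nonneg_right h3 hK.le
    _ = ε * N := by field_simp

private theorem Asym_KK (x y : ℤ) : KK 2 x y = 1 := by
  unfold KK
  have : OP 2 = ∅ := by
    unfold OP
    rw [Finset.filter_eq_empty_iff]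
    intro p hp
    rw [mem_Icc] at hp
    omega
  rw [this, prod_empty]

private theorem Asym_nu0 (v : ℕ) (hv : 2 ≤ v) : nu v 0 = 0 := by
  unfold nu
  rw [if_neg]
  intro h
  rw [Nat.coprime_zero_left] at h
  have : 2 ∣ primorial v := Nat.prime_two.dvd_primorial_iff.2 hv
  rw [h] at this
  omega

/-- the part with `nu` -/
private theorem Asym_nu (v : ℕ) (hv : 2 ≤ v) (ε : ℝ) (hε : 0 < ε) : ∃ N₀ : ℕ, ∀ N : ℕ, N₀ ≤ N →
    ∀ n : ℕ, 1 ≤ n → n ≤ N → 2 ∣ n →
      |∑ b ∈ (Ico 1 n).filter Nat.Prime, Real.log N * nu v (n - b) - n * sig v n| ≤ ε * N := by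
  have hK : 0 < (primorial v : ℝ) / (primorial v).totient := by
    have h1 : 0 < primorial v := primorial_pos v
    have h2 : 0 < (primorial v).totient := Nat.totient_pos.2 h1
    positivity
  obtain ⟨N₁, h₁⟩ := primeNu 2 v le_rfl hv (ε / 2) (by positivity)
  obtain ⟨N₂, h₂⟩ := Asym_log ((primorial v : ℝ) / (primorial v).totient) (ε / 2) hK (by positivity)
  refine ⟨max N₁ N₂, fun N hN n hn1 hnN hn2 => ?_⟩
  have hN1 : N₁ ≤ N := (le_max_left _ _).trans hN
  have hN2 : N₂ ≤ N := (le_max_right _ _).trans hN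
  have h := h₁ N hN1 n hnN hn2 0 n (Nat.zero_le _) le_rfl
  have hlog := h₂ N hN2
  have hl0 : 0 ≤ Real.log N := Real.log_natCast_nonneg N
  have hterm : ∀ m, 0 ≤ Real.log N * nu v m ∧ Real.log N * nu v m ≤ ε / 2 * N := fun m =>
    ⟨mul_nonneg hl0 (nu_nonneg v m), (mul_le_mul_of_nonneg_left (nu_le v m) hl0).trans hlog⟩
  -- rewrite the sum of `primeNu`
  have e1 : ∑ b ∈ (Ioc 0 n).filter (fun b => b.Prime ∧ 2 < b),
        Real.log N * (KK 2 (b : ℤ) ((n : ℤ) - b) * nu v (n - b)) =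
      ∑ b ∈ (Ico 1 n).filter (fun b => b.Prime ∧ 2 < b), Real.log N * nu v (n - b) := by
    have h3 : ∀ b ∈ (Ioc 0 n).filter (fun b => b.Prime ∧ 2 < b),
        Real.log N * (KK 2 (b : ℤ) ((n : ℤ) - b) * nu v (n - b)) = Real.log N * nu v (n - b) := by
      intro b _
      rw [Asym_KK, one_mul]
    rw [sum_congr rfl h3]
    symm
    refine sum_subset ?_ ?_
    · intro b hb
      rw [mem_filter, mem_Ico] at hb
      rw [mem_filter, mem_Ioc]
      exact ⟨⟨by omega, by omega⟩, hb.2⟩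
    · intro b hb hb'
      rw [mem_filter, mem_Ioc] at hb
      rw [mem_filter, mem_Ico] at hb'
      have : b = n := by
        by_contra hne
        exact hb' ⟨⟨by omega, by omega⟩, hb.2⟩
      rw [this, Nat.sub_self, Asym_nu0 v hv, mul_zero]
  have e2 : ∑ b ∈ (Ico 1 n).filter Nat.Prime, Real.log N * nu v (n - b) =
      ∑ b ∈ (Ico 1 n).filter (fun b => b.Prime ∧ 2 < b), Real.log N * nu v (n - b) +
      ∑ b ∈ (Ico 1 n).filter (fun b => b.Prime ∧ ¬ 2 < b), Real.log N * nu v (n - b) := by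
    rw [← sum_filter_add_sum_filter_not ((Ico 1 n).filter Nat.Prime) (fun b => 2 < b), filter_filter, filter_filter]
  have e3 : |∑ b ∈ (Ico 1 n).filter (fun b => b.Prime ∧ ¬ 2 < b), Real.log N * nu v (n - b)| ≤ ε / 2 * N := by
    have hsub : (Ico 1 n).filter (fun b => b.Prime ∧ ¬ 2 < b) ⊆ {2} := by
      intro b hb
      rw [mem_filter] at hb
      have := hb.2.1.two_le
      rw [mem_singleton]
      omega
    rw [abs_of_nonneg (sum_nonneg fun b _ => (hterm _).1)]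
    refine (sum_le_sum_of_subset_of_nonneg hsub fun b _ _ => (hterm _).1).trans ?_
    rw [sum_singleton]
    exact (hterm _).2
  have e4 : 2 * ((n : ℝ) - (0 : ℕ)) * Pi2 2 v n = n * sig v n := by
    rw [sig_pi2 v n hv]
    push_cast
    ring
  rw [e1, e4] at h
  rw [e2]
  have e5 : ∑ b ∈ (Ico 1 n).filter (fun b => b.Prime ∧ 2 < b), Real.log N * nu v (n - b) +
      ∑ b ∈ (Ico 1 n).filter (fun b => b.Prime ∧ ¬ 2 < b), Real.log N * nu v (n - b) - n * sig v n =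
      (∑ b ∈ (Ico 1 n).filter (fun b => b.Prime ∧ 2 < b), Real.log N * nu v (n - b) - n * sig v n) +
      ∑ b ∈ (Ico 1 n).filter (fun b => b.Prime ∧ ¬ 2 < b), Real.log N * nu v (n - b) := by ring
  rw [e5]
  refine (abs_add_le _ _).trans ?_
  linarith

private theorem Asym_reps (v N n : ℕ) : Real.log N ^ 2 * (Sm.repsIn Set.univ Set.univ n : ℝ) =
    ∑ b ∈ (Ico 1 n).filter Nat.Prime, Real.log N * nu v (n - b) + fG v N Set.univ n := by
  classical
  have h1 : fG v N Set.univ n = ∑ b ∈ (Ico 1 n).filter Nat.Prime, Real.log N * gg v N (n - b) := by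
    unfold fG
    simp only [Set.mem_univ, and_true]
  have h2 : (Sm.repsIn Set.univ Set.univ n : ℝ) =
      ∑ b ∈ (Ico 1 n).filter Nat.Prime, (if (n - b).Prime then (1 : ℝ) else 0) := by
    unfold Sm.repsIn
    rw [sum_boole, filter_filter]
    congr 1
    refine congrArg card ?_
    ext p
    simp only [mem_filter, mem_range, mem_Ico, Set.mem_univ, and_true]
    constructor
    · rintro ⟨hp, h1, h2⟩
      have := h1.two_le
      have := h2.two_le
      exact ⟨⟨by omega, by omega⟩, h1, h2⟩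
    · rintro ⟨hp, h1, h2⟩
      exact ⟨by omega, h1, h2⟩
  rw [h1, h2, ← sum_add_distrib, mul_sum]
  refine sum_congr rfl fun b _ => ?_
  unfold gg
  split_ifs <;> ring

/-- `log² N repsIn univ univ n = ∑_{b < n prime} log N (nu v (n - b) + gg v N (n - b))`. The part with
`nu` is `n sig v n` up to `(ε/4) N` for every even `n ≤ N` (`primeNu` with `w = 2`, where `OP 2` is empty and
`KK 2 = 1`, for `x = 0`, `y = n`; `sig_pi2`; the term `b = 2` is at most `log N V/φ(V)`). The part with `gg`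
is `fG v N univ n`: Cauchy-Schwarz and `Sm.fG_l2` with `η = (ε/4)²`. -/
theorem asym (ε : ℝ) (hε : 0 < ε) : ∃ v₀ : ℕ, ∀ v : ℕ, v₀ ≤ v → ∃ N₀ : ℕ, ∀ N : ℕ, N₀ ≤ N →
    ∑ n ∈ (Icc 1 N).filter (fun n => 2 ∣ n),
      |Real.log N ^ 2 * (Sm.repsIn Set.univ Set.univ n : ℝ) - n * sig v n| ≤ ε * (N : ℝ) ^ 2 := by
  obtain ⟨v₁, hv₁⟩ := Sm.fG_l2 ((ε / 2) ^ 2) (by positivity)
  refine ⟨max v₁ 2, fun v hv => ?_⟩
  have hv1 : v₁ ≤ v := (le_max_left _ _).trans hv
  have hv2 : 2 ≤ v := (le_max_right _ _).trans hv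
  obtain ⟨N₁, hN₁⟩ := hv₁ v hv1
  obtain ⟨N₂, hN₂⟩ := Asym_nu v hv2 (ε / 2) (by positivity)
  refine ⟨max N₁ N₂, fun N hN => ?_⟩
  have hN1 : N₁ ≤ N := (le_max_left _ _).trans hN
  have hN2 : N₂ ≤ N := (le_max_right _ _).trans hN
  have hsub : (Icc 1 N).filter (fun n => 2 ∣ n) ⊆ Icc 1 N := filter_subset _ _
  have hA : ∀ n ∈ (Icc 1 N).filter (fun n => 2 ∣ n),
      |Real.log N ^ 2 * (Sm.repsIn Set.univ Set.univ n : ℝ) - n * sig v n| ≤
        ε / 2 * N + |fG v N Set.univ n| := by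
    intro n hn
    rw [mem_filter, mem_Icc] at hn
    rw [Asym_reps v N n, add_sub_right_comm]
    refine (abs_add_le _ _).trans ?_
    have := hN₂ N hN2 n hn.1.1 hn.1.2 hn.2
    linarith
  refine (sum_le_sum hA).trans ?_
  rw [sum_add_distrib]
  have hB : ∑ n ∈ (Icc 1 N).filter (fun n => 2 ∣ n), ε / 2 * (N : ℝ) ≤ ε / 2 * (N : ℝ) ^ 2 := by
    rw [sum_const, nsmul_eq_mul]
    have h1 : (((Icc 1 N).filter (fun n => 2 ∣ n)).card : ℝ) ≤ N := by
      have := card_le_card hsub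
      rw [Nat.card_Icc] at this
      exact_mod_cast (by omega : _ ≤ N)
    have h2 : 0 ≤ ε / 2 * (N : ℝ) := by positivity
    calc (((Icc 1 N).filter (fun n => 2 ∣ n)).card : ℝ) * (ε / 2 * (N : ℝ)) ≤ N * (ε / 2 * (N : ℝ)) :=
          mul_le_mul_of_nonneg_right h1 h2
      _ = ε / 2 * (N : ℝ) ^ 2 := by ring
  have hC : ∑ n ∈ (Icc 1 N).filter (fun n => 2 ∣ n), |fG v N Set.univ n| ≤ ε / 2 * (N : ℝ) ^ 2 := by
    refine (sum_le_sum_of_subset_of_nonneg hsub fun n _ _ => abs_nonneg _).trans ?_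
    have h1 := hN₁ N hN1 Set.univ
    have h2 : (∑ n ∈ Icc 1 N, |fG v N Set.univ n|) ^ 2 ≤ (ε / 2 * (N : ℝ) ^ 2) ^ 2 := by
      have h3 := sq_sum_le_card_mul_sum_sq (s := Icc 1 N) (f := fun n => |fG v N Set.univ n|)
      simp only [sq_abs] at h3
      refine h3.trans ?_
      rw [Nat.card_Icc]
      have h4 : ((N + 1 - 1 : ℕ) : ℝ) = N := by norm_num
      rw [h4]
      calc (N : ℝ) * ∑ n ∈ Icc 1 N, fG v N Set.univ n ^ 2 ≤ N * ((ε / 2) ^ 2 * (N : ℝ) ^ 3) :=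
            mul_le_mul_of_nonneg_left h1 (Nat.cast_nonneg N)
        _ = (ε / 2 * (N : ℝ) ^ 2) ^ 2 := by ring
    exact le_of_sq_le_sq h2 (by positivity)
  linarith

end Pool.Agent.Lib.MP_629a14_nt.Col
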