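import Mathlib

/-! Chinese remainder theorem for sums of products. -/

set_option autoImplicit false

namespace Pool.Agent.Lib.MP_629a14_nt.Col

open Finset

private theorem Crtp_two (q M : ℕ) (hq : 0 < q) (hM : 0 < M) (h : Nat.Coprime q M) (F G : ℕ → ℝ)
    (hF : ∀ n, F (n % q) = F n) (hG : ∀ n, G (n % M) = G n) :
    ∑ n ∈ range (q * M), F n * G n = (∑ x ∈ range q, F x) * ∑ y ∈ range M, G y := by
  rw [Finset.sum_mul_sum, ← Finset.sum_product']
  refine Finset.sum_nbij' (fun n => (n % q, n % M)) (fun p => (Nat.chineseRemainder h p.1 p.2 : ℕ))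
    ?_ ?_ ?_ ?_ ?_
  · intro n _
    exact mem_product.2 ⟨mem_range.2 (Nat.mod_lt _ hq), mem_range.2 (Nat.mod_lt _ hM)⟩
  · intro p _
    exact mem_range.2 (Nat.chineseRemainder_lt_mul h p.1 p.2 hq.ne' hM.ne')
  · intro n hn
    have h1 := (Nat.chineseRemainder h (n % q) (n % M)).2
    have h2 : ((Nat.chineseRemainder h (n % q) (n % M) : ℕ)) ≡ n [MOD q * M] := by
      rw [← Nat.modEq_and_modEq_iff_modEq_mul h]
      exact ⟨h1.1.trans (Nat.mod_modEq _ _), h1.2.trans (Nat.mod_modEq _ _)⟩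
    exact Nat.ModEq.eq_of_lt_of_lt h2 (Nat.chineseRemainder_lt_mul h _ _ hq.ne' hM.ne')
      (mem_range.1 hn)
  · intro p hp
    obtain ⟨hp1, hp2⟩ := mem_product.1 hp
    have h1 := (Nat.chineseRemainder h p.1 p.2).2
    refine Prod.ext ?_ ?_
    · exact (show _ % q = _ from h1.1).trans (Nat.mod_eq_of_lt (mem_range.1 hp1))
    · exact (show _ % M = _ from h1.2).trans (Nat.mod_eq_of_lt (mem_range.1 hp2))
  · intro n _
    show F n * G n = F (n % q) * G (n % M)
    rw [hF, hG]

/-- Induction on `S`: for a prime `q` not in `S`, `M = ∏ p ∈ S, p`, the map `n ↦ (n % q, n % M)` is a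
bijection from `range (q * M)` to `range q × range M` (`Nat.chineseRemainder`, `q`, `M` coprime), and
`f p n` depends only on `n` modulo `p`. -/
theorem crt_prod (S : Finset ℕ) (hS : ∀ p ∈ S, p.Prime) (f : (p : ℕ) → ZMod p → ℝ) :
    ∑ n ∈ range (∏ p ∈ S, p), ∏ p ∈ S, f p (n : ZMod p) =
      ∏ p ∈ S, ∑ x ∈ range p, f p (x : ZMod p) := by
  induction S using Finset.induction_on with
  | empty => simp
  | insert q S hq ih =>
    have hS' : ∀ p ∈ S, p.Prime := fun p hp => hS p (mem_insert_of_mem hp)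
    have hqp : q.Prime := hS q (mem_insert_self q S)
    have hM : 0 < ∏ p ∈ S, p := Finset.prod_pos fun p hp => (hS' p hp).pos
    have hco : Nat.Coprime q (∏ p ∈ S, p) :=
      Nat.Coprime.prod_right fun p hp =>
        (Nat.coprime_primes hqp (hS' p hp)).2 fun h => hq (h ▸ hp)
    rw [Finset.prod_insert hq, Finset.prod_insert hq, ← ih hS']
    have h2 := Crtp_two q (∏ p ∈ S, p) hqp.pos hM hco (fun n => f q (n : ZMod q))
      (fun n => ∏ p ∈ S, f p (n : ZMod p)) (fun n => by
        show f q ((n % q : ℕ) : ZMod q) = f q (n : ZMod q)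
        rw [ZMod.natCast_mod]) (fun n => by
        refine Finset.prod_congr rfl fun p hp => ?_
        show f p ((n % (∏ p ∈ S, p) : ℕ) : ZMod p) = f p (n : ZMod p)
        congr 1
        rw [ZMod.natCast_eq_natCast_iff]
        exact (Nat.mod_modEq n _).of_dvd (Finset.dvd_prod_of_mem (fun p => p) hp))
    rw [← h2]
    refine Finset.sum_congr rfl fun n _ => ?_
    rw [Finset.prod_insert hq]

end Pool.Agent.Lib.MP_629a14_nt.Col
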