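import Pool.Agent.Lib.MP_629a14_nt.Sm.Defs

/-! Definitions for monochromatic and correlated representations as a sum of two primes. -/

set_option autoImplicit false

namespace Pool.Agent.Lib.MP_629a14_nt.Col

open Finset Pool.Agent.Lib.MP_629a14_nt Pool.Agent.Lib.MP_629a14_nt.Rob

/-- The odd primes up to `w`. -/
def OP (w : ℕ) : Finset ℕ := (Icc 3 w).filter Nat.Prime

open Classical in
/-- The kernel modulo `r`: mass `1 - 1/r` on `b = a` and `1/r` on `b = -a`, normalised. -/
noncomputable def kapp (r : ℕ) (a b : ZMod r) : ℝ :=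
  ((r : ℝ) - 1) * ((1 - 1 / (r : ℝ)) * (if a = b then 1 else 0) +
    (1 / (r : ℝ)) * (if a + b = 0 then 1 else 0))

/-- The product of the kernels modulo the odd primes up to `w`. -/
noncomputable def KK (w : ℕ) (x y : ℤ) : ℝ :=
  ∏ r ∈ OP w, kapp r (x : ZMod r) (y : ZMod r)

/-- The tent function of width `H`. -/
noncomputable def hat (H : ℕ) (x y : ℝ) : ℝ := max 0 ((H : ℝ) - |x - y|)

/-- The part of the local density coming from the primes in `(w, v]`. -/
noncomputable def Pi2 (w v n : ℕ) : ℝ :=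
  ∏ p ∈ (Ioc w v).filter Nat.Prime,
    (if p ∣ n then (p : ℝ) / ((p : ℝ) - 1) else (p : ℝ) * ((p : ℝ) - 2) / ((p : ℝ) - 1) ^ 2)

open Classical in
/-- The primes `w < p ≤ N / 2` of the set `A`. -/
noncomputable def Om (w N : ℕ) (A : Set ℕ) : Finset ℕ :=
  (Ioc w (N / 2)).filter (fun p => p.Prime ∧ p ∈ A)

/-- The weighted number of representations `n = p + q` with `p, q` in `Om w N A`. -/
noncomputable def mass (w N H : ℕ) (A : Set ℕ) (n : ℕ) : ℝ :=
  ∑ x ∈ Om w N A, ∑ y ∈ Om w N A,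
    if x + y = n then Real.log N ^ 2 * (KK w (x : ℤ) (y : ℤ) * hat H x y) else 0

/-- The comparison function `n^2 / (φ(n) log^2 n)`. -/
noncomputable def size (n : ℕ) : ℝ := (n : ℝ) ^ 2 / ((n.totient : ℝ) * Real.log n ^ 2)

open Classical in
/-- The local factor of `2 / sig v n` at the odd prime `r`. -/
noncomputable def lk (r : ℕ) (t : ZMod r) : ℝ :=
  if t = 0 then ((r : ℝ) - 1) / r else ((r : ℝ) - 1) ^ 2 / ((r : ℝ) * ((r : ℝ) - 2))

/-- A symmetric Markov kernel (with respect to the counting measure, normalised by the number of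
elements) whose bilinear form on functions of mean zero has norm at most `θ`. -/
def Mix (G : Type) [Fintype G] (κ : G → G → ℝ) (θ : ℝ) : Prop :=
  (∀ x y, 0 ≤ κ x y) ∧ (∀ x y, κ x y = κ y x) ∧ (∀ x, ∑ y, κ x y = (Fintype.card G : ℝ)) ∧
  ∀ f g : G → ℝ, ∑ x, f x = 0 → ∑ x, g x = 0 →
    |∑ x, ∑ y, κ x y * (f x * g y)| ≤
      θ * Fintype.card G * (Real.sqrt (∑ x, f x ^ 2) * Real.sqrt (∑ y, g y ^ 2))

open Classical in
/-- The primes `v < p` of the set `A` in `(x, x + h]`. -/
noncomputable def PP (v : ℕ) (A : Set ℕ) (x h : ℕ) : Finset ℕ :=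
  (Ioc x (x + h)).filter (fun p => p.Prime ∧ p ∈ A ∧ v < p)

/-- The sum of `log² N / sig v (p + q)` over the primes of two intervals of length `h`. -/
noncomputable def TT (v N : ℕ) (A B : Set ℕ) (x y h : ℕ) : ℝ :=
  ∑ p ∈ PP v A x h, ∑ q ∈ PP v B y h, Real.log N ^ 2 / sig v (p + q)

/-- The sum of `log² N / ((p + q) sig v (p + q))` over the pairs with `D < p + q ≤ N`. -/
noncomputable def WW (v N D : ℕ) (A B : Set ℕ) : ℝ :=
  ∑ p ∈ PP v A 0 N, ∑ q ∈ PP v B 0 N,
    if D < p + q ∧ p + q ≤ N then Real.log N ^ 2 / (((p : ℝ) + q) * sig v (p + q)) else 0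

/-- The sum over the even `n ≤ N` of the proportion of the representations of `n` with first prime
in `A` and second prime in `B`. -/
noncomputable def SR (N : ℕ) (A B : Set ℕ) : ℝ :=
  ∑ n ∈ (Icc 1 N).filter (fun n => 2 ∣ n),
    (Sm.repsIn A B n : ℝ) / (Sm.repsIn Set.univ Set.univ n : ℝ)

/-- The bound for the correlation. -/
noncomputable def theta (α β : ℝ) : ℝ := (1 / 3) * Real.sqrt (α * (1 - α) * (β * (1 - β)))

end Pool.Agent.Lib.MP_629a14_nt.Col
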