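import Pool.Agent.Lib.MP_629a14_nt.Col.Defs

/-! The colouring modulo `4`. -/

set_option autoImplicit false

namespace Pool.Agent.Lib.MP_629a14_nt.Col

open Finset Pool.Agent.Lib.MP_629a14_nt

private lemma repsIn_pos (A B : Set ℕ) (n : ℕ) (h : 0 < Sm.repsIn A B n) :
    ∃ p, p ≤ n ∧ p.Prime ∧ (n - p).Prime ∧ p ∈ A ∧ n - p ∈ B := by
  classical
  unfold Sm.repsIn at h
  rw [Finset.card_pos] at h
  obtain ⟨p, hp⟩ := h
  rw [Finset.mem_filter, Finset.mem_range] at hp
  exact ⟨p, by omega, hp.2⟩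

private lemma four_class (n : ℕ)
    (h : 0 < Sm.repsIn {p | p % 4 = 1} {p | p % 4 = 1} n ∨
        0 < Sm.repsIn {p | p % 4 ≠ 1} {p | p % 4 ≠ 1} n) (he : Even n) : n % 4 = 2 ∨ n = 4 := by
  rcases h with h | h
  · obtain ⟨p, hp, hp1, hp2, hp3, hp4⟩ := repsIn_pos _ _ _ h
    have h3 : p % 4 = 1 := hp3
    have h4 : (n - p) % 4 = 1 := hp4
    left; omega
  · obtain ⟨p, hp, hp1, hp2, hp3, hp4⟩ := repsIn_pos _ _ _ h
    have h3 : p % 4 ≠ 1 := hp3
    have h4 : (n - p) % 4 ≠ 1 := hp4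
    have he2 : n % 2 = 0 := Nat.even_iff.mp he
    rcases hp1.eq_two_or_odd with h5 | h5
    · rcases hp2.eq_two_or_odd with h6 | h6
      · right; omega
      · omega
    · rcases hp2.eq_two_or_odd with h6 | h6
      · omega
      · left; omega

open Classical in
/-- A multiple `n > 4` of `4` is not a sum of two primes that are both `1` modulo `4` or both not `1`
modulo `4`: two primes `≡ 1` have sum `≡ 2`, two primes `≡ 3` have sum `≡ 2`, and if one is `2` the other
is even, so `n = 4`. The number of `n ≤ N`, `n ≡ 2` modulo `4`, is at most `(N + 2)/4`. -/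
theorem four (N : ℕ) :
    (((Icc 1 N).filter (fun n => Even n ∧
      (0 < Sm.repsIn {p | p % 4 = 1} {p | p % 4 = 1} n ∨
        0 < Sm.repsIn {p | p % 4 ≠ 1} {p | p % 4 ≠ 1} n))).card : ℝ) ≤ N / 4 + 2 := by
  have hsub : (Icc 1 N).filter (fun n => Even n ∧
      (0 < Sm.repsIn {p | p % 4 = 1} {p | p % 4 = 1} n ∨
        0 < Sm.repsIn {p | p % 4 ≠ 1} {p | p % 4 ≠ 1} n)) ⊆
      (range ((N + 2) / 4)).image (fun k => 4 * k + 2) ∪ {4} := by
    intro n hn
    rw [Finset.mem_filter, Finset.mem_Icc] at hn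
    rw [Finset.mem_union, Finset.mem_image, Finset.mem_singleton]
    rcases four_class n hn.2.2 hn.2.1 with h | h
    · left
      exact ⟨n / 4, by rw [Finset.mem_range]; omega, by omega⟩
    · right; exact h
  have hcard := Finset.card_le_card hsub
  have h2 : ((range ((N + 2) / 4)).image (fun k => 4 * k + 2) ∪ {4}).card ≤ (N + 2) / 4 + 1 := by
    refine (Finset.card_union_le _ _).trans ?_
    have h3 := Finset.card_image_le (s := range ((N + 2) / 4)) (f := fun k => 4 * k + 2)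
    rw [Finset.card_range] at h3
    rw [Finset.card_singleton]
    omega
  have h3 := hcard.trans h2
  have h4 : (((Icc 1 N).filter (fun n => Even n ∧
      (0 < Sm.repsIn {p | p % 4 = 1} {p | p % 4 = 1} n ∨
        0 < Sm.repsIn {p | p % 4 ≠ 1} {p | p % 4 ≠ 1} n))).card : ℝ) ≤ (((N + 2) / 4 + 1 : ℕ) : ℝ) := by
    exact_mod_cast h3
  refine h4.trans ?_
  have h5 : (((N + 2) / 4 : ℕ) : ℝ) ≤ ((N : ℝ) + 2) / 4 := by
    have := @Nat.cast_div_le ℝ _ _ _ (N + 2) 4
    push_cast at this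
    exact this
  push_cast
  linarith

end Pool.Agent.Lib.MP_629a14_nt.Col
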