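import Pool.Agent.Lib.MP_629a14_nt.Col.Mono
import Pool.Agent.Lib.MP_629a14_nt.Col.Four

/-! The least density of the monochromatic sums. -/

set_option autoImplicit false

namespace Pool.Agent.Lib.MP_629a14_nt.Col

open Finset Filter Topology Pool.Agent.Lib.MP_629a14_nt Pool.Agent.Lib.MP_629a14_nt.Rob

private noncomputable def Fin_set (B : Set ℕ) (x : ℕ) : Finset ℕ := by
  classical exact (Icc 1 x).filter (fun p => p.Prime ∧ p ∈ B)

private lemma Fin_mem {B : Set ℕ} {x p : ℕ} : p ∈ Fin_set B x ↔ (1 ≤ p ∧ p ≤ x) ∧ p.Prime ∧ p ∈ B := by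
  classical
  unfold Fin_set
  rw [mem_filter, mem_Icc]

private lemma Fin_card (B : Set ℕ) (x : ℕ) : cntB B x = (Fin_set B x).card := rfl

private lemma Fin_cnt_sum (k : ℕ) (χ : ℕ → Fin k) (M : ℕ) :
    ∑ i, cntB (χ ⁻¹' {i}) M = cntB Set.univ M := by
  classical
  rw [Fin_card Set.univ M, Finset.card_eq_sum_card_fiberwise (f := χ) (t := (univ : Finset (Fin k)))
    (fun x _ => by simp)]
  refine Finset.sum_congr rfl fun i _ => ?_
  rw [Fin_card]
  congr 1
  ext p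
  rw [mem_filter, Fin_mem, Fin_mem, Set.mem_preimage, Set.mem_singleton_iff]
  constructor
  · rintro ⟨h1, h2, h3⟩
    exact ⟨⟨h1, h2, Set.mem_univ _⟩, h3⟩
  · rintro ⟨⟨h1, h2, -⟩, h3⟩
    exact ⟨h1, h2, h3⟩

private lemma Fin_cnt_pos (M : ℕ) (hM : 2 ≤ M) : 1 ≤ cntB Set.univ M := by
  rw [Fin_card, Nat.one_le_iff_ne_zero, ← Nat.pos_iff_ne_zero, Finset.card_pos]
  refine ⟨2, ?_⟩
  rw [Fin_mem]
  exact ⟨⟨by norm_num, hM⟩, Nat.prime_two, Set.mem_univ _⟩

open Classical in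
/-- `mono` for the colour classes; `∑ α_i = 1` (the classes partition the primes, `cntB univ (N/2) ≥ 1` for
`N ≥ 4`), so `∑ α_i² ≥ 1/k`. -/
theorem mono_col (k : ℕ) (hk : 1 ≤ k) (ε : ℝ) (hε : 0 < ε) : ∃ c : ℝ, 0 < c ∧ ∃ N₀ : ℕ, ∀ N : ℕ,
    N₀ ≤ N → ∀ χ : ℕ → Fin k,
      (1 / (2 * (k : ℝ)) - ε) * N ≤
        (((Icc 1 N).filter (fun n => Even n ∧
          ∃ i, c * size n ≤ (Sm.repsIn (χ ⁻¹' {i}) (χ ⁻¹' {i}) n : ℝ))).card : ℝ) := by
  obtain ⟨c, hc, N₀, h⟩ := mono k ε hε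
  refine ⟨c, hc, max N₀ 4, ?_⟩
  intro N hN χ
  have hN1 : N₀ ≤ N := (le_max_left _ _).trans hN
  have hN2 : 4 ≤ N := (le_max_right _ _).trans hN
  have h1 := h N hN1 (fun i => χ ⁻¹' {i}) (by
    intro i j hij
    rw [Set.disjoint_left]
    intro p hp hq
    exact hij (hp.symm.trans hq))
  have hsum := Fin_cnt_sum k χ (N / 2)
  have hpos := Fin_cnt_pos (N / 2) (by omega)
  have hk' : (1 : ℝ) ≤ k := by exact_mod_cast hk
  have hpos' : (0 : ℝ) < cntB Set.univ (N / 2) := by exact_mod_cast hpos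
  have hs : ∑ i, ((cntB (χ ⁻¹' {i}) (N / 2) : ℝ) / cntB Set.univ (N / 2)) = 1 := by
    rw [← Finset.sum_div, ← Nat.cast_sum, hsum]
    exact div_self hpos'.ne'
  have hsq : 1 / (k : ℝ) ≤ ∑ i, ((cntB (χ ⁻¹' {i}) (N / 2) : ℝ) / cntB Set.univ (N / 2)) ^ 2 := by
    have := sq_sum_le_card_mul_sum_sq (s := (univ : Finset (Fin k)))
      (f := fun i => ((cntB (χ ⁻¹' {i}) (N / 2) : ℝ) / cntB Set.univ (N / 2)))
    rw [hs, Finset.card_univ, Fintype.card_fin] at this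
    rw [div_le_iff₀ (by linarith)]
    linarith
  have hN0 : (0 : ℝ) ≤ N := Nat.cast_nonneg N
  have h2 : (1 / (2 * (k : ℝ)) - ε) * N ≤
      ((1 / 2) * ∑ i, ((cntB (χ ⁻¹' {i}) (N / 2) : ℝ) / cntB Set.univ (N / 2)) ^ 2 - ε) * N := by
    apply mul_le_mul_of_nonneg_right _ hN0
    have : 1 / (2 * (k : ℝ)) = (1 / 2) * (1 / k) := by
      rw [one_div_mul_one_div]
    rw [this]
    linarith
  refine h2.trans (h1.trans (le_of_eq ?_))
  congr 1

open Classical in
/-- Lower density of the even `n` with at least one representation with both primes of the same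
colour. -/
noncomputable def monoDens (k : ℕ) (χ : ℕ → Fin k) : ℝ :=
  liminf (fun N : ℕ => (((Icc 1 N).filter (fun n => Even n ∧
    ∃ i, 0 < Sm.repsIn (χ ⁻¹' {i}) (χ ⁻¹' {i}) n)).card : ℝ) / N) atTop

private lemma Fin_size_pos (n : ℕ) (hn : 2 ≤ n) : 0 < size n := by
  unfold size
  have h1 : (2 : ℝ) ≤ n := by exact_mod_cast hn
  have h2 : 0 < Real.log n := Real.log_pos (by linarith)
  have h3 : 0 < (n.totient : ℝ) := by
    have := Nat.totient_pos.2 (by omega : 0 < n)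
    exact_mod_cast this
  positivity

open Classical in
private lemma Fin_bdd (k : ℕ) (χ : ℕ → Fin k) (N : ℕ) :
    0 ≤ (((Icc 1 N).filter (fun n => Even n ∧
      ∃ i, 0 < Sm.repsIn (χ ⁻¹' {i}) (χ ⁻¹' {i}) n)).card : ℝ) / N ∧
    (((Icc 1 N).filter (fun n => Even n ∧
      ∃ i, 0 < Sm.repsIn (χ ⁻¹' {i}) (χ ⁻¹' {i}) n)).card : ℝ) / N ≤ 1 := by
  refine ⟨by positivity, ?_⟩
  apply div_le_one_of_le₀ _ (Nat.cast_nonneg N)
  have := Finset.card_filter_le (Icc 1 N) (fun n => Even n ∧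
      ∃ i, 0 < Sm.repsIn (χ ⁻¹' {i}) (χ ⁻¹' {i}) n)
  rw [Nat.card_Icc] at this
  exact_mod_cast this

/-- `mono_col` (for even `n ≥ 2` the number `size n` is positive): the quotient is eventually at least
`1/(2k) - ε` for every `ε > 0`. -/
theorem mono_dens_ge (k : ℕ) (hk : 1 ≤ k) (χ : ℕ → Fin k) : 1 / (2 * (k : ℝ)) ≤ monoDens k χ := by
  classical
  apply le_of_forall_pos_le_add
  intro ε hε
  rw [← sub_le_iff_le_add]
  obtain ⟨c, hc, N₀, h⟩ := mono_col k hk ε hε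
  unfold monoDens
  refine le_liminf_of_le ?_ ?_
  · apply IsBoundedUnder.isCoboundedUnder_ge
    exact ⟨1, by
      rw [eventually_map]
      exact Eventually.of_forall fun N => (Fin_bdd k χ N).2⟩
  · filter_upwards [eventually_ge_atTop (max N₀ 1)] with N hN
    have hN1 : N₀ ≤ N := (le_max_left _ _).trans hN
    have hN2 : 1 ≤ N := (le_max_right _ _).trans hN
    have hN' : (0 : ℝ) < N := by exact_mod_cast hN2
    rw [le_div_iff₀ hN']
    refine (h N hN1 χ).trans ?_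
    norm_cast
    apply Finset.card_le_card
    intro n hn
    rw [mem_filter, mem_Icc] at hn ⊢
    obtain ⟨⟨hn1, hn2⟩, hev, i, hi⟩ := hn
    refine ⟨⟨hn1, hn2⟩, hev, i, ?_⟩
    have hn2 : 2 ≤ n := by
      obtain ⟨m, hm⟩ := hev
      omega
    have := mul_pos hc (Fin_size_pos n hn2)
    have h3 : (0 : ℝ) < (Sm.repsIn (χ ⁻¹' {i}) (χ ⁻¹' {i}) n : ℝ) := this.trans_le hi
    exact_mod_cast h3

/-- `four`: the quotient is at most `1/4 + 2/N`. -/
theorem mono_dens_four : monoDens 2 (fun p => if p % 4 = 1 then 0 else 1) ≤ 1 / 4 := by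
  classical
  set χ : ℕ → Fin 2 := fun p => if p % 4 = 1 then 0 else 1 with hχ
  have hA0 : χ ⁻¹' {0} = {p | p % 4 = 1} := by
    ext p
    simp only [hχ, Set.mem_preimage, Set.mem_singleton_iff, Set.mem_ofPred_eq]
    split_ifs with h <;> simp [h]
  have hA1 : χ ⁻¹' {1} = {p | p % 4 ≠ 1} := by
    ext p
    simp only [hχ, Set.mem_preimage, Set.mem_singleton_iff, Set.mem_ofPred_eq]
    split_ifs with h <;> simp [h]
  have ht : Tendsto (fun N : ℕ => (1 / 4 : ℝ) + 2 / N) atTop (𝓝 (1 / 4 + 0)) :=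
    tendsto_const_nhds.add (tendsto_const_div_atTop_nhds_zero_nat 2)
  rw [add_zero] at ht
  have hl := ht.liminf_eq
  rw [← hl]
  unfold monoDens
  refine liminf_le_liminf ?_ ?_ ?_
  · filter_upwards [eventually_ge_atTop 1] with N hN
    have hN' : (0 : ℝ) < N := by exact_mod_cast hN
    rw [div_le_iff₀ hN']
    have h4 := four N
    have : (1 / 4 + 2 / (N : ℝ)) * N = N / 4 + 2 := by
      field_simp
    rw [this]
    refine le_trans (le_of_eq ?_) h4
    congr 1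
    congr 1
    ext n
    simp only [mem_filter, Fin.exists_fin_two, hA0, hA1]
  · exact ⟨0, by
      rw [eventually_map]
      exact Eventually.of_forall fun N => (Fin_bdd 2 χ N).1⟩
  · exact ht.isBoundedUnder_le.isCoboundedUnder_ge

end Pool.Agent.Lib.MP_629a14_nt.Col
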