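import Pool.Agent.Lib.MP_629a14_nt.Col.Win

/-! Lower bound for the total mass. -/

set_option autoImplicit false

namespace Pool.Agent.Lib.MP_629a14_nt.Col

open Finset Pool.Agent.Lib.MP_629a14_nt Pool.Agent.Lib.MP_629a14_nt.Rob

private theorem massLow_om (w N : ℕ) (A : Set ℕ) (x : ℕ) :
    x ∈ Om w N A ↔ (w < x ∧ x ≤ N / 2) ∧ x.Prime ∧ x ∈ A := by
  classical
  unfold Om
  rw [Finset.mem_filter, Finset.mem_Ioc]

private theorem massLow_hat0 (H : ℕ) (x y : ℝ) : 0 ≤ hat H x y := le_max_left _ _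

private theorem massLow_hatH (H : ℕ) (x y : ℝ) : hat H x y ≤ H := by
  unfold hat
  refine max_le (Nat.cast_nonneg H) ?_
  have := abs_nonneg (x - y)
  linarith

/-- The sum of two elements of `Om w N A` is even (`w ≥ 2`) and lies in `[1, N]`, so the total mass is
`log² N ∑∑ KK hat` over `Om w N A`; apply `kk_mass` with `M = N / 2` (the elements are primes larger
than `w`, so not divisible by the primes of `OP w`). -/
theorem mass_low (w N H : ℕ) (hw : 2 ≤ w) (hH : 1 ≤ H) (A : Set ℕ) :
    (H * (Real.log N * (Om w N A).card)) ^ 2 / (((N / 2 : ℕ) : ℝ) + H) ≤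
      ∑ n ∈ (Icc 1 N).filter (fun n => 2 ∣ n), mass w N H A n := by
  have h1 : ∑ n ∈ (Icc 1 N).filter (fun n => 2 ∣ n), mass w N H A n =
      ∑ x ∈ Om w N A, ∑ y ∈ Om w N A, Real.log N ^ 2 * (KK w (x : ℤ) (y : ℤ) * hat H x y) := by
    unfold mass
    rw [Finset.sum_comm]
    refine Finset.sum_congr rfl (fun x hx => ?_)
    rw [Finset.sum_comm]
    refine Finset.sum_congr rfl (fun y hy => ?_)
    rw [Finset.sum_ite_eq]
    obtain ⟨⟨hx1, hx2⟩, hxp, -⟩ := (massLow_om w N A x).1 hx
    obtain ⟨⟨hy1, hy2⟩, hyp, -⟩ := (massLow_om w N A y).1 hy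
    have hxo : x % 2 = 1 := (hxp.eq_two_or_odd).resolve_left (by omega)
    have hyo : y % 2 = 1 := (hyp.eq_two_or_odd).resolve_left (by omega)
    rw [if_pos]
    rw [Finset.mem_filter, Finset.mem_Icc]
    refine ⟨⟨by omega, by omega⟩, by omega⟩
  rw [h1]
  have h2 := kk_mass w H (N / 2) hH (Om w N A) (fun x hx r hr hrx => by
    obtain ⟨⟨hx1, hx2⟩, hxp, -⟩ := (massLow_om w N A x).1 hx
    unfold OP at hr
    rw [Finset.mem_filter, Finset.mem_Icc] at hr
    have := (Nat.prime_dvd_prime_iff_eq hr.2 hxp).1 hrx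
    omega) (fun x hx => ((massLow_om w N A x).1 hx).1.2)
  have h3 : ∑ x ∈ Om w N A, ∑ y ∈ Om w N A, Real.log N ^ 2 * (KK w (x : ℤ) (y : ℤ) * hat H x y) =
      Real.log N ^ 2 * ∑ x ∈ Om w N A, ∑ y ∈ Om w N A, KK w (x : ℤ) (y : ℤ) * hat H x y := by
    rw [Finset.mul_sum]
    refine Finset.sum_congr rfl (fun x _ => ?_)
    rw [Finset.mul_sum]
  rw [h3]
  have h4 : (H * (Real.log N * (Om w N A).card)) ^ 2 / (((N / 2 : ℕ) : ℝ) + H) =
      Real.log N ^ 2 * (((H : ℝ) * (Om w N A).card) ^ 2 / (((N / 2 : ℕ) : ℝ) + H)) := by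
    ring
  rw [h4]
  exact mul_le_mul_of_nonneg_left h2 (sq_nonneg _)

/-- The elements of `Om w N A` are the primes of `A` up to `N / 2` except those up to `w`. -/
theorem om_card (w N : ℕ) (A : Set ℕ) : (cntB A (N / 2) : ℝ) - w ≤ (Om w N A).card := by
  classical
  have h1 : cntB A (N / 2) ≤ (Om w N A).card + w := by
    unfold cntB
    have hsub : ((Icc 1 (N / 2)).filter (fun p => p.Prime ∧ p ∈ A)) ⊆ Om w N A ∪ Icc 1 w := by
      intro x hx
      rw [Finset.mem_filter, Finset.mem_Icc] at hx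
      rw [Finset.mem_union, massLow_om, Finset.mem_Icc]
      by_cases hxw : w < x
      · exact Or.inl ⟨⟨hxw, hx.1.2⟩, hx.2.1, hx.2.2⟩
      · exact Or.inr ⟨hx.1.1, by omega⟩
    calc ((Icc 1 (N / 2)).filter (fun p => p.Prime ∧ p ∈ A)).card ≤ (Om w N A ∪ Icc 1 w).card :=
          Finset.card_le_card hsub
      _ ≤ (Om w N A).card + (Icc 1 w).card := Finset.card_union_le _ _
      _ = (Om w N A).card + w := by rw [Nat.card_Icc, Nat.add_sub_cancel]
  have h2 : (cntB A (N / 2) : ℝ) ≤ (Om w N A).card + w := by exact_mod_cast h1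
  linarith

private theorem massLow_F (w N H n x y : ℕ) :
    0 ≤ (if x + y = n then Real.log N ^ 2 * (KK w (x : ℤ) (y : ℤ) * hat H x y) else 0) := by
  split_ifs
  · exact mul_nonneg (sq_nonneg _) (mul_nonneg (kk_nonneg w _ _) (massLow_hat0 H _ _))
  · exact le_refl _

/-- For pairwise disjoint sets the masses add up to at most the mass of all primes. -/
theorem mass_disj (w N H k : ℕ) (A : Fin k → Set ℕ)
    (hA : ∀ i j, i ≠ j → Disjoint (A i) (A j)) (n : ℕ) :
    ∑ i, mass w N H (A i) n ≤ mass w N H Set.univ n := by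
  classical
  have h1 : ∀ i, mass w N H (A i) n = ∑ x ∈ Om w N Set.univ, ∑ y ∈ Om w N Set.univ,
      if x ∈ A i ∧ y ∈ A i then
        (if x + y = n then Real.log N ^ 2 * (KK w (x : ℤ) (y : ℤ) * hat H x y) else 0) else 0 := by
    intro i
    have hom : Om w N (A i) = (Om w N Set.univ).filter (fun x => x ∈ A i) := by
      ext x
      rw [Finset.mem_filter, massLow_om, massLow_om]
      simp only [Set.mem_univ, and_true]
      tauto
    unfold mass
    rw [hom, Finset.sum_filter]
    refine Finset.sum_congr rfl (fun x _ => ?_)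
    by_cases hx : x ∈ A i
    · rw [if_pos hx, Finset.sum_filter]
      refine Finset.sum_congr rfl (fun y _ => ?_)
      by_cases hy : y ∈ A i
      · simp only [hx, hy, and_self, if_true]
      · simp only [hx, hy, and_false, if_false]
    · rw [if_neg hx]
      symm
      refine Finset.sum_eq_zero (fun y _ => ?_)
      rw [if_neg (fun h => hx h.1)]
  rw [Finset.sum_congr rfl (fun i _ => h1 i)]
  unfold mass
  rw [Finset.sum_comm]
  refine Finset.sum_le_sum (fun x _ => ?_)
  rw [Finset.sum_comm]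
  refine Finset.sum_le_sum (fun y _ => ?_)
  by_cases h : ∃ i, x ∈ A i
  · obtain ⟨i, hi⟩ := h
    rw [Finset.sum_eq_single i]
    · split_ifs
      · exact le_refl _
      · exact le_refl _
      · exact mul_nonneg (sq_nonneg _) (mul_nonneg (kk_nonneg w _ _) (massLow_hat0 H _ _))
      · exact le_refl _
    · intro j _ hj
      rw [if_neg]
      intro h
      exact (Set.disjoint_left.1 (hA j i hj)) h.1 hi
    · intro h
      exact absurd (Finset.mem_univ i) h
  · rw [Finset.sum_eq_zero]
    · exact massLow_F w N H n x y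
    · intro i _
      rw [if_neg]
      intro h'
      exact h ⟨i, h'.1⟩

/-- `KK ≤ primorial w`, `hat ≤ H`, and the number of pairs is at most `repsIn A A n`. -/
theorem mass_le (w N H : ℕ) (A : Set ℕ) (n : ℕ) :
    mass w N H A n ≤ Real.log N ^ 2 * (primorial w * H) * Sm.repsIn A A n := by
  classical
  set c : ℝ := Real.log N ^ 2 * (primorial w * H) with hc
  have hc0 : 0 ≤ c := by
    rw [hc]
    positivity
  have h1 : mass w N H A n ≤ ∑ x ∈ Om w N A, if (x ≤ n ∧ n - x ∈ Om w N A) then c else 0 := by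
    unfold mass
    refine Finset.sum_le_sum (fun x _ => ?_)
    by_cases hx : x ≤ n ∧ n - x ∈ Om w N A
    · rw [if_pos hx, Finset.sum_eq_single (n - x)]
      · rw [if_pos (by omega)]
        rw [hc]
        refine mul_le_mul_of_nonneg_left ?_ (sq_nonneg _)
        exact mul_le_mul (kk_le w _ _) (massLow_hatH H _ _) (massLow_hat0 H _ _) (Nat.cast_nonneg _)
      · intro y _ hy
        rw [if_neg]
        omega
      · intro h
        exact absurd hx.2 h
    · rw [if_neg hx]
      refine le_of_eq (Finset.sum_eq_zero (fun y hy => ?_))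
      rw [if_neg]
      intro h
      refine hx ⟨by omega, ?_⟩
      have : n - x = y := by omega
      rw [this]
      exact hy
  refine h1.trans ?_
  rw [← Finset.sum_filter, Finset.sum_const, nsmul_eq_mul, mul_comm]
  refine mul_le_mul_of_nonneg_left ?_ hc0
  unfold Sm.repsIn
  have hsub : (Om w N A).filter (fun x => x ≤ n ∧ n - x ∈ Om w N A) ⊆
      (range (n + 1)).filter (fun p => p.Prime ∧ (n - p).Prime ∧ p ∈ A ∧ n - p ∈ A) := by
    intro x hx
    rw [Finset.mem_filter, massLow_om, massLow_om] at hx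
    rw [Finset.mem_filter, Finset.mem_range]
    exact ⟨by omega, hx.1.2.1, hx.2.2.2.1, hx.1.2.2, hx.2.2.2.2⟩
  exact_mod_cast Finset.card_le_card hsub

end Pool.Agent.Lib.MP_629a14_nt.Col
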