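import Pool.Agent.Lib.MP_629a14_nt.Col.MixCrt
import Pool.Agent.Lib.MP_629a14_nt.Rob.SigLow

/-! The correlation inequality modulo the primorial. -/

set_option autoImplicit false

namespace Pool.Agent.Lib.MP_629a14_nt.Col

open Finset Pool.Agent.Lib.MP_629a14_nt Pool.Agent.Lib.MP_629a14_nt.Rob

private theorem mix_sqf_aux (n : ℕ) :
    ∀ m : ℕ, m ≤ n → ∀ [NeZero m], Squarefree m → Mix (ZMod m)ˣ (km m) (1 / 3) := by
  induction n with
  | zero =>
    intro m hm inst _
    exact absurd (Nat.le_zero.mp hm) inst.out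
  | succ n ih =>
    intro m hmn inst hm
    by_cases h1 : m = 1
    · subst h1
      have h3 : inst = (inferInstance : NeZero 1) := Subsingleton.elim _ _
      rw [h3]
      refine mix_one _ ?_ _ ?_ _ (by norm_num)
      · rw [ZMod.card_units_eq_totient, Nat.totient_one]
      · intro x y
        simp [km]
    · have hp := Nat.minFac_prime h1
      obtain ⟨m', hm'⟩ := Nat.minFac_dvd m
      obtain ⟨p, hpe⟩ : ∃ p, p = m.minFac := ⟨_, rfl⟩
      rw [← hpe] at hp hm'
      clear hpe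
      rw [mul_comm] at hm'
      subst hm'
      have hm0 : m' ≠ 0 := by
        intro h0
        exact inst.out (by rw [h0, zero_mul])
      obtain ⟨hcop, hsq, _⟩ := Nat.squarefree_mul_iff.mp hm
      have : NeZero m' := ⟨hm0⟩
      have : Fact p.Prime := ⟨hp⟩
      have hlt : m' ≤ n := by
        have := hp.two_le
        have h3 : 0 < m' := Nat.pos_of_ne_zero hm0
        nlinarith
      exact mix_step m' p hcop (ih m' hlt hsq)

/-- Strong induction on the squarefree number `m` (as `good_sqf` in `Sm/Sqf.lean`): `m = 1` by `mix_one`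
(empty product); otherwise `m = m' p` with `p = m.minFac`, `mix_step`. -/
theorem mix_sqf (m : ℕ) [NeZero m] (hm : Squarefree m) : Mix (ZMod m)ˣ (km m) (1 / 3) :=
  mix_sqf_aux m m le_rfl hm

/-- `sig v n = (V/φ(V)) ∏_{p ∈ OP v, p ∤ n} (p-2)/(p-1)` and `V/φ(V) = 2 ∏_{p ∈ OP v} p/(p-1)`
(`SigLow.ratio_primorial`). -/
theorem two_div_sig (v n : ℕ) (hv : 2 ≤ v) : 2 / sig v n = ∏ r ∈ OP v, lk r (n : ZMod r) := by
  classical
  have hOP : SigLow.od v = OP v := rfl
  have h1 : sig v n = 2 * ∏ p ∈ OP v, ((p : ℝ) / ((p : ℝ) - 1) *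
      (if ¬ p ∣ n then (((p : ℝ) - 2) / ((p : ℝ) - 1)) else 1)) := by
    unfold sig
    rw [SigLow.ratio_primorial v hv, hOP, prod_mul_distrib, ← prod_filter, OP, filter_filter, mul_assoc]
  rw [h1, ← div_div, div_self two_ne_zero, one_div, ← prod_inv_distrib]
  refine prod_congr rfl fun p hp => ?_
  rw [OP, mem_filter, mem_Icc] at hp
  have h3 : (3 : ℝ) ≤ p := by exact_mod_cast hp.1.1
  have h4 : (p : ℝ) - 1 ≠ 0 := by linarith
  have h5 : (p : ℝ) - 2 ≠ 0 := by linarith
  have h6 : (p : ℝ) ≠ 0 := by linarith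
  unfold lk
  by_cases hd : p ∣ n
  · have h7 : ((n : ZMod p)) = 0 := (ZMod.natCast_eq_zero_iff n p).mpr hd
    rw [if_pos h7, if_neg (not_not.mpr hd), mul_one, inv_div]
  · have h7 : ¬ ((n : ZMod p)) = 0 := fun h => hd ((ZMod.natCast_eq_zero_iff n p).mp h)
    rw [if_neg h7, if_pos hd]
    field_simp

end Pool.Agent.Lib.MP_629a14_nt.Col
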