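import Pool.Agent.Lib.MP_629a14_nt.Col.Defs

/-! The kernel modulo a prime. -/

set_option autoImplicit false

namespace Pool.Agent.Lib.MP_629a14_nt.Col

open Finset

/-- There are `r - 1` units; for each `a` the value `lk r (a + b)` is `(r-1)/r` for `b = -a` and
`c = (r-1)²/(r(r-2))` for the other `r - 2` units `b`, with sum `r - 1`. For `f`, `g` of sum zero
`∑∑ lk r (a + b) f a g b = ((r-1)/r - c) ∑_a f a g (-a)`, `c - (r-1)/r = (r-1)/(r(r-2)) ≤ (r-1)/3`. -/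
theorem mix_local (r : ℕ) [Fact r.Prime] (h3 : 3 ≤ r) :
    Mix (ZMod r)ˣ (fun a b => lk r ((a : ZMod r) + (b : ZMod r))) (1 / 3) := by
  classical
  have hr0 : (0 : ℝ) < r := by
    have : 0 < r := by omega
    exact_mod_cast this
  have hr3 : (3 : ℝ) ≤ r := by exact_mod_cast h3
  have hr2 : (0 : ℝ) < (r : ℝ) - 2 := by linarith
  have hcard : (Fintype.card (ZMod r)ˣ : ℝ) = (r : ℝ) - 1 := by
    rw [ZMod.card_units r, Nat.cast_sub (by omega), Nat.cast_one]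
  have hlk : ∀ a b : (ZMod r)ˣ, lk r ((a : ZMod r) + (b : ZMod r)) =
      ((r : ℝ) - 1) ^ 2 / ((r : ℝ) * ((r : ℝ) - 2)) +
        (if b = -a then ((r : ℝ) - 1) / r - ((r : ℝ) - 1) ^ 2 / ((r : ℝ) * ((r : ℝ) - 2)) else 0) := by
    intro a b
    unfold lk
    have h : (a : ZMod r) + (b : ZMod r) = 0 ↔ b = -a := by
      rw [Units.ext_iff, Units.val_neg, add_comm, add_eq_zero_iff_eq_neg]
    by_cases hb : b = -a
    · rw [if_pos (h.2 hb), if_pos hb]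
      ring
    · rw [if_neg (fun h' => hb (h.1 h')), if_neg hb]
      ring
  refine ⟨?_, ?_, ?_, ?_⟩
  · intro a b
    dsimp only
    unfold lk
    split_ifs
    · apply div_nonneg <;> linarith
    · positivity
  · intro a b
    dsimp only
    rw [add_comm]
  · intro a
    simp only [hlk]
    rw [Finset.sum_add_distrib, Finset.sum_ite_eq' Finset.univ (-a), if_pos (Finset.mem_univ _), Finset.sum_const,
      nsmul_eq_mul, Finset.card_univ, hcard]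
    field_simp
    ring
  · intro f g hf hg
    simp only [hlk]
    have h1 : ∑ a : (ZMod r)ˣ, ∑ b : (ZMod r)ˣ, (((r : ℝ) - 1) ^ 2 / ((r : ℝ) * ((r : ℝ) - 2)) +
        (if b = -a then ((r : ℝ) - 1) / r - ((r : ℝ) - 1) ^ 2 / ((r : ℝ) * ((r : ℝ) - 2)) else 0)) * (f a * g b) =
        (((r : ℝ) - 1) / r - ((r : ℝ) - 1) ^ 2 / ((r : ℝ) * ((r : ℝ) - 2))) * ∑ a : (ZMod r)ˣ, f a * g (-a) := by
      have h2 : ∀ a : (ZMod r)ˣ, ∑ b : (ZMod r)ˣ, (((r : ℝ) - 1) ^ 2 / ((r : ℝ) * ((r : ℝ) - 2)) +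
        (if b = -a then ((r : ℝ) - 1) / r - ((r : ℝ) - 1) ^ 2 / ((r : ℝ) * ((r : ℝ) - 2)) else 0)) * (f a * g b) =
          (((r : ℝ) - 1) / r - ((r : ℝ) - 1) ^ 2 / ((r : ℝ) * ((r : ℝ) - 2))) * (f a * g (-a)) := by
        intro a
        have h3 : ∀ b : (ZMod r)ˣ, (((r : ℝ) - 1) ^ 2 / ((r : ℝ) * ((r : ℝ) - 2)) +
          (if b = -a then ((r : ℝ) - 1) / r - ((r : ℝ) - 1) ^ 2 / ((r : ℝ) * ((r : ℝ) - 2)) else 0)) * (f a * g b) =
            ((r : ℝ) - 1) ^ 2 / ((r : ℝ) * ((r : ℝ) - 2)) * f a * g b +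
              (if b = -a then (((r : ℝ) - 1) / r - ((r : ℝ) - 1) ^ 2 / ((r : ℝ) * ((r : ℝ) - 2))) * (f a * g b) else 0) := by
          intro b
          split_ifs <;> ring
        rw [Finset.sum_congr rfl (fun b _ => h3 b), Finset.sum_add_distrib, ← Finset.mul_sum, hg, mul_zero, zero_add,
          Finset.sum_ite_eq' Finset.univ (-a), if_pos (Finset.mem_univ _)]
      rw [Finset.sum_congr rfl (fun a _ => h2 a), ← Finset.mul_sum]
    rw [h1, abs_mul, hcard]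
    have h4 : |((r : ℝ) - 1) / r - ((r : ℝ) - 1) ^ 2 / ((r : ℝ) * ((r : ℝ) - 2))| ≤ 1 / 3 * ((r : ℝ) - 1) := by
      have h5 : ((r : ℝ) - 1) / r - ((r : ℝ) - 1) ^ 2 / ((r : ℝ) * ((r : ℝ) - 2)) =
          -(((r : ℝ) - 1) / ((r : ℝ) * ((r : ℝ) - 2))) := by
        field_simp
        ring
      rw [h5, abs_neg, abs_of_nonneg (by apply div_nonneg; linarith; positivity), div_le_iff₀ (by positivity)]
      nlinarith [mul_nonneg (by linarith : (0 : ℝ) ≤ (r : ℝ) - 1) (by nlinarith : (0 : ℝ) ≤ (r : ℝ) * ((r : ℝ) - 2) - 3)]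
    have h6 : |∑ a : (ZMod r)ˣ, f a * g (-a)| ≤ Real.sqrt (∑ x, f x ^ 2) * Real.sqrt (∑ y, g y ^ 2) := by
      have h7 : ∑ y : (ZMod r)ˣ, g y ^ 2 = ∑ a : (ZMod r)ˣ, g (-a) ^ 2 :=
        (Equiv.sum_comp (Equiv.neg (ZMod r)ˣ) (fun y => g y ^ 2)).symm
      rw [h7, ← Real.sqrt_mul (Finset.sum_nonneg fun _ _ => sq_nonneg _)]
      apply Real.abs_le_sqrt
      exact Finset.sum_mul_sq_le_sq_mul_sq _ _ _
    exact mul_le_mul h4 h6 (abs_nonneg _) (by linarith)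

end Pool.Agent.Lib.MP_629a14_nt.Col
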