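import Pool.Agent.Lib.MP_629a14_nt.Col.MixProd
import Pool.Agent.Lib.MP_629a14_nt.Col.MixLocal

/-! The kernel modulo a squarefree number. -/

set_option autoImplicit false

namespace Pool.Agent.Lib.MP_629a14_nt.Col

open Finset

/-- The kernel modulo `m`: product over the odd primes dividing `m`. -/
noncomputable def km (m : ℕ) (a b : (ZMod m)ˣ) : ℝ :=
  ∏ r ∈ m.primeFactors.filter (fun r => 3 ≤ r),
    lk r ((((a : ZMod m).val : ℕ) : ZMod r) + (((b : ZMod m).val : ℕ) : ZMod r))

private theorem MixCrt_fst (m p : ℕ) [NeZero (m * p)] (hmp : Nat.Coprime m p) (a : ZMod (m * p)) :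
    (ZMod.chineseRemainder hmp a).1 = ((a.val : ℕ) : ZMod m) := by
  conv_lhs => rw [← ZMod.natCast_zmod_val a, map_natCast]
  rfl

private theorem MixCrt_snd (m p : ℕ) [NeZero (m * p)] (hmp : Nat.Coprime m p) (a : ZMod (m * p)) :
    (ZMod.chineseRemainder hmp a).2 = ((a.val : ℕ) : ZMod p) := by
  conv_lhs => rw [← ZMod.natCast_zmod_val a, map_natCast]
  rfl

private theorem MixCrt_val (m r n : ℕ) [NeZero m] (h : r ∣ m) :
    ((((n : ZMod m)).val : ℕ) : ZMod r) = (n : ZMod r) := by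
  rw [ZMod.val_natCast, ZMod.natCast_eq_natCast_iff]
  exact (Nat.mod_modEq n m).of_dvd h

/-- `(ZMod (m p))ˣ ≃ (ZMod m)ˣ × (ZMod p)ˣ` (`ZMod.chineseRemainder`, `Units.mapEquiv`,
`MulEquiv.prodUnits`) for a prime `p` not dividing `m`; the factors of `km (m p)` at the `r ∣ m` depend
only on the residues modulo `m`, the factor at `p` is the kernel of `mix_local` (if `p ≥ 3`; for `p = 2`
`(ZMod 2)ˣ` has one element, `mix_one`). `mix_prod`, `mix_equiv`. -/
theorem mix_step (m p : ℕ) [NeZero m] [Fact p.Prime] [NeZero (m * p)] (hmp : Nat.Coprime m p)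
    (h : Mix (ZMod m)ˣ (km m) (1 / 3)) : Mix (ZMod (m * p))ˣ (km (m * p)) (1 / 3) := by
  have hp : p.Prime := Fact.out
  -- the kernel at `p`
  have hloc : Mix (ZMod p)ˣ (fun a b => if 3 ≤ p then lk p ((a : ZMod p) + (b : ZMod p)) else 1) (1 / 3) := by
    by_cases h3 : 3 ≤ p
    · have := mix_local p h3
      simp only [if_pos h3]
      exact this
    · refine mix_one _ ?_ _ ?_ _ (by norm_num)
      · have h2 : p = 2 := by
          have := hp.two_le
          omega
        rw [ZMod.card_units_eq_totient, h2]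
        rfl
      · intro x y
        exact if_neg h3
  have hprod := mix_prod (ZMod m)ˣ (ZMod p)ˣ (km m) _ (1 / 3) (by norm_num) h hloc
  set e : (ZMod (m * p))ˣ ≃* (ZMod m)ˣ × (ZMod p)ˣ :=
    (Units.mapEquiv (ZMod.chineseRemainder hmp).toMulEquiv).trans MulEquiv.prodUnits with he
  have e1 : ∀ a : (ZMod (m * p))ˣ, (((e a).1 : (ZMod m)ˣ) : ZMod m) = (((a : ZMod (m * p)).val : ℕ) : ZMod m) := by
    intro a
    rw [← MixCrt_fst m p hmp]
    rfl
  have e2 : ∀ a : (ZMod (m * p))ˣ, (((e a).2 : (ZMod p)ˣ) : ZMod p) = (((a : ZMod (m * p)).val : ℕ) : ZMod p) := by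
    intro a
    rw [← MixCrt_snd m p hmp]
    rfl
  refine mix_equiv _ _ e.toEquiv _ _ _ ?_ hprod
  intro a b
  show km (m * p) a b = km m (e a).1 (e b).1 *
    (if 3 ≤ p then lk p ((((e a).2 : (ZMod p)ˣ) : ZMod p) + (((e b).2 : (ZMod p)ˣ) : ZMod p)) else 1)
  rw [e2 a, e2 b]
  unfold km
  rw [hmp.primeFactors_mul, hp.primeFactors, filter_union, prod_union]
  · congr 1
    · refine prod_congr rfl fun r hr => ?_
      rw [mem_filter] at hr
      have hd : r ∣ m := Nat.dvd_of_mem_primeFactors hr.1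
      rw [e1 a, e1 b, MixCrt_val m r _ hd, MixCrt_val m r _ hd]
    · rw [filter_singleton]
      split_ifs with h3
      · rw [prod_singleton]
      · rw [prod_empty]
  · refine disjoint_filter_filter ?_
    rw [disjoint_singleton_right]
    intro hm
    have h1 : p ∣ m := Nat.dvd_of_mem_primeFactors hm
    have h2 := Nat.Coprime.eq_one_of_dvd hmp.symm h1
    exact hp.one_lt.ne' h2

end Pool.Agent.Lib.MP_629a14_nt.Col
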