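import Pool.Agent.Lib.MP_629a14_nt.Col.Defs

/-! Products of kernels. -/

set_option autoImplicit false

namespace Pool.Agent.Lib.MP_629a14_nt.Col

open Finset

private lemma kernel_cs (G : Type) [Fintype G] (κ : G → G → ℝ) (h0 : ∀ x y, 0 ≤ κ x y)
    (hs : ∀ x y, κ x y = κ y x) (hr : ∀ x, ∑ y, κ x y = (Fintype.card G : ℝ)) (u w : G → ℝ) :
    ∑ x, ∑ y, κ x y * (u x * w y) ≤
      (Fintype.card G : ℝ) * (Real.sqrt (∑ x, u x ^ 2) * Real.sqrt (∑ y, w y ^ 2)) := by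
  have hM : (0 : ℝ) ≤ (Fintype.card G : ℝ) := Nat.cast_nonneg _
  have h1 : ∑ x, ∑ y, κ x y * (u x * w y) =
      ∑ p : G × G, (Real.sqrt (κ p.1 p.2) * u p.1) * (Real.sqrt (κ p.1 p.2) * w p.2) := by
    rw [Fintype.sum_prod_type]
    apply Finset.sum_congr rfl; intro x _
    apply Finset.sum_congr rfl; intro y _
    have := Real.mul_self_sqrt (h0 x y)
    calc κ x y * (u x * w y) = (Real.sqrt (κ x y) * Real.sqrt (κ x y)) * (u x * w y) := by rw [this]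
      _ = _ := by ring
  have h2 : ∑ p : G × G, (Real.sqrt (κ p.1 p.2) * u p.1) ^ 2 =
      (Fintype.card G : ℝ) * ∑ x, u x ^ 2 := by
    rw [Fintype.sum_prod_type, Finset.mul_sum]
    apply Finset.sum_congr rfl; intro x _
    rw [← hr x, Finset.sum_mul]
    apply Finset.sum_congr rfl; intro y _
    rw [mul_pow, Real.sq_sqrt (h0 x y)]
  have h3 : ∑ p : G × G, (Real.sqrt (κ p.1 p.2) * w p.2) ^ 2 =
      (Fintype.card G : ℝ) * ∑ y, w y ^ 2 := by
    rw [Fintype.sum_prod_type, Finset.sum_comm, Finset.mul_sum]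
    apply Finset.sum_congr rfl; intro y _
    rw [← hr y, Finset.sum_mul]
    apply Finset.sum_congr rfl; intro x _
    rw [mul_pow, Real.sq_sqrt (h0 x y), hs x y]
  rw [h1]
  refine (Real.sum_mul_le_sqrt_mul_sqrt _ _ _).trans ?_
  rw [h2, h3, Real.sqrt_mul hM, Real.sqrt_mul hM]
  have := Real.mul_self_sqrt hM
  have e : Real.sqrt (Fintype.card G : ℝ) * Real.sqrt (∑ x, u x ^ 2) *
      (Real.sqrt (Fintype.card G : ℝ) * Real.sqrt (∑ y, w y ^ 2)) =
      (Real.sqrt (Fintype.card G : ℝ) * Real.sqrt (Fintype.card G : ℝ)) *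
      (Real.sqrt (∑ x, u x ^ 2) * Real.sqrt (∑ y, w y ^ 2)) := by ring
  rw [e, this]

private lemma inner_split (G' : Type) [Fintype G'] (κ' : G' → G' → ℝ)
    (hs : ∀ x y, κ' x y = κ' y x) (hr : ∀ x, ∑ y, κ' x y = (Fintype.card G' : ℝ))
    (F H : G' → ℝ) (a b : ℝ) (hF : ∑ y, F y = 0) (hH : ∑ y, H y = 0) :
    ∑ y, ∑ y', κ' y y' * ((a + F y) * (b + H y')) =
      (Fintype.card G' : ℝ) ^ 2 * (a * b) + ∑ y, ∑ y', κ' y y' * (F y * H y') := by
  have e : ∀ y y', κ' y y' * ((a + F y) * (b + H y')) =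
      (a * b) * κ' y y' + a * (κ' y y' * H y') + b * (κ' y y' * F y) + κ' y y' * (F y * H y') := by
    intro y y'; ring
  simp_rw [e, Finset.sum_add_distrib]
  have h1 : ∑ y, ∑ y', (a * b) * κ' y y' = (Fintype.card G' : ℝ) ^ 2 * (a * b) := by
    simp_rw [← Finset.mul_sum, hr]
    rw [Finset.sum_const, Finset.card_univ, nsmul_eq_mul]; ring
  have h2 : ∑ y, ∑ y', a * (κ' y y' * H y') = 0 := by
    rw [Finset.sum_comm]
    have : ∀ y', ∑ y, a * (κ' y y' * H y') = a * (Fintype.card G' : ℝ) * H y' := by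
      intro y'
      rw [← Finset.mul_sum, ← Finset.sum_mul]
      have : ∑ y, κ' y y' = (Fintype.card G' : ℝ) := by
        rw [← hr y']; apply Finset.sum_congr rfl; intro y _; rw [hs]
      rw [this]; ring
    simp_rw [this]
    rw [← Finset.mul_sum, hH, mul_zero]
  have h3 : ∑ y, ∑ y', b * (κ' y y' * F y) = 0 := by
    have : ∀ y, ∑ y', b * (κ' y y' * F y) = b * (Fintype.card G' : ℝ) * F y := by
      intro y
      rw [← Finset.mul_sum, ← Finset.sum_mul, hr]; ring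
    simp_rw [this]
    rw [← Finset.mul_sum, hF, mul_zero]
  rw [h1, h2, h3]; ring

private lemma two_cs (a b c d : ℝ) (ha : 0 ≤ a) (hb : 0 ≤ b) (hc : 0 ≤ c) (hd : 0 ≤ d) :
    Real.sqrt a * Real.sqrt b + Real.sqrt c * Real.sqrt d ≤ Real.sqrt (a + c) * Real.sqrt (b + d) := by
  rw [← Real.sqrt_mul (by linarith) (b + d)]
  apply Real.le_sqrt_of_sq_le
  have e1 := Real.sq_sqrt ha
  have e2 := Real.sq_sqrt hb
  have e3 := Real.sq_sqrt hc
  have e4 := Real.sq_sqrt hd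
  have h := sq_nonneg (Real.sqrt a * Real.sqrt d - Real.sqrt b * Real.sqrt c)
  have e5 : (Real.sqrt a * Real.sqrt b + Real.sqrt c * Real.sqrt d) ^ 2 =
      a * b + c * d + 2 * (Real.sqrt a * Real.sqrt d) * (Real.sqrt b * Real.sqrt c) := by
    calc _ = Real.sqrt a ^ 2 * Real.sqrt b ^ 2 + Real.sqrt c ^ 2 * Real.sqrt d ^ 2 +
          2 * (Real.sqrt a * Real.sqrt d) * (Real.sqrt b * Real.sqrt c) := by ring
      _ = _ := by rw [e1, e2, e3, e4]
  have e6 : (Real.sqrt a * Real.sqrt d - Real.sqrt b * Real.sqrt c) ^ 2 =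
      a * d + b * c - 2 * (Real.sqrt a * Real.sqrt d) * (Real.sqrt b * Real.sqrt c) := by
    calc _ = Real.sqrt a ^ 2 * Real.sqrt d ^ 2 + Real.sqrt b ^ 2 * Real.sqrt c ^ 2 -
          2 * (Real.sqrt a * Real.sqrt d) * (Real.sqrt b * Real.sqrt c) := by ring
      _ = _ := by rw [e1, e2, e3, e4]
  rw [e5]
  rw [e6] at h
  nlinarith

private lemma prod_form (G G' : Type) [Fintype G] [Fintype G'] (κ : G → G → ℝ) (κ' : G' → G' → ℝ)
    (θ : ℝ) (hθ : 0 ≤ θ) (h : Mix G κ θ) (h' : Mix G' κ' θ) (f g : G → G' → ℝ)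
    (hf : ∑ x, ∑ y, f x y = 0) (hg : ∑ x, ∑ y, g x y = 0) :
    |∑ x, ∑ y, ∑ x', ∑ y', κ x x' * κ' y y' * (f x y * g x' y')| ≤
      θ * ((Fintype.card G : ℝ) * Fintype.card G') *
        (Real.sqrt (∑ x, ∑ y, f x y ^ 2) * Real.sqrt (∑ x, ∑ y, g x y ^ 2)) := by
  obtain ⟨k0, ks, kr, kf⟩ := h
  obtain ⟨k0', ks', kr', kf'⟩ := h'
  rcases isEmpty_or_nonempty G' with hE | hE
  · simp
  obtain ⟨N, hN⟩ : ∃ N : ℝ, N = (Fintype.card G' : ℝ) := ⟨_, rfl⟩
  obtain ⟨M, hM⟩ : ∃ M : ℝ, M = (Fintype.card G : ℝ) := ⟨_, rfl⟩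
  have hN0 : 0 < N := by rw [hN]; exact_mod_cast Fintype.card_pos
  have hM0 : 0 ≤ M := by rw [hM]; exact Nat.cast_nonneg _
  -- averages and fluctuations
  have split : ∀ q : G → G' → ℝ, ∑ x, ∑ y, q x y = 0 →
      ∃ (a : G → ℝ) (F : G → G' → ℝ), (∀ x y, q x y = a x + F x y) ∧ (∀ x, ∑ y, F x y = 0) ∧
        ∑ x, a x = 0 ∧ ∑ x, ∑ y, q x y ^ 2 = N * ∑ x, a x ^ 2 + ∑ x, ∑ y, F x y ^ 2 := by
    intro q hq
    refine ⟨fun x => (∑ y, q x y) / N, fun x y => q x y - (∑ y, q x y) / N, ?_, ?_, ?_, ?_⟩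
    · intro x y; ring
    · intro x
      rw [Finset.sum_sub_distrib, Finset.sum_const, Finset.card_univ, nsmul_eq_mul, ← hN]
      field_simp; ring
    · rw [← Finset.sum_div, hq, zero_div]
    · rw [Finset.mul_sum, ← Finset.sum_add_distrib]
      apply Finset.sum_congr rfl; intro x _
      obtain ⟨c, hc⟩ : ∃ c, c = (∑ y, q x y) / N := ⟨_, rfl⟩
      have hc' : ∑ y, q x y = N * c := by rw [hc]; field_simp
      beta_reduce
      rw [← hc]
      have : ∀ y, (q x y - c) ^ 2 = q x y ^ 2 - 2 * c * q x y + c ^ 2 := by intro y; ring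
      simp_rw [this]
      rw [Finset.sum_add_distrib, Finset.sum_sub_distrib, ← Finset.mul_sum, hc', Finset.sum_const,
        Finset.card_univ, nsmul_eq_mul, ← hN]
      ring
  obtain ⟨a, F, hfa, hF0, ha0, hfs⟩ := split f hf
  obtain ⟨b, H, hgb, hH0, hb0, hgs⟩ := split g hg
  -- rearrangement
  have hre : ∑ x, ∑ y, ∑ x', ∑ y', κ x x' * κ' y y' * (f x y * g x' y') =
      N ^ 2 * ∑ x, ∑ x', κ x x' * (a x * b x') +
        ∑ x, ∑ x', κ x x' * ∑ y, ∑ y', κ' y y' * (F x y * H x' y') := by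
    rw [Finset.mul_sum, ← Finset.sum_add_distrib]
    apply Finset.sum_congr rfl; intro x _
    rw [Finset.sum_comm, Finset.mul_sum, ← Finset.sum_add_distrib]
    apply Finset.sum_congr rfl; intro x' _
    have e1 : ∑ y, ∑ y', κ x x' * κ' y y' * (f x y * g x' y') =
        κ x x' * ∑ y, ∑ y', κ' y y' * ((a x + F x y) * (b x' + H x' y')) := by
      rw [Finset.mul_sum]
      apply Finset.sum_congr rfl; intro y _
      rw [Finset.mul_sum]
      apply Finset.sum_congr rfl; intro y' _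
      rw [hfa, hgb]; ring
    rw [e1, inner_split G' κ' ks' kr' (F x) (H x') (a x) (b x') (hF0 x) (hH0 x'), ← hN]
    ring
  have hfirst : |∑ x, ∑ x', κ x x' * (a x * b x')| ≤
      θ * M * (Real.sqrt (∑ x, a x ^ 2) * Real.sqrt (∑ x, b x ^ 2)) := by
    rw [hM]; exact kf a b ha0 hb0
  have hJ : ∀ x x', |∑ y, ∑ y', κ' y y' * (F x y * H x' y')| ≤
      θ * N * (Real.sqrt (∑ y, F x y ^ 2) * Real.sqrt (∑ y, H x' y ^ 2)) := by
    intro x x'
    rw [hN]; exact kf' (F x) (H x') (hF0 x) (hH0 x')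
  have hsecond : |∑ x, ∑ x', κ x x' * ∑ y, ∑ y', κ' y y' * (F x y * H x' y')| ≤
      θ * N * (M * (Real.sqrt (∑ x, ∑ y, F x y ^ 2) * Real.sqrt (∑ x, ∑ y, H x y ^ 2))) := by
    have hc := kernel_cs G κ k0 ks kr (fun x => Real.sqrt (∑ y, F x y ^ 2))
      (fun x => Real.sqrt (∑ y, H x y ^ 2))
    have es : ∀ Z : G → G' → ℝ, ∑ x, (Real.sqrt (∑ y, Z x y ^ 2)) ^ 2 = ∑ x, ∑ y, Z x y ^ 2 := by
      intro Z
      apply Finset.sum_congr rfl; intro x _
      rw [Real.sq_sqrt (Finset.sum_nonneg fun y _ => sq_nonneg _)]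
    rw [es F, es H, ← hM] at hc
    calc |∑ x, ∑ x', κ x x' * ∑ y, ∑ y', κ' y y' * (F x y * H x' y')|
        ≤ ∑ x, ∑ x', κ x x' * (θ * N * (Real.sqrt (∑ y, F x y ^ 2) * Real.sqrt (∑ y, H x' y ^ 2))) := by
          refine (Finset.abs_sum_le_sum_abs _ _).trans ?_
          apply Finset.sum_le_sum; intro x _
          refine (Finset.abs_sum_le_sum_abs _ _).trans ?_
          apply Finset.sum_le_sum; intro x' _
          rw [abs_mul, abs_of_nonneg (k0 x x')]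
          exact mul_le_mul_of_nonneg_left (hJ x x') (k0 x x')
      _ = θ * N * ∑ x, ∑ x', κ x x' * (Real.sqrt (∑ y, F x y ^ 2) * Real.sqrt (∑ y, H x' y ^ 2)) := by
          rw [Finset.mul_sum]
          apply Finset.sum_congr rfl; intro x _
          rw [Finset.mul_sum]
          apply Finset.sum_congr rfl; intro x' _
          ring
      _ ≤ _ := mul_le_mul_of_nonneg_left hc (by positivity)
  obtain ⟨A, hA⟩ : ∃ A, A = ∑ x, a x ^ 2 := ⟨_, rfl⟩
  obtain ⟨B, hB⟩ : ∃ B, B = ∑ x, b x ^ 2 := ⟨_, rfl⟩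
  obtain ⟨A2, hA2⟩ : ∃ A2, A2 = ∑ x, ∑ y, F x y ^ 2 := ⟨_, rfl⟩
  obtain ⟨B2, hB2⟩ : ∃ B2, B2 = ∑ x, ∑ y, H x y ^ 2 := ⟨_, rfl⟩
  have hA0 : 0 ≤ A := by rw [hA]; exact Finset.sum_nonneg fun _ _ => sq_nonneg _
  have hB0 : 0 ≤ B := by rw [hB]; exact Finset.sum_nonneg fun _ _ => sq_nonneg _
  have hA20 : 0 ≤ A2 := by
    rw [hA2]; exact Finset.sum_nonneg fun _ _ => Finset.sum_nonneg fun _ _ => sq_nonneg _
  have hB20 : 0 ≤ B2 := by
    rw [hB2]; exact Finset.sum_nonneg fun _ _ => Finset.sum_nonneg fun _ _ => sq_nonneg _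
  rw [hre, hfs, hgs, ← hA, ← hB, ← hA2, ← hB2, ← hN, ← hM]
  rw [← hA, ← hB] at hfirst
  rw [← hA2, ← hB2] at hsecond
  have h2 := two_cs (N * A) (N * B) A2 B2 (by positivity) (by positivity) hA20 hB20
  have h3 : Real.sqrt (N * A) * Real.sqrt (N * B) = N * (Real.sqrt A * Real.sqrt B) := by
    rw [Real.sqrt_mul hN0.le, Real.sqrt_mul hN0.le]
    have := Real.mul_self_sqrt hN0.le
    calc _ = (Real.sqrt N * Real.sqrt N) * (Real.sqrt A * Real.sqrt B) := by ring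
      _ = _ := by rw [this]
  rw [h3] at h2
  refine (abs_add_le _ _).trans ?_
  rw [abs_mul, abs_of_nonneg (by positivity : (0 : ℝ) ≤ N ^ 2)]
  have h4 : N ^ 2 * |∑ x, ∑ x', κ x x' * (a x * b x')| ≤ N ^ 2 * (θ * M * (Real.sqrt A * Real.sqrt B)) :=
    mul_le_mul_of_nonneg_left hfirst (by positivity)
  have h5 : θ * (M * N) * (N * (Real.sqrt A * Real.sqrt B) + Real.sqrt A2 * Real.sqrt B2) ≤
      θ * (M * N) * (Real.sqrt (N * A + A2) * Real.sqrt (N * B + B2)) :=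
    mul_le_mul_of_nonneg_left h2 (by positivity)
  linarith

/-- Tensorisation. Write `a x = (1/|G'|) ∑_y f (x, y)`, `f₀ = f - a`, and `b`, `g₀` for `g`. As the rows of
`κ'` have sum `|G'|` and `f₀ (x, ·)`, `g₀ (x, ·)` have sum zero,
`∑ κ κ' f g = |G'|² ∑_{x,x'} κ x x' a x b x' + ∑_{x,x'} κ x x' ∑_{y,y'} κ' y y' f₀ (x,y) g₀ (x',y')`.
The first sum is at most `θ |G| sqrt (∑ a²) sqrt (∑ b²)` in absolute value (`∑ a = ∑ b = 0`). In the second
the inner sum is at most `θ |G'| ‖f₀ (x,·)‖ ‖g₀ (x',·)‖`, and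
`∑ κ x x' u x w x' ≤ |G| sqrt (∑ u²) sqrt (∑ w²)` for `u, w ≥ 0` by Cauchy-Schwarz (rows and columns of
`κ ≥ 0` have sum `|G|`). With `A₁ = |G'| ∑ a²`, `A₂ = ∑ f₀²`, `A₁ + A₂ = ∑ f²` and similarly for `g`:
`sqrt (A₁ B₁) + sqrt (A₂ B₂) ≤ sqrt ((A₁ + A₂) (B₁ + B₂))`. -/
theorem mix_prod (G G' : Type) [Fintype G] [Fintype G'] (κ : G → G → ℝ) (κ' : G' → G' → ℝ) (θ : ℝ)
    (hθ : 0 ≤ θ) (h : Mix G κ θ) (h' : Mix G' κ' θ) :
    Mix (G × G') (fun x y => κ x.1 y.1 * κ' x.2 y.2) θ := by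
  refine ⟨?_, ?_, ?_, ?_⟩
  · intro x y; exact mul_nonneg (h.1 _ _) (h'.1 _ _)
  · intro x y
    show κ x.1 y.1 * κ' x.2 y.2 = κ y.1 x.1 * κ' y.2 x.2
    rw [h.2.1 x.1 y.1, h'.2.1 x.2 y.2]
  · intro x
    show ∑ y : G × G', κ x.1 y.1 * κ' x.2 y.2 = _
    rw [Fintype.sum_prod_type, Fintype.card_prod]
    have : ∀ y1, ∑ y2, κ x.1 y1 * κ' x.2 y2 = κ x.1 y1 * (Fintype.card G' : ℝ) := by
      intro y1; rw [← Finset.mul_sum, h'.2.2.1]
    simp_rw [this]
    rw [← Finset.sum_mul, h.2.2.1]; push_cast; ring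
  · intro f g hf hg
    have key := prod_form G G' κ κ' θ hθ h h' (fun x y => f (x, y)) (fun x y => g (x, y))
      (by rw [← Fintype.sum_prod_type (f := f)]; exact hf)
      (by rw [← Fintype.sum_prod_type (f := g)]; exact hg)
    have e1 : ∑ x : G × G', ∑ y : G × G', κ x.1 y.1 * κ' x.2 y.2 * (f x * g y) =
        ∑ x, ∑ y, ∑ x', ∑ y', κ x x' * κ' y y' * (f (x, y) * g (x', y')) := by
      rw [Fintype.sum_prod_type]
      apply Finset.sum_congr rfl; intro x _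
      apply Finset.sum_congr rfl; intro y _
      rw [Fintype.sum_prod_type]
    have e2 : ∀ q : G × G' → ℝ, ∑ x, q x ^ 2 = ∑ x, ∑ y, q (x, y) ^ 2 := by
      intro q; rw [Fintype.sum_prod_type]
    rw [e1, e2 f, e2 g, Fintype.card_prod, Nat.cast_mul]
    exact key

/-- Transport along a bijection. -/
theorem mix_equiv (G G' : Type) [Fintype G] [Fintype G'] (e : G ≃ G') (κ : G → G → ℝ)
    (κ' : G' → G' → ℝ) (θ : ℝ) (hκ : ∀ x y, κ x y = κ' (e x) (e y)) (h' : Mix G' κ' θ) :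
    Mix G κ θ := by
  have hc : Fintype.card G = Fintype.card G' := Fintype.card_congr e
  refine ⟨?_, ?_, ?_, ?_⟩
  · intro x y; rw [hκ]; exact h'.1 _ _
  · intro x y; rw [hκ, hκ y x]; exact h'.2.1 _ _
  · intro x
    simp_rw [hκ]
    rw [Equiv.sum_comp e (fun y => κ' (e x) y), h'.2.2.1, hc]
  · intro f g hf hg
    have key := h'.2.2.2 (fun y => f (e.symm y)) (fun y => g (e.symm y))
      (by rw [Equiv.sum_comp e.symm f]; exact hf) (by rw [Equiv.sum_comp e.symm g]; exact hg)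
    rw [Equiv.sum_comp e.symm (fun y => f y ^ 2), Equiv.sum_comp e.symm (fun y => g y ^ 2)] at key
    have e1 : ∑ x, ∑ y, κ' x y * (f (e.symm x) * g (e.symm y)) = ∑ x, ∑ y, κ x y * (f x * g y) := by
      rw [← Equiv.sum_comp e]
      apply Finset.sum_congr rfl; intro x _
      rw [← Equiv.sum_comp e]
      apply Finset.sum_congr rfl; intro y _
      rw [hκ, Equiv.symm_apply_apply, Equiv.symm_apply_apply]
    rw [e1, ← hc] at key
    exact key

/-- For a type with one element and `κ = 1`. -/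
theorem mix_one (G : Type) [Fintype G] (hG : Fintype.card G = 1) (κ : G → G → ℝ)
    (hκ : ∀ x y, κ x y = 1) (θ : ℝ) (hθ : 0 ≤ θ) : Mix G κ θ := by
  refine ⟨?_, ?_, ?_, ?_⟩
  · intro x y; rw [hκ]; norm_num
  · intro x y; rw [hκ, hκ]
  · intro x
    simp_rw [hκ]
    rw [Finset.sum_const, Finset.card_univ, hG]; simp
  · intro f g hf hg
    have : ∑ x, ∑ y, κ x y * (f x * g y) = 0 := by
      simp_rw [hκ, one_mul, ← Finset.mul_sum, hg, mul_zero]
      simp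
    rw [this, abs_zero]
    positivity

end Pool.Agent.Lib.MP_629a14_nt.Col
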