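import Pool.Agent.Lib.MP_629a14_nt.Col.Defs
import Pool.Agent.Lib.MP_629a14_nt.Phi

/-! The sum of the comparison function. -/

set_option autoImplicit false

namespace Pool.Agent.Lib.MP_629a14_nt.Col

open Finset Pool.Agent.Lib.MP_60b32f_nt

private lemma one_le_sdiv' (n : ℕ) (hn : 0 < n) : 1 ≤ sdiv n := by
  unfold sdiv
  calc (1 : ℝ) = 1 / ((1 : ℕ) : ℝ) := by simp
    _ ≤ ∑ e ∈ n.divisors, 1 / (e : ℝ) :=
      Finset.single_le_sum (f := fun e : ℕ => 1 / (e : ℝ)) (fun e _ => by positivity)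
        (Nat.one_mem_divisors.2 hn.ne')

/-- `n / φ(n) = ∑_{d ∣ n} μ²(d)/φ(d)`, or `n/φ(n) = ∏_{p ∣ n} (1 + 1/(p-1)) ≤ ...`; any proof of
`∑_{n ≤ N} n/φ(n) ≤ C N` will do (see `Sm/PhiBad.lean` and `Ratio.lean` for related bounds). -/
theorem phi_sum : ∃ C : ℝ, 0 < C ∧ ∀ N : ℕ, ∑ n ∈ Icc 1 N, (n : ℝ) / n.totient ≤ C * N := by
  obtain ⟨C, hC1, hC⟩ := class_moment
  refine ⟨C + 3, by linarith, fun N => ?_⟩
  rcases lt_or_ge N 4 with hN | hN
  · calc ∑ n ∈ Icc 1 N, (n : ℝ) / n.totient ≤ ∑ n ∈ Icc 1 N, (3 : ℝ) := by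
          refine Finset.sum_le_sum fun n hn => ?_
          rw [Finset.mem_Icc] at hn
          have h1 : (1 : ℝ) ≤ n.totient := by exact_mod_cast Nat.totient_pos.2 (by omega)
          have h3 : (n : ℝ) ≤ 3 := by exact_mod_cast (show n ≤ 3 by omega)
          rw [div_le_iff₀ (by linarith)]
          nlinarith
      _ = 3 * N := by simp [mul_comm]
      _ ≤ (C + 3) * N := by
          have : (0 : ℝ) ≤ N := by positivity
          nlinarith
  · have h0 := hC N 2 0 Nat.prime_two (by omega)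
    have h1 := hC N 2 1 Nat.prime_two (by omega)
    have h2 : ∑ n ∈ Icc 1 N, (sdiv n) ^ 4 ≤
        ∑ n ∈ (Icc 1 N).filter (fun n => n ≡ 0 [MOD 2]), (sdiv n) ^ 4 +
        ∑ n ∈ (Icc 1 N).filter (fun n => n ≡ 1 [MOD 2]), (sdiv n) ^ 4 := by
      rw [← Finset.sum_filter_add_sum_filter_not (Icc 1 N) (fun n => n ≡ 0 [MOD 2])]
      refine add_le_add le_rfl (Finset.sum_le_sum_of_subset_of_nonneg ?_ fun n _ _ => by positivity)
      intro n hn
      rw [Finset.mem_filter] at hn ⊢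
      refine ⟨hn.1, ?_⟩
      have := hn.2
      simp only [Nat.ModEq] at this ⊢
      omega
    calc ∑ n ∈ Icc 1 N, (n : ℝ) / n.totient ≤ ∑ n ∈ Icc 1 N, (sdiv n) ^ 4 := by
          refine Finset.sum_le_sum fun n hn => ?_
          rw [Finset.mem_Icc] at hn
          have h3 := phi_bound n (by omega)
          have h4 := one_le_sdiv' n (by omega)
          have h5 : (sdiv n) ^ 2 ≤ (sdiv n) ^ 4 := pow_le_pow_right₀ h4 (by norm_num)
          linarith
      _ ≤ C * (N / ((2 : ℕ) : ℝ)) + C * (N / ((2 : ℕ) : ℝ)) := by linarith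
      _ = C * N := by push_cast; ring
      _ ≤ (C + 3) * N := by
          have : (0 : ℝ) ≤ N := by positivity
          nlinarith

/-- For even `n ≤ sqrt N` (so `n ≥ 2`, `log n ≥ log 2`, `n²/φ(n) ≤ n²  ≤ N`) the sum is at most
`sqrt N · log² N · N / log² 2 ≤ N²` for `N` large; for `n > sqrt N`, `log n ≥ (log N)/2` and the term is at most
`4 N (n/φ(n))`: `phi_sum`. -/
theorem size_sum : ∃ C : ℝ, 0 < C ∧ ∃ N₀ : ℕ, ∀ N : ℕ, N₀ ≤ N →
    ∑ n ∈ (Icc 1 N).filter (fun n => 2 ∣ n), Real.log N ^ 2 * size n ≤ C * (N : ℝ) ^ 2 := by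
  obtain ⟨C, hC0, hC⟩ := phi_sum
  have hl2 : 0 < Real.log 2 := Real.log_pos (by norm_num)
  -- `log² N ≤ log² 2 · sqrt N` for large `N`
  have hev : ∀ᶠ x : ℝ in Filter.atTop, Real.log x ^ 2 ≤ Real.log 2 ^ 2 * x ^ (1 / 2 : ℝ) := by
    have h := (isLittleO_log_rpow_atTop (show (0 : ℝ) < 1 / 4 by norm_num)).bound hl2
    filter_upwards [h, Filter.eventually_ge_atTop (1 : ℝ)] with x hx hx1
    rw [Real.norm_of_nonneg (Real.log_nonneg hx1), Real.norm_of_nonneg (by positivity)] at hx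
    have h1 : Real.log x ^ 2 ≤ (Real.log 2 * x ^ (1 / 4 : ℝ)) ^ 2 :=
      pow_le_pow_left₀ (Real.log_nonneg hx1) hx 2
    have h2 : (x ^ (1 / 4 : ℝ)) ^ 2 = x ^ (1 / 2 : ℝ) := by
      rw [← Real.rpow_natCast, ← Real.rpow_mul (by linarith)]
      norm_num
    rw [mul_pow, h2] at h1
    exact h1
  obtain ⟨X, hX⟩ := Filter.eventually_atTop.1 hev
  refine ⟨4 * C + 1, by linarith, ⌈X⌉₊ + 2, fun N hN => ?_⟩
  have hN2 : 2 ≤ N := by omega
  have hNX : X ≤ N := (Nat.le_ceil X).trans (by exact_mod_cast (show ⌈X⌉₊ ≤ N by omega))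
  have hlog := hX N hNX
  have hN0 : (0 : ℝ) < N := by exact_mod_cast (show 0 < N by omega)
  have hlN : 0 ≤ Real.log N := Real.log_nonneg (by exact_mod_cast (show 1 ≤ N by omega))
  have hterm : ∀ n ∈ (Icc 1 N).filter (fun n => 2 ∣ n), Real.log N ^ 2 * size n ≤
      4 * N * ((n : ℝ) / n.totient) + (if n * n ≤ N then (N : ℝ) * (N : ℝ) ^ (1 / 2 : ℝ) else 0) := by
    intro n hn
    rw [Finset.mem_filter, Finset.mem_Icc] at hn
    obtain ⟨⟨hn1, hnN⟩, m, hm⟩ := hn
    have hn2 : 2 ≤ n := by omega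
    have hn0 : (0 : ℝ) < n := by exact_mod_cast (show 0 < n by omega)
    have ht1 : (1 : ℝ) ≤ n.totient := by exact_mod_cast Nat.totient_pos.2 (by omega)
    have hln : Real.log 2 ≤ Real.log n :=
      Real.log_le_log (by norm_num) (by exact_mod_cast hn2)
    have hln0 : 0 < Real.log n := lt_of_lt_of_le hl2 hln
    have hnN' : (n : ℝ) ≤ N := by exact_mod_cast hnN
    have hq0 : 0 ≤ (n : ℝ) / n.totient := by positivity
    split_ifs with h
    · have h1 : (n : ℝ) * n ≤ N := by exact_mod_cast h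
      have h2 : size n ≤ N / Real.log 2 ^ 2 := by
        unfold size
        rw [div_le_div_iff₀ (by positivity) (by positivity)]
        have h3 : Real.log 2 ^ 2 ≤ n.totient * Real.log n ^ 2 := by
          have : Real.log 2 ^ 2 ≤ Real.log n ^ 2 := pow_le_pow_left₀ hl2.le hln 2
          nlinarith [sq_nonneg (Real.log n)]
        have h4 : (n : ℝ) ^ 2 ≤ N := by rw [sq]; exact h1
        exact mul_le_mul h4 h3 (by positivity) hN0.le
      have h3 : Real.log N ^ 2 * size n ≤ (Real.log 2 ^ 2 * (N : ℝ) ^ (1 / 2 : ℝ)) * (N / Real.log 2 ^ 2) :=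
        mul_le_mul hlog h2 (by unfold size; positivity) (by positivity)
      have h4 : (Real.log 2 ^ 2 * (N : ℝ) ^ (1 / 2 : ℝ)) * (N / Real.log 2 ^ 2) =
          N * (N : ℝ) ^ (1 / 2 : ℝ) := by
        field_simp
      rw [h4] at h3
      have : 0 ≤ 4 * N * ((n : ℝ) / n.totient) := by positivity
      linarith
    · rw [add_zero]
      have h1 : (N : ℝ) ≤ n * n := by exact_mod_cast (not_le.1 h).le
      have h2 : Real.log N ≤ 2 * Real.log n := by
        have := Real.log_le_log hN0 h1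
        rw [Real.log_mul hn0.ne' hn0.ne'] at this
        linarith
      have h3 : Real.log N ^ 2 ≤ 4 * Real.log n ^ 2 := by nlinarith
      have h4 : size n = (n * ((n : ℝ) / n.totient)) / Real.log n ^ 2 := by
        unfold size
        field_simp
      rw [h4, mul_div_assoc', div_le_iff₀ (by positivity)]
      have h5 : (n : ℝ) * ((n : ℝ) / n.totient) ≤ N * ((n : ℝ) / n.totient) :=
        mul_le_mul_of_nonneg_right hnN' hq0
      calc Real.log N ^ 2 * (n * ((n : ℝ) / n.totient))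
          ≤ (4 * Real.log n ^ 2) * (N * ((n : ℝ) / n.totient)) :=
            mul_le_mul h3 h5 (by positivity) (by positivity)
        _ = 4 * N * ((n : ℝ) / n.totient) * Real.log n ^ 2 := by ring
  refine (Finset.sum_le_sum hterm).trans ?_
  rw [Finset.sum_add_distrib, ← Finset.mul_sum]
  have hs1 : ∑ n ∈ (Icc 1 N).filter (fun n => 2 ∣ n), (n : ℝ) / n.totient ≤ C * N :=
    (Finset.sum_le_sum_of_subset_of_nonneg (Finset.filter_subset _ _)
      fun n _ _ => by positivity).trans (hC N)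
  have hs2 : ∑ n ∈ (Icc 1 N).filter (fun n => 2 ∣ n),
      (if n * n ≤ N then (N : ℝ) * (N : ℝ) ^ (1 / 2 : ℝ) else 0) ≤ (N : ℝ) ^ 2 := by
    rw [← Finset.sum_filter, Finset.sum_const, nsmul_eq_mul]
    have hcard : ((((Icc 1 N).filter (fun n => 2 ∣ n)).filter (fun n => n * n ≤ N)).card : ℝ) ≤
        (N : ℝ) ^ (1 / 2 : ℝ) := by
      have h1 : (((Icc 1 N).filter (fun n => 2 ∣ n)).filter (fun n => n * n ≤ N)) ⊆
          Icc 1 (Nat.sqrt N) := by
        intro n hn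
        rw [Finset.mem_filter, Finset.mem_filter, Finset.mem_Icc] at hn
        rw [Finset.mem_Icc]
        exact ⟨hn.1.1.1, Nat.le_sqrt.2 hn.2⟩
      have h2 := Finset.card_le_card h1
      rw [Nat.card_Icc, Nat.add_sub_cancel] at h2
      have h3 : ((Nat.sqrt N : ℕ) : ℝ) ≤ Real.sqrt N := Real.nat_sqrt_le_real_sqrt
      rw [Real.sqrt_eq_rpow] at h3
      exact le_trans (by exact_mod_cast h2) h3
    have h5 : (N : ℝ) ^ (1 / 2 : ℝ) * (N : ℝ) ^ (1 / 2 : ℝ) = N := by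
      rw [← Real.rpow_add hN0]
      norm_num
    have h6 : 0 ≤ (N : ℝ) ^ (1 / 2 : ℝ) := by positivity
    calc _ ≤ (N : ℝ) ^ (1 / 2 : ℝ) * ((N : ℝ) * (N : ℝ) ^ (1 / 2 : ℝ)) :=
          mul_le_mul_of_nonneg_right hcard (by positivity)
      _ = N * ((N : ℝ) ^ (1 / 2 : ℝ) * (N : ℝ) ^ (1 / 2 : ℝ)) := by ring
      _ = (N : ℝ) ^ 2 := by rw [h5]; ring
  nlinarith [hs1, hs2, hN0]

end Pool.Agent.Lib.MP_629a14_nt.Col
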