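import Pool.Agent.Lib.MP_629a14_nt.Col.PiMom

/-! The local density is close to one on average. -/

set_option autoImplicit false

namespace Pool.Agent.Lib.MP_629a14_nt.Col

open Finset

private theorem PiAvg_prime {w v p : ℕ} (hp : p ∈ (Ioc w v).filter Nat.Prime) :
    p.Prime ∧ w < p := by
  rw [mem_filter, mem_Ioc] at hp
  exact ⟨hp.2, hp.1.1⟩

private theorem PiAvg_congr (w v n m : ℕ) (h : ∀ p ∈ (Ioc w v).filter Nat.Prime, p ∣ n ↔ p ∣ m) :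
    Pi2 w v n = Pi2 w v m := by
  unfold Pi2
  refine Finset.prod_congr rfl fun p hp => ?_
  by_cases h1 : p ∣ n
  · rw [if_pos h1, if_pos ((h p hp).1 h1)]
  · rw [if_neg h1, if_neg (fun h2 => h1 ((h p hp).2 h2))]

private theorem PiAvg_two (w v k : ℕ) (hw : 2 ≤ w) : Pi2 w v (2 * k) = Pi2 w v k := by
  refine PiAvg_congr w v _ _ fun p hp => ?_
  obtain ⟨h1, h2⟩ := PiAvg_prime hp
  constructor
  · intro h
    rcases (Nat.Prime.dvd_mul h1).1 h with h3 | h3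
    · exact absurd (Nat.le_of_dvd (by norm_num) h3) (by omega)
    · exact h3
  · exact fun h => Dvd.dvd.mul_left h 2

private theorem PiAvg_per (w v n : ℕ) :
    Pi2 w v (n + ∏ p ∈ (Ioc w v).filter Nat.Prime, p) = Pi2 w v n := by
  refine PiAvg_congr w v _ _ fun p hp => ?_
  exact (Nat.dvd_add_iff_left (Finset.dvd_prod_of_mem _ hp)).symm

private theorem PiAvg_per_sum (F : ℕ → ℝ) (M : ℕ) (hM : 1 ≤ M) (hF : ∀ n, 0 ≤ F n)
    (hp : ∀ n, F (n + M) = F n) (K : ℕ) :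
    ∑ k ∈ Icc 1 K, F k ≤ ((K / M + 1 : ℕ) : ℝ) * ∑ n ∈ range M, F n := by
  have h1 : ∀ q : ℕ, ∀ n, F (n + q * M) = F n := by
    intro q
    induction q with
    | zero => intro n; simp
    | succ q ih =>
      intro n
      have h2 : n + (q + 1) * M = (n + q * M) + M := by ring
      rw [h2, hp, ih]
  have h2 : ∀ q : ℕ, ∑ n ∈ range (q * M), F n = (q : ℝ) * ∑ n ∈ range M, F n := by
    intro q
    induction q with
    | zero => simp
    | succ q ih =>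
      have h3 : (q + 1) * M = q * M + M := by ring
      rw [h3, Finset.sum_range_add, ih]
      have h4 : ∑ x ∈ range M, F (q * M + x) = ∑ x ∈ range M, F x := by
        refine Finset.sum_congr rfl fun x _ => ?_
        rw [add_comm, h1]
      rw [h4]
      push_cast
      ring
  rw [← h2]
  refine Finset.sum_le_sum_of_subset_of_nonneg ?_ fun n _ _ => hF n
  intro k hk
  rw [mem_Icc] at hk
  rw [mem_range]
  have h3 : K < (K / M + 1) * M := by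
    rw [mul_comm]
    exact Nat.lt_mul_div_succ K hM
  omega

private theorem PiAvg_even (F : ℕ → ℝ) (N : ℕ) :
    ∑ n ∈ (Icc 1 N).filter (fun n => 2 ∣ n), F n = ∑ k ∈ Icc 1 (N / 2), F (2 * k) := by
  have h1 : (Icc 1 N).filter (fun n => 2 ∣ n) = (Icc 1 (N / 2)).image (fun k => 2 * k) := by
    ext n
    rw [mem_filter, mem_Icc, mem_image]
    constructor
    · rintro ⟨h1, k, rfl⟩
      exact ⟨k, by rw [mem_Icc]; omega, rfl⟩
    · rintro ⟨k, hk, rfl⟩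
      rw [mem_Icc] at hk
      exact ⟨by omega, Dvd.intro k rfl⟩
  rw [h1, Finset.sum_image]
  intro a _ b _ h
  have h2 : 2 * a = 2 * b := h
  omega

private theorem PiAvg_M (w v : ℕ) : 1 ≤ ∏ p ∈ (Ioc w v).filter Nat.Prime, p := by
  refine Nat.one_le_iff_ne_zero.2 (Finset.prod_ne_zero_iff.2 fun p hp => ?_)
  exact (PiAvg_prime hp).1.ne_zero

private theorem PiAvg_div (K M N : ℕ) (hK : K ≤ N) (hMN : M ≤ N) :
    ((K / M + 1 : ℕ) : ℝ) * M ≤ 2 * N := by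
  have h1 : (K / M + 1) * M ≤ 2 * N := by
    have h2 := Nat.div_mul_le_self K M
    have h3 : (K / M + 1) * M = K / M * M + M := by ring
    omega
  exact_mod_cast h1

/-- The local density is nonnegative for `w ≥ 2`. -/
theorem pi2_nonneg (w v n : ℕ) (hw : 2 ≤ w) : 0 ≤ Pi2 w v n := by
  unfold Pi2
  refine Finset.prod_nonneg fun p hp => ?_
  obtain ⟨h1, h2⟩ := PiAvg_prime hp
  have h3 : 3 ≤ p := by omega
  have h4 : (3 : ℝ) ≤ p := by exact_mod_cast h3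
  split_ifs
  · exact div_nonneg (by linarith) (by linarith)
  · exact div_nonneg (mul_nonneg (by linarith) (by linarith)) (sq_nonneg _)

/-- Substitute `n = 2 k` (`Pi2 w v (2 k) = Pi2 w v k` for `w ≥ 2`: the primes are odd), `k ≤ K = N / 2`;
`Pi2` is periodic with period `M = ∏ p`, so by `pi_one`, `pi_two`
`∑_{k ≤ K} (Pi2 - 1)² ≤ (K/M + 1) ∑_{period} (Pi2 - 1)² ≤ (K/M + 1) M 4/w ≤ 8 K/w` for `K ≥ M`, and
Cauchy-Schwarz: `∑ |Pi2 - 1| ≤ K sqrt (8/w)`. -/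
theorem pi_avg (ε : ℝ) (hε : 0 < ε) : ∃ w₀ : ℕ, ∀ w v : ℕ, w₀ ≤ w → w ≤ v → ∃ N₀ : ℕ, ∀ N : ℕ,
    N₀ ≤ N → ∑ n ∈ (Icc 1 N).filter (fun n => 2 ∣ n), |Pi2 w v n - 1| ≤ ε * N := by
  refine ⟨max 2 ⌈8 / ε ^ 2⌉₊, fun w v hw _ => ?_⟩
  have hw2 : 2 ≤ w := (le_max_left _ _).trans hw
  have hwε : 8 / ε ^ 2 ≤ w := by
    have h1 : ⌈8 / ε ^ 2⌉₊ ≤ w := (le_max_right _ _).trans hw
    exact (Nat.le_ceil _).trans (by exact_mod_cast h1)
  have hw0 : (0 : ℝ) < w := by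
    have : (2 : ℝ) ≤ w := by exact_mod_cast hw2
    linarith
  obtain ⟨M, hM⟩ : ∃ M, M = ∏ p ∈ (Ioc w v).filter Nat.Prime, p := ⟨_, rfl⟩
  have hM1 : 1 ≤ M := by
    rw [hM]
    exact PiAvg_M w v
  have hMr : (M : ℝ) = ∏ p ∈ (Ioc w v).filter Nat.Prime, (p : ℝ) := by
    rw [hM, Nat.cast_prod]
  refine ⟨M, fun N hN => ?_⟩
  rw [PiAvg_even (fun n => |Pi2 w v n - 1|) N]
  obtain ⟨K, hK⟩ : ∃ K, K = N / 2 := ⟨_, rfl⟩
  have hKN : K ≤ N := by omega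
  rw [← hK]
  have h1 : ∑ k ∈ Icc 1 K, (Pi2 w v k - 1) ^ 2 ≤
      ((K / M + 1 : ℕ) : ℝ) * ∑ n ∈ range M, (Pi2 w v n - 1) ^ 2 := by
    refine PiAvg_per_sum (fun n => (Pi2 w v n - 1) ^ 2) M hM1 (fun n => sq_nonneg _) (fun n => ?_) K
    have h2 := PiAvg_per w v n
    rw [← hM] at h2
    rw [h2]
  have h2 : ∑ n ∈ range M, (Pi2 w v n - 1) ^ 2 ≤ 4 / (w : ℝ) * M := by
    have h3 := pi_one w v
    have h4 := pi_two w v hw2
    rw [← hM, ← hMr] at h3 h4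
    have h5 : ∑ n ∈ range M, (Pi2 w v n - 1) ^ 2 =
        ∑ n ∈ range M, Pi2 w v n ^ 2 - 2 * ∑ n ∈ range M, Pi2 w v n + M := by
      have h6 : ∑ n ∈ range M, (Pi2 w v n - 1) ^ 2 =
          ∑ n ∈ range M, (Pi2 w v n ^ 2 - 2 * Pi2 w v n + 1) :=
        Finset.sum_congr rfl fun n _ => by ring
      rw [h6, Finset.sum_add_distrib, Finset.sum_sub_distrib, ← Finset.mul_sum,
        Finset.sum_const, card_range, nsmul_eq_mul, mul_one]
    rw [h5, h3]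
    linarith
  have h3 : ∑ k ∈ Icc 1 K, (Pi2 w v k - 1) ^ 2 ≤ 8 / (w : ℝ) * N := by
    refine h1.trans ?_
    calc ((K / M + 1 : ℕ) : ℝ) * ∑ n ∈ range M, (Pi2 w v n - 1) ^ 2
        ≤ ((K / M + 1 : ℕ) : ℝ) * (4 / (w : ℝ) * M) :=
          mul_le_mul_of_nonneg_left h2 (Nat.cast_nonneg _)
      _ = 4 / (w : ℝ) * (((K / M + 1 : ℕ) : ℝ) * M) := by ring
      _ ≤ 4 / (w : ℝ) * (2 * N) :=
          mul_le_mul_of_nonneg_left (PiAvg_div K M N hKN hN) (by positivity)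
      _ = 8 / (w : ℝ) * N := by ring
  have h4 : ∀ k ∈ Icc 1 K, |Pi2 w v (2 * k) - 1| ≤ ε / 2 + (Pi2 w v k - 1) ^ 2 / (2 * ε) := by
    intro k _
    rw [PiAvg_two w v k hw2]
    have h5 : 0 ≤ (|Pi2 w v k - 1| - ε) ^ 2 / (2 * ε) := by positivity
    have h6 : (|Pi2 w v k - 1| - ε) ^ 2 / (2 * ε) =
        (Pi2 w v k - 1) ^ 2 / (2 * ε) + ε / 2 - |Pi2 w v k - 1| := by
      rw [sub_sq, sq_abs]
      field_simp
      ring
    linarith
  refine (Finset.sum_le_sum h4).trans ?_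
  have h40 : ∑ k ∈ Icc 1 K, (ε / 2 + (Pi2 w v k - 1) ^ 2 / (2 * ε)) =
      (K : ℝ) * (ε / 2) + (∑ k ∈ Icc 1 K, (Pi2 w v k - 1) ^ 2) / (2 * ε) := by
    rw [Finset.sum_add_distrib, Finset.sum_div (Icc 1 K) (fun k => (Pi2 w v k - 1) ^ 2) (2 * ε),
      Finset.sum_const, Nat.card_Icc, Nat.add_sub_cancel, nsmul_eq_mul]
  rw [h40]
  have h5 : (K : ℝ) ≤ N := by exact_mod_cast hKN
  have h6 : (K : ℝ) * (ε / 2) ≤ N * (ε / 2) := mul_le_mul_of_nonneg_right h5 (by positivity)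
  have h7 : (∑ k ∈ Icc 1 K, (Pi2 w v k - 1) ^ 2) / (2 * ε) ≤ N * (ε / 2) := by
    rw [div_le_iff₀ (by positivity)]
    refine h3.trans ?_
    have h8 : 8 / (w : ℝ) ≤ ε ^ 2 := by
      rw [div_le_iff₀ (by positivity)] at hwε
      rw [div_le_iff₀ hw0]
      linarith
    have h9 : (0 : ℝ) ≤ N := Nat.cast_nonneg N
    calc 8 / (w : ℝ) * N ≤ ε ^ 2 * N := mul_le_mul_of_nonneg_right h8 h9
      _ = N * (ε / 2) * (2 * ε) := by ring
  linarith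

/-- `pi_one`: the sum over `k ≤ K` is at most `(K/M + 1) M ≤ 2 K` for `K ≥ M`. -/
theorem pi_sum (w v : ℕ) (hw : 2 ≤ w) : ∃ N₀ : ℕ, ∀ N : ℕ, N₀ ≤ N →
    ∑ n ∈ (Icc 1 N).filter (fun n => 2 ∣ n), Pi2 w v n ≤ 2 * N := by
  obtain ⟨M, hM⟩ : ∃ M, M = ∏ p ∈ (Ioc w v).filter Nat.Prime, p := ⟨_, rfl⟩
  have hM1 : 1 ≤ M := by
    rw [hM]
    exact PiAvg_M w v
  have hMr : (M : ℝ) = ∏ p ∈ (Ioc w v).filter Nat.Prime, (p : ℝ) := by
    rw [hM, Nat.cast_prod]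
  refine ⟨M, fun N hN => ?_⟩
  rw [PiAvg_even (fun n => Pi2 w v n) N]
  have h0 : ∑ k ∈ Icc 1 (N / 2), Pi2 w v (2 * k) = ∑ k ∈ Icc 1 (N / 2), Pi2 w v k :=
    Finset.sum_congr rfl fun k _ => PiAvg_two w v k hw
  rw [h0]
  have h1 := PiAvg_per_sum (fun n => Pi2 w v n) M hM1 (fun n => pi2_nonneg w v n hw) (fun n => by
    have h2 := PiAvg_per w v n
    rw [← hM] at h2
    exact h2) (N / 2)
  have h3 := pi_one w v
  rw [← hM, ← hMr] at h3
  refine h1.trans ?_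
  rw [h3]
  exact PiAvg_div (N / 2) M N (by omega) hN

end Pool.Agent.Lib.MP_629a14_nt.Col
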