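import Mathlib

/-! A Riemann sum. -/

set_option autoImplicit false

namespace Pool.Agent.Lib.MP_629a14_nt.Col

open Finset

private lemma riem_ind (F : ℕ) (d : ℤ) :
    max 0 ((F : ℝ) - |(d : ℝ)|) ≤ ∑ τ ∈ range F, (if |(d : ℝ)| ≤ (τ : ℝ) then (1 : ℝ) else 0) := by
  have habs : |(d : ℝ)| = ((d.natAbs : ℕ) : ℝ) := by
    rw [Nat.cast_natAbs, Int.cast_abs]
  rw [habs]
  have h1 : ∑ τ ∈ range F, (if ((d.natAbs : ℕ) : ℝ) ≤ (τ : ℝ) then (1 : ℝ) else 0)
      = ((F - d.natAbs : ℕ) : ℝ) := by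
    rw [Finset.sum_boole]
    congr 1
    have : (range F).filter (fun τ : ℕ => ((d.natAbs : ℕ) : ℝ) ≤ (τ : ℝ)) = Ico d.natAbs F := by
      ext τ
      simp only [mem_filter, mem_range, mem_Ico, Nat.cast_le]
      tauto
    rw [this, Nat.card_Ico]
  rw [h1]
  apply max_le (Nat.cast_nonneg _)
  have := Nat.sub_add_cancel (le_max_right d.natAbs F)
  rcases le_total d.natAbs F with h | h
  · rw [Nat.cast_sub h]
  · have : (F : ℝ) ≤ (d.natAbs : ℝ) := by exact_mod_cast h
    have h2 : (0 : ℝ) ≤ ((F - d.natAbs : ℕ) : ℝ) := Nat.cast_nonneg _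
    linarith

private lemma riem_count (h n m τ : ℕ) (hh : 1 ≤ h) :
    ∑ i ∈ range m, (if |((2 * (h : ℤ) * i - n : ℤ) : ℝ)| ≤ (τ : ℝ) then (1 : ℝ) else 0)
      ≤ (τ : ℝ) / h + 1 := by
  rw [Finset.sum_boole]
  set S := (range m).filter (fun i : ℕ => |((2 * (h : ℤ) * i - n : ℤ) : ℝ)| ≤ (τ : ℝ)) with hS
  have hh' : (0 : ℝ) < h := by exact_mod_cast hh
  rcases S.eq_empty_or_nonempty with h0 | h0
  · rw [h0]
    simp only [card_empty, Nat.cast_zero]
    positivity
  · set a := S.min' h0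
    set b := S.max' h0
    have ha : a ∈ S := S.min'_mem h0
    have hb : b ∈ S := S.max'_mem h0
    have hab : a ≤ b := S.min'_le _ hb
    have hsub : S ⊆ Icc a b := by
      intro x hx
      rw [mem_Icc]
      exact ⟨S.min'_le _ hx, S.le_max' _ hx⟩
    have hcard : S.card ≤ b + 1 - a := by
      calc S.card ≤ (Icc a b).card := card_le_card hsub
        _ = b + 1 - a := Nat.card_Icc _ _
    have ha' := (mem_filter.1 ha).2
    have hb' := (mem_filter.1 hb).2
    have e1 := (abs_le.1 ha').1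
    have e2 := (abs_le.1 hb').2
    push_cast at e1 e2
    have hc : (S.card : ℝ) ≤ (b : ℝ) + 1 - a := by
      have : (S.card : ℝ) ≤ ((b + 1 - a : ℕ) : ℝ) := by exact_mod_cast hcard
      rw [Nat.cast_sub (by omega)] at this
      push_cast at this
      exact this
    have e3 : (h : ℝ) * ((b : ℝ) - a) ≤ τ := by nlinarith
    have e4 : (b : ℝ) - a ≤ τ / h := by
      rw [le_div_iff₀ hh']
      linarith
    linarith

/-- The sum of `(F - |2 h i - n|)⁺` over `i < m`: since `(F - |d|)⁺ = #{τ < F : |d| ≤ τ}` for integers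
`d`, and at most `(2 τ)/(2 h) + 1` multiples of `2 h` have distance at most `τ` from `n`, the sum is at
most `∑_{τ < F} (τ / h + 1) ≤ F²/(2 h) + F`. -/
theorem riem (F h n m : ℕ) (hh : 1 ≤ h) :
    ∑ i ∈ range m, max 0 ((F : ℝ) - |2 * (h : ℝ) * i - n|) ≤ (F : ℝ) ^ 2 / (2 * h) + F := by
  have hh' : (0 : ℝ) < h := by exact_mod_cast hh
  have hcast : ∀ i : ℕ, (2 * (h : ℝ) * i - n) = (((2 * (h : ℤ) * i - n : ℤ)) : ℝ) := by
    intro i
    push_cast
    ring
  calc ∑ i ∈ range m, max 0 ((F : ℝ) - |2 * (h : ℝ) * i - n|)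
      ≤ ∑ i ∈ range m, ∑ τ ∈ range F,
          (if |((2 * (h : ℤ) * i - n : ℤ) : ℝ)| ≤ (τ : ℝ) then (1 : ℝ) else 0) := by
        apply sum_le_sum
        intro i _
        rw [hcast i]
        exact riem_ind F _
    _ = ∑ τ ∈ range F, ∑ i ∈ range m,
          (if |((2 * (h : ℤ) * i - n : ℤ) : ℝ)| ≤ (τ : ℝ) then (1 : ℝ) else 0) := sum_comm
    _ ≤ ∑ τ ∈ range F, ((τ : ℝ) / h + 1) := by
        apply sum_le_sum
        intro τ _
        exact riem_count h n m τ hh
    _ ≤ (F : ℝ) ^ 2 / (2 * h) + F := by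
        rw [sum_add_distrib, ← sum_div]
        simp only [sum_const, card_range, nsmul_eq_mul, mul_one]
        have hs : (∑ i ∈ range F, (i : ℝ)) * 2 = F * (F - 1) := by
          have := Finset.sum_range_id_mul_two F
          rcases Nat.eq_zero_or_pos F with h0 | h0
          · subst h0; simp
          · have h1 : ((∑ i ∈ range F, i : ℕ) : ℝ) * 2 = (F : ℝ) * ((F - 1 : ℕ) : ℝ) := by
              exact_mod_cast this
            rw [Nat.cast_sub h0] at h1
            push_cast at h1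
            linarith
        have hs2 : (∑ i ∈ range F, (i : ℝ)) ≤ (F : ℝ) ^ 2 / 2 := by
          have : (0 : ℝ) ≤ F := Nat.cast_nonneg _
          nlinarith
        have : (∑ i ∈ range F, (i : ℝ)) / h ≤ (F : ℝ) ^ 2 / (2 * h) := by
          rw [div_le_div_iff₀ hh' (by positivity)]
          nlinarith
        linarith

end Pool.Agent.Lib.MP_629a14_nt.Col
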