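import Pool.Agent.Lib.MP_629a14_nt.Col.Piece
import Pool.Agent.Lib.MP_629a14_nt.Col.PiAvg
import Pool.Agent.Lib.MP_629a14_nt.Col.Riem

/-! Upper bound for the mass on average. -/

set_option autoImplicit false

namespace Pool.Agent.Lib.MP_629a14_nt.Col

open Finset Pool.Agent.Lib.MP_629a14_nt Pool.Agent.Lib.MP_629a14_nt.Rob

/-- Choose `m` with `m ≥ 100/ε` and put `h = N / m + 1`, so `N ≤ 2 m h`, `h ≤ 2 N/m` for `N ≥ m`. By
`point` and the trivial bound `H + 2 h ≤ 5 N` for the tent function,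
`mass ≤ ∑_i tent_i(n) 2 h Pi2(n) + 5 N ∑_i (RR_i(n) - 2 h Pi2(n))⁺`. By `riem` with `F = H + 2 h`,
`2 h ∑_i tent_i(n) ≤ F² + 2 h F = (H + 2 h)(H + 4 h) ≤ H² + 6 H h + 8 h² ≤ H² + 22 N h ≤ H² + 44 N²/m`.
So `(mass - H² Pi2)⁺ ≤ (44 N²/m) Pi2(n) + 5 N ∑_i (RR_i(n) - 2 h Pi2(n))⁺`; sum over `n` with `pi_sum`
(`≤ 88 N³/m`) and `piece` with `ε / (100 m)` for each of the `m` intervals. -/
theorem upper (w : ℕ) (hw : 2 ≤ w) (ε : ℝ) (hε : 0 < ε) : ∃ v₀ : ℕ, ∀ v : ℕ, v₀ ≤ v → w ≤ v →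
    ∃ N₀ : ℕ, ∀ N : ℕ, N₀ ≤ N → ∀ H : ℕ, H ≤ N →
      ∑ n ∈ (Icc 1 N).filter (fun n => 2 ∣ n),
        max 0 (mass w N H Set.univ n - (H : ℝ) ^ 2 * Pi2 w v n) ≤ ε * (N : ℝ) ^ 3 := by
  obtain ⟨m, hm⟩ := exists_nat_ge (100 / ε)
  have hmR : (0 : ℝ) < m := lt_of_lt_of_le (by positivity) hm
  have hm1 : 1 ≤ m := by exact_mod_cast (Nat.cast_pos.mp hmR)
  have hm1R : (1 : ℝ) ≤ m := by exact_mod_cast hm1
  have hmε : 100 ≤ ε * m := by
    rw [div_le_iff₀ hε] at hm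
    linarith
  obtain ⟨v₀, hv₀⟩ := piece w hw (ε / (100 * m)) (by positivity)
  refine ⟨v₀, fun v hv hwv => ?_⟩
  obtain ⟨N₁, hN₁⟩ := hv₀ v hv hwv
  obtain ⟨N₂, hN₂⟩ := pi_sum w v hw
  refine ⟨max (max N₁ N₂) m, fun N hN H hH => ?_⟩
  have hNN₁ : N₁ ≤ N := le_trans (le_trans (le_max_left _ _) (le_max_left _ _)) hN
  have hNN₂ : N₂ ≤ N := le_trans (le_trans (le_max_right _ _) (le_max_left _ _)) hN
  have hNm : m ≤ N := le_trans (le_max_right _ _) hN
  have hNmR : (m : ℝ) ≤ N := by exact_mod_cast hNm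
  have hN0 : (0 : ℝ) ≤ N := Nat.cast_nonneg N
  have hHR : (H : ℝ) ≤ N := by exact_mod_cast hH
  have hH0 : (0 : ℝ) ≤ H := Nat.cast_nonneg H
  obtain ⟨h, hh⟩ : ∃ h : ℕ, h = N / m + 1 := ⟨_, rfl⟩
  have hh1 : 1 ≤ h := by rw [hh]; exact Nat.succ_pos _
  have hh0 : (0 : ℝ) ≤ h := Nat.cast_nonneg h
  have hNmh : N ≤ 2 * (m * h) := by
    have h1 : N < m * (N / m + 1) := Nat.lt_mul_div_succ N (by omega)
    rw [← hh] at h1
    omega
  have hmh : (m : ℝ) * h ≤ 2 * N := by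
    have h1 : m * (N / m) ≤ N := Nat.mul_div_le N m
    have h2 : m * h ≤ 2 * N := by
      rw [hh, mul_add, mul_one]
      omega
    exact_mod_cast h2
  have hh2 : (h : ℝ) ≤ 2 * N := by nlinarith
  have hP : ∀ n : ℕ, 0 ≤ Pi2 w v n := fun n => pi2_nonneg w v n hw
  -- the pointwise bound
  have key : ∀ n : ℕ, max 0 (mass w N H Set.univ n - (H : ℝ) ^ 2 * Pi2 w v n) ≤
      44 * (N : ℝ) ^ 2 / m * Pi2 w v n + 5 * N * ∑ i ∈ range m,
        max 0 (RR w N n (i * h) (min (i * h + h) n) - 2 * h * Pi2 w v n) := by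
    intro n
    have hnn : (0 : ℝ) ≤ ∑ i ∈ range m,
        max 0 (RR w N n (i * h) (min (i * h + h) n) - 2 * h * Pi2 w v n) :=
      Finset.sum_nonneg fun i _ => le_max_left _ _
    refine max_le ?_ ?_
    · have := hP n
      positivity
    · have h1 := point w N H h m n hh1 hNmh
      have h2 := riem (H + 2 * h) h n m hh1
      have hF : ((H + 2 * h : ℕ) : ℝ) = H + 2 * h := by push_cast; ring
      rw [hF] at h1 h2
      have h3 : ∀ i ∈ range m, max 0 (((H : ℝ) + 2 * h) - |2 * (h : ℝ) * i - n|) *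
          RR w N n (i * h) (min ((i + 1) * h) n) ≤
          max 0 (((H : ℝ) + 2 * h) - |2 * (h : ℝ) * i - n|) * (2 * h * Pi2 w v n) +
          5 * N * max 0 (RR w N n (i * h) (min (i * h + h) n) - 2 * h * Pi2 w v n) := by
        intro i _
        have e1 : (i + 1) * h = i * h + h := by ring
        rw [e1]
        have t0 : (0 : ℝ) ≤ max 0 (((H : ℝ) + 2 * h) - |2 * (h : ℝ) * i - n|) := le_max_left _ _
        have t1 : max 0 (((H : ℝ) + 2 * h) - |2 * (h : ℝ) * i - n|) ≤ 5 * N := by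
          refine max_le (by positivity) ?_
          have := abs_nonneg (2 * (h : ℝ) * i - n)
          linarith
        have r0 : (0 : ℝ) ≤ max 0 (RR w N n (i * h) (min (i * h + h) n) - 2 * h * Pi2 w v n) :=
          le_max_left _ _
        have r1 : RR w N n (i * h) (min (i * h + h) n) ≤ 2 * h * Pi2 w v n +
            max 0 (RR w N n (i * h) (min (i * h + h) n) - 2 * h * Pi2 w v n) := by
          have := le_max_right 0 (RR w N n (i * h) (min (i * h + h) n) - 2 * h * Pi2 w v n)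
          linarith
        calc max 0 (((H : ℝ) + 2 * h) - |2 * (h : ℝ) * i - n|) *
              RR w N n (i * h) (min (i * h + h) n)
            ≤ max 0 (((H : ℝ) + 2 * h) - |2 * (h : ℝ) * i - n|) * (2 * h * Pi2 w v n +
              max 0 (RR w N n (i * h) (min (i * h + h) n) - 2 * h * Pi2 w v n)) :=
              mul_le_mul_of_nonneg_left r1 t0
          _ = max 0 (((H : ℝ) + 2 * h) - |2 * (h : ℝ) * i - n|) * (2 * h * Pi2 w v n) +
              max 0 (((H : ℝ) + 2 * h) - |2 * (h : ℝ) * i - n|) *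
              max 0 (RR w N n (i * h) (min (i * h + h) n) - 2 * h * Pi2 w v n) := by ring
          _ ≤ _ := by
              have := mul_le_mul_of_nonneg_right t1 r0
              linarith
      have h4 := Finset.sum_le_sum h3
      rw [Finset.sum_add_distrib, ← Finset.sum_mul, ← Finset.mul_sum] at h4
      have hPn := hP n
      have h5 : (∑ i ∈ range m, max 0 (((H : ℝ) + 2 * h) - |2 * (h : ℝ) * i - n|)) *
          (2 * h * Pi2 w v n) ≤ ((H : ℝ) ^ 2 + 44 * (N : ℝ) ^ 2 / m) * Pi2 w v n := by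
        have hhpos : (0 : ℝ) < h := by exact_mod_cast hh1
        have h6 : (∑ i ∈ range m, max 0 (((H : ℝ) + 2 * h) - |2 * (h : ℝ) * i - n|)) *
          (2 * h * Pi2 w v n) ≤ (((H : ℝ) + 2 * h) ^ 2 / (2 * h) + ((H : ℝ) + 2 * h)) *
            (2 * h * Pi2 w v n) := mul_le_mul_of_nonneg_right h2 (by positivity)
        have h7 : (((H : ℝ) + 2 * h) ^ 2 / (2 * h) + ((H : ℝ) + 2 * h)) *
            (2 * h * Pi2 w v n) = ((H : ℝ) ^ 2 + 6 * H * h + 8 * h ^ 2) * Pi2 w v n := by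
          field_simp
          ring
        have h8 : 6 * (H : ℝ) * h + 8 * (h : ℝ) ^ 2 ≤ 44 * (N : ℝ) ^ 2 / m := by
          rw [le_div_iff₀ hmR]
          have a1 : (H : ℝ) * (m * h) ≤ N * (2 * N) :=
            mul_le_mul hHR hmh (by positivity) hN0
          have a2 : (h : ℝ) * (m * h) ≤ (2 * N) * (2 * N) :=
            mul_le_mul hh2 hmh (by positivity) (by positivity)
          nlinarith
        rw [h7] at h6
        refine le_trans h6 (mul_le_mul_of_nonneg_right ?_ hPn)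
        linarith
      have h9 : mass w N H Set.univ n ≤ ((H : ℝ) ^ 2 + 44 * (N : ℝ) ^ 2 / m) * Pi2 w v n +
          5 * N * ∑ i ∈ range m,
            max 0 (RR w N n (i * h) (min (i * h + h) n) - 2 * h * Pi2 w v n) :=
        le_trans h1 (le_trans h4 (by linarith))
      linarith
  have hs := Finset.sum_le_sum (s := (Icc 1 N).filter (fun n => 2 ∣ n)) (fun n _ => key n)
  rw [Finset.sum_add_distrib, ← Finset.mul_sum, ← Finset.mul_sum, Finset.sum_comm] at hs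
  have hp := hN₂ N hNN₂
  have hq : ∑ i ∈ range m, ∑ n ∈ (Icc 1 N).filter (fun n => 2 ∣ n),
      max 0 (RR w N n (i * h) (min (i * h + h) n) - 2 * h * Pi2 w v n) ≤
      ∑ _i ∈ range m, ε / (100 * m) * (N : ℝ) ^ 2 :=
    Finset.sum_le_sum fun i _ => hN₁ N hNN₁ (i * h) h
  rw [Finset.sum_const, card_range, nsmul_eq_mul] at hq
  have hq' : (m : ℝ) * (ε / (100 * m) * (N : ℝ) ^ 2) = ε / 100 * (N : ℝ) ^ 2 := by
    field_simp
  rw [hq'] at hq
  have b1 : 44 * (N : ℝ) ^ 2 / m * ∑ n ∈ (Icc 1 N).filter (fun n => 2 ∣ n), Pi2 w v n ≤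
      44 * (N : ℝ) ^ 2 / m * (2 * N) := mul_le_mul_of_nonneg_left hp (by positivity)
  have b2 : 44 * (N : ℝ) ^ 2 / m * (2 * N) ≤ 88 / 100 * (ε * (N : ℝ) ^ 3) := by
    rw [div_mul_eq_mul_div, div_le_iff₀ hmR]
    have : 100 * (N : ℝ) ^ 3 ≤ ε * m * (N : ℝ) ^ 3 :=
      mul_le_mul_of_nonneg_right hmε (by positivity)
    nlinarith
  have b3 : 5 * (N : ℝ) * (∑ i ∈ range m, ∑ n ∈ (Icc 1 N).filter (fun n => 2 ∣ n),
      max 0 (RR w N n (i * h) (min (i * h + h) n) - 2 * h * Pi2 w v n)) ≤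
      5 * (N : ℝ) * (ε / 100 * (N : ℝ) ^ 2) := mul_le_mul_of_nonneg_left hq (by positivity)
  have b4 : 5 * (N : ℝ) * (ε / 100 * (N : ℝ) ^ 2) = 5 / 100 * (ε * (N : ℝ) ^ 3) := by ring
  have b5 : 0 ≤ ε * (N : ℝ) ^ 3 := by positivity
  linarith

end Pool.Agent.Lib.MP_629a14_nt.Col
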