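import Pool.Agent.Lib.MP_629a14_nt.Col.MassLow
import Pool.Agent.Lib.MP_629a14_nt.Col.Upper
import Pool.Agent.Lib.MP_629a14_nt.Col.SizeSum
import Pool.Agent.Lib.MP_629a14_nt.Sm.Cnt

/-! Monochromatic sums of two primes. -/

set_option autoImplicit false

namespace Pool.Agent.Lib.MP_629a14_nt.Col

open Finset Pool.Agent.Lib.MP_629a14_nt Pool.Agent.Lib.MP_629a14_nt.Rob

open Classical in
private lemma cntB_eq' (A : Set ℕ) (K : ℕ) :
    cntB A K = ((Icc 1 K).filter (fun p => p.Prime ∧ p ∈ A)).card := by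
  unfold cntB
  congr

private lemma cntB_univ' (K : ℕ) : cntB Set.univ K = ((Icc 1 K).filter Nat.Prime).card := by
  classical
  have h : ∀ A : Set ℕ, (∀ p, p ∈ A) → cntB A K = ((Icc 1 K).filter Nat.Prime).card := by
    intro A hA
    rw [cntB_eq']
    refine congrArg Finset.card (Finset.ext fun p => ?_)
    rw [Finset.mem_filter, Finset.mem_filter]
    exact ⟨fun h => ⟨h.1, h.2.1⟩, fun h => ⟨h.1, h.2, hA p⟩⟩
  exact h Set.univ fun p => Set.mem_univ p

private lemma cntB_le_univ (A : Set ℕ) (x : ℕ) : cntB A x ≤ cntB Set.univ x := by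
  classical
  rw [cntB_eq', cntB_univ']
  refine Finset.card_le_card ?_
  intro p hp
  rw [Finset.mem_filter] at hp ⊢
  exact ⟨hp.1, hp.2.1⟩

private lemma cntB_sum (k : ℕ) (A : Fin k → Set ℕ) (hA : ∀ i j, i ≠ j → Disjoint (A i) (A j)) (x : ℕ) :
    ∑ i, cntB (A i) x ≤ cntB Set.univ x := by
  classical
  rw [cntB_univ', Finset.sum_congr rfl fun i _ => cntB_eq' (A i) x, ← Finset.card_biUnion]
  · refine Finset.card_le_card ?_
    intro p hp
    rw [Finset.mem_biUnion] at hp
    obtain ⟨i, _, hi⟩ := hp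
    rw [Finset.mem_filter] at hi ⊢
    exact ⟨hi.1, hi.2.1⟩
  · intro i _ j _ hij
    simp only [Function.onFun]
    rw [Finset.disjoint_left]
    intro p hpi hpj
    rw [Finset.mem_filter] at hpi hpj
    exact Set.disjoint_left.1 (hA i j hij) hpi.2.2 hpj.2.2

/-- numeric part of the lower bound -/
private lemma sq_low (a M e N L : ℝ) (ha : 0 ≤ a) (hM : 0 ≤ M) (hL0 : 0 ≤ L)
    (hL : a * M - 2 * e * N ≤ L) (heN : 0 ≤ e * N) :
    a ^ 2 * M ^ 2 - 4 * (e * N) * M * a ≤ L ^ 2 := by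
  have haM : 0 ≤ a * M := mul_nonneg ha hM
  rcases le_or_gt 0 (a * M - 2 * e * N) with h | h
  · have h1 : (a * M - 2 * e * N) ^ 2 ≤ L ^ 2 := pow_le_pow_left₀ h hL 2
    nlinarith [sq_nonneg (e * N)]
  · have h1 : a ^ 2 * M ^ 2 - 4 * (e * N) * M * a = a * M * (a * M - 4 * (e * N)) := by ring
    rw [h1]
    have h2 : a * M - 4 * (e * N) ≤ 0 := by nlinarith
    have h3 : a * M * (a * M - 4 * (e * N)) ≤ 0 := mul_nonpos_of_nonneg_of_nonpos haM h2
    linarith [sq_nonneg L]

open Classical in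
/-- Let `e = min ε 1 / 20`, `w ≥ 2` from `pi_avg e`, `q ≥ 2/e`, `H = N / q` (so `H ≥ N/(2 q)` for `N ≥ q`),
`C` from `size_sum`, `c = e / (2 q (k + 1) W C)`, `W = primorial w`, `v` from `upper w (e/(4 q²))`, and let
`G` be the set of the `n` counted. Lower bound for the sum `T` of all `mass w N H (A i) n`: `mass_low`,
`om_card`, `Sm.cnt_univ` (`log N` times the number of primes up to `N / 2` is `N/2` up to `e' N`), so
`T ≥ H² ∑_i ((N/2) α_i - ...)² / (N/2 + H) ≥ H² ((N/2) ∑ α_i² - H - 2 k e' N - ...)` with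
`α_i = cntB (A i) (N/2)/cntB univ (N/2)`, `∑ α_i² ≤ 1` (`∑ α_i ≤ 1` by disjointness); `x²/(x + H) ≥ x - H`. Upper bound:
for `n ∉ G`, `mass_le` and `repsIn < c size n`: together at most `k c W H C N² ≤ 2 q k c W C H² N = e H² N`
(`size_sum`); for `n ∈ G` by `mass_disj` at most `∑_{n ∈ G} H² Pi2 + (e/(4 q²)) N³ ≤ H² (|G| + e N) + e H² N`
(`pi_avg`, `upper`). Divide by `H²`. -/
theorem mono (k : ℕ) (ε : ℝ) (hε : 0 < ε) : ∃ c : ℝ, 0 < c ∧ ∃ N₀ : ℕ, ∀ N : ℕ,
    N₀ ≤ N → ∀ A : Fin k → Set ℕ, (∀ i j, i ≠ j → Disjoint (A i) (A j)) →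
      ((1 / 2) * ∑ i, ((cntB (A i) (N / 2) : ℝ) / cntB Set.univ (N / 2)) ^ 2 - ε) * N ≤
        (((Icc 1 N).filter (fun n => Even n ∧ ∃ i, c * size n ≤ (Sm.repsIn (A i) (A i) n : ℝ))).card : ℝ) := by
  obtain ⟨C, hC0, NC, hC⟩ := size_sum
  set e : ℝ := ε / 20 with he
  have he0 : 0 < e := by positivity
  obtain ⟨w₀, hw₀⟩ := pi_avg e he0
  set w := max w₀ 2 with hw
  have hw2 : 2 ≤ w := le_max_right _ _
  obtain ⟨q₀, hq₀⟩ := exists_nat_ge (2 / e)
  set q := q₀ + 1 with hq
  have hq1 : (1 : ℝ) ≤ q := by rw [hq]; push_cast; linarith [Nat.cast_nonneg (α := ℝ) q₀]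
  have hqe : 2 / e ≤ q := by rw [hq]; push_cast; linarith
  have hq0 : (0 : ℝ) < q := by linarith
  set W : ℝ := (primorial w : ℝ) with hW
  have hW0 : 0 < W := by rw [hW]; exact_mod_cast primorial_pos w
  set c : ℝ := e / (2 * q * (k + 1) * W * C) with hc
  have hk0 : (0 : ℝ) < (k : ℝ) + 1 := by positivity
  have hc0 : 0 < c := by positivity
  obtain ⟨v₀, hv₀⟩ := upper w hw2 (e / (4 * q ^ 2)) (by positivity)
  set v := max v₀ w with hv
  obtain ⟨N1, h1⟩ := hw₀ w v (le_max_left _ _) (le_max_right _ _)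
  obtain ⟨N2, h2⟩ := hv₀ v (le_max_left _ _) (le_max_right _ _)
  obtain ⟨N4, h4⟩ := Sm.cnt_univ (e / 4) (by positivity)
  have hw0 : (0 : ℝ) < w := by exact_mod_cast (show 0 < w by omega)
  have hlog : ∀ᶠ x : ℝ in Filter.atTop, w * Real.log x ≤ (e / 4) * x := by
    have h := Real.isLittleO_log_id_atTop.bound (show 0 < e / 4 / w by positivity)
    filter_upwards [h, Filter.eventually_ge_atTop (1 : ℝ)] with x hx hx1
    rw [Real.norm_of_nonneg (Real.log_nonneg hx1), id, Real.norm_of_nonneg (by linarith)] at hx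
    calc w * Real.log x ≤ w * (e / 4 / w * x) := mul_le_mul_of_nonneg_left hx hw0.le
      _ = (e / 4) * x := by field_simp
  obtain ⟨X, hX⟩ := Filter.eventually_atTop.1 hlog
  refine ⟨c, hc0, NC + N1 + N2 + N4 + ⌈X⌉₊ + 2 * q + ⌈2 / e⌉₊ + 2, fun N hN A hA => ?_⟩
  have hN0 : (0 : ℝ) < N := by exact_mod_cast (show 0 < N by omega)
  have hNX : X ≤ N := (Nat.le_ceil X).trans (by exact_mod_cast (show ⌈X⌉₊ ≤ N by omega))
  have hNe : 2 / e ≤ N := (Nat.le_ceil _).trans (by exact_mod_cast (show ⌈2 / e⌉₊ ≤ N by omega))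
  have heN : 2 ≤ e * N := by
    rw [div_le_iff₀ he0] at hNe
    linarith
  have hlN := hX N hNX
  have hlN0 : 0 ≤ Real.log N := Real.log_nonneg (by exact_mod_cast (show 1 ≤ N by omega))
  have hC' := hC N (by omega)
  have h1' := h1 N (by omega)
  have h4' := h4 N (by omega) (N / 2) (Nat.div_le_self _ _)
  set H := N / q with hH
  have hqpos : 0 < q := by omega
  have hH1 : 1 ≤ H := by
    rw [hH, Nat.one_le_div_iff hqpos]
    omega
  have hHN : H ≤ N := Nat.div_le_self _ _
  have h2' := h2 N (by omega) H hHN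
  have hHr1 : (1 : ℝ) ≤ H := by exact_mod_cast hH1
  have hHr0 : (0 : ℝ) < H := by linarith
  have hHq : (H : ℝ) * q ≤ N := by exact_mod_cast Nat.div_mul_le_self N q
  have hHq2 : (N : ℝ) ≤ 2 * q * H := by
    have h3 : N < (H + 1) * q := by
      have := Nat.lt_mul_div_succ N hqpos
      rw [mul_comm]
      exact this
    have h5 : (N : ℝ) ≤ (H + 1) * q := by exact_mod_cast h3.le
    nlinarith only [h5, mul_nonneg (sub_nonneg.2 hHr1) hq0.le]
  have hHe : (H : ℝ) ≤ e / 2 * N := by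
    have h3 : (2 : ℝ) ≤ e * q := by
      rw [div_le_iff₀ he0] at hqe
      linarith
    nlinarith only [mul_le_mul_of_nonneg_left h3 hHr0.le, mul_le_mul_of_nonneg_left hHq he0.le]
  set M := N / 2 with hM
  have hM0 : (0 : ℝ) ≤ M := Nat.cast_nonneg _
  have hM1 : (N : ℝ) / 2 - 1 ≤ M := by
    have h3 : N < (M + 1) * 2 := by
      have := Nat.lt_mul_div_succ N (show 0 < 2 by norm_num)
      rw [mul_comm]
      exact this
    have h5 : (N : ℝ) ≤ (M + 1) * 2 := by exact_mod_cast h3.le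
    linarith
  have hMN : (M : ℝ) ≤ N := by exact_mod_cast Nat.div_le_self N 2
  set α : Fin k → ℝ := fun i => (cntB (A i) M : ℝ) / cntB Set.univ M with hα
  have hα0 : ∀ i, 0 ≤ α i := fun i => by simp only [hα]; positivity
  have hαle : ∀ i, α i ≤ 1 := fun i => by
    simp only [hα]
    refine div_le_one_of_le₀ ?_ (Nat.cast_nonneg _)
    exact_mod_cast cntB_le_univ (A i) M
  have hαsum : ∑ i, α i ≤ 1 := by
    simp only [hα]
    rw [← Finset.sum_div]
    refine div_le_one_of_le₀ ?_ (Nat.cast_nonneg _)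
    exact_mod_cast cntB_sum k A hA M
  have hαcnt : ∀ i, α i * cntB Set.univ M = cntB (A i) M := fun i => by
    simp only [hα]
    rcases Nat.eq_zero_or_pos (cntB Set.univ M) with h0 | h0
    · have h3 : cntB (A i) M = 0 := by
        have := cntB_le_univ (A i) M
        omega
      rw [h0, h3]; simp
    · have : (cntB Set.univ M : ℝ) ≠ 0 := by exact_mod_cast h0.ne'
      field_simp
  set S := ∑ i, α i ^ 2 with hS
  have hS0 : 0 ≤ S := Finset.sum_nonneg fun i _ => sq_nonneg _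
  have hS1 : S ≤ 1 := by
    refine le_trans (Finset.sum_le_sum fun i _ => ?_) hαsum
    have h3 := hα0 i
    have h5 := hαle i
    nlinarith only [h3, h5]
  set E := (Icc 1 N).filter (fun n => 2 ∣ n) with hE
  -- lower bound
  have hlow : ∀ i, (H : ℝ) ^ 2 * (α i ^ 2 * (M : ℝ) ^ 2 - 4 * (e / 4 * N) * M * α i) / ((M : ℝ) + H) ≤
      ∑ n ∈ E, mass w N H (A i) n := by
    intro i
    have h3 := mass_low w N H hw2 hH1 (A i)
    refine le_trans ?_ h3
    have h5 := om_card w N (A i)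
    have h6 : α i * M - 2 * (e / 4) * N ≤ Real.log N * (Om w N (A i)).card := by
      have h7 : Real.log N * ((cntB (A i) M : ℝ) - w) ≤ Real.log N * (Om w N (A i)).card :=
        mul_le_mul_of_nonneg_left h5 hlN0
      have h8 : (M : ℝ) - e / 4 * N ≤ Real.log N * cntB Set.univ M := by
        have := (abs_le.1 h4').1
        linarith
      have h9 : α i * (M - e / 4 * N) ≤ α i * (Real.log N * cntB Set.univ M) :=
        mul_le_mul_of_nonneg_left h8 (hα0 i)
      have h10 : α i * (Real.log N * cntB Set.univ M) = Real.log N * cntB (A i) M := by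
        rw [← hαcnt i]; ring
      have h11 : α i * (e / 4 * N) ≤ e / 4 * N := by
        exact mul_le_of_le_one_left (by positivity) (hαle i)
      nlinarith only [h7, h9, h10, h11, hlN]
    have h12 := sq_low (α i) M (e / 4) N (Real.log N * (Om w N (A i)).card) (hα0 i) hM0
      (by positivity) h6 (by positivity)
    rw [mul_pow]
    refine div_le_div_of_nonneg_right ?_ (by positivity)
    exact mul_le_mul_of_nonneg_left h12 (by positivity)
  have hT1 : (H : ℝ) ^ 2 * ((N : ℝ) / 2 * S - 1 - H - e * N) ≤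
      ∑ n ∈ E, ∑ i, mass w N H (A i) n := by
    rw [Finset.sum_comm]
    refine le_trans ?_ (Finset.sum_le_sum fun i _ => hlow i)
    rw [← Finset.sum_div, ← Finset.mul_sum, mul_div_assoc]
    refine mul_le_mul_of_nonneg_left ?_ (by positivity)
    rw [Finset.sum_sub_distrib, ← Finset.sum_mul, ← Finset.mul_sum, ← hS,
      le_div_iff₀ (by positivity)]
    have h3 : 4 * (e / 4 * N) * M * ∑ i, α i ≤ 4 * (e / 4 * N) * M * 1 :=
      mul_le_mul_of_nonneg_left hαsum (by positivity)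
    have h5 : ((N : ℝ) / 2 * S - 1 - H - e * N) * ((M : ℝ) + H) ≤
        (M * S - H * S - e * N) * (M + H) := by
      refine mul_le_mul_of_nonneg_right ?_ (by positivity)
      nlinarith only [mul_le_mul_of_nonneg_right hM1 hS0, hS1, mul_le_mul_of_nonneg_left hS1 hHr0.le]
    have h6 : ((M : ℝ) * S - H * S - e * N) * (M + H) ≤ S * (M : ℝ) ^ 2 - 4 * (e / 4 * N) * M * 1 := by
      have h7 : 0 ≤ S * (H : ℝ) ^ 2 := by positivity
      have h8 : 0 ≤ e * N * H := by positivity
      nlinarith only [h7, h8]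
    linarith
  -- upper bound
  set G := (Icc 1 N).filter (fun n => Even n ∧ ∃ i, c * size n ≤ (Sm.repsIn (A i) (A i) n : ℝ)) with hG
  have hpt : ∀ n ∈ E, ∑ i, mass w N H (A i) n ≤
      (H : ℝ) ^ 2 * (if n ∈ G then 1 else 0) + (H : ℝ) ^ 2 * |Pi2 w v n - 1| +
      max 0 (mass w N H Set.univ n - (H : ℝ) ^ 2 * Pi2 w v n) +
      k * c * (W * H) * (Real.log N ^ 2 * size n) := by
    intro n hn
    have hsz : 0 ≤ size n := by unfold size; positivity
    have hmx : 0 ≤ max 0 (mass w N H Set.univ n - (H : ℝ) ^ 2 * Pi2 w v n) := le_max_left _ _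
    have hab : 0 ≤ (H : ℝ) ^ 2 * |Pi2 w v n - 1| := by positivity
    have hlast : 0 ≤ k * c * (W * H) * (Real.log N ^ 2 * size n) := by positivity
    by_cases hnG : n ∈ G
    · rw [if_pos hnG]
      have h3 := mass_disj w N H k A hA n
      have h5 : mass w N H Set.univ n ≤ (H : ℝ) ^ 2 * Pi2 w v n +
          max 0 (mass w N H Set.univ n - (H : ℝ) ^ 2 * Pi2 w v n) := by
        have := le_max_right 0 (mass w N H Set.univ n - (H : ℝ) ^ 2 * Pi2 w v n)
        linarith
      have h6 : (H : ℝ) ^ 2 * Pi2 w v n ≤ (H : ℝ) ^ 2 * 1 + (H : ℝ) ^ 2 * |Pi2 w v n - 1| := by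
        have := le_abs_self (Pi2 w v n - 1)
        have h7 : (H : ℝ) ^ 2 * Pi2 w v n ≤ (H : ℝ) ^ 2 * (1 + |Pi2 w v n - 1|) :=
          mul_le_mul_of_nonneg_left (by linarith) (by positivity)
        linarith
      linarith
    · rw [if_neg hnG]
      have h3 : ∀ i, (Sm.repsIn (A i) (A i) n : ℝ) ≤ c * size n := by
        intro i
        by_contra h5
        push Not at h5
        apply hnG
        rw [hG, Finset.mem_filter]
        rw [hE, Finset.mem_filter] at hn
        exact ⟨hn.1, even_iff_two_dvd.2 hn.2, i, h5.le⟩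
      have h5 : ∀ i ∈ (Finset.univ : Finset (Fin k)), mass w N H (A i) n ≤
          c * (W * H) * (Real.log N ^ 2 * size n) := by
        intro i _
        refine (mass_le w N H (A i) n).trans ?_
        calc Real.log N ^ 2 * (primorial w * H) * Sm.repsIn (A i) (A i) n
            ≤ Real.log N ^ 2 * (primorial w * H) * (c * size n) :=
              mul_le_mul_of_nonneg_left (h3 i) (by positivity)
          _ = c * (W * H) * (Real.log N ^ 2 * size n) := by rw [hW]; ring
      have h6 := Finset.sum_le_sum h5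
      rw [Finset.sum_const, Finset.card_univ, Fintype.card_fin, nsmul_eq_mul] at h6
      have h7 : (k : ℝ) * (c * (W * H) * (Real.log N ^ 2 * size n)) =
          k * c * (W * H) * (Real.log N ^ 2 * size n) := by ring
      rw [h7] at h6
      linarith
  have hT2 : ∑ n ∈ E, ∑ i, mass w N H (A i) n ≤
      (H : ℝ) ^ 2 * G.card + (H : ℝ) ^ 2 * (e * N) + e / (4 * q ^ 2) * (N : ℝ) ^ 3 +
      k * c * (W * H) * (C * (N : ℝ) ^ 2) := by
    refine (Finset.sum_le_sum hpt).trans ?_
    rw [Finset.sum_add_distrib, Finset.sum_add_distrib, Finset.sum_add_distrib, ← Finset.mul_sum,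
      ← Finset.mul_sum, ← Finset.mul_sum]
    have h3 : ∑ n ∈ E, (if n ∈ G then (1 : ℝ) else 0) ≤ G.card := by
      rw [Finset.sum_ite, Finset.sum_const_zero, add_zero, Finset.sum_const, nsmul_eq_mul, mul_one]
      have : (E.filter (fun n => n ∈ G)).card ≤ G.card := Finset.card_le_card (by
        intro n hn
        exact (Finset.mem_filter.1 hn).2)
      exact_mod_cast this
    have h5 := mul_le_mul_of_nonneg_left h3 (show (0 : ℝ) ≤ (H : ℝ) ^ 2 by positivity)
    have h6 := mul_le_mul_of_nonneg_left h1' (show (0 : ℝ) ≤ (H : ℝ) ^ 2 by positivity)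
    have h7 := mul_le_mul_of_nonneg_left hC' (show (0 : ℝ) ≤ k * c * (W * H) from
      mul_nonneg (mul_nonneg (Nat.cast_nonneg _) hc0.le) (mul_nonneg hW0.le hHr0.le))
    linarith
  -- conclusion
  have h3 : e / (4 * q ^ 2) * (N : ℝ) ^ 3 ≤ (H : ℝ) ^ 2 * (e * N) := by
    have h5 : (N : ℝ) ^ 2 ≤ (2 * q * H) ^ 2 := pow_le_pow_left₀ hN0.le hHq2 2
    calc e / (4 * q ^ 2) * (N : ℝ) ^ 3 = e / (4 * q ^ 2) * N * (N : ℝ) ^ 2 := by ring
      _ ≤ e / (4 * q ^ 2) * N * (2 * q * H) ^ 2 := mul_le_mul_of_nonneg_left h5 (by positivity)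
      _ = (H : ℝ) ^ 2 * (e * N) := by field_simp; ring
  have h5 : k * c * (W * H) * (C * (N : ℝ) ^ 2) ≤ (H : ℝ) ^ 2 * (e * N) := by
    have h6 : k * c * (W * H) * (C * (N : ℝ) ^ 2) = (k * c * W * C * H * N) * N := by ring
    rw [h6]
    calc (k * c * W * C * H * N) * N ≤ (k * c * W * C * H * N) * (2 * q * H) :=
          mul_le_mul_of_nonneg_left hHq2 (by positivity)
      _ ≤ ((k + 1) * c * W * C * H * N) * (2 * q * H) := by
          refine mul_le_mul_of_nonneg_right ?_ (by positivity)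
          have h8 : 0 ≤ c * W * C * H * N := by positivity
          nlinarith only [h8]
      _ = (H : ℝ) ^ 2 * (e * N) := by
          rw [hc]
          field_simp
  have h6 : (H : ℝ) ^ 2 * ((N : ℝ) / 2 * S - 1 - H - e * N) ≤
      (H : ℝ) ^ 2 * (G.card + e * N + e * N + e * N) := by
    have h8 := hT1.trans hT2
    nlinarith only [h8, h3, h5]
  have h7 := le_of_mul_le_mul_left h6 (by positivity)
  have h8 : ε = 20 * e := by rw [he]; ring
  rw [h8]
  nlinarith only [h7, hHe, heN]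

end Pool.Agent.Lib.MP_629a14_nt.Col
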