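import Pool.Agent.Lib.MP_629a14_nt.Col.Crtp
import Pool.Agent.Lib.MP_629a14_nt.Col.Defs

/-! The moments of the local density. -/

set_option autoImplicit false

namespace Pool.Agent.Lib.MP_629a14_nt.Col

open Finset

private theorem piMom_sum {p : ℕ} (hp : p.Prime) (a b : ℝ) :
    ∑ x ∈ range p, (if (x : ZMod p) = 0 then a else b) = a + ((p : ℝ) - 1) * b := by
  obtain ⟨q, rfl⟩ := Nat.exists_eq_succ_of_ne_zero hp.ne_zero
  rw [sum_range_succ']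
  have h1 : ∀ x ∈ range q, (if (((x + 1 : ℕ) : ZMod (q + 1)) = 0) then a else b) = b := by
    intro x hx
    rw [if_neg]
    intro h
    rw [ZMod.natCast_eq_zero_iff] at h
    have := Nat.le_of_dvd (Nat.succ_pos _) h
    have := mem_range.1 hx
    omega
  rw [sum_congr rfl h1]
  simp
  ring

private theorem piMom_dvd (p n : ℕ) : (n : ZMod p) = 0 ↔ p ∣ n := ZMod.natCast_eq_zero_iff n p

private theorem piMom_prod (w : ℕ) (hw : 2 ≤ w) (v : ℕ) (hv : w ≤ v) :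
    (∏ p ∈ (Ioc w v).filter Nat.Prime, (1 + 1 / ((p : ℝ) - 1) ^ 3)) * (1 + 4 / (v : ℝ)) ≤
      1 + 4 / (w : ℝ) := by
  induction v, hv using Nat.le_induction with
  | base => simp
  | succ v hv ih =>
    have hv0 : (2 : ℝ) ≤ v := by exact_mod_cast hw.trans hv
    have hQ : 0 ≤ ∏ p ∈ (Ioc w v).filter Nat.Prime, (1 + 1 / ((p : ℝ) - 1) ^ 3) := by
      refine prod_nonneg fun p hp => ?_
      have h1 : (1 : ℝ) ≤ p := by
        exact_mod_cast (mem_filter.1 hp).2.one_le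
      have h2 : 0 ≤ (p : ℝ) - 1 := by linarith
      positivity
    have hstep : ∏ p ∈ (Ioc w (v + 1)).filter Nat.Prime, (1 + 1 / ((p : ℝ) - 1) ^ 3) ≤
        (∏ p ∈ (Ioc w v).filter Nat.Prime, (1 + 1 / ((p : ℝ) - 1) ^ 3)) *
          (1 + 1 / (v : ℝ) ^ 3) := by
      have h3 : Ioc w (v + 1) = insert (v + 1) (Ioc w v) := by
        ext x
        simp only [mem_Ioc, mem_insert]
        omega
      rw [h3, filter_insert]
      split_ifs with h4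
      · rw [prod_insert (by simp)]
        push_cast
        rw [add_sub_cancel_right, mul_comm]
      · have h5 : (0 : ℝ) ≤ 1 / (v : ℝ) ^ 3 := by positivity
        nlinarith [mul_nonneg hQ h5]
    have hkey : (1 + 1 / (v : ℝ) ^ 3) * (1 + 4 / ((v + 1 : ℕ) : ℝ)) ≤ 1 + 4 / (v : ℝ) := by
      push_cast
      have h6 : (0 : ℝ) < v := by linarith
      have h7 : (0 : ℝ) < (v : ℝ) + 1 := by linarith
      rw [← sub_nonneg]
      have h8 : 1 + 4 / (v : ℝ) - (1 + 1 / (v : ℝ) ^ 3) * (1 + 4 / ((v : ℝ) + 1)) =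
          (4 * (v : ℝ) ^ 2 - v - 5) / ((v : ℝ) ^ 3 * (v + 1)) := by
        field_simp
        ring
      rw [h8]
      apply div_nonneg
      · nlinarith
      · positivity
    have h9 : (0 : ℝ) ≤ 1 + 4 / ((v + 1 : ℕ) : ℝ) := by positivity
    calc (∏ p ∈ (Ioc w (v + 1)).filter Nat.Prime, (1 + 1 / ((p : ℝ) - 1) ^ 3)) *
          (1 + 4 / ((v + 1 : ℕ) : ℝ))
        ≤ ((∏ p ∈ (Ioc w v).filter Nat.Prime, (1 + 1 / ((p : ℝ) - 1) ^ 3)) *
          (1 + 1 / (v : ℝ) ^ 3)) * (1 + 4 / ((v + 1 : ℕ) : ℝ)) :=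
          mul_le_mul_of_nonneg_right hstep h9
      _ = (∏ p ∈ (Ioc w v).filter Nat.Prime, (1 + 1 / ((p : ℝ) - 1) ^ 3)) *
          ((1 + 1 / (v : ℝ) ^ 3) * (1 + 4 / ((v + 1 : ℕ) : ℝ))) := by ring
      _ ≤ (∏ p ∈ (Ioc w v).filter Nat.Prime, (1 + 1 / ((p : ℝ) - 1) ^ 3)) *
          (1 + 4 / (v : ℝ)) := mul_le_mul_of_nonneg_left hkey hQ
      _ ≤ 1 + 4 / (w : ℝ) := ih

/-- `crt_prod` with the factors of `Pi2`; the local sum is `p/(p-1) + (p-1) p (p-2)/(p-1)² = p`. -/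
theorem pi_one (w v : ℕ) : ∑ n ∈ range (∏ p ∈ (Ioc w v).filter Nat.Prime, p), Pi2 w v n =
    ∏ p ∈ (Ioc w v).filter Nat.Prime, (p : ℝ) := by
  have h1 := crt_prod ((Ioc w v).filter Nat.Prime) (fun p hp => (mem_filter.1 hp).2)
    (fun p x => if x = 0 then (p : ℝ) / ((p : ℝ) - 1) else
      (p : ℝ) * ((p : ℝ) - 2) / ((p : ℝ) - 1) ^ 2)
  simp only [piMom_dvd] at h1
  unfold Pi2
  rw [h1]
  refine prod_congr rfl fun p hp => ?_
  have hp' := (mem_filter.1 hp).2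
  have h2 := piMom_sum hp' ((p : ℝ) / ((p : ℝ) - 1))
    ((p : ℝ) * ((p : ℝ) - 2) / ((p : ℝ) - 1) ^ 2)
  simp only [piMom_dvd] at h2
  rw [h2]
  have h3 : (1 : ℝ) < p := by exact_mod_cast hp'.one_lt
  have h4 : (p : ℝ) - 1 ≠ 0 := by linarith
  field_simp
  ring

/-- `crt_prod` with the squares of the factors; the local sum is
`p²/(p-1)² + (p-1) p² (p-2)²/(p-1)⁴ = p (1 + 1/(p-1)³)`, and
`∏_{w < p ≤ v} (1 + 1/(p-1)³) ≤ exp (∑_{m ≥ w} 1/m³) ≤ 1 + 4/w` for `w ≥ 2` (as `w < p`, `p - 1 ≥ w`, and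
`∑_{m ≥ w} 1/m³ ≤ 2/w²`, `exp t ≤ 1 + 2 t` for `t ≤ 1`). -/
theorem pi_two (w v : ℕ) (hw : 2 ≤ w) :
    ∑ n ∈ range (∏ p ∈ (Ioc w v).filter Nat.Prime, p), Pi2 w v n ^ 2 ≤
      (1 + 4 / (w : ℝ)) * ∏ p ∈ (Ioc w v).filter Nat.Prime, (p : ℝ) := by
  have h1 := crt_prod ((Ioc w v).filter Nat.Prime) (fun p hp => (mem_filter.1 hp).2)
    (fun p x => if x = 0 then ((p : ℝ) / ((p : ℝ) - 1)) ^ 2 else
      ((p : ℝ) * ((p : ℝ) - 2) / ((p : ℝ) - 1) ^ 2) ^ 2)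
  simp only [piMom_dvd] at h1
  have h0 : ∀ n, Pi2 w v n ^ 2 = ∏ p ∈ (Ioc w v).filter Nat.Prime,
      (if p ∣ n then ((p : ℝ) / ((p : ℝ) - 1)) ^ 2 else
        ((p : ℝ) * ((p : ℝ) - 2) / ((p : ℝ) - 1) ^ 2) ^ 2) := by
    intro n
    unfold Pi2
    rw [← prod_pow]
    refine prod_congr rfl fun p _ => ?_
    split_ifs <;> rfl
  simp only [h0]
  rw [h1]
  have h5 : ∏ p ∈ (Ioc w v).filter Nat.Prime, ∑ x ∈ range p,
      (if p ∣ x then ((p : ℝ) / ((p : ℝ) - 1)) ^ 2 else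
        ((p : ℝ) * ((p : ℝ) - 2) / ((p : ℝ) - 1) ^ 2) ^ 2) =
      (∏ p ∈ (Ioc w v).filter Nat.Prime, (1 + 1 / ((p : ℝ) - 1) ^ 3)) *
        ∏ p ∈ (Ioc w v).filter Nat.Prime, (p : ℝ) := by
    rw [← prod_mul_distrib]
    refine prod_congr rfl fun p hp => ?_
    have hp' := (mem_filter.1 hp).2
    have h2 := piMom_sum hp' (((p : ℝ) / ((p : ℝ) - 1)) ^ 2)
      (((p : ℝ) * ((p : ℝ) - 2) / ((p : ℝ) - 1) ^ 2) ^ 2)
    simp only [piMom_dvd] at h2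
    rw [h2]
    have h3 : (1 : ℝ) < p := by exact_mod_cast hp'.one_lt
    have h4 : (p : ℝ) - 1 ≠ 0 := by linarith
    field_simp
    ring
  rw [h5]
  refine mul_le_mul_of_nonneg_right ?_ (prod_nonneg fun p _ => Nat.cast_nonneg p)
  have hw0 : (0 : ℝ) ≤ 4 / (w : ℝ) := by positivity
  rcases le_total w v with hv | hv
  · have h6 := piMom_prod w hw v hv
    have hQ : 0 ≤ ∏ p ∈ (Ioc w v).filter Nat.Prime, (1 + 1 / ((p : ℝ) - 1) ^ 3) := by
      refine prod_nonneg fun p hp => ?_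
      have h1 : (1 : ℝ) ≤ p := by
        exact_mod_cast (mem_filter.1 hp).2.one_le
      have h2 : 0 ≤ (p : ℝ) - 1 := by linarith
      positivity
    have h7 : (0 : ℝ) ≤ 4 / (v : ℝ) := by positivity
    nlinarith [mul_nonneg hQ h7]
  · rw [Ioc_eq_empty (by omega)]
    simp only [filter_empty, prod_empty]
    linarith only [hw0]

end Pool.Agent.Lib.MP_629a14_nt.Col
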