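import Pool.Agent.Lib.MP_629a14_nt.Col.Psd

/-! The kernel is at least the constant kernel `1`. -/

set_option autoImplicit false

namespace Pool.Agent.Lib.MP_629a14_nt.Col

open Finset

private lemma mem_OP {w r : ℕ} (h : r ∈ OP w) : 3 ≤ r ∧ r ≤ w ∧ r.Prime := by
  unfold OP at h
  rw [mem_filter, mem_Icc] at h
  exact ⟨h.1.1, h.1.2, h.2⟩

/-- Induction over the subsets of `OP w` with `psd_step` (empty product: equality). -/
theorem kk_psd (w : ℕ) (Ω : Finset ℕ) (hΩ : ∀ x ∈ Ω, ∀ r ∈ OP w, ¬ r ∣ x) (g : ℕ → ℝ) :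
    (∑ x ∈ Ω, g x) ^ 2 ≤ ∑ x ∈ Ω, ∑ y ∈ Ω, KK w (x : ℤ) (y : ℤ) * (g x * g y) := by
  have key : ∀ T : Finset ℕ, T ⊆ OP w → ∀ g : ℕ → ℝ,
      (∑ x ∈ Ω, g x) ^ 2 ≤ ∑ x ∈ Ω, ∑ y ∈ Ω,
        (∏ r ∈ T, kapp r (((x : ℕ) : ℤ) : ZMod r) (((y : ℕ) : ℤ) : ZMod r)) * (g x * g y) := by
    intro T
    induction T using Finset.induction_on with
    | empty =>
      intro _ g
      simp only [prod_empty, one_mul]
      rw [sq, Finset.sum_mul_sum]
    | insert r T hr ih =>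
      intro hT g
      have hrO : r ∈ OP w := hT (mem_insert_self _ _)
      obtain ⟨h3, -, hp⟩ := mem_OP hrO
      have h := psd_step r hp h3 Ω (fun x hx => hΩ x hx r hrO)
        (fun x y => ∏ r ∈ T, kapp r (((x : ℕ) : ℤ) : ZMod r) (((y : ℕ) : ℤ) : ZMod r))
        (ih ((subset_insert _ _).trans hT)) g
      simp only [prod_insert hr]
      exact h
  exact key (OP w) le_rfl g

private lemma kapp_nonneg {r : ℕ} (h3 : 3 ≤ r) (a b : ZMod r) : 0 ≤ kapp r a b := by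
  have hr : (3 : ℝ) ≤ r := by exact_mod_cast h3
  have h1 : 1 / (r : ℝ) ≤ 1 := by
    rw [div_le_one (by linarith)]
    linarith
  have h2 : 0 ≤ 1 / (r : ℝ) := by positivity
  unfold kapp
  have h4 : (0 : ℝ) ≤ if a = b then 1 else 0 := by split_ifs <;> norm_num
  have h5 : (0 : ℝ) ≤ if a + b = 0 then 1 else 0 := by split_ifs <;> norm_num
  exact mul_nonneg (by linarith) (add_nonneg (mul_nonneg (by linarith) h4) (mul_nonneg h2 h5))

private lemma kapp_le {r : ℕ} (h3 : 3 ≤ r) (a b : ZMod r) : kapp r a b ≤ r := by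
  have hr : (3 : ℝ) ≤ r := by exact_mod_cast h3
  have h1 : 1 / (r : ℝ) ≤ 1 := by
    rw [div_le_one (by linarith)]
    linarith
  have h2 : 0 ≤ 1 / (r : ℝ) := by positivity
  unfold kapp
  have h4 : (if a = b then 1 else 0 : ℝ) ≤ 1 := by split_ifs <;> norm_num
  have h5 : (if a + b = 0 then 1 else 0 : ℝ) ≤ 1 := by split_ifs <;> norm_num
  have h6 : (1 - 1 / (r : ℝ)) * (if a = b then 1 else 0) + (1 / (r : ℝ)) * (if a + b = 0 then 1 else 0) ≤ 1 := by
    have k1 : (1 - 1 / (r : ℝ)) * (if a = b then 1 else 0) ≤ (1 - 1 / (r : ℝ)) * 1 :=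
      mul_le_mul_of_nonneg_left h4 (by linarith)
    have k2 : (1 / (r : ℝ)) * (if a + b = 0 then 1 else 0) ≤ (1 / (r : ℝ)) * 1 :=
      mul_le_mul_of_nonneg_left h5 h2
    linarith
  calc _ ≤ ((r : ℝ) - 1) * 1 := mul_le_mul_of_nonneg_left h6 (by linarith)
    _ ≤ r := by linarith

/-- The kernel is nonnegative. -/
theorem kk_nonneg (w : ℕ) (x y : ℤ) : 0 ≤ KK w x y := by
  unfold KK
  exact prod_nonneg fun r hr => kapp_nonneg (mem_OP hr).1 _ _

/-- Each factor is at most `r - 1 ≤ r` (both conditions may hold only if the residues vanish, and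
`(1 - 1/r) + 1/r = 1`). -/
theorem kk_le (w : ℕ) (x y : ℤ) : KK w x y ≤ primorial w := by
  unfold KK primorial
  have h1 : ∏ r ∈ OP w, kapp r (x : ZMod r) (y : ZMod r) ≤ ∏ r ∈ OP w, (r : ℝ) :=
    prod_le_prod (fun r hr => kapp_nonneg (mem_OP hr).1 _ _) fun r hr => kapp_le (mem_OP hr).1 _ _
  refine h1.trans ?_
  rw [← Nat.cast_prod]
  have h2 : ∏ r ∈ OP w, r ≤ ∏ p ∈ range (w + 1) with p.Prime, p := by
    apply Finset.prod_le_prod_of_subset_of_one_le'
    · intro r hr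
      obtain ⟨-, h, hp⟩ := mem_OP hr
      rw [mem_filter, mem_range]
      exact ⟨by omega, hp⟩
    · intro r hr _
      exact (mem_filter.1 hr).2.one_le
  exact_mod_cast h2

end Pool.Agent.Lib.MP_629a14_nt.Col
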