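import Pool.Agent.Lib.MP_629a14_nt.Col.ResSum
import Pool.Agent.Lib.MP_629a14_nt.Col.PsdAll
import Pool.Agent.Lib.MP_629a14_nt.Rob.PiAP

/-! The sum over the primes of an interval with the weight `nu`. -/

set_option autoImplicit false

namespace Pool.Agent.Lib.MP_629a14_nt.Col

open Finset Pool.Agent.Lib.MP_629a14_nt Pool.Agent.Lib.MP_629a14_nt.Rob

private theorem PrimeNu_kk (w v : ℕ) (hwv : w ≤ v) (n b : ℕ) :
    KK w (b : ℤ) ((n : ℤ) - b) =
      KK w ((b % primorial v : ℕ) : ℤ) ((n : ℤ) - ((b % primorial v : ℕ) : ℤ)) := by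
  unfold KK
  refine Finset.prod_congr rfl fun r hr => ?_
  unfold OP at hr
  rw [mem_filter, mem_Icc] at hr
  have hrV : r ∣ primorial v := (hr.2.dvd_primorial_iff).2 (hr.1.2.trans hwv)
  have h1 : ((b : ℕ) : ZMod r) = ((b % primorial v : ℕ) : ZMod r) := by
    rw [ZMod.natCast_eq_natCast_iff]
    exact ((Nat.mod_modEq b (primorial v)).of_dvd hrV).symm
  have h2 : (((b : ℕ) : ℤ) : ZMod r) = (((b % primorial v : ℕ) : ℤ) : ZMod r) := by
    rw [Int.cast_natCast, Int.cast_natCast]
    exact h1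
  have h3 : ((((n : ℤ) - ((b : ℕ) : ℤ)) : ℤ) : ZMod r) =
      ((((n : ℤ) - ((b % primorial v : ℕ) : ℤ)) : ℤ) : ZMod r) := by
    rw [Int.cast_sub, Int.cast_sub, h2]
  rw [h2, h3]

open Classical in
private noncomputable def PrimeNu_G (w v n β : ℕ) : ℝ :=
  if IsCoprime ((n : ℤ) - β) (primorial v : ℤ) then KK w (β : ℤ) ((n : ℤ) - β) else 0

private theorem PrimeNu_G_nonneg (w v n β : ℕ) : 0 ≤ PrimeNu_G w v n β := by
  unfold PrimeNu_G
  split_ifs
  · exact kk_nonneg _ _ _
  · exact le_rfl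

private theorem PrimeNu_G_le (w v n β : ℕ) (hwv : w ≤ v) : PrimeNu_G w v n β ≤ primorial v := by
  unfold PrimeNu_G
  split_ifs
  · refine (kk_le w _ _).trans ?_
    have : primorial w ≤ primorial v := primorial_mono hwv
    exact_mod_cast this
  · positivity

private theorem PrimeNu_nu (w v : ℕ) (hwv : w ≤ v) (n b : ℕ) (hb : b ≤ n) :
    KK w (b : ℤ) ((n : ℤ) - b) * nu v (n - b) =
      ((primorial v : ℝ) / (primorial v).totient) * PrimeNu_G w v n (b % primorial v) := by
  classical
  have h1 := PrimeNu_kk w v hwv n b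
  have hc : IsCoprime ((n : ℤ) - ((b % primorial v : ℕ) : ℤ)) (primorial v : ℤ) ↔
      Nat.Coprime (n - b) (primorial v) := by
    have h2 : (n : ℤ) - ((b % primorial v : ℕ) : ℤ) = ((n - b : ℕ) : ℤ) +
        (primorial v : ℤ) * ((b / primorial v : ℕ) : ℤ) := by
      have h3 := Nat.mod_add_div b (primorial v)
      have h4 : ((b % primorial v : ℕ) : ℤ) + (primorial v : ℤ) * ((b / primorial v : ℕ) : ℤ) =
          (b : ℤ) := by exact_mod_cast h3
      rw [Nat.cast_sub hb]
      linarith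
    rw [h2, IsCoprime.add_mul_left_left_iff, Nat.isCoprime_iff_coprime]
  unfold nu PrimeNu_G
  by_cases h : Nat.Coprime (n - b) (primorial v)
  · rw [if_pos h, if_pos (hc.2 h), h1]
    ring
  · rw [if_neg h, if_neg (fun h' => h (hc.1 h'))]
    ring

private theorem PrimeNu_tot (v : ℕ) : (1 : ℝ) ≤ (primorial v).totient := by
  have := Nat.totient_pos.2 (primorial_pos v)
  exact_mod_cast this

private theorem PrimeNu_ratio (v : ℕ) : (primorial v : ℝ) / (primorial v).totient ≤ primorial v :=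
  div_le_self (by positivity) (PrimeNu_tot v)

/-- number of primes of a class in an interval -/
private theorem PrimeNu_cnt (v x y β : ℕ) (hxy : x ≤ y) :
    |(((Ioc x y).filter (fun b => b.Prime ∧ v < b ∧ b % primorial v = β)).card : ℝ) -
      ((((Icc 1 y).filter (fun b => b.Prime ∧ b ≡ β [MOD primorial v])).card : ℝ) -
        (((Icc 1 x).filter (fun b => b.Prime ∧ b ≡ β [MOD primorial v])).card : ℝ))| ≤
      if β < primorial v then (v : ℝ) else (y : ℝ) := by
  classical
  by_cases hβ : β < primorial v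
  · rw [if_pos hβ]
    have e0 : ∀ b : ℕ, b % primorial v = β ↔ b ≡ β [MOD primorial v] := by
      intro b
      unfold Nat.ModEq
      rw [Nat.mod_eq_of_lt hβ]
    have h1 : (Icc 1 y).filter (fun b => b.Prime ∧ b ≡ β [MOD primorial v]) =
        (Icc 1 x).filter (fun b => b.Prime ∧ b ≡ β [MOD primorial v]) ∪
        ((Ioc x y).filter (fun b => b.Prime ∧ b ≡ β [MOD primorial v])) := by
      ext b
      simp only [mem_union, mem_filter, mem_Icc, mem_Ioc]
      constructor
      · rintro ⟨⟨h1, h2⟩, h3⟩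
        rcases le_or_gt b x with h | h
        · exact Or.inl ⟨⟨h1, h⟩, h3⟩
        · exact Or.inr ⟨⟨h, h2⟩, h3⟩
      · rintro (⟨⟨h1, h2⟩, h3⟩ | ⟨⟨h1, h2⟩, h3⟩)
        · exact ⟨⟨h1, h2.trans hxy⟩, h3⟩
        · exact ⟨⟨by omega, h2⟩, h3⟩
    have h1d : Disjoint ((Icc 1 x).filter (fun b => b.Prime ∧ b ≡ β [MOD primorial v]))
        ((Ioc x y).filter (fun b => b.Prime ∧ b ≡ β [MOD primorial v])) := by
      rw [Finset.disjoint_left]
      intro b hb1 hb2
      rw [mem_filter, mem_Icc] at hb1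
      rw [mem_filter, mem_Ioc] at hb2
      omega
    have h2 : (Ioc x y).filter (fun b => b.Prime ∧ b ≡ β [MOD primorial v]) =
        ((Ioc x y).filter (fun b => b.Prime ∧ v < b ∧ b % primorial v = β)) ∪
        ((Ioc x y).filter (fun b => b.Prime ∧ b ≤ v ∧ b % primorial v = β)) := by
      ext b
      simp only [mem_union, mem_filter, mem_Ioc, e0]
      constructor
      · rintro ⟨h1, h3, h4⟩
        rcases le_or_gt b v with h | h
        · exact Or.inr ⟨h1, h3, h, h4⟩
        · exact Or.inl ⟨h1, h3, h, h4⟩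
      · rintro (⟨h1, h2, h3, h4⟩ | ⟨h1, h2, h3, h4⟩)
        · exact ⟨h1, h2, h4⟩
        · exact ⟨h1, h2, h4⟩
    have h2d : Disjoint ((Ioc x y).filter (fun b => b.Prime ∧ v < b ∧ b % primorial v = β))
        ((Ioc x y).filter (fun b => b.Prime ∧ b ≤ v ∧ b % primorial v = β)) := by
      rw [Finset.disjoint_left]
      intro b hb1 hb2
      rw [mem_filter] at hb1 hb2
      omega
    have h3 : ((Ioc x y).filter (fun b => b.Prime ∧ b ≤ v ∧ b % primorial v = β)).card ≤ v := by
      have h4 : (Ioc x y).filter (fun b => b.Prime ∧ b ≤ v ∧ b % primorial v = β) ⊆ Icc 1 v := by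
        intro b hb
        rw [mem_filter, mem_Ioc] at hb
        rw [mem_Icc]
        omega
      have := Finset.card_le_card h4
      rwa [Nat.card_Icc, Nat.add_sub_cancel] at this
    rw [h1, Finset.card_union_of_disjoint h1d, h2, Finset.card_union_of_disjoint h2d]
    have h3' : (((Ioc x y).filter (fun b => b.Prime ∧ b ≤ v ∧ b % primorial v = β)).card : ℝ) ≤ v := by
      exact_mod_cast h3
    have h30 : (0 : ℝ) ≤ (((Ioc x y).filter (fun b => b.Prime ∧ b ≤ v ∧ b % primorial v = β)).card : ℝ) :=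
      Nat.cast_nonneg _
    push_cast
    rw [abs_le]
    constructor
    · linarith
    · linarith
  · rw [if_neg hβ]
    have h1 : (Ioc x y).filter (fun b => b.Prime ∧ v < b ∧ b % primorial v = β) = ∅ := by
      rw [Finset.filter_eq_empty_iff]
      intro b _ hb
      have := Nat.mod_lt b (primorial_pos v)
      omega
    rw [h1, Finset.card_empty]
    have h2 : (((Icc 1 y).filter (fun b => b.Prime ∧ b ≡ β [MOD primorial v])).card : ℝ) ≤ y := by
      have := Finset.card_filter_le (Icc 1 y) (fun b => b.Prime ∧ b ≡ β [MOD primorial v])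
      rw [Nat.card_Icc, Nat.add_sub_cancel] at this
      exact_mod_cast this
    have h3 : (((Icc 1 x).filter (fun b => b.Prime ∧ b ≡ β [MOD primorial v])).card : ℝ) ≤
        (((Icc 1 y).filter (fun b => b.Prime ∧ b ≡ β [MOD primorial v])).card : ℝ) := by
      have : (Icc 1 x).filter (fun b => b.Prime ∧ b ≡ β [MOD primorial v]) ⊆
          (Icc 1 y).filter (fun b => b.Prime ∧ b ≡ β [MOD primorial v]) := by
        refine Finset.filter_subset_filter _ ?_
        exact Finset.Icc_subset_Icc_right hxy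
      exact_mod_cast Finset.card_le_card this
    have h4 : (0 : ℝ) ≤ (((Icc 1 x).filter (fun b => b.Prime ∧ b ≡ β [MOD primorial v])).card : ℝ) :=
      Nat.cast_nonneg _
    rw [abs_le]
    constructor
    · push_cast; linarith
    · push_cast; linarith

/-- a prime beyond `v` is prime to the primorial -/
private theorem PrimeNu_cop (v b : ℕ) (hb : b.Prime) (hvb : v < b) : Nat.Coprime b (primorial v) := by
  rw [Nat.Prime.coprime_iff_not_dvd hb]
  intro h
  have := (hb.dvd_primorial_iff).1 h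
  omega

/-- the large primes, split according to the residue -/
private theorem PrimeNu_big (w v : ℕ) (hwv : w ≤ v) (N n x y : ℕ) (hyn : y ≤ n) :
    ∑ b ∈ (Ioc x y).filter (fun b => b.Prime ∧ v < b),
      Real.log N * (KK w (b : ℤ) ((n : ℤ) - b) * nu v (n - b)) =
    ((primorial v : ℝ) / (primorial v).totient) *
      ∑ β ∈ (range (primorial v)).filter (fun β => Nat.Coprime β (primorial v)),
        PrimeNu_G w v n β * (Real.log N *
          (((Ioc x y).filter (fun b => b.Prime ∧ v < b ∧ b % primorial v = β)).card : ℝ)) := by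
  classical
  have hmaps : ∀ b ∈ (Ioc x y).filter (fun b => b.Prime ∧ v < b),
      b % primorial v ∈ (range (primorial v)).filter (fun β => Nat.Coprime β (primorial v)) := by
    intro b hb
    rw [mem_filter] at hb
    rw [mem_filter, mem_range]
    refine ⟨Nat.mod_lt _ (primorial_pos v), ?_⟩
    have h1 := PrimeNu_cop v b hb.2.1 hb.2.2
    rw [Nat.Coprime, ← Nat.gcd_rec, Nat.gcd_comm]
    exact h1
  rw [← Finset.sum_fiberwise_of_maps_to hmaps, Finset.mul_sum]
  refine Finset.sum_congr rfl fun β _ => ?_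
  have h1 : ((Ioc x y).filter (fun b => b.Prime ∧ v < b)).filter (fun b => b % primorial v = β) =
      (Ioc x y).filter (fun b => b.Prime ∧ v < b ∧ b % primorial v = β) := by
    rw [Finset.filter_filter]
    refine Finset.filter_congr fun b _ => ?_
    tauto
  rw [h1]
  have h2 : ∀ b ∈ (Ioc x y).filter (fun b => b.Prime ∧ v < b ∧ b % primorial v = β),
      Real.log N * (KK w (b : ℤ) ((n : ℤ) - b) * nu v (n - b)) =
      Real.log N * (((primorial v : ℝ) / (primorial v).totient) * PrimeNu_G w v n β) := by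
    intro b hb
    rw [mem_filter, mem_Ioc] at hb
    rw [PrimeNu_nu w v hwv n b (hb.1.2.trans hyn), hb.2.2.2]
  rw [Finset.sum_congr rfl h2, Finset.sum_const, nsmul_eq_mul]
  ring

/-- the small primes -/
private theorem PrimeNu_small (w v : ℕ) (hwv : w ≤ v) (N n x y : ℕ) (hyn : y ≤ n) :
    |∑ b ∈ (Ioc x y).filter (fun b => b.Prime ∧ w < b ∧ b ≤ v),
      Real.log N * (KK w (b : ℤ) ((n : ℤ) - b) * nu v (n - b))| ≤
    (v : ℝ) * (Real.log N * ((primorial v : ℝ) * primorial v)) := by
  classical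
  have hlog : 0 ≤ Real.log N := Real.log_natCast_nonneg N
  have hV0 : (0 : ℝ) ≤ primorial v := by positivity
  have hφ : (0 : ℝ) ≤ (primorial v : ℝ) / (primorial v).totient := by positivity
  have hterm : ∀ b ∈ (Ioc x y).filter (fun b => b.Prime ∧ w < b ∧ b ≤ v),
      |Real.log N * (KK w (b : ℤ) ((n : ℤ) - b) * nu v (n - b))| ≤
      Real.log N * ((primorial v : ℝ) * primorial v) := by
    intro b hb
    rw [mem_filter, mem_Ioc] at hb
    rw [PrimeNu_nu w v hwv n b (hb.1.2.trans hyn)]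
    have h1 := PrimeNu_G_nonneg w v n (b % primorial v)
    have h2 := PrimeNu_G_le w v n (b % primorial v) hwv
    have h3 := PrimeNu_ratio v
    rw [abs_of_nonneg (by positivity)]
    refine mul_le_mul_of_nonneg_left ?_ hlog
    exact mul_le_mul h3 h2 h1 hV0
  have hcard : (((Ioc x y).filter (fun b => b.Prime ∧ w < b ∧ b ≤ v)).card : ℝ) ≤ v := by
    have h4 : (Ioc x y).filter (fun b => b.Prime ∧ w < b ∧ b ≤ v) ⊆ Icc 1 v := by
      intro b hb
      rw [mem_filter, mem_Ioc] at hb
      rw [mem_Icc]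
      omega
    have := Finset.card_le_card h4
    rw [Nat.card_Icc, Nat.add_sub_cancel] at this
    exact_mod_cast this
  calc |∑ b ∈ (Ioc x y).filter (fun b => b.Prime ∧ w < b ∧ b ≤ v),
      Real.log N * (KK w (b : ℤ) ((n : ℤ) - b) * nu v (n - b))|
      ≤ ∑ b ∈ (Ioc x y).filter (fun b => b.Prime ∧ w < b ∧ b ≤ v),
        |Real.log N * (KK w (b : ℤ) ((n : ℤ) - b) * nu v (n - b))| := Finset.abs_sum_le_sum_abs _ _
    _ ≤ ∑ b ∈ (Ioc x y).filter (fun b => b.Prime ∧ w < b ∧ b ≤ v),
        Real.log N * ((primorial v : ℝ) * primorial v) := Finset.sum_le_sum hterm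
    _ = (((Ioc x y).filter (fun b => b.Prime ∧ w < b ∧ b ≤ v)).card : ℝ) *
        (Real.log N * ((primorial v : ℝ) * primorial v)) := by rw [sum_const, nsmul_eq_mul]
    _ ≤ _ := mul_le_mul_of_nonneg_right hcard (by positivity)

/-- Let `V = primorial v`. The primes `b ≤ v` contribute at most `v log N (V/φ(V)) V`. For the primes
`b > v` (they are prime to `V`) split according to `b` modulo `V`: `KK w b (n - b) nu v (n - b)` depends only
on the residue `β` (`b ≤ n`; for `b = n` it vanishes, `V ≥ 2`), it is `(V/φ(V)) KK w β (n - β)` if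
`n - β` is prime to `V` and `0` otherwise. By `pi_unif` (for each of the finitely many `β`, with
`ε' = ε / (8 V³)` say) the number of primes of `(x, y]` in the class times `log N` is `(y - x)/φ(V)` up to
`2 ε' N`. Then `res_sum`. -/
theorem primeNu (w v : ℕ) (hw : 2 ≤ w) (hwv : w ≤ v) (ε : ℝ) (hε : 0 < ε) : ∃ N₀ : ℕ, ∀ N : ℕ,
    N₀ ≤ N → ∀ n : ℕ, n ≤ N → 2 ∣ n → ∀ x y : ℕ, x ≤ y → y ≤ n →
      |∑ b ∈ (Ioc x y).filter (fun b => b.Prime ∧ w < b),
        Real.log N * (KK w (b : ℤ) ((n : ℤ) - b) * nu v (n - b)) -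
          2 * ((y : ℝ) - x) * Pi2 w v n| ≤ ε * N := by
  classical
  obtain ⟨V, hV⟩ : ∃ V, V = primorial v := ⟨_, rfl⟩
  have hVpos : 0 < V := by rw [hV]; exact primorial_pos v
  have hV1 : (1 : ℝ) ≤ V := by exact_mod_cast hVpos
  have hV0 : (0 : ℝ) < V := by linarith
  obtain ⟨ε', hε'⟩ : ∃ ε' : ℝ, ε' = ε / (4 * (V : ℝ) ^ 3) := ⟨_, rfl⟩
  have hε'0 : 0 < ε' := by rw [hε']; positivity
  -- thresholds
  have hex : ∀ β : ℕ, ∃ N₁ : ℕ, Nat.Coprime β V → ∀ N : ℕ, N₁ ≤ N → ∀ x : ℕ, x ≤ N →
      |Real.log N * (((Icc 1 x).filter (fun n => n.Prime ∧ n ≡ β [MOD V])).card : ℝ) -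
        (x : ℝ) / V.totient| ≤ ε' * N := by
    intro β
    by_cases h : Nat.Coprime β V
    · obtain ⟨N₁, hN₁⟩ := pi_unif V β hVpos h ε' hε'0
      exact ⟨N₁, fun _ => hN₁⟩
    · exact ⟨0, fun h' => absurd h' h⟩
  choose M hM using hex
  have hlogdiv : Filter.Tendsto (fun N : ℕ => Real.log N ^ 1 / (N : ℝ)) Filter.atTop (nhds 0) :=
    PiAP.log_pow_div 1
  have hev : ∀ᶠ N : ℕ in Filter.atTop, 2 * (v : ℝ) * (V : ℝ) ^ 3 * (Real.log N ^ 1 / (N : ℝ)) < ε / 2 := by
    have h1 := hlogdiv.const_mul (2 * (v : ℝ) * (V : ℝ) ^ 3)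
    rw [mul_zero] at h1
    exact (tendsto_order.1 h1).2 _ (by positivity)
  obtain ⟨N₂, hN₂⟩ := Filter.eventually_atTop.1 (hev.and (Filter.eventually_ge_atTop 1))
  refine ⟨max N₂ ((range V).sup M), fun N hN n hn h2n x y hxy hyn => ?_⟩
  obtain ⟨hN3, hN1⟩ := hN₂ N ((le_max_left _ _).trans hN)
  have hN' : (0 : ℝ) < N := by exact_mod_cast hN1
  have hlog : 0 ≤ Real.log N := Real.log_natCast_nonneg N
  rw [pow_one, ← mul_div_assoc, div_lt_iff₀ hN'] at hN3
  have hMβ : ∀ β ∈ range V, M β ≤ N := fun β hβ =>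
    (Finset.le_sup (f := M) hβ).trans ((le_max_right _ _).trans hN)
  -- split
  have hsplit : ∑ b ∈ (Ioc x y).filter (fun b => b.Prime ∧ w < b),
        Real.log N * (KK w (b : ℤ) ((n : ℤ) - b) * nu v (n - b)) =
      (∑ b ∈ (Ioc x y).filter (fun b => b.Prime ∧ v < b),
        Real.log N * (KK w (b : ℤ) ((n : ℤ) - b) * nu v (n - b))) +
      ∑ b ∈ (Ioc x y).filter (fun b => b.Prime ∧ w < b ∧ b ≤ v),
        Real.log N * (KK w (b : ℤ) ((n : ℤ) - b) * nu v (n - b)) := by
    rw [← Finset.sum_union]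
    · refine Finset.sum_congr ?_ fun _ _ => rfl
      ext b
      simp only [mem_union, mem_filter, mem_Ioc]
      constructor
      · rintro ⟨h1, h2, h3⟩
        rcases le_or_gt b v with h | h
        · exact Or.inr ⟨h1, h2, h3, h⟩
        · exact Or.inl ⟨h1, h2, h⟩
      · rintro (⟨h1, h2, h3⟩ | ⟨h1, h2, h3, h4⟩)
        · exact ⟨h1, h2, by omega⟩
        · exact ⟨h1, h2, h3⟩
    · rw [Finset.disjoint_left]
      intro b hb1 hb2
      rw [mem_filter] at hb1 hb2
      omega
  have hbig := PrimeNu_big w v hwv N n x y hyn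
  have hsmall := PrimeNu_small w v hwv N n x y hyn
  have hres := res_sum w v n hw hwv h2n
  -- main term
  have hmain : 2 * ((y : ℝ) - x) * Pi2 w v n = ((primorial v : ℝ) / (primorial v).totient) *
      ∑ β ∈ (range (primorial v)).filter (fun β => Nat.Coprime β (primorial v)),
        PrimeNu_G w v n β * (((y : ℝ) - x) / (primorial v).totient) := by
    have h1 : ∑ b ∈ (range (primorial v)).filter (fun b => Nat.Coprime b (primorial v) ∧
        IsCoprime ((n : ℤ) - b) (primorial v : ℤ)), KK w (b : ℤ) ((n : ℤ) - b) =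
        ∑ β ∈ (range (primorial v)).filter (fun β => Nat.Coprime β (primorial v)),
          PrimeNu_G w v n β := by
      rw [← Finset.filter_filter, Finset.sum_filter]
      refine Finset.sum_congr rfl fun β _ => ?_
      unfold PrimeNu_G
      congr
    rw [h1] at hres
    have h2 : 2 * ((y : ℝ) - x) * Pi2 w v n = ((y : ℝ) - x) * (2 * Pi2 w v n) := by ring
    rw [h2, ← hres, ← Finset.sum_mul]
    have h3 : ((primorial v).totient : ℝ) ≠ 0 := by
      have := PrimeNu_tot v
      linarith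
    field_simp
  rw [hsplit, hbig, hmain]
  rw [← hV] at hsmall ⊢
  have hdiff : (V : ℝ) / V.totient * ∑ β ∈ (range V).filter (fun β => Nat.Coprime β V),
        PrimeNu_G w v n β * (Real.log N *
          (((Ioc x y).filter (fun b => b.Prime ∧ v < b ∧ b % V = β)).card : ℝ)) -
      (V : ℝ) / V.totient * ∑ β ∈ (range V).filter (fun β => Nat.Coprime β V),
        PrimeNu_G w v n β * (((y : ℝ) - x) / V.totient) =
      (V : ℝ) / V.totient * ∑ β ∈ (range V).filter (fun β => Nat.Coprime β V),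
        PrimeNu_G w v n β * (Real.log N *
          (((Ioc x y).filter (fun b => b.Prime ∧ v < b ∧ b % V = β)).card : ℝ) -
          ((y : ℝ) - x) / V.totient) := by
    rw [← mul_sub, ← Finset.sum_sub_distrib]
    congr 1
    refine Finset.sum_congr rfl fun β _ => ?_
    ring
  have hterm : ∀ β ∈ (range V).filter (fun β => Nat.Coprime β V),
      |PrimeNu_G w v n β * (Real.log N *
          (((Ioc x y).filter (fun b => b.Prime ∧ v < b ∧ b % V = β)).card : ℝ) -
          ((y : ℝ) - x) / V.totient)| ≤ V * (2 * ε' * N + v * Real.log N) := by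
    intro β hβ
    rw [mem_filter] at hβ
    have hβ1 := hM β hβ.2 N (hMβ β hβ.1)
    have hy := hβ1 y (hyn.trans hn)
    have hx := hβ1 x (hxy.trans (hyn.trans hn))
    have hc := PrimeNu_cnt v x y β hxy
    rw [← hV, if_pos (mem_range.1 hβ.1)] at hc
    have hG0 := PrimeNu_G_nonneg w v n β
    have hG1 := PrimeNu_G_le w v n β hwv
    rw [← hV] at hG1
    rw [abs_mul, abs_of_nonneg hG0]
    refine mul_le_mul hG1 ?_ (abs_nonneg _) hV0.le
    obtain ⟨c, hcdef⟩ : ∃ c : ℝ, c =
      (((Ioc x y).filter (fun b => b.Prime ∧ v < b ∧ b % V = β)).card : ℝ) := ⟨_, rfl⟩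
    obtain ⟨cy, hcy⟩ : ∃ c : ℝ, c =
      (((Icc 1 y).filter (fun n => n.Prime ∧ n ≡ β [MOD V])).card : ℝ) := ⟨_, rfl⟩
    obtain ⟨cx, hcx⟩ : ∃ c : ℝ, c =
      (((Icc 1 x).filter (fun n => n.Prime ∧ n ≡ β [MOD V])).card : ℝ) := ⟨_, rfl⟩
    rw [← hcdef, ← hcy, ← hcx] at hc
    rw [← hcy] at hy
    rw [← hcx] at hx
    rw [← hcdef]
    have h5 : Real.log N * c - ((y : ℝ) - x) / V.totient =
        Real.log N * (c - (cy - cx)) + (Real.log N * cy - (y : ℝ) / V.totient) -
        (Real.log N * cx - (x : ℝ) / V.totient) := by ring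
    rw [h5]
    have h6 : |Real.log N * (c - (cy - cx))| ≤ Real.log N * v := by
      rw [abs_mul, abs_of_nonneg hlog]
      exact mul_le_mul_of_nonneg_left hc hlog
    have h7 := abs_sub (Real.log N * (c - (cy - cx)) + (Real.log N * cy - (y : ℝ) / V.totient))
      (Real.log N * cx - (x : ℝ) / V.totient)
    have h8 := abs_add_le (Real.log N * (c - (cy - cx))) (Real.log N * cy - (y : ℝ) / V.totient)
    linarith
  have hsum : |(V : ℝ) / V.totient * ∑ β ∈ (range V).filter (fun β => Nat.Coprime β V),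
        PrimeNu_G w v n β * (Real.log N *
          (((Ioc x y).filter (fun b => b.Prime ∧ v < b ∧ b % V = β)).card : ℝ) -
          ((y : ℝ) - x) / V.totient)| ≤ V * (V * (V * (2 * ε' * N + v * Real.log N))) := by
    have hr := PrimeNu_ratio v
    rw [← hV] at hr
    rw [abs_mul, abs_of_nonneg (by positivity : (0 : ℝ) ≤ (V : ℝ) / V.totient)]
    refine mul_le_mul hr ?_ (abs_nonneg _) hV0.le
    calc |∑ β ∈ (range V).filter (fun β => Nat.Coprime β V),
        PrimeNu_G w v n β * (Real.log N *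
          (((Ioc x y).filter (fun b => b.Prime ∧ v < b ∧ b % V = β)).card : ℝ) -
          ((y : ℝ) - x) / V.totient)| ≤ _ := Finset.abs_sum_le_sum_abs _ _
      _ ≤ ∑ β ∈ (range V).filter (fun β => Nat.Coprime β V), V * (2 * ε' * N + v * Real.log N) :=
          Finset.sum_le_sum hterm
      _ = (((range V).filter (fun β => Nat.Coprime β V)).card : ℝ) *
          (V * (2 * ε' * N + v * Real.log N)) := by rw [sum_const, nsmul_eq_mul]
      _ ≤ V * (V * (2 * ε' * N + v * Real.log N)) := by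
          refine mul_le_mul_of_nonneg_right ?_ (by positivity)
          have := Finset.card_filter_le (range V) (fun β => Nat.Coprime β V)
          rw [card_range] at this
          exact_mod_cast this
  have hfin : ∀ A B S : ℝ, A - B = (V : ℝ) / V.totient * ∑ β ∈ (range V).filter (fun β => Nat.Coprime β V),
        PrimeNu_G w v n β * (Real.log N *
          (((Ioc x y).filter (fun b => b.Prime ∧ v < b ∧ b % V = β)).card : ℝ) -
          ((y : ℝ) - x) / V.totient) → |S| ≤ (v : ℝ) * (Real.log N * ((V : ℝ) * V)) →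
      |A + S - B| ≤ ε * N := by
    intro A B S h1 h2
    have h3 : A + S - B = (A - B) + S := by ring
    rw [h3]
    refine (abs_add_le _ _).trans ?_
    rw [h1]
    have h4 : (V : ℝ) * (V * (V * (2 * ε' * N + v * Real.log N))) =
        2 * (V : ℝ) ^ 3 * ε' * N + v * (V : ℝ) ^ 3 * Real.log N := by ring
    have h5 : 2 * (V : ℝ) ^ 3 * ε' * N = ε / 2 * N := by
      rw [hε']
      field_simp
      ring
    have h6 : (v : ℝ) * (Real.log N * ((V : ℝ) * V)) ≤ v * (V : ℝ) ^ 3 * Real.log N := by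
      have h7 : (V : ℝ) * V ≤ (V : ℝ) ^ 3 := by
        have : (V : ℝ) ^ 3 = V * V * V := by ring
        rw [this]
        exact le_mul_of_one_le_right (by positivity) hV1
      have h8 : (v : ℝ) * (Real.log N * ((V : ℝ) * V)) = v * Real.log N * ((V : ℝ) * V) := by ring
      have h9 : (v : ℝ) * (V : ℝ) ^ 3 * Real.log N = v * Real.log N * (V : ℝ) ^ 3 := by ring
      rw [h8, h9]
      exact mul_le_mul_of_nonneg_left h7 (by positivity)
    rw [h4, h5] at hsum
    have h10 : 2 * (v : ℝ) * (V : ℝ) ^ 3 * Real.log N = v * (V : ℝ) ^ 3 * Real.log N +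
        v * (V : ℝ) ^ 3 * Real.log N := by ring
    rw [h10] at hN3
    linarith
  exact hfin _ _ _ hdiff hsmall

end Pool.Agent.Lib.MP_629a14_nt.Col
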