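import Pool.Agent.Lib.MP_629a14_nt.Col.Point
import Pool.Agent.Lib.MP_629a14_nt.Col.PrimeNu
import Pool.Agent.Lib.MP_629a14_nt.Sm.FGL2

/-! The contribution of one short interval, on average over `n`. -/

set_option autoImplicit false

namespace Pool.Agent.Lib.MP_629a14_nt.Col

open Finset Pool.Agent.Lib.MP_629a14_nt Pool.Agent.Lib.MP_629a14_nt.Rob

private theorem piece_pi2_nonneg (w v n : ℕ) (hw : 2 ≤ w) : 0 ≤ Pi2 w v n := by
  unfold Pi2
  refine prod_nonneg fun p hp => ?_
  rw [mem_filter, mem_Ioc] at hp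
  have h3 : (3 : ℝ) ≤ p := by exact_mod_cast (by omega : 3 ≤ p)
  split_ifs
  · exact div_nonneg (by linarith) (by linarith)
  · exact div_nonneg (mul_nonneg (by linarith) (by linarith)) (sq_nonneg _)

private theorem piece_kk_congr (w n b a : ℕ) (hba : b ≡ a [MOD primorial w]) :
    KK w (b : ℤ) ((n : ℤ) - b) = KK w (a : ℤ) ((n : ℤ) - a) := by
  unfold KK
  refine prod_congr rfl fun r hr => ?_
  rw [OP, mem_filter, mem_Icc] at hr
  have hrw : r ∣ primorial w := by
    unfold primorial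
    exact dvd_prod_of_mem _ (by rw [mem_filter, mem_range]; exact ⟨by omega, hr.2⟩)
  have h1 : ((b : ℤ) : ZMod r) = ((a : ℤ) : ZMod r) := by
    have := (ZMod.natCast_eq_natCast_iff b a r).2 (hba.of_dvd hrw)
    simpa using this
  have h2 : (((n : ℤ) - b : ℤ) : ZMod r) = (((n : ℤ) - a : ℤ) : ZMod r) := by
    rw [Int.cast_sub, Int.cast_sub, h1]
  rw [h1, h2]

private theorem piece_gg_zero (v N : ℕ) (hv : 2 ≤ v) : gg v N 0 = 0 := by
  unfold gg nu
  have h1 : ¬ (0 : ℕ).Prime := Nat.not_prime_zero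
  have h2 : ¬ Nat.Coprime 0 (primorial v) := by
    rw [Nat.coprime_zero_left]
    have : 2 ∣ primorial v := by
      unfold primorial
      exact dvd_prod_of_mem _ (by rw [mem_filter, mem_range]; exact ⟨by omega, Nat.prime_two⟩)
    intro h
    rw [h] at this
    omega
  rw [if_neg h1, if_neg h2, sub_zero]

/-- The set of the `b` in `(x, x + h]`, `w < b`, `b ≡ a`. -/
private def pieceB (w x h a : ℕ) : Set ℕ :=
  {b | x < b ∧ b ≤ x + h ∧ w < b ∧ b ≡ a [MOD primorial w]}

private theorem piece_class (w v N n x h a : ℕ) (hv : 2 ≤ v) :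
    ∑ b ∈ ((Ioc x (min (x + h) n)).filter (fun b => b.Prime ∧ w < b)).filter
        (fun b => b % primorial w = a % primorial w),
      Real.log N * (KK w (b : ℤ) ((n : ℤ) - b) * gg v N (n - b)) =
    KK w (a : ℤ) ((n : ℤ) - a) * fG v N (pieceB w x h a) n := by
  classical
  unfold fG
  rw [mul_sum]
  have h1 : ∑ b ∈ ((Ioc x (min (x + h) n)).filter (fun b => b.Prime ∧ w < b)).filter
        (fun b => b % primorial w = a % primorial w),
      Real.log N * (KK w (b : ℤ) ((n : ℤ) - b) * gg v N (n - b)) =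
      ∑ b ∈ ((Ioc x (min (x + h) n)).filter (fun b => b.Prime ∧ w < b)).filter
        (fun b => b % primorial w = a % primorial w),
      KK w (a : ℤ) ((n : ℤ) - a) * (Real.log N * gg v N (n - b)) := by
    refine sum_congr rfl fun b hb => ?_
    rw [mem_filter] at hb
    rw [piece_kk_congr w n b a hb.2]
    ring
  rw [h1]
  symm
  refine sum_subset ?_ ?_
  · intro b hb
    rw [mem_filter, mem_Ico] at hb
    obtain ⟨⟨hb1, hb2⟩, hb3, hb4, hb5, hb6, hb7⟩ := hb
    rw [mem_filter, mem_filter, mem_Ioc]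
    exact ⟨⟨⟨hb4, le_min hb5 hb2.le⟩, hb3, hb6⟩, hb7⟩
  · intro b hb hb'
    rw [mem_filter, mem_filter, mem_Ioc] at hb
    obtain ⟨⟨⟨hb1, hb2⟩, hb3, hb4⟩, hb5⟩ := hb
    have hbn : b ≤ n := le_trans hb2 (min_le_right _ _)
    have hbx : b ≤ x + h := le_trans hb2 (min_le_left _ _)
    have : b = n := by
      by_contra hne
      apply hb'
      rw [mem_filter, mem_Ico]
      exact ⟨⟨hb3.one_le, lt_of_le_of_ne hbn hne⟩, hb3, hb1, hbx, hb4, hb5⟩
    rw [this, Nat.sub_self, piece_gg_zero v N hv, mul_zero, mul_zero]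

private theorem piece_gpart (w v N n x h : ℕ) (hv : 2 ≤ v) :
    |∑ b ∈ (Ioc x (min (x + h) n)).filter (fun b => b.Prime ∧ w < b),
      Real.log N * (KK w (b : ℤ) ((n : ℤ) - b) * gg v N (n - b))| ≤
    ∑ a ∈ range (primorial w), (primorial w : ℝ) * |fG v N (pieceB w x h a) n| := by
  classical
  have h1 : ∑ b ∈ (Ioc x (min (x + h) n)).filter (fun b => b.Prime ∧ w < b),
      Real.log N * (KK w (b : ℤ) ((n : ℤ) - b) * gg v N (n - b)) =
      ∑ a ∈ range (primorial w), KK w (a : ℤ) ((n : ℤ) - a) * fG v N (pieceB w x h a) n := by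
    rw [← sum_fiberwise_of_maps_to (s := (Ioc x (min (x + h) n)).filter
      (fun b => b.Prime ∧ w < b)) (t := range (primorial w)) (g := fun b => b % primorial w)
      (fun b _ => mem_range.2 (Nat.mod_lt _ (primorial_pos w)))]
    refine sum_congr rfl fun a ha => ?_
    rw [mem_range] at ha
    rw [← piece_class w v N n x h a hv, Nat.mod_eq_of_lt ha]
  rw [h1]
  refine (abs_sum_le_sum_abs _ _).trans (sum_le_sum fun a _ => ?_)
  rw [abs_mul, abs_of_nonneg (kk_nonneg w _ _)]
  exact mul_le_mul_of_nonneg_right (kk_le w _ _) (abs_nonneg _)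

private theorem piece_point (w v N n x h : ℕ) (hw : 2 ≤ w) (hv : 2 ≤ v) (ε : ℝ) (hε : 0 < ε)
    (hP : ∀ x y : ℕ, x ≤ y → y ≤ n →
      |∑ b ∈ (Ioc x y).filter (fun b => b.Prime ∧ w < b),
        Real.log N * (KK w (b : ℤ) ((n : ℤ) - b) * nu v (n - b)) -
          2 * ((y : ℝ) - x) * Pi2 w v n| ≤ ε * N) :
    max 0 (RR w N n x (min (x + h) n) - 2 * h * Pi2 w v n) ≤
      ε * N + ∑ a ∈ range (primorial w), (primorial w : ℝ) * |fG v N (pieceB w x h a) n| := by
  have hpi := piece_pi2_nonneg w v n hw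
  have hS : 0 ≤ ∑ a ∈ range (primorial w), (primorial w : ℝ) * |fG v N (pieceB w x h a) n| :=
    sum_nonneg fun a _ => by positivity
  have hεN : 0 ≤ ε * N := by positivity
  refine max_le (by linarith) ?_
  rcases Nat.lt_or_ge n x with hnx | hxn
  · have h1 : RR w N n x (min (x + h) n) = 0 := by
      unfold RR
      have : Ioc x (min (x + h) n) = ∅ := by
        rw [Ioc_eq_empty_iff]
        intro hlt
        have := lt_of_lt_of_le hlt (min_le_right _ _)
        omega
      rw [this]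
      simp
    rw [h1]
    have : 0 ≤ 2 * (h : ℝ) * Pi2 w v n := by positivity
    linarith
  · have hy1 : x ≤ min (x + h) n := le_min (by omega) hxn
    have hy2 : min (x + h) n ≤ n := min_le_right _ _
    have h2 := (abs_le.1 (hP x _ hy1 hy2)).2
    have h3 := (abs_le.1 (piece_gpart w v N n x h hv)).2
    have h4 : RR w N n x (min (x + h) n) =
        ∑ b ∈ (Ioc x (min (x + h) n)).filter (fun b => b.Prime ∧ w < b),
          Real.log N * (KK w (b : ℤ) ((n : ℤ) - b) * nu v (n - b)) +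
        ∑ b ∈ (Ioc x (min (x + h) n)).filter (fun b => b.Prime ∧ w < b),
          Real.log N * (KK w (b : ℤ) ((n : ℤ) - b) * gg v N (n - b)) := by
      unfold RR
      rw [← sum_add_distrib]
      refine sum_congr rfl fun b _ => ?_
      unfold gg
      split_ifs <;> ring
    have h5 : ((min (x + h) n : ℕ) : ℝ) - x ≤ h := by
      have : ((min (x + h) n : ℕ) : ℝ) ≤ ((x + h : ℕ) : ℝ) :=
        Nat.cast_le.2 (min_le_left _ _)
      rw [Nat.cast_add] at this
      linarith
    have h6 : 2 * (((min (x + h) n : ℕ) : ℝ) - x) * Pi2 w v n ≤ 2 * h * Pi2 w v n :=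
      mul_le_mul_of_nonneg_right (by linarith) hpi
    rw [h4]
    linarith

/-- `RR` is `log N` times the sum of `KK w b (n - b) (nu v (n - b) + gg v N (n - b))`
(`gg v N m + nu v m` is `log N` for a prime `m`, `0` otherwise). The part with `nu` is at most
`2 h Pi2 w v n + (ε/2) N` by `primeNu` (if `x ≤ n`, with `y = min (x + h) n`, `y - x ≤ h`,
`pi2_nonneg`; if `n < x` the interval is empty). For the part with `gg` split the primes `b` according to `a = b` modulo
`W = primorial w`: `KK w b (n - b)` only depends on `a` and `n`, its absolute value is at most `W`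
(`kk_le`), and the inner sum is `fG v N B n` for the set `B` of the `b` in `(x, x + h]`, `w < b`, `b = a`
modulo `W` (the term `b = n` vanishes). By Cauchy-Schwarz and `Sm.fG_l2` (with `η` such that
`W² sqrt η ≤ ε/2`) its sum over `n ≤ N` is at most `sqrt (N η N³) = sqrt η N²` for each of the `W` classes. -/
theorem piece (w : ℕ) (hw : 2 ≤ w) (ε : ℝ) (hε : 0 < ε) : ∃ v₀ : ℕ, ∀ v : ℕ, v₀ ≤ v → w ≤ v →
    ∃ N₀ : ℕ, ∀ N : ℕ, N₀ ≤ N → ∀ x h : ℕ,
      ∑ n ∈ (Icc 1 N).filter (fun n => 2 ∣ n),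
        max 0 (RR w N n x (min (x + h) n) - 2 * h * Pi2 w v n) ≤ ε * (N : ℝ) ^ 2 := by
  classical
  have hW : (0 : ℝ) < primorial w := by exact_mod_cast primorial_pos w
  set W : ℝ := (primorial w : ℝ) with hWdef
  set s : ℝ := ε / (2 * W ^ 2) with hs
  have hs0 : 0 < s := by positivity
  obtain ⟨v₀, hv₀⟩ := Sm.fG_l2 (s ^ 2) (by positivity)
  refine ⟨v₀, fun v hv hwv => ?_⟩
  obtain ⟨N₁, hN₁⟩ := hv₀ v hv
  obtain ⟨N₂, hN₂⟩ := primeNu w v hw hwv (ε / 2) (by positivity)
  refine ⟨max N₁ N₂, fun N hN x h => ?_⟩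
  have hNa : N₁ ≤ N := le_trans (le_max_left _ _) hN
  have hNb : N₂ ≤ N := le_trans (le_max_right _ _) hN
  have hv2 : 2 ≤ v := le_trans hw hwv
  have h1 : ∀ n ∈ (Icc 1 N).filter (fun n => 2 ∣ n),
      max 0 (RR w N n x (min (x + h) n) - 2 * h * Pi2 w v n) ≤
        ε / 2 * N + ∑ a ∈ range (primorial w), W * |fG v N (pieceB w x h a) n| := by
    intro n hn
    rw [mem_filter, mem_Icc] at hn
    exact piece_point w v N n x h hw hv2 (ε / 2) (by positivity)
      (fun x y hxy hyn => hN₂ N hNb n hn.1.2 hn.2 x y hxy hyn)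
  refine (sum_le_sum h1).trans ?_
  have h2 : ∑ n ∈ (Icc 1 N).filter (fun n => 2 ∣ n),
      (ε / 2 * N + ∑ a ∈ range (primorial w), W * |fG v N (pieceB w x h a) n|) ≤
      ∑ n ∈ Icc 1 N,
      (ε / 2 * N + ∑ a ∈ range (primorial w), W * |fG v N (pieceB w x h a) n|) := by
    refine sum_le_sum_of_subset_of_nonneg (filter_subset _ _) fun n _ _ => ?_
    have : 0 ≤ ∑ a ∈ range (primorial w), W * |fG v N (pieceB w x h a) n| :=
      sum_nonneg fun a _ => by positivity
    positivity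
  refine h2.trans ?_
  rw [sum_add_distrib, sum_const, Nat.card_Icc, Nat.add_sub_cancel, nsmul_eq_mul, sum_comm]
  have h3 : ∀ a ∈ range (primorial w), ∑ n ∈ Icc 1 N, W * |fG v N (pieceB w x h a) n| ≤
      W * (s * (N : ℝ) ^ 2) := by
    intro a _
    rw [← mul_sum]
    refine mul_le_mul_of_nonneg_left ?_ hW.le
    have h4 := hN₁ N hNa (pieceB w x h a)
    have h5 : (∑ n ∈ Icc 1 N, |fG v N (pieceB w x h a) n|) ^ 2 ≤ (s * (N : ℝ) ^ 2) ^ 2 := by
      have h6 := sq_sum_le_card_mul_sum_sq (s := Icc 1 N)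
        (f := fun n => |fG v N (pieceB w x h a) n|)
      rw [Nat.card_Icc, Nat.add_sub_cancel] at h6
      refine h6.trans ?_
      have h7 : ∑ n ∈ Icc 1 N, |fG v N (pieceB w x h a) n| ^ 2 =
          ∑ n ∈ Icc 1 N, fG v N (pieceB w x h a) n ^ 2 :=
        sum_congr rfl fun n _ => sq_abs _
      rw [h7]
      calc (N : ℝ) * ∑ n ∈ Icc 1 N, fG v N (pieceB w x h a) n ^ 2 ≤
          (N : ℝ) * (s ^ 2 * (N : ℝ) ^ 3) := mul_le_mul_of_nonneg_left h4 (by positivity)
        _ = (s * (N : ℝ) ^ 2) ^ 2 := by ring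
    exact (abs_le_of_sq_le_sq' h5 (by positivity)).2
  have h8 := sum_le_sum h3
  rw [sum_const, card_range, nsmul_eq_mul] at h8
  have h9 : (primorial w : ℝ) * (W * (s * (N : ℝ) ^ 2)) = ε / 2 * (N : ℝ) ^ 2 := by
    rw [← hWdef, hs]
    field_simp
  rw [h9] at h8
  nlinarith [h8]

end Pool.Agent.Lib.MP_629a14_nt.Col
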