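import Pool.Agent.Lib.MP_629a14_nt.Col.Defs
import Pool.Agent.Lib.MP_629a14_nt.Rob.PiAP
import Pool.Agent.Lib.MP_629a14_nt.Sm.Cnt

/-! Uniform counting of the primes of a set with relative density. -/

set_option autoImplicit false

namespace Pool.Agent.Lib.MP_629a14_nt.Col

open Finset Filter Topology Pool.Agent.Lib.MP_629a14_nt Pool.Agent.Lib.MP_629a14_nt.Rob

private theorem Uni_mono (A : Set ℕ) {x y : ℕ} (h : x ≤ y) : cntB A x ≤ cntB A y := by
  classical
  unfold cntB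
  apply card_le_card
  intro p hp
  rw [mem_filter, mem_Icc] at hp ⊢
  exact ⟨⟨hp.1.1, hp.1.2.trans h⟩, hp.2⟩

private theorem Uni_subset (A B : Set ℕ) (h : ∀ p, p ∈ A → p ∈ B) (x : ℕ) :
    cntB A x ≤ cntB B x := by
  classical
  unfold cntB
  apply card_le_card
  intro p hp
  rw [mem_filter] at hp ⊢
  exact ⟨hp.1, hp.2.1, h p hp.2.2⟩

private theorem Uni_le_univ (A : Set ℕ) (x : ℕ) : cntB A x ≤ cntB Set.univ x :=
  Uni_subset A Set.univ (fun p _ => Set.mem_univ p) x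

private theorem Uni_le (A : Set ℕ) (x : ℕ) : cntB A x ≤ x := by
  classical
  unfold cntB
  refine (card_filter_le _ _).trans ?_
  simp

private theorem Uni_pos' (A : Set ℕ) (hA : 2 ∈ A) {x : ℕ} (h : 2 ≤ x) : 0 < cntB A x := by
  classical
  unfold cntB
  apply card_pos.2
  refine ⟨2, ?_⟩
  rw [mem_filter, mem_Icc]
  exact ⟨⟨by norm_num, h⟩, Nat.prime_two, hA⟩

private theorem Uni_pos {x : ℕ} (h : 2 ≤ x) : 0 < cntB Set.univ x :=
  Uni_pos' Set.univ (Set.mem_univ 2) h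

/-- uniform prime number theorem up to `2 N` with weight `log N` -/
private theorem Uni_univ (ε : ℝ) (hε : 0 < ε) :
    ∃ N₀ : ℕ, ∀ N : ℕ, N₀ ≤ N → ∀ x : ℕ, x ≤ 2 * N →
      |Real.log N * cntB Set.univ x - x| ≤ ε * N := by
  obtain ⟨ε₁, hε₁⟩ : ∃ ε₁ : ℝ, ε₁ = ε / 4 := ⟨_, rfl⟩
  have hε₁0 : 0 < ε₁ := by rw [hε₁]; linarith
  obtain ⟨N₁, hN₁⟩ := Sm.cnt_univ ε₁ hε₁0
  -- `log N` large
  have hlog : Tendsto (fun N : ℕ => Real.log (N : ℝ)) atTop atTop :=
    Real.tendsto_log_atTop.comp tendsto_natCast_atTop_atTop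
  obtain ⟨N₂, hN₂⟩ := (hlog.eventually_ge_atTop ((2 + 2 * ε₁) / (ε / 2))).exists_forall_of_atTop
  refine ⟨max (max N₁ N₂) 2, fun N hN x hx => ?_⟩
  have hNN₁ : N₁ ≤ 2 * N := by
    have := (le_max_left N₁ N₂).trans ((le_max_left _ _).trans hN)
    omega
  have hNN₂ : N₂ ≤ N := (le_max_right N₁ N₂).trans ((le_max_left _ _).trans hN)
  have hN2 : 2 ≤ N := (le_max_right _ _).trans hN
  have hNr : (2 : ℝ) ≤ N := by exact_mod_cast hN2
  have h1 := hN₁ (2 * N) hNN₁ x hx
  have h2 := hN₁ (2 * N) hNN₁ (2 * N) le_rfl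
  have h3 := hN₂ N hNN₂
  push_cast at h1 h2
  rw [Real.log_mul (by norm_num) (by positivity)] at h1 h2
  have hl2 : 0 < Real.log 2 := Real.log_pos (by norm_num)
  have hl2' : Real.log 2 < 1 := by
    have := Real.log_two_lt_d9
    linarith
  have hlN : 0 < Real.log (N : ℝ) := Real.log_pos (by linarith)
  have hc : (cntB Set.univ x : ℝ) ≤ cntB Set.univ (2 * N) := by exact_mod_cast Uni_mono _ hx
  have hc0 : (0 : ℝ) ≤ cntB Set.univ x := Nat.cast_nonneg _
  have hc1 : (0 : ℝ) ≤ cntB Set.univ (2 * N) := Nat.cast_nonneg _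
  -- the number of primes up to `2 N`
  have h4 : (cntB Set.univ (2 * N) : ℝ) ≤ ε / 2 * N := by
    rw [abs_le] at h2
    have h5 : Real.log N * cntB Set.univ (2 * N) ≤ (2 + 2 * ε₁) * N := by
      nlinarith [h2.2, mul_nonneg hl2.le hc1]
    rw [div_le_iff₀ (by linarith)] at h3
    have h6 : (2 + 2 * ε₁) * N ≤ Real.log N * (ε / 2) * N :=
      mul_le_mul_of_nonneg_right h3 (by linarith)
    have h7 : Real.log N * cntB Set.univ (2 * N) ≤ Real.log N * (ε / 2 * N) := by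
      linarith
    exact le_of_mul_le_mul_left h7 hlN
  rw [abs_le] at h1 ⊢
  have h8 : Real.log 2 * (cntB Set.univ x : ℝ) ≤ ε / 2 * N := by
    nlinarith
  have h9 : 0 ≤ Real.log 2 * (cntB Set.univ x : ℝ) := by positivity
  have h10 : ε₁ * (2 * N) = ε / 2 * N := by rw [hε₁]; ring
  rw [h10] at h1
  have h11 : (0 : ℝ) ≤ ε / 2 * N := by positivity
  constructor <;> nlinarith [h1.1, h1.2]

/-- For `x ≤ 2 N`: by `Sm.cnt_univ` (for `2 N`, and `log (2 N) = log N + log 2`, the number of primes up to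
`2 N` being `o(N)`) `log N cntB univ x` is `x` up to `ε' N`. For `x ≤ ε' N` all terms are `O(ε' N)`; for larger `x` (which tend
to infinity) `cntB A x` is `α cntB univ x` up to `ε' cntB univ x`. Note `0 ≤ α ≤ 1`. -/
theorem uni (A : Set ℕ) (α : ℝ)
    (hA : Tendsto (fun x : ℕ => (cntB A x : ℝ) / cntB Set.univ x) atTop (𝓝 α)) (ε : ℝ) (hε : 0 < ε) :
    ∃ N₀ : ℕ, ∀ N : ℕ, N₀ ≤ N → ∀ x : ℕ, x ≤ 2 * N → |Real.log N * cntB A x - α * x| ≤ ε * N := by
  have hα0 : 0 ≤ α := by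
    refine ge_of_tendsto' hA fun x => ?_
    positivity
  have hα1 : α ≤ 1 := by
    refine le_of_tendsto' hA fun x => ?_
    apply div_le_one_of_le₀
    · exact_mod_cast Uni_le_univ A x
    · exact Nat.cast_nonneg _
  obtain ⟨δ, hδ⟩ : ∃ δ : ℝ, δ = min 1 (ε / 5) := ⟨_, rfl⟩
  have hδ0 : 0 < δ := by rw [hδ]; exact lt_min one_pos (by linarith)
  have hδ1 : δ ≤ 1 := by rw [hδ]; exact min_le_left _ _
  have hδ2 : 5 * δ ≤ ε := by
    have : δ ≤ ε / 5 := by rw [hδ]; exact min_le_right _ _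
    linarith
  obtain ⟨X, hX⟩ := (Metric.tendsto_atTop.1 hA δ hδ0)
  obtain ⟨N₁, hN₁⟩ := Uni_univ δ hδ0
  -- `X log N ≤ δ N`
  have hsmall : ∀ᶠ N : ℕ in atTop, (X + 2 : ℝ) * Real.log (N : ℝ) ≤ δ * N := by
    have h1 : (fun x : ℝ => Real.log x) =o[atTop] fun x : ℝ => x := Real.isLittleO_log_id_atTop
    have h2 := h1.def (c := δ / (X + 2)) (by positivity)
    have h3 := tendsto_natCast_atTop_atTop (R := ℝ) |>.eventually h2
    filter_upwards [h3, eventually_ge_atTop 1] with N hN hN1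
    have hN0 : (1 : ℝ) ≤ N := by exact_mod_cast hN1
    rw [Real.norm_of_nonneg (Real.log_nonneg hN0), Real.norm_of_nonneg (by linarith)] at hN
    calc (X + 2 : ℝ) * Real.log (N : ℝ) ≤ (X + 2 : ℝ) * (δ / (X + 2) * N) :=
          mul_le_mul_of_nonneg_left hN (by positivity)
      _ = δ * N := by field_simp
  obtain ⟨N₂, hN₂⟩ := hsmall.exists_forall_of_atTop
  refine ⟨max (max N₁ N₂) 2, fun N hN x hx => ?_⟩
  have hNN₁ : N₁ ≤ N := (le_max_left N₁ N₂).trans ((le_max_left _ _).trans hN)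
  have hNN₂ : N₂ ≤ N := (le_max_right N₁ N₂).trans ((le_max_left _ _).trans hN)
  have hN2 : 2 ≤ N := (le_max_right _ _).trans hN
  have hNr : (2 : ℝ) ≤ N := by exact_mod_cast hN2
  have hlN : 0 < Real.log (N : ℝ) := Real.log_pos (by linarith)
  have h1 := hN₁ N hNN₁ x hx
  have h2 := hN₂ N hNN₂
  have hxr : (x : ℝ) ≤ 2 * N := by exact_mod_cast hx
  have hcu : (0 : ℝ) ≤ cntB Set.univ x := Nat.cast_nonneg _
  have hcA : (0 : ℝ) ≤ cntB A x := Nat.cast_nonneg _
  have hcAu : (cntB A x : ℝ) ≤ cntB Set.univ x := by exact_mod_cast Uni_le_univ A x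
  have key : Real.log N * |(cntB A x : ℝ) - α * cntB Set.univ x| ≤ 4 * δ * N := by
    rcases Nat.lt_or_ge x (X + 2) with hx1 | hx1
    · have h3 : |(cntB A x : ℝ) - α * cntB Set.univ x| ≤ X + 2 := by
        have h4 : (cntB Set.univ x : ℝ) ≤ X + 2 := by
          have : cntB Set.univ x ≤ X + 2 := (Uni_le _ x).trans hx1.le
          exact_mod_cast this
        have h5 : α * (cntB Set.univ x : ℝ) ≤ cntB Set.univ x := mul_le_of_le_one_left hcu hα1
        have h6 : 0 ≤ α * (cntB Set.univ x : ℝ) := by positivity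
        rw [abs_le]
        constructor <;> linarith
      have h7 : Real.log N * |(cntB A x : ℝ) - α * cntB Set.univ x| ≤ Real.log N * (X + 2) :=
        mul_le_mul_of_nonneg_left h3 hlN.le
      have h8 : 0 ≤ δ * N := by positivity
      linarith
    · have h3 := hX x (by omega)
      have hpos : (0 : ℝ) < cntB Set.univ x := by exact_mod_cast Uni_pos (by omega : 2 ≤ x)
      rw [Real.dist_eq] at h3
      have h4 : |(cntB A x : ℝ) - α * cntB Set.univ x| ≤ δ * cntB Set.univ x := by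
        have e : (cntB A x : ℝ) - α * cntB Set.univ x =
            ((cntB A x : ℝ) / cntB Set.univ x - α) * cntB Set.univ x := by
          field_simp
        rw [e, abs_mul, abs_of_pos hpos]
        exact mul_le_mul_of_nonneg_right h3.le hpos.le
      have h5 : Real.log N * |(cntB A x : ℝ) - α * cntB Set.univ x| ≤
          Real.log N * (δ * cntB Set.univ x) := mul_le_mul_of_nonneg_left h4 hlN.le
      have h6 : Real.log N * cntB Set.univ x ≤ 3 * N := by
        rw [abs_le] at h1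
        nlinarith [h1.2]
      have h7 : Real.log N * (δ * cntB Set.univ x) = δ * (Real.log N * cntB Set.univ x) := by ring
      rw [h7] at h5
      have h8 : δ * (Real.log N * cntB Set.univ x) ≤ δ * (3 * N) :=
        mul_le_mul_of_nonneg_left h6 hδ0.le
      have h9 : 0 ≤ δ * N := by positivity
      linarith
  have e : Real.log N * cntB A x - α * x =
      Real.log N * ((cntB A x : ℝ) - α * cntB Set.univ x) +
        α * (Real.log N * cntB Set.univ x - x) := by ring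
  rw [e]
  refine (abs_add_le _ _).trans ?_
  rw [abs_mul, abs_mul, abs_of_pos hlN, abs_of_nonneg hα0]
  have h3 : α * |Real.log N * cntB Set.univ x - x| ≤ δ * N :=
    (mul_le_of_le_one_left (abs_nonneg _) hα1).trans h1
  have h4 : 5 * δ * N ≤ ε * N := mul_le_mul_of_nonneg_right hδ2 (by linarith)
  linarith

/-- For `x + h ≤ 2 N`, as for `uni`, from `pi_unif` applied to `2 N`, both endpoints and each of the finitely
many reduced classes modulo `m`. -/
theorem uni_class (m : ℕ) [NeZero m] (ε : ℝ) (hε : 0 < ε) :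
    ∃ N₀ : ℕ, ∀ N : ℕ, N₀ ≤ N → ∀ x h : ℕ, x + h ≤ 2 * N → ∀ a : ZMod m, IsUnit a →
      Real.log N * (((Ioc x (x + h)).filter (fun p : ℕ => p.Prime ∧ (p : ZMod m) = a)).card : ℝ) ≤
        (h : ℝ) / m.totient + ε * N := by
  classical
  have hm : 1 ≤ m := Nat.one_le_iff_ne_zero.2 (NeZero.ne m)
  have hex : ∀ a : ZMod m, ∃ N₀ : ℕ, IsUnit a → ∀ N : ℕ, N₀ ≤ N → ∀ x : ℕ, x ≤ N →
      |Real.log N * (((Icc 1 x).filter (fun n => n.Prime ∧ n ≡ a.val [MOD m])).card : ℝ) -
        (x : ℝ) / m.totient| ≤ ε / 4 * N := by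
    intro a
    by_cases ha : IsUnit a
    · have hco : Nat.Coprime a.val m := by
        rw [← ZMod.isUnit_iff_coprime, ZMod.natCast_zmod_val]
        exact ha
      obtain ⟨N₀, h⟩ := pi_unif m a.val hm hco (ε / 4) (by linarith)
      exact ⟨N₀, fun _ => h⟩
    · exact ⟨0, fun h => absurd h ha⟩
  choose f hf using hex
  refine ⟨max (univ.sup f) 1, fun N hN x h hxh a ha => ?_⟩
  have hN1 : 1 ≤ N := (le_max_right _ _).trans hN
  have hNf : f a ≤ 2 * N := by
    have h1 : f a ≤ univ.sup f := le_sup (mem_univ a)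
    have h2 := (le_max_left (univ.sup f) 1).trans hN
    omega
  have h1 := hf a ha (2 * N) hNf (x + h) hxh
  have h2 := hf a ha (2 * N) hNf x (by omega)
  obtain ⟨P, hP⟩ : ∃ P : ℕ → Prop, P = fun n => n.Prime ∧ n ≡ a.val [MOD m] := ⟨_, rfl⟩
  have hset : ((Ioc x (x + h)).filter (fun p : ℕ => p.Prime ∧ (p : ZMod m) = a)) =
      (Ioc x (x + h)).filter (fun n => n.Prime ∧ n ≡ a.val [MOD m]) := by
    apply filter_congr
    intro p _
    have : ((p : ZMod m) = a) ↔ p ≡ a.val [MOD m] := by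
      rw [← ZMod.natCast_eq_natCast_iff, ZMod.natCast_zmod_val]
    rw [this]
  have hcard : ((Icc 1 (x + h)).filter (fun n => n.Prime ∧ n ≡ a.val [MOD m])).card =
      ((Icc 1 x).filter (fun n => n.Prime ∧ n ≡ a.val [MOD m])).card +
      ((Ioc x (x + h)).filter (fun n => n.Prime ∧ n ≡ a.val [MOD m])).card := by
    rw [← card_union_of_disjoint]
    · congr 1
      rw [← filter_union]
      congr 1
      ext n
      simp only [mem_Icc, mem_union, mem_Ioc]
      omega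
    · apply disjoint_filter_filter
      rw [disjoint_left]
      intro n h1 h2
      rw [mem_Icc] at h1
      rw [mem_Ioc] at h2
      omega
  rw [hset]
  rw [hcard] at h1
  push_cast at h1 h2
  obtain ⟨c₁, hc₁⟩ : ∃ c₁ : ℝ, c₁ =
      (((Icc 1 x).filter (fun n => n.Prime ∧ n ≡ a.val [MOD m])).card : ℝ) := ⟨_, rfl⟩
  obtain ⟨c₂, hc₂⟩ : ∃ c₂ : ℝ, c₂ =
      (((Ioc x (x + h)).filter (fun n => n.Prime ∧ n ≡ a.val [MOD m])).card : ℝ) := ⟨_, rfl⟩
  rw [← hc₁, ← hc₂] at h1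
  rw [← hc₁] at h2
  rw [← hc₂]
  have hc₂0 : 0 ≤ c₂ := by rw [hc₂]; exact Nat.cast_nonneg _
  have hNr : (1 : ℝ) ≤ N := by exact_mod_cast hN1
  have hl : Real.log N ≤ Real.log (2 * N) := Real.log_le_log (by linarith) (by linarith)
  have h3 : Real.log N * c₂ ≤ Real.log (2 * N) * c₂ := mul_le_mul_of_nonneg_right hl hc₂0
  rw [abs_le] at h1 h2
  rw [add_div] at h1
  nlinarith [h1.2, h2.1]

end Pool.Agent.Lib.MP_629a14_nt.Col
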