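import Pool.Agent.Lib.MP_629a14_nt.Col.Spec
import Pool.Agent.Lib.MP_629a14_nt.Col.Uni

/-! The correlation inequality for two short intervals. -/

set_option autoImplicit false

namespace Pool.Agent.Lib.MP_629a14_nt.Col

open Finset Filter Topology Pool.Agent.Lib.MP_629a14_nt Pool.Agent.Lib.MP_629a14_nt.Rob

private lemma PieceT_dvd {v p : ℕ} (hp : p.Prime) (h : p ≤ v) : p ∣ primorial v := by
  unfold primorial
  exact Finset.dvd_prod_of_mem _ (by simp only [mem_filter, mem_range]; exact ⟨by omega, hp⟩)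

private lemma PieceT_sig {v n n' : ℕ} (h : n ≡ n' [MOD primorial v]) : sig v n = sig v n' := by
  unfold sig
  congr 2
  apply Finset.filter_congr
  intro p hp
  rw [mem_Icc] at hp
  constructor
  · rintro ⟨h1, h2⟩
    exact ⟨h1, fun h3 => h2 (((h.of_dvd (PieceT_dvd h1 hp.2)).dvd_iff dvd_rfl).2 h3)⟩
  · rintro ⟨h1, h2⟩
    exact ⟨h1, fun h3 => h2 (((h.of_dvd (PieceT_dvd h1 hp.2)).dvd_iff dvd_rfl).1 h3)⟩

private lemma PieceT_mem {v : ℕ} {A : Set ℕ} {x h p : ℕ} (hp : p ∈ PP v A x h) :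
    (p : ZMod (primorial v)) ∈ Sm.UM (primorial v) := by
  classical
  unfold PP at hp
  simp only [mem_filter] at hp
  unfold Sm.UM
  simp only [mem_filter, mem_univ, true_and]
  rw [ZMod.isUnit_iff_coprime]
  unfold primorial
  apply Nat.Coprime.prod_right
  intro q hq
  simp only [mem_filter, mem_range] at hq
  rw [Nat.coprime_primes hp.2.1 hq.2]
  have := hp.2.2.2
  omega

open Classical in
private lemma PieceT_sumF (v : ℕ) (A : Set ℕ) (x h : ℕ) (c : ℝ) :
    ∑ a ∈ Sm.UM (primorial v),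
      c * (((PP v A x h).filter (fun p : ℕ => (p : ZMod (primorial v)) = a)).card : ℝ)
      = c * ((PP v A x h).card : ℝ) := by
  rw [← mul_sum]
  congr 1
  rw [Finset.card_eq_sum_card_fiberwise (f := fun p : ℕ => (p : ZMod (primorial v)))
    (t := Sm.UM (primorial v)) (fun p hp => PieceT_mem hp)]
  push_cast
  rfl

open Classical in
/-- Group the primes of `PP v A x h`, `PP v B y h` (which are units modulo `V = primorial v`, being larger
than `v`) by their residues: with `F a = log N #{p ∈ PP v A x h, p = a}`, `G b` similarly,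
`TT = (1/2) ∑_{a,b units} (2 / sig v (a + b)) F a G b` (`sig v` depends on `n` modulo `V`). -/
theorem tt_eq (v N : ℕ) (hv : 2 ≤ v) (A B : Set ℕ) (x y h : ℕ) :
    TT v N A B x y h = (1 / 2) * ∑ a ∈ Sm.UM (primorial v), ∑ b ∈ Sm.UM (primorial v),
      (2 / sig v (a.val + b.val)) *
        ((Real.log N * (((PP v A x h).filter (fun p : ℕ => (p : ZMod (primorial v)) = a)).card : ℝ)) *
          (Real.log N *
            (((PP v B y h).filter (fun p : ℕ => (p : ZMod (primorial v)) = b)).card : ℝ))) := by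
  set V := primorial v with hV
  haveI : NeZero V := Sm.primorial_neZero v
  have key : ∀ a b : ZMod V, (2 / sig v (a.val + b.val)) *
        ((Real.log N * (((PP v A x h).filter (fun p : ℕ => (p : ZMod V) = a)).card : ℝ)) *
          (Real.log N *
            (((PP v B y h).filter (fun p : ℕ => (p : ZMod V) = b)).card : ℝ)))
      = ∑ p ∈ (PP v A x h).filter (fun p : ℕ => (p : ZMod V) = a),
          ∑ q ∈ (PP v B y h).filter (fun q : ℕ => (q : ZMod V) = b),
            2 * (Real.log N ^ 2 / sig v (p + q)) := by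
    intro a b
    have h1 : ∀ p ∈ (PP v A x h).filter (fun p : ℕ => (p : ZMod V) = a),
        ∑ q ∈ (PP v B y h).filter (fun q : ℕ => (q : ZMod V) = b),
            2 * (Real.log N ^ 2 / sig v (p + q))
        = ∑ q ∈ (PP v B y h).filter (fun q : ℕ => (q : ZMod V) = b),
            2 * (Real.log N ^ 2 / sig v (a.val + b.val)) := by
      intro p hp
      apply sum_congr rfl
      intro q hq
      rw [mem_filter] at hp hq
      have : sig v (p + q) = sig v (a.val + b.val) := by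
        apply PieceT_sig
        rw [← hV, ← ZMod.natCast_eq_natCast_iff]
        push_cast
        rw [hp.2, hq.2, ZMod.natCast_zmod_val, ZMod.natCast_zmod_val]
      rw [this]
    rw [sum_congr rfl h1]
    simp only [sum_const, nsmul_eq_mul]
    ring
  have h2 : ∑ a ∈ Sm.UM V, ∑ b ∈ Sm.UM V, (2 / sig v (a.val + b.val)) *
        ((Real.log N * (((PP v A x h).filter (fun p : ℕ => (p : ZMod V) = a)).card : ℝ)) *
          (Real.log N *
            (((PP v B y h).filter (fun p : ℕ => (p : ZMod V) = b)).card : ℝ)))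
      = ∑ p ∈ PP v A x h, ∑ q ∈ PP v B y h, 2 * (Real.log N ^ 2 / sig v (p + q)) := by
    calc _ = ∑ a ∈ Sm.UM V, ∑ b ∈ Sm.UM V,
          ∑ p ∈ (PP v A x h).filter (fun p : ℕ => (p : ZMod V) = a),
          ∑ q ∈ (PP v B y h).filter (fun q : ℕ => (q : ZMod V) = b),
            2 * (Real.log N ^ 2 / sig v (p + q)) := by
          apply sum_congr rfl; intro a _
          apply sum_congr rfl; intro b _
          exact key a b
      _ = ∑ a ∈ Sm.UM V, ∑ p ∈ (PP v A x h).filter (fun p : ℕ => (p : ZMod V) = a),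
            ∑ b ∈ Sm.UM V, ∑ q ∈ (PP v B y h).filter (fun q : ℕ => (q : ZMod V) = b),
            2 * (Real.log N ^ 2 / sig v (p + q)) := by
          apply sum_congr rfl; intro a _
          exact sum_comm
      _ = ∑ a ∈ Sm.UM V, ∑ p ∈ (PP v A x h).filter (fun p : ℕ => (p : ZMod V) = a),
            ∑ q ∈ PP v B y h, 2 * (Real.log N ^ 2 / sig v (p + q)) := by
          apply sum_congr rfl; intro a _
          apply sum_congr rfl; intro p _
          exact sum_fiberwise_of_maps_to (fun q hq => PieceT_mem hq) _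
      _ = _ := sum_fiberwise_of_maps_to (fun p hp => PieceT_mem hp) _
  rw [h2]
  unfold TT
  rw [mul_sum]
  apply sum_congr rfl
  intro p _
  rw [mul_sum]
  apply sum_congr rfl
  intro q _
  ring

private lemma PieceT_UM (m : ℕ) [NeZero m] : (Sm.UM m).card = m.totient := by
  classical
  have h : Sm.UM m = (univ : Finset (ZMod m)ˣ).image (fun u : (ZMod m)ˣ => (u : ZMod m)) := by
    ext x
    unfold Sm.UM
    simp only [mem_filter, mem_univ, true_and, mem_image]
    constructor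
    · rintro ⟨u, rfl⟩
      exact ⟨u, rfl⟩
    · rintro ⟨u, rfl⟩
      exact u.isUnit
  rw [h, card_image_of_injective _ Units.val_injective, card_univ, ZMod.card_units_eq_totient]

private lemma PieceT_lim {A : Set ℕ} {α : ℝ}
    (hA : Tendsto (fun x : ℕ => (cntB A x : ℝ) / cntB Set.univ x) atTop (𝓝 α)) :
    0 ≤ α ∧ α ≤ 1 := by
  constructor
  · exact ge_of_tendsto' hA (fun x => by positivity)
  · refine le_of_tendsto' hA (fun x => ?_)
    apply div_le_one_of_le₀ _ (Nat.cast_nonneg _)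
    unfold cntB
    norm_cast
    apply card_le_card
    intro p hp
    simp only [mem_filter, Set.mem_univ, and_true] at hp ⊢
    exact ⟨hp.1, hp.2.1⟩

private lemma PieceT_card (v : ℕ) (A : Set ℕ) (x h : ℕ) :
    ((PP v A x h).card : ℝ) ≤ (cntB A (x + h) : ℝ) - cntB A x ∧
      (cntB A (x + h) : ℝ) - cntB A x ≤ (PP v A x h).card + v := by
  classical
  set T := (Ioc x (x + h)).filter (fun p => p.Prime ∧ p ∈ A) with hT
  have e1 : cntB A (x + h) = cntB A x + T.card := by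
    unfold cntB
    rw [hT, ← card_union_of_disjoint]
    · congr 1
      ext p
      simp only [mem_filter, mem_union, mem_Icc, mem_Ioc]
      constructor
      · rintro ⟨h1, h2⟩
        rcases Nat.lt_or_ge x p with h3 | h3
        · exact Or.inr ⟨⟨h3, h1.2⟩, h2⟩
        · exact Or.inl ⟨⟨h1.1, h3⟩, h2⟩
      · rintro (⟨h1, h2⟩ | ⟨h1, h2⟩)
        · exact ⟨⟨h1.1, by omega⟩, h2⟩
        · exact ⟨⟨by omega, h1.2⟩, h2⟩
    · rw [Finset.disjoint_left]
      intro p hp hq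
      simp only [mem_filter, mem_Icc, mem_Ioc] at hp hq
      omega
  have e2 : (PP v A x h).card ≤ T.card := by
    apply card_le_card
    intro p hp
    unfold PP at hp
    simp only [mem_filter] at hp
    simp only [hT, mem_filter]
    exact ⟨hp.1, hp.2.1, hp.2.2.1⟩
  have e3 : T.card ≤ (PP v A x h).card + v := by
    have : T ⊆ (PP v A x h) ∪ Icc 1 v := by
      intro p hp
      simp only [hT, mem_filter] at hp
      unfold PP
      simp only [mem_union, mem_filter, mem_Icc]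
      rcases Nat.lt_or_ge v p with h3 | h3
      · exact Or.inl ⟨hp.1, hp.2.1, hp.2.2, h3⟩
      · exact Or.inr ⟨hp.2.1.one_lt.le, h3⟩
    calc T.card ≤ ((PP v A x h) ∪ Icc 1 v).card := card_le_card this
      _ ≤ (PP v A x h).card + (Icc 1 v).card := card_union_le _ _
      _ = _ := by simp
  have e1' : (cntB A (x + h) : ℝ) = cntB A x + T.card := by exact_mod_cast e1
  have e2' : ((PP v A x h).card : ℝ) ≤ T.card := by exact_mod_cast e2
  have e3' : (T.card : ℝ) ≤ (PP v A x h).card + v := by exact_mod_cast e3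
  constructor <;> linarith

/-- the variance bound -/
private lemma PieceT_var {ι : Type} (U : Finset ι) (F : ι → ℝ) (μ φ K S : ℝ) (hφ : 0 < φ)
    (hF : ∀ a ∈ U, 0 ≤ F a) (hK : ∀ a ∈ U, F a ≤ K) (hcard : (U.card : ℝ) = φ)
    (hS : ∑ a ∈ U, F a = S) (hμ : μ = S / φ) :
    ∑ a ∈ U, (F a - μ) ^ 2 ≤ K * S - S ^ 2 / φ := by
  have h1 : ∑ a ∈ U, (F a - μ) ^ 2 = ∑ a ∈ U, F a ^ 2 - 2 * μ * S + μ ^ 2 * φ := by
    have : ∀ a ∈ U, (F a - μ) ^ 2 = F a ^ 2 - 2 * μ * F a + μ ^ 2 := by intro a _; ring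
    rw [sum_congr rfl this, sum_add_distrib, sum_sub_distrib, ← mul_sum, hS, sum_const,
      nsmul_eq_mul, hcard]
    ring
  have h2 : ∑ a ∈ U, F a ^ 2 ≤ K * S := by
    rw [← hS, mul_sum]
    apply sum_le_sum
    intro a ha
    have := hF a ha
    have := hK a ha
    nlinarith
  rw [h1, hμ]
  have h3 : -2 * (S / φ) * S + (S / φ) ^ 2 * φ = - (S ^ 2 / φ) := by
    field_simp
    ring
  linarith

private lemma PieceT_one (φ α h N e S K : ℝ) (hφ : 1 ≤ φ) (hα0 : 0 ≤ α) (hα1 : α ≤ 1)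
    (hh : 0 ≤ h) (hhN : h ≤ 2 * N) (he : 0 < e) (he1 : e ≤ 1 / 10) (hN : 0 ≤ N)
    (hS0 : 0 ≤ S) (hS : |S - α * h| ≤ 3 * e * N) (hK : K = h / φ + e * N) :
    φ * (K * S - S ^ 2 / φ) ≤ α * (1 - α) * h ^ 2 + 9 * φ * e * N ^ 2 := by
  have hφ' : 0 < φ := by linarith
  have e1 : φ * (K * S - S ^ 2 / φ) = h * S - S ^ 2 + φ * e * N * S := by
    rw [hK]
    field_simp
    ring
  rw [e1]
  obtain ⟨h1, h2⟩ := abs_le.1 hS
  set θ := S - α * h with hθ
  have hSe : S = α * h + θ := by rw [hθ]; ring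
  have h3 : S ≤ 2 * N + 3 * e * N := by nlinarith
  have h4 : h * S - S ^ 2 ≤ α * (1 - α) * h ^ 2 + 6 * e * N ^ 2 := by
    have : h * S - S ^ 2 = α * (1 - α) * h ^ 2 + θ * (1 - 2 * α) * h - θ ^ 2 := by
      rw [hSe]; ring
    rw [this]
    have h5 : θ * (1 - 2 * α) * h ≤ 3 * e * N * h := by
      have : θ * (1 - 2 * α) ≤ 3 * e * N := by
        have h6 : |θ * (1 - 2 * α)| ≤ 3 * e * N := by
          rw [abs_mul]
          have : |1 - 2 * α| ≤ 1 := by rw [abs_le]; constructor <;> linarith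
          calc |θ| * |1 - 2 * α| ≤ (3 * e * N) * 1 :=
                mul_le_mul hS this (abs_nonneg _) (by positivity)
            _ = _ := by ring
        exact le_trans (le_abs_self _) h6
      exact mul_le_mul_of_nonneg_right this hh
    have h7 : 3 * e * N * h ≤ 6 * e * N ^ 2 := by
      have : 3 * e * N * h ≤ 3 * e * N * (2 * N) := mul_le_mul_of_nonneg_left hhN (by positivity)
      nlinarith
    nlinarith [sq_nonneg θ]
  have h8 : φ * e * N * S ≤ φ * e * N * (2 * N + 3 * e * N) :=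
    mul_le_mul_of_nonneg_left h3 (by positivity)
  have h9 : φ * e * N * (2 * N + 3 * e * N) ≤ 3 * φ * e * N ^ 2 := by
    have : 3 * e * N ≤ N := by nlinarith
    have h10 : φ * e * N * (2 * N + 3 * e * N) ≤ φ * e * N * (3 * N) :=
      mul_le_mul_of_nonneg_left (by linarith) (by positivity)
    nlinarith
  have h11 : 6 * e * N ^ 2 ≤ 6 * φ * e * N ^ 2 := by
    have : 0 ≤ e * N ^ 2 := by positivity
    nlinarith
  linarith

/-- `tt_eq` and `spec`. With `F a` as in `tt_eq`, `∑ F = log N |PP v A x h| = α h + O(ε' N)` (`uni` at `x + h` and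
`x`; at most `v` primes are `≤ v`), so `μ φ = α h + O(ε' N)`; `F a ≤ h/φ + ε' N` (`uni_class`), so
`∑ (F - μ)² = ∑ F² - μ² φ ≤ (h/φ + ε' N) ∑ F - μ² φ ≤ (h²/φ) α (1 - α) + δ N²`. Similarly for `B`. Then
`|TT - (1/2) μ ν φ²| ≤ (1/6) φ sqrt (h² α(1-α)/φ + δ N²) sqrt (h² β(1-β)/φ + δ N²)`, and
`sqrt (s + t) ≤ sqrt s + sqrt t`. -/
theorem pieceT (v : ℕ) (hv : 2 ≤ v) (A B : Set ℕ) (α β : ℝ)
    (hA : Tendsto (fun x : ℕ => (cntB A x : ℝ) / cntB Set.univ x) atTop (𝓝 α))
    (hB : Tendsto (fun x : ℕ => (cntB B x : ℝ) / cntB Set.univ x) atTop (𝓝 β))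
    (ε : ℝ) (hε : 0 < ε) : ∃ N₀ : ℕ, ∀ N : ℕ, N₀ ≤ N → ∀ x y h : ℕ, x + h ≤ 2 * N → y + h ≤ 2 * N →
      |TT v N A B x y h - α * β / 2 * (h : ℝ) ^ 2| ≤
        theta α β / 2 * (h : ℝ) ^ 2 + ε * (N : ℝ) ^ 2 := by
  classical
  obtain ⟨hα0, hα1⟩ := PieceT_lim hA
  obtain ⟨hβ0, hβ1⟩ := PieceT_lim hB
  haveI : NeZero (primorial v) := Sm.primorial_neZero v
  set V := primorial v with hV
  set φ : ℝ := (V.totient : ℝ) with hφ
  have hVpos : 0 < V := primorial_pos v
  have hφ1 : 1 ≤ φ := by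
    have : 0 < V.totient := Nat.totient_pos.2 hVpos
    rw [hφ]; exact_mod_cast this
  have hφ0 : 0 < φ := by linarith
  set κ : ℝ := min ε 1 with hκ
  have hκ0 : 0 < κ := lt_min hε one_pos
  have hκ1 : κ ≤ 1 := min_le_right _ _
  have hκε : κ ≤ ε := min_le_left _ _
  set e : ℝ := κ ^ 2 / (100 * φ) with he
  have he0 : 0 < e := by positivity
  have heκ : 100 * φ * e = κ ^ 2 := by rw [he]; field_simp
  have heκ2 : 100 * e ≤ κ := by
    have h1 : 100 * e ≤ 100 * φ * e := by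
      have : 100 * e * 1 ≤ 100 * e * φ := mul_le_mul_of_nonneg_left hφ1 (by positivity)
      linarith
    have h2 : κ ^ 2 ≤ κ := by
      rw [sq]
      exact mul_le_of_le_one_left hκ0.le hκ1
    linarith
  have he1 : e ≤ 1 / 10 := by linarith
  obtain ⟨N₁, h₁⟩ := uni A α hA e he0
  obtain ⟨N₂, h₂⟩ := uni B β hB e he0
  obtain ⟨N₃, h₃⟩ := uni_class V e he0
  have hlog : ∃ N₄ : ℕ, ∀ N : ℕ, N₄ ≤ N → (v : ℝ) * Real.log N ≤ e * N := by
    have h1 := (Real.isLittleO_log_id_atTop.comp_tendsto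
      (tendsto_natCast_atTop_atTop (R := ℝ))).def (c := e / (v + 1)) (by positivity)
    rw [Filter.eventually_atTop] at h1
    obtain ⟨N₄, h4⟩ := h1
    refine ⟨max N₄ 1, fun N hN => ?_⟩
    have h5 := h4 N (le_trans (le_max_left _ _) hN)
    have hN1 : 1 ≤ N := le_trans (le_max_right _ _) hN
    simp only [Function.comp, id, Real.norm_eq_abs] at h5
    rw [abs_of_nonneg (Real.log_nonneg (by exact_mod_cast hN1)),
      abs_of_nonneg (Nat.cast_nonneg N)] at h5
    have h6 : (0 : ℝ) ≤ v := Nat.cast_nonneg v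
    calc (v : ℝ) * Real.log N ≤ v * (e / (v + 1) * N) := mul_le_mul_of_nonneg_left h5 h6
      _ = (v / (v + 1)) * (e * N) := by field_simp
      _ ≤ 1 * (e * N) := by
          apply mul_le_mul_of_nonneg_right _ (by positivity)
          rw [div_le_one (by positivity)]
          linarith
      _ = _ := one_mul _
  obtain ⟨N₄, h₄⟩ := hlog
  refine ⟨max (max N₁ N₂) (max (max N₃ N₄) 1), fun N hN x y h hx hy => ?_⟩
  have hN1 : N₁ ≤ N := le_trans (le_trans (le_max_left _ _) (le_max_left _ _)) hN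
  have hN2 : N₂ ≤ N := le_trans (le_trans (le_max_right _ _) (le_max_left _ _)) hN
  have hN3 : N₃ ≤ N := le_trans (le_trans (le_trans (le_max_left _ _) (le_max_left _ _))
    (le_max_right _ _)) hN
  have hN4 : N₄ ≤ N := le_trans (le_trans (le_trans (le_max_right _ _) (le_max_left _ _))
    (le_max_right _ _)) hN
  have hN5 : 1 ≤ N := le_trans (le_trans (le_max_right _ _) (le_max_right _ _)) hN
  have hNR : (0 : ℝ) ≤ N := Nat.cast_nonneg N
  have hL : 0 ≤ Real.log N := Real.log_nonneg (by exact_mod_cast hN5)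
  have hh0 : (0 : ℝ) ≤ h := Nat.cast_nonneg h
  have hhN : (h : ℝ) ≤ 2 * N := by
    have : h ≤ 2 * N := by omega
    exact_mod_cast this
  -- generic bound for the sums
  have gen : ∀ (C : Set ℕ) (γ : ℝ) (M : ℕ), M ≤ N → (∀ N : ℕ, M ≤ N → ∀ x : ℕ, x ≤ 2 * N →
      |Real.log N * cntB C x - γ * x| ≤ e * N) → ∀ z : ℕ, z + h ≤ 2 * N →
      |Real.log N * ((PP v C z h).card : ℝ) - γ * h| ≤ 3 * e * N := by
    intro C γ M hM hu z hz
    have u1 := abs_le.1 (hu N hM (z + h) hz)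
    have u2 := abs_le.1 (hu N hM z (by omega))
    have u3 := PieceT_card v C z h
    have u4 := h₄ N hN4
    push_cast at u1
    have u5 : Real.log N * ((PP v C z h).card : ℝ) ≤
        Real.log N * ((cntB C (z + h) : ℝ) - cntB C z) := mul_le_mul_of_nonneg_left u3.1 hL
    have u6 : Real.log N * ((cntB C (z + h) : ℝ) - cntB C z) ≤
        Real.log N * ((PP v C z h).card + v) := mul_le_mul_of_nonneg_left u3.2 hL
    rw [mul_add] at u1
    rw [mul_sub] at u5
    rw [mul_sub, mul_add] at u6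
    rw [abs_le]
    constructor
    · linarith
    · linarith
  have hSA := gen A α N₁ hN1 h₁ x hx
  have hSB := gen B β N₂ hN2 h₂ y hy
  set SA := Real.log N * ((PP v A x h).card : ℝ) with hSAdef
  set SB := Real.log N * ((PP v B y h).card : ℝ) with hSBdef
  have hSA0 : 0 ≤ SA := by positivity
  have hSB0 : 0 ≤ SB := by positivity
  set F : ZMod V → ℝ := fun a =>
    Real.log N * (((PP v A x h).filter (fun p : ℕ => (p : ZMod V) = a)).card : ℝ) with hFdef
  set G : ZMod V → ℝ := fun b =>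
    Real.log N * (((PP v B y h).filter (fun p : ℕ => (p : ZMod V) = b)).card : ℝ) with hGdef
  have hsF : ∑ a ∈ Sm.UM V, F a = SA := PieceT_sumF v A x h (Real.log N)
  have hsG : ∑ a ∈ Sm.UM V, G a = SB := PieceT_sumF v B y h (Real.log N)
  have hcard : ((Sm.UM V).card : ℝ) = φ := by
    rw [hφ]
    exact_mod_cast PieceT_UM V
  have hKgen : ∀ (C : Set ℕ) (z : ℕ), z + h ≤ 2 * N → ∀ a ∈ Sm.UM V,
      Real.log N * (((PP v C z h).filter (fun p : ℕ => (p : ZMod V) = a)).card : ℝ)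
        ≤ (h : ℝ) / φ + e * N := by
    intro C z hz a ha
    have ha' : IsUnit a := by
      unfold Sm.UM at ha
      simpa using ha
    refine le_trans ?_ (h₃ N hN3 z h hz a ha')
    apply mul_le_mul_of_nonneg_left _ hL
    norm_cast
    apply card_le_card
    intro p hp
    unfold PP at hp
    simp only [mem_filter] at hp ⊢
    exact ⟨hp.1.1, hp.1.2.1, hp.2⟩
  have hvF := PieceT_var (Sm.UM V) F (SA / φ) φ ((h : ℝ) / φ + e * N) SA hφ0
    (fun a _ => by simp only [hFdef]; positivity) (hKgen A x hx) hcard hsF rfl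
  have hvG := PieceT_var (Sm.UM V) G (SB / φ) φ ((h : ℝ) / φ + e * N) SB hφ0
    (fun a _ => by simp only [hGdef]; positivity) (hKgen B y hy) hcard hsG rfl
  have hoF := PieceT_one φ α h N e SA _ hφ1 hα0 hα1 hh0 hhN he0 he1 hNR hSA0 hSA rfl
  have hoG := PieceT_one φ β h N e SB _ hφ1 hβ0 hβ1 hh0 hhN he0 he1 hNR hSB0 hSB rfl
  have hF2 : φ * ∑ a ∈ Sm.UM V, (F a - SA / φ) ^ 2 ≤ α * (1 - α) * h ^ 2 + 9 * φ * e * N ^ 2 :=
    le_trans (mul_le_mul_of_nonneg_left hvF hφ0.le) hoF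
  have hG2 : φ * ∑ a ∈ Sm.UM V, (G a - SB / φ) ^ 2 ≤ β * (1 - β) * h ^ 2 + 9 * φ * e * N ^ 2 :=
    le_trans (mul_le_mul_of_nonneg_left hvG hφ0.le) hoG
  -- the spectral inequality
  have hspec := spec v hv F G (SA / φ) (SB / φ)
    (by rw [hsF]; field_simp; rfl) (by rw [hsG]; field_simp; rfl)
  have htt := tt_eq v N hv A B x y h
  have hμν : SA / φ * (SB / φ) * φ ^ 2 = SA * SB := by field_simp
  change |∑ a ∈ Sm.UM V, ∑ b ∈ Sm.UM V, (2 / sig v (a.val + b.val)) * (F a * G b)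
    - SA / φ * (SB / φ) * φ ^ 2| ≤ (1 / 3) * φ *
        (Real.sqrt (∑ a ∈ Sm.UM V, (F a - SA / φ) ^ 2) *
          Real.sqrt (∑ b ∈ Sm.UM V, (G b - SB / φ) ^ 2)) at hspec
  rw [hμν] at hspec
  have htt' : TT v N A B x y h = (1 / 2) *
      ∑ a ∈ Sm.UM V, ∑ b ∈ Sm.UM V, (2 / sig v (a.val + b.val)) * (F a * G b) := htt
  set Q := ∑ a ∈ Sm.UM V, ∑ b ∈ Sm.UM V, (2 / sig v (a.val + b.val)) * (F a * G b) with hQ
  have hsq : φ * (Real.sqrt (∑ a ∈ Sm.UM V, (F a - SA / φ) ^ 2) *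
          Real.sqrt (∑ b ∈ Sm.UM V, (G b - SB / φ) ^ 2))
      = Real.sqrt (φ * ∑ a ∈ Sm.UM V, (F a - SA / φ) ^ 2) *
          Real.sqrt (φ * ∑ b ∈ Sm.UM V, (G b - SB / φ) ^ 2) := by
    rw [Real.sqrt_mul hφ0.le, Real.sqrt_mul hφ0.le]
    have := Real.mul_self_sqrt hφ0.le
    calc _ = (Real.sqrt φ * Real.sqrt φ) * (Real.sqrt (∑ a ∈ Sm.UM V, (F a - SA / φ) ^ 2) *
          Real.sqrt (∑ b ∈ Sm.UM V, (G b - SB / φ) ^ 2)) := by rw [this]
      _ = _ := by ring
  have hsqrt : ∀ (γ X : ℝ), 0 ≤ γ → γ ≤ 1 → X ≤ γ * (1 - γ) * h ^ 2 + 9 * φ * e * N ^ 2 →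
      Real.sqrt X ≤ Real.sqrt (γ * (1 - γ)) * h + κ / 2 * N := by
    intro γ X h0 h1 hX
    have hg : 0 ≤ γ * (1 - γ) := mul_nonneg h0 (by linarith)
    have h2 : 9 * φ * e * N ^ 2 ≤ (κ / 2 * N) ^ 2 := by
      have : 9 * φ * e ≤ κ ^ 2 / 4 := by
        have : 0 ≤ κ ^ 2 := sq_nonneg κ
        linarith
      calc 9 * φ * e * N ^ 2 ≤ κ ^ 2 / 4 * N ^ 2 :=
            mul_le_mul_of_nonneg_right this (by positivity)
        _ = _ := by ring
    apply Real.sqrt_le_iff.2
    constructor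
    · positivity
    · have h3 := Real.sq_sqrt hg
      have h4 : 0 ≤ Real.sqrt (γ * (1 - γ)) := Real.sqrt_nonneg _
      calc X ≤ γ * (1 - γ) * h ^ 2 + (κ / 2 * N) ^ 2 := by linarith
        _ = (Real.sqrt (γ * (1 - γ)) * h) ^ 2 + (κ / 2 * N) ^ 2 := by
            rw [mul_pow (Real.sqrt (γ * (1 - γ))), h3]
        _ ≤ (Real.sqrt (γ * (1 - γ)) * h + κ / 2 * N) ^ 2 := by
            have : 0 ≤ Real.sqrt (γ * (1 - γ)) * h * (κ / 2 * N) := by positivity
            rw [add_sq]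
            linarith
  have hhalf : ∀ γ : ℝ, Real.sqrt (γ * (1 - γ)) ≤ 1 / 2 := by
    intro γ
    apply Real.sqrt_le_iff.2
    constructor
    · norm_num
    · nlinarith [sq_nonneg (γ - 1 / 2)]
  have hXA := hsqrt α _ hα0 hα1 hF2
  have hXB := hsqrt β _ hβ0 hβ1 hG2
  set a1 := Real.sqrt (α * (1 - α)) with ha1
  set b1 := Real.sqrt (β * (1 - β)) with hb1
  have ha0 : 0 ≤ a1 := Real.sqrt_nonneg _
  have hb0 : 0 ≤ b1 := Real.sqrt_nonneg _
  have haH := hhalf α
  have hbH := hhalf β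
  have hprod : Real.sqrt (φ * ∑ a ∈ Sm.UM V, (F a - SA / φ) ^ 2) *
          Real.sqrt (φ * ∑ b ∈ Sm.UM V, (G b - SB / φ) ^ 2)
      ≤ a1 * b1 * h ^ 2 + (κ + κ ^ 2 / 4) * N ^ 2 := by
    calc _ ≤ (a1 * h + κ / 2 * N) * (b1 * h + κ / 2 * N) :=
          mul_le_mul hXA hXB (Real.sqrt_nonneg _) (by positivity)
      _ = a1 * b1 * h ^ 2 + (a1 + b1) * (κ / 2 * N) * h + κ ^ 2 / 4 * N ^ 2 := by ring
      _ ≤ a1 * b1 * h ^ 2 + 1 * (κ / 2 * N) * (2 * N) + κ ^ 2 / 4 * N ^ 2 := by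
          have : (a1 + b1) * (κ / 2 * N) * h ≤ 1 * (κ / 2 * N) * (2 * N) := by
            apply mul_le_mul _ hhN hh0 (by positivity)
            apply mul_le_mul_of_nonneg_right (by linarith) (by positivity)
          linarith
      _ = _ := by ring
  have hθ : theta α β = (1 / 3) * (a1 * b1) := by
    unfold theta
    rw [Real.sqrt_mul (mul_nonneg hα0 (by linarith))]
  have hQ1 : |TT v N A B x y h - SA * SB / 2| ≤ (1 / 6) * (a1 * b1 * h ^ 2)
      + (1 / 6) * ((κ + κ ^ 2 / 4) * N ^ 2) := by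
    have h1 : TT v N A B x y h - SA * SB / 2 = (1 / 2) * (Q - SA * SB) := by rw [htt']; ring
    rw [h1, abs_mul, abs_of_pos (by norm_num : (0 : ℝ) < 1 / 2)]
    have h2 : (1 / 3) * φ * (Real.sqrt (∑ a ∈ Sm.UM V, (F a - SA / φ) ^ 2) *
          Real.sqrt (∑ b ∈ Sm.UM V, (G b - SB / φ) ^ 2))
        = (1 / 3) * (φ * (Real.sqrt (∑ a ∈ Sm.UM V, (F a - SA / φ) ^ 2) *
          Real.sqrt (∑ b ∈ Sm.UM V, (G b - SB / φ) ^ 2))) := by ring
    rw [h2, hsq] at hspec
    linarith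
  have hQ2 : |SA * SB / 2 - α * β / 2 * (h : ℝ) ^ 2| ≤ 7 * e * N ^ 2 := by
    have h1 : SA * SB / 2 - α * β / 2 * (h : ℝ) ^ 2
        = (1 / 2) * ((SA - α * h) * SB + α * h * (SB - β * h)) := by ring
    rw [h1, abs_mul, abs_of_pos (by norm_num : (0 : ℝ) < 1 / 2)]
    have hSBle : SB ≤ 23 / 10 * N := by
      have := (abs_le.1 hSB).2
      have h2 : β * h ≤ 2 * N := le_trans (mul_le_of_le_one_left hh0 hβ1) hhN
      have h3 : 3 * e * N ≤ 3 / 10 * N := mul_le_mul_of_nonneg_right (by linarith) hNR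
      linarith
    have h2 : |(SA - α * h) * SB| ≤ 3 * e * N * (23 / 10 * N) := by
      rw [abs_mul, abs_of_nonneg hSB0]
      exact mul_le_mul hSA hSBle hSB0 (by positivity)
    have h3 : |α * h * (SB - β * h)| ≤ (2 * N) * (3 * e * N) := by
      rw [abs_mul, abs_of_nonneg (by positivity : (0 : ℝ) ≤ α * h)]
      apply mul_le_mul _ hSB (abs_nonneg _) (by positivity)
      exact le_trans (mul_le_of_le_one_left hh0 hα1) hhN
    have h4 := abs_add_le ((SA - α * h) * SB) (α * h * (SB - β * h))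
    have h5 : 0 ≤ e * (N : ℝ) ^ 2 := by positivity
    linarith
  have hfin := abs_add_le (TT v N A B x y h - SA * SB / 2) (SA * SB / 2 - α * β / 2 * (h : ℝ) ^ 2)
  rw [show TT v N A B x y h - SA * SB / 2 + (SA * SB / 2 - α * β / 2 * (h : ℝ) ^ 2)
    = TT v N A B x y h - α * β / 2 * (h : ℝ) ^ 2 by ring] at hfin
  have hNsq : 0 ≤ (N : ℝ) ^ 2 := by positivity
  have hκsq : κ ^ 2 ≤ κ := by
    rw [sq]
    exact mul_le_of_le_one_left hκ0.le hκ1
  have hcoef : (1 / 6) * (κ + κ ^ 2 / 4) + 7 * e ≤ ε := by linarith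
  have h10 := mul_le_mul_of_nonneg_right hcoef hNsq
  rw [hθ]
  linarith

end Pool.Agent.Lib.MP_629a14_nt.Col
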