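import Pool.Agent.Lib.MP_629a14_nt.Col.PsdAll

/-! Pointwise bound for the mass: splitting the primes into short intervals. -/

set_option autoImplicit false

namespace Pool.Agent.Lib.MP_629a14_nt.Col

open Finset Pool.Agent.Lib.MP_629a14_nt Pool.Agent.Lib.MP_629a14_nt.Rob

/-- The contribution of the primes `b` of `(x, y]` with `n - b` prime. -/
noncomputable def RR (w N n x y : ℕ) : ℝ :=
  ∑ b ∈ (Ioc x y).filter (fun b => b.Prime ∧ w < b),
    Real.log N ^ 2 * (KK w (b : ℤ) ((n : ℤ) - b) * (if (n - b).Prime then 1 else 0))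

private lemma point_kapp_nonneg (r : ℕ) (hr : 1 ≤ r) (a b : ZMod r) : 0 ≤ kapp r a b := by
  have h1 : (1 : ℝ) ≤ (r : ℝ) := by exact_mod_cast hr
  have h0 : (0 : ℝ) < (r : ℝ) := by linarith
  have h2 : (1 : ℝ) / (r : ℝ) ≤ 1 := by
    rw [div_le_one h0]; exact h1
  have h3 : (0 : ℝ) ≤ 1 / (r : ℝ) := by positivity
  unfold kapp
  apply mul_nonneg (by linarith)
  apply add_nonneg
  · apply mul_nonneg (by linarith)
    split_ifs <;> norm_num
  · apply mul_nonneg h3
    split_ifs <;> norm_num

private lemma point_KK_nonneg (w : ℕ) (x y : ℤ) : 0 ≤ KK w x y := by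
  unfold KK
  apply Finset.prod_nonneg
  intro r hr
  apply point_kapp_nonneg
  have : r ∈ (Icc 3 w).filter Nat.Prime := hr
  rw [Finset.mem_filter] at this
  exact this.2.one_lt.le

private lemma point_mem_Om {w N x : ℕ} (hx : x ∈ Om w N Set.univ) :
    w < x ∧ x ≤ N / 2 ∧ x.Prime := by
  simp only [Om, Finset.mem_filter, Finset.mem_Ioc] at hx
  exact ⟨hx.1.1, hx.1.2, hx.2.1⟩

/-- Let `h ≥ 1`. A prime `p = x` of `Om w N univ` with `y = n - p` also there satisfies `p ≤ N / 2`,
`p ≤ n`, and lies in exactly one interval `(i h, (i + 1) h]` with `i < m` (`N ≤ 2 m h`); there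
`|2 p - n| ≥ |2 h i - n| - 2 h`, so `hat H p (n - p) ≤ (H + 2 h - |2 h i - n|)⁺`. -/
theorem point (w N H h m n : ℕ) (hh : 1 ≤ h) (hm : N ≤ 2 * (m * h)) :
    mass w N H Set.univ n ≤ ∑ i ∈ range m,
      max 0 (((H + 2 * h : ℕ) : ℝ) - |2 * (h : ℝ) * i - n|) *
        RR w N n (i * h) (min ((i + 1) * h) n) := by
  classical
  set T : ℕ → ℝ := fun b =>
    Real.log N ^ 2 * (KK w (b : ℤ) ((n : ℤ) - b) * (if (n - b).Prime then 1 else 0)) with hT
  set c : ℕ → ℝ := fun i => max 0 (((H + 2 * h : ℕ) : ℝ) - |2 * (h : ℝ) * i - n|) with hc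
  have hT0 : ∀ b, 0 ≤ T b := by
    intro b
    simp only [hT]
    apply mul_nonneg (by positivity)
    apply mul_nonneg (point_KK_nonneg _ _ _)
    split_ifs <;> norm_num
  have hc0 : ∀ i, 0 ≤ c i := fun i => le_max_left _ _
  set S : Finset ℕ := (Om w N Set.univ).filter (fun x => x ≤ n) with hS
  -- step 1
  have h1 : mass w N H Set.univ n ≤ ∑ x ∈ S, c ((x - 1) / h) * T x := by
    unfold mass
    rw [hS, Finset.sum_filter]
    apply Finset.sum_le_sum
    intro x hx
    obtain ⟨hwx, hxN, hxp⟩ := point_mem_Om hx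
    by_cases hxn : x ≤ n
    · rw [if_pos hxn]
      by_cases hy : (n - x) ∈ Om w N Set.univ
      · rw [Finset.sum_eq_single (n - x)]
        · have hxy : x + (n - x) = n := by omega
          rw [if_pos hxy]
          have hyp : (n - x).Prime := (point_mem_Om hy).2.2
          simp only [hT]
          rw [if_pos hyp]
          have hcast : ((n - x : ℕ) : ℤ) = (n : ℤ) - x := by
            push_cast [hxn]; ring
          rw [hcast]
          have hhat : hat H (x : ℝ) ((n - x : ℕ) : ℝ) ≤ c ((x - 1) / h) := by
            simp only [hc]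
            unfold hat
            apply max_le_max le_rfl
            have hq1 : h * ((x - 1) / h) ≤ x - 1 := Nat.mul_div_le _ _
            have hq2 : x - 1 < h * ((x - 1) / h) + h := by
              have := Nat.lt_mul_div_succ (x - 1) (by omega : 0 < h)
              nlinarith [this]
            set q := (x - 1) / h with hq
            have hx1 : 1 ≤ x := hxp.one_lt.le
            have hr1 : (h : ℝ) * q ≤ x := by
              have : h * q ≤ x := by omega
              exact_mod_cast this
            have hr2 : (x : ℝ) ≤ h * q + h := by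
              have : x ≤ h * q + h := by omega
              exact_mod_cast this
            have hcr : ((n - x : ℕ) : ℝ) = (n : ℝ) - x := by
              push_cast [hxn]; ring
            rw [hcr]
            push_cast
            have habs : |2 * (h : ℝ) * q - n| ≤ |(x : ℝ) - (n - x)| + 2 * h := by
              have e1 : 2 * (h : ℝ) * q - n = ((x : ℝ) - (n - x)) + (2 * (h : ℝ) * q - 2 * x) := by
                ring
              rw [e1]
              refine (abs_add_le _ _).trans ?_
              have : |2 * (h : ℝ) * q - 2 * x| ≤ 2 * h := by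
                rw [abs_le]; constructor <;> linarith
              linarith
            linarith
          have hK := point_KK_nonneg w (x : ℤ) ((n : ℤ) - x)
          have hL : 0 ≤ Real.log N ^ 2 := by positivity
          calc Real.log N ^ 2 * (KK w (x : ℤ) ((n : ℤ) - x) * hat H (x : ℝ) ((n - x : ℕ) : ℝ))
              ≤ Real.log N ^ 2 * (KK w (x : ℤ) ((n : ℤ) - x) * c ((x - 1) / h)) := by
                apply mul_le_mul_of_nonneg_left _ hL
                exact mul_le_mul_of_nonneg_left hhat hK
            _ = c ((x - 1) / h) * (Real.log N ^ 2 * (KK w (x : ℤ) ((n : ℤ) - x) * 1)) := by ring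
        · intro b _ hb
          rw [if_neg]
          intro hxb
          apply hb
          omega
        · intro hneg
          exact absurd hy hneg
      · rw [Finset.sum_eq_zero]
        · exact mul_nonneg (hc0 _) (hT0 _)
        · intro b hb
          rw [if_neg]
          intro hxb
          apply hy
          have : n - x = b := by omega
          rw [this]
          exact hb
    · rw [if_neg hxn, Finset.sum_eq_zero]
      intro b _
      rw [if_neg]
      omega
  -- step 2
  have hmap : ∀ x ∈ S, (x - 1) / h ∈ range m := by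
    intro x hx
    rw [hS, Finset.mem_filter] at hx
    obtain ⟨hwx, hxN, hxp⟩ := point_mem_Om hx.1
    have hx1 : 1 ≤ x := hxp.one_lt.le
    rw [Finset.mem_range, Nat.div_lt_iff_lt_mul (by omega)]
    omega
  refine h1.trans ?_
  rw [← Finset.sum_fiberwise_of_maps_to hmap]
  apply Finset.sum_le_sum
  intro i _
  have h2 : ∑ x ∈ S with (x - 1) / h = i, c ((x - 1) / h) * T x =
      c i * ∑ x ∈ S with (x - 1) / h = i, T x := by
    rw [Finset.mul_sum]
    apply Finset.sum_congr rfl
    intro x hx
    rw [Finset.mem_filter] at hx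
    rw [hx.2]
  rw [h2]
  apply mul_le_mul_of_nonneg_left _ (hc0 i)
  unfold RR
  apply Finset.sum_le_sum_of_subset_of_nonneg
  · intro x hx
    rw [Finset.mem_filter, hS, Finset.mem_filter] at hx
    obtain ⟨⟨hxO, hxn⟩, hxi⟩ := hx
    obtain ⟨hwx, hxN, hxp⟩ := point_mem_Om hxO
    have hx1 : 1 ≤ x := hxp.one_lt.le
    rw [Finset.mem_filter, Finset.mem_Ioc]
    have hq1 : h * ((x - 1) / h) ≤ x - 1 := Nat.mul_div_le _ _
    have hq2 : x - 1 < h * ((x - 1) / h + 1) := Nat.lt_mul_div_succ (x - 1) (by omega : 0 < h)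
    rw [hxi] at hq1 hq2
    rw [mul_comm] at hq1 hq2
    refine ⟨⟨by omega, le_min (by omega) hxn⟩, hxp, hwx⟩
  · intro b _ _
    exact hT0 b

end Pool.Agent.Lib.MP_629a14_nt.Col
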