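import Pool.Agent.Lib.MP_629a14_nt.Col.Defs

/-! The kernel is at least the constant kernel `1`. -/

set_option autoImplicit false

namespace Pool.Agent.Lib.MP_629a14_nt.Col

open Finset

open Classical in
private noncomputable def PsdD {r : ℕ} (a u : ZMod r) : ℝ := if a = u then 1 else 0

private lemma Psd_sum1 (r : ℕ) [NeZero r] (a b : ZMod r) :
    ∑ u : ZMod r, PsdD a u * PsdD b u = PsdD a b := by
  classical
  unfold PsdD
  simp only [ite_mul, one_mul, zero_mul, Finset.sum_ite_eq, mem_univ, if_true]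
  simp only [eq_comm]

private lemma Psd_sum2 (r : ℕ) [NeZero r] (a b : ZMod r) :
    ∑ u : ZMod r, PsdD a u * PsdD b (-u) = PsdD a (-b) := by
  classical
  unfold PsdD
  simp only [ite_mul, one_mul, zero_mul, Finset.sum_ite_eq, mem_univ, if_true]
  have : (b = -a) ↔ (a = -b) := by
    constructor
    · intro h
      rw [h, neg_neg]
    · intro h
      rw [h, neg_neg]
  simp only [this]

private lemma Psd_sum3 (r : ℕ) [NeZero r] (a b : ZMod r) :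
    ∑ u : ZMod r, PsdD a (-u) * PsdD b u = PsdD a (-b) := by
  have h1 : ∑ u : ZMod r, PsdD a (-u) * PsdD b u = ∑ u : ZMod r, PsdD a u * PsdD b (-u) := by
    rw [← Equiv.sum_comp (Equiv.neg (ZMod r)) (fun u => PsdD a u * PsdD b (-u))]
    refine Finset.sum_congr rfl fun u _ => ?_
    simp only [Equiv.neg_apply, neg_neg]
  rw [h1, Psd_sum2]

private lemma Psd_sum4 (r : ℕ) [NeZero r] (a b : ZMod r) :
    ∑ u : ZMod r, PsdD a (-u) * PsdD b (-u) = PsdD a b := by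
  have h1 : ∑ u : ZMod r, PsdD a (-u) * PsdD b (-u) = ∑ u : ZMod r, PsdD a u * PsdD b u := by
    rw [← Equiv.sum_comp (Equiv.neg (ZMod r)) (fun u => PsdD a u * PsdD b u)]
    refine Finset.sum_congr rfl fun u _ => ?_
    simp only [Equiv.neg_apply]
  rw [h1, Psd_sum1]

private lemma Psd_id (r : ℕ) [NeZero r] (h3 : 3 ≤ r) (a b : ZMod r) : kapp r a b =
    ((r : ℝ) - 1) * (1 - 2 / r) * ∑ u : ZMod r, PsdD a u * PsdD b u +
    ((r : ℝ) - 1) / (2 * r) *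
      ∑ u : ZMod r, (PsdD a u + PsdD a (-u)) * (PsdD b u + PsdD b (-u)) := by
  classical
  have e : ∑ u : ZMod r, (PsdD a u + PsdD a (-u)) * (PsdD b u + PsdD b (-u)) =
      2 * PsdD a b + 2 * PsdD a (-b) := by
    have h1 : ∀ u : ZMod r, (PsdD a u + PsdD a (-u)) * (PsdD b u + PsdD b (-u)) =
        PsdD a u * PsdD b u + PsdD a u * PsdD b (-u) + (PsdD a (-u) * PsdD b u +
          PsdD a (-u) * PsdD b (-u)) := fun u => by ring
    simp only [h1, Finset.sum_add_distrib]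
    rw [Psd_sum1, Psd_sum2, Psd_sum3, Psd_sum4]
    ring
  rw [e, Psd_sum1]
  have hr : (r : ℝ) ≠ 0 := by
    have : (3 : ℝ) ≤ r := by exact_mod_cast h3
    linarith
  have hab : a + b = 0 ↔ a = -b := by
    constructor
    · intro h
      exact eq_neg_of_add_eq_zero_left h
    · intro h
      rw [h, neg_add_cancel]
  unfold kapp PsdD
  simp only [hab]
  field_simp
  ring

/-- If `Q` dominates the constant kernel `1` on `Ω`, so does `kapp r * Q`.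
Proof: write `X u = {x ∈ Ω | x = u mod r}`, `g_u = g` on `X u` and `0` elsewhere, `s_u = ∑_{X u} g`, for the
nonzero `u : ZMod r` (they cover `Ω`). Since `[x = y] = ∑_u [x = u][y = u]` and
`[x = y] + [x = -y] = (1/2) ∑_u ([x = u] + [x = -u]) ([y = u] + [y = -u])` modulo `r`,
`kapp r = (r-1) ((1 - 2/r) [x = y] + (1/r) ([x = y] + [x = -y]))` gives
`∑∑ kapp Q g g = (r-1)(1-2/r) ∑_u Q(g_u, g_u) + ((r-1)/(2r)) ∑_u Q(g_u + g_{-u}, g_u + g_{-u})`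
`≥ (r-1)(1-2/r) ∑_u s_u² + ((r-1)/(2r)) ∑_u (s_u + s_{-u})²` and by Cauchy-Schwarz over the `r - 1`
nonzero `u` this is at least `(1-2/r) s² + (1/(2r)) (2 s)² = s²`, `s = ∑_u s_u = ∑_Ω g`. -/
theorem psd_step (r : ℕ) (hr : r.Prime) (h3 : 3 ≤ r) (Ω : Finset ℕ) (hΩ : ∀ x ∈ Ω, ¬ r ∣ x)
    (Q : ℕ → ℕ → ℝ)
    (hQ : ∀ g : ℕ → ℝ, (∑ x ∈ Ω, g x) ^ 2 ≤ ∑ x ∈ Ω, ∑ y ∈ Ω, Q x y * (g x * g y)) (g : ℕ → ℝ) :
    (∑ x ∈ Ω, g x) ^ 2 ≤ ∑ x ∈ Ω, ∑ y ∈ Ω,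
      (kapp r (((x : ℕ) : ℤ) : ZMod r) (((y : ℕ) : ℤ) : ZMod r) * Q x y) * (g x * g y) := by
  classical
  haveI : NeZero r := ⟨hr.ne_zero⟩
  set c : ℕ → ZMod r := fun x => (((x : ℕ) : ℤ) : ZMod r) with hc
  have hr3 : (3 : ℝ) ≤ r := by exact_mod_cast h3
  have hr0 : (0 : ℝ) < r := by linarith
  have hc0 : ∀ x ∈ Ω, c x ≠ 0 := by
    intro x hx h
    refine hΩ x hx ?_
    have h1 : ((x : ℕ) : ZMod r) = 0 := by
      rw [hc] at h
      simpa using h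
    exact (ZMod.natCast_eq_zero_iff x r).1 h1
  set s : ZMod r → ℝ := fun u => ∑ x ∈ Ω, PsdD (c x) u * g x with hs
  set S : ℝ := ∑ x ∈ Ω, g x with hS
  have hs0 : s 0 = 0 := by
    rw [hs]
    refine Finset.sum_eq_zero fun x hx => ?_
    unfold PsdD
    rw [if_neg (hc0 x hx), zero_mul]
  have hsum : ∑ u : ZMod r, s u = S := by
    rw [hs, Finset.sum_comm]
    refine Finset.sum_congr rfl fun x _ => ?_
    rw [← Finset.sum_mul]
    have : ∑ u : ZMod r, PsdD (c x) u = 1 := by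
      unfold PsdD
      simp
    rw [this, one_mul]
  have hsumn : ∑ u : ZMod r, s (-u) = S := by
    rw [← hsum]
    exact Equiv.sum_comp (Equiv.neg (ZMod r)) s
  have hcard : ((univ.erase (0 : ZMod r)).card : ℝ) = (r : ℝ) - 1 := by
    rw [Finset.card_erase_of_mem (mem_univ _), Finset.card_univ, ZMod.card,
      Nat.cast_sub (by omega)]
    simp
  have her : ∀ f : ZMod r → ℝ, f 0 = 0 → ∑ u ∈ univ.erase (0 : ZMod r), f u = ∑ u, f u := by
    intro f hf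
    rw [← Finset.sum_erase_add univ f (mem_univ (0 : ZMod r)), hf, add_zero]
  have cs1 : S ^ 2 ≤ ((r : ℝ) - 1) * ∑ u : ZMod r, s u ^ 2 := by
    have h1 := sq_sum_le_card_mul_sum_sq (s := univ.erase (0 : ZMod r)) (f := s)
    rw [hcard, her s hs0, hsum, her (fun u => s u ^ 2) (by simp [hs0])] at h1
    exact h1
  have cs2 : (2 * S) ^ 2 ≤ ((r : ℝ) - 1) * ∑ u : ZMod r, (s u + s (-u)) ^ 2 := by
    have h1 := sq_sum_le_card_mul_sum_sq (s := univ.erase (0 : ZMod r)) (f := fun u => s u + s (-u))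
    rw [hcard, her (fun u => s u + s (-u)) (by simp [hs0]), Finset.sum_add_distrib, hsum, hsumn,
      her (fun u => (s u + s (-u)) ^ 2) (by simp [hs0])] at h1
    calc (2 * S) ^ 2 = (S + S) ^ 2 := by ring
      _ ≤ _ := h1
  -- the expansion
  have hpt : ∀ x y : ℕ, (kapp r (c x) (c y) * Q x y) * (g x * g y) =
      ((r : ℝ) - 1) * (1 - 2 / r) *
        (∑ u : ZMod r, Q x y * ((PsdD (c x) u * g x) * (PsdD (c y) u * g y))) +
      ((r : ℝ) - 1) / (2 * r) *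
        (∑ u : ZMod r, Q x y * ((PsdD (c x) u * g x + PsdD (c x) (-u) * g x) *
          (PsdD (c y) u * g y + PsdD (c y) (-u) * g y))) := by
    intro x y
    have e1 : ∑ u : ZMod r, Q x y * ((PsdD (c x) u * g x) * (PsdD (c y) u * g y)) =
        (∑ u : ZMod r, PsdD (c x) u * PsdD (c y) u) * (Q x y * (g x * g y)) := by
      rw [Finset.sum_mul]
      refine Finset.sum_congr rfl fun u _ => ?_
      ring
    have e2 : ∑ u : ZMod r, Q x y * ((PsdD (c x) u * g x + PsdD (c x) (-u) * g x) *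
          (PsdD (c y) u * g y + PsdD (c y) (-u) * g y)) =
        (∑ u : ZMod r, (PsdD (c x) u + PsdD (c x) (-u)) * (PsdD (c y) u + PsdD (c y) (-u))) *
          (Q x y * (g x * g y)) := by
      rw [Finset.sum_mul]
      refine Finset.sum_congr rfl fun u _ => ?_
      ring
    rw [e1, e2, Psd_id r h3 (c x) (c y)]
    ring
  have swap : ∀ F : ZMod r → ℕ → ℕ → ℝ, ∑ x ∈ Ω, ∑ y ∈ Ω, ∑ u : ZMod r, F u x y =
      ∑ u : ZMod r, ∑ x ∈ Ω, ∑ y ∈ Ω, F u x y := by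
    intro F
    have h1 : ∀ x ∈ Ω, ∑ y ∈ Ω, ∑ u : ZMod r, F u x y = ∑ u : ZMod r, ∑ y ∈ Ω, F u x y :=
      fun x _ => Finset.sum_comm
    rw [Finset.sum_congr rfl h1, Finset.sum_comm]
  have hexp : ∑ x ∈ Ω, ∑ y ∈ Ω, (kapp r (c x) (c y) * Q x y) * (g x * g y) =
      ((r : ℝ) - 1) * (1 - 2 / r) *
        (∑ u : ZMod r, ∑ x ∈ Ω, ∑ y ∈ Ω, Q x y * ((PsdD (c x) u * g x) * (PsdD (c y) u * g y))) +
      ((r : ℝ) - 1) / (2 * r) *
        (∑ u : ZMod r, ∑ x ∈ Ω, ∑ y ∈ Ω, Q x y * ((PsdD (c x) u * g x + PsdD (c x) (-u) * g x) *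
          (PsdD (c y) u * g y + PsdD (c y) (-u) * g y))) := by
    simp only [hpt, Finset.sum_add_distrib, ← Finset.mul_sum]
    rw [← swap, ← swap]
    simp only [← Finset.mul_sum]
  show S ^ 2 ≤ ∑ x ∈ Ω, ∑ y ∈ Ω, (kapp r (c x) (c y) * Q x y) * (g x * g y)
  rw [hexp]
  have b1 : ∑ u : ZMod r, s u ^ 2 ≤
      ∑ u : ZMod r, ∑ x ∈ Ω, ∑ y ∈ Ω, Q x y * ((PsdD (c x) u * g x) * (PsdD (c y) u * g y)) :=
    Finset.sum_le_sum fun u _ => hQ (fun x => PsdD (c x) u * g x)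
  have b2 : ∑ u : ZMod r, (s u + s (-u)) ^ 2 ≤
      ∑ u : ZMod r, ∑ x ∈ Ω, ∑ y ∈ Ω, Q x y * ((PsdD (c x) u * g x + PsdD (c x) (-u) * g x) *
          (PsdD (c y) u * g y + PsdD (c y) (-u) * g y)) := by
    refine Finset.sum_le_sum fun u _ => ?_
    have h1 := hQ (fun x => PsdD (c x) u * g x + PsdD (c x) (-u) * g x)
    rw [Finset.sum_add_distrib] at h1
    exact h1
  have c1 : 0 ≤ 1 - 2 / (r : ℝ) := by
    rw [sub_nonneg, div_le_one hr0]
    linarith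
  have d1 : (1 - 2 / (r : ℝ)) * S ^ 2 ≤ (1 - 2 / (r : ℝ)) * (((r : ℝ) - 1) * ∑ u : ZMod r, s u ^ 2) :=
    mul_le_mul_of_nonneg_left cs1 c1
  have d2 : 1 / (2 * (r : ℝ)) * (2 * S) ^ 2 ≤
      1 / (2 * (r : ℝ)) * (((r : ℝ) - 1) * ∑ u : ZMod r, (s u + s (-u)) ^ 2) :=
    mul_le_mul_of_nonneg_left cs2 (by positivity)
  have e1 : ((r : ℝ) - 1) * (1 - 2 / r) * ∑ u : ZMod r, s u ^ 2 ≤ ((r : ℝ) - 1) * (1 - 2 / r) *
      (∑ u : ZMod r, ∑ x ∈ Ω, ∑ y ∈ Ω, Q x y * ((PsdD (c x) u * g x) * (PsdD (c y) u * g y))) :=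
    mul_le_mul_of_nonneg_left b1 (mul_nonneg (by linarith) c1)
  have e2 : ((r : ℝ) - 1) / (2 * r) * ∑ u : ZMod r, (s u + s (-u)) ^ 2 ≤
      ((r : ℝ) - 1) / (2 * r) *
        (∑ u : ZMod r, ∑ x ∈ Ω, ∑ y ∈ Ω, Q x y * ((PsdD (c x) u * g x + PsdD (c x) (-u) * g x) *
          (PsdD (c y) u * g y + PsdD (c y) (-u) * g y))) :=
    mul_le_mul_of_nonneg_left b2 (div_nonneg (by linarith) (by positivity))
  have f : S ^ 2 = (1 - 2 / (r : ℝ)) * S ^ 2 + 1 / (2 * (r : ℝ)) * (2 * S) ^ 2 := by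
    field_simp
    ring
  calc S ^ 2 = (1 - 2 / (r : ℝ)) * S ^ 2 + 1 / (2 * (r : ℝ)) * (2 * S) ^ 2 := f
    _ ≤ (1 - 2 / (r : ℝ)) * (((r : ℝ) - 1) * ∑ u : ZMod r, s u ^ 2) +
        1 / (2 * (r : ℝ)) * (((r : ℝ) - 1) * ∑ u : ZMod r, (s u + s (-u)) ^ 2) := add_le_add d1 d2
    _ = ((r : ℝ) - 1) * (1 - 2 / r) * ∑ u : ZMod r, s u ^ 2 +
        ((r : ℝ) - 1) / (2 * r) * ∑ u : ZMod r, (s u + s (-u)) ^ 2 := by ring
    _ ≤ _ := add_le_add e1 e2

end Pool.Agent.Lib.MP_629a14_nt.Col
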