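import Pool.Agent.Lib.MP_629a14_nt.Col.PieceT
import Pool.Agent.Lib.MP_629a14_nt.Rob.SigLow

/-! Lower bound for the weighted sum. -/

set_option autoImplicit false

namespace Pool.Agent.Lib.MP_629a14_nt.Col

open Finset Filter Topology Pool.Agent.Lib.MP_629a14_nt Pool.Agent.Lib.MP_629a14_nt.Rob

private lemma WLow_div {p h i : ℕ} (h1 : i * h < p) (h2 : p ≤ i * h + h) : (p - 1) / h = i := by
  have hh : 0 < h := by
    rcases Nat.eq_zero_or_pos h with h0 | h0
    · subst h0; omega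
    · exact h0
  rw [Nat.div_eq_iff hh]
  constructor
  · have := Nat.mul_comm h i
    omega
  · have := Nat.mul_comm h i
    omega

/-- The squares `(i h, (i+1) h] × (j h, (j+1) h]` with `s₁ ≤ i + j = s ≤ m - 2` are disjoint, and all their
points satisfy `D < p + q ≤ N` (`D ≤ s₁ h`, `m h ≤ N`) and `p + q ≤ (s + 2) h`. -/
theorem cover_low (v N D h m s₁ : ℕ) (hv : 2 ≤ v) (hh : 1 ≤ h) (hD : D ≤ s₁ * h) (hm : m * h ≤ N)
    (A B : Set ℕ) :
    ∑ s ∈ (range (m - 1)).filter (fun s => s₁ ≤ s), ∑ i ∈ range (s + 1),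
      TT v N A B (i * h) ((s - i) * h) h / (((s : ℝ) + 2) * h) ≤ WW v N D A B := by
  classical
  set F : ℕ → ℕ → ℝ := fun p q => Real.log N ^ 2 / sig v (p + q) with hF
  have hsig : ∀ p q : ℕ, 0 < sig v (p + q) := fun p q => by
    have := one_le_sig v (p + q) hv
    linarith
  have hhR : (0 : ℝ) < h := by exact_mod_cast hh
  have hF0 : ∀ p q, 0 ≤ F p q := fun p q => div_nonneg (sq_nonneg _) (hsig p q).le
  have hR : ∀ s ∈ (range (m - 1)).filter (fun s => s₁ ≤ s), ∀ i ∈ range (s + 1),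
      TT v N A B (i * h) ((s - i) * h) h / (((s : ℝ) + 2) * h) =
      (∑ p ∈ PP v A 0 N, ∑ q ∈ PP v B 0 N,
        if (p ∈ PP v A (i * h) h ∧ q ∈ PP v B ((s - i) * h) h)
        then F p q / (((s : ℝ) + 2) * h) else 0) := by
    intro s hs i hi
    rw [mem_filter, mem_range] at hs
    rw [mem_range] at hi
    have hih : i * h + h ≤ N := by
      have : (i + 1) * h ≤ m * h := Nat.mul_le_mul_right h (by omega)
      have h2 : (i + 1) * h = i * h + h := by ring
      omega
    have hjh : (s - i) * h + h ≤ N := by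
      have : (s - i + 1) * h ≤ m * h := Nat.mul_le_mul_right h (by omega)
      have h2 : (s - i + 1) * h = (s - i) * h + h := by ring
      omega
    have h1 : TT v N A B (i * h) ((s - i) * h) h / (((s : ℝ) + 2) * h) =
        ∑ p ∈ PP v A (i * h) h, ∑ q ∈ PP v B ((s - i) * h) h, F p q / (((s : ℝ) + 2) * h) := by
      unfold TT
      rw [Finset.sum_div]
      exact sum_congr rfl fun p _ => by rw [Finset.sum_div]
    have hsub : ∀ (C : Set ℕ) (z : ℕ), z + h ≤ N →
        (PP v C 0 N).filter (fun p => p ∈ PP v C z h) = PP v C z h := by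
      intro C z hz
      ext p
      rw [mem_filter]
      constructor
      · exact fun hp => hp.2
      · intro hp
        refine ⟨?_, hp⟩
        unfold PP at hp ⊢
        rw [mem_filter, mem_Ioc] at hp ⊢
        exact ⟨⟨by omega, by omega⟩, hp.2⟩
    rw [h1, ← hsub A (i * h) hih, sum_filter]
    refine sum_congr rfl fun p _ => ?_
    rw [hsub A (i * h) hih]
    by_cases hp : p ∈ PP v A (i * h) h
    · simp only [hp, true_and, if_true]
      rw [← hsub B ((s - i) * h) hjh, sum_filter, hsub B ((s - i) * h) hjh]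
    · simp [hp]
  rw [sum_congr rfl fun s hs => sum_congr rfl fun i hi => hR s hs i hi]
  have e0 : ∑ s ∈ (range (m - 1)).filter (fun s => s₁ ≤ s), ∑ i ∈ range (s + 1),
      (∑ p ∈ PP v A 0 N, ∑ q ∈ PP v B 0 N,
        if (p ∈ PP v A (i * h) h ∧ q ∈ PP v B ((s - i) * h) h)
        then F p q / (((s : ℝ) + 2) * h) else 0) =
      ∑ p ∈ PP v A 0 N, ∑ q ∈ PP v B 0 N,
        ∑ s ∈ (range (m - 1)).filter (fun s => s₁ ≤ s), ∑ i ∈ range (s + 1),
        if (p ∈ PP v A (i * h) h ∧ q ∈ PP v B ((s - i) * h) h)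
        then F p q / (((s : ℝ) + 2) * h) else 0 := by
    have e1 : ∀ p ∈ PP v A 0 N, (∑ q ∈ PP v B 0 N,
        ∑ s ∈ (range (m - 1)).filter (fun s => s₁ ≤ s), ∑ i ∈ range (s + 1),
            (if (p ∈ PP v A (i * h) h ∧ q ∈ PP v B ((s - i) * h) h)
              then F p q / (((s : ℝ) + 2) * h) else 0)) =
            ∑ s ∈ (range (m - 1)).filter (fun s => s₁ ≤ s), ∑ i ∈ range (s + 1), ∑ q ∈ PP v B 0 N,
            (if (p ∈ PP v A (i * h) h ∧ q ∈ PP v B ((s - i) * h) h)
              then F p q / (((s : ℝ) + 2) * h) else 0) := by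
      intro p _
      rw [sum_comm]
      exact sum_congr rfl fun s _ => sum_comm
    rw [sum_congr rfl e1, sum_comm]
    exact sum_congr rfl fun s _ => sum_comm
  rw [e0]
  unfold WW
  apply sum_le_sum
  intro p hp
  apply sum_le_sum
  intro q hq
  have hp' := hp
  have hq' := hq
  unfold PP at hp' hq'
  rw [mem_filter, mem_Ioc] at hp' hq'
  have hRHS : 0 ≤ (if D < p + q ∧ p + q ≤ N then
      Real.log N ^ 2 / (((p : ℝ) + q) * sig v (p + q)) else 0) := by
    split_ifs
    · exact div_nonneg (sq_nonneg _) (mul_nonneg (by positivity) (hsig p q).le)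
    · exact le_rfl
  -- the only possible pair
  set i₀ := (p - 1) / h with hi₀
  set j₀ := (q - 1) / h with hj₀
  have huniq : ∀ s i : ℕ, i < s + 1 → p ∈ PP v A (i * h) h → q ∈ PP v B ((s - i) * h) h →
      i = i₀ ∧ s = i₀ + j₀ := by
    intro s i hi h1 h2
    unfold PP at h1 h2
    rw [mem_filter, mem_Ioc] at h1 h2
    have e1 := WLow_div h1.1.1 h1.1.2
    have e2 := WLow_div h2.1.1 h2.1.2
    rw [← hi₀] at e1
    rw [← hj₀] at e2
    omega
  have hsum : ∑ s ∈ (range (m - 1)).filter (fun s => s₁ ≤ s), ∑ i ∈ range (s + 1),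
        (if (p ∈ PP v A (i * h) h ∧ q ∈ PP v B ((s - i) * h) h)
        then F p q / (((s : ℝ) + 2) * h) else 0) ≤
      ∑ s ∈ (range (m - 1)).filter (fun s => s₁ ≤ s), (if s = i₀ + j₀ then
        (if D < p + q ∧ p + q ≤ N then
          Real.log N ^ 2 / (((p : ℝ) + q) * sig v (p + q)) else 0) else 0) := by
    apply sum_le_sum
    intro s hs
    rw [mem_filter, mem_range] at hs
    have h3 : ∑ i ∈ range (s + 1),
        (if (p ∈ PP v A (i * h) h ∧ q ∈ PP v B ((s - i) * h) h)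
        then F p q / (((s : ℝ) + 2) * h) else 0) ≤
        ∑ i ∈ range (s + 1), (if i = i₀ then (if s = i₀ + j₀ then
        (if D < p + q ∧ p + q ≤ N then
          Real.log N ^ 2 / (((p : ℝ) + q) * sig v (p + q)) else 0) else 0) else 0) := by
      apply sum_le_sum
      intro i hi
      rw [mem_range] at hi
      by_cases hc : p ∈ PP v A (i * h) h ∧ q ∈ PP v B ((s - i) * h) h
      · obtain ⟨e1, e2⟩ := huniq s i hi hc.1 hc.2
        rw [if_pos hc, if_pos e1, if_pos e2]
        obtain ⟨h1, h2⟩ := hc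
        unfold PP at h1 h2
        rw [mem_filter, mem_Ioc] at h1 h2
        have hsh : s * h = i * h + (s - i) * h := by
          rw [← add_mul]
          congr 1
          omega
        have hs2 : (s + 2) * h ≤ m * h := Nat.mul_le_mul_right h (by omega)
        have hs3 : (s + 2) * h = s * h + h + h := by ring
        have hs4 : s₁ * h ≤ s * h := Nat.mul_le_mul_right h hs.2
        rw [if_pos ⟨by omega, by omega⟩]
        rw [hF]
        simp only
        rw [div_div]
        have hle : (p : ℝ) + q ≤ ((s : ℝ) + 2) * h := by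
          have : ((p + q : ℕ) : ℝ) ≤ (((s + 2) * h : ℕ) : ℝ) := by
            exact_mod_cast (show p + q ≤ (s + 2) * h by omega)
          push_cast at this ⊢
          exact this
        have hpR : (0 : ℝ) < p := by exact_mod_cast (show 0 < p by omega)
        have hqR : (0 : ℝ) ≤ q := Nat.cast_nonneg q
        apply div_le_div_of_nonneg_left (sq_nonneg _)
        · exact mul_pos (by linarith) (hsig p q)
        · rw [mul_comm (sig v (p + q))]
          exact mul_le_mul_of_nonneg_right hle (hsig p q).le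
      · rw [if_neg hc]
        split_ifs
        · exact div_nonneg (sq_nonneg _) (mul_nonneg (by positivity) (hsig p q).le)
        all_goals exact le_rfl
    refine le_trans h3 ?_
    rw [sum_ite_eq']
    split_ifs
    all_goals first
      | exact le_rfl
      | exact div_nonneg (sq_nonneg _) (mul_nonneg (by positivity) (hsig p q).le)
  refine le_trans hsum ?_
  rw [sum_ite_eq']
  split_ifs
  all_goals first
    | exact le_rfl
    | exact div_nonneg (sq_nonneg _) (mul_nonneg (by positivity) (hsig p q).le)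

private theorem WLow_harm (m : ℕ) : ∑ s ∈ range m, (1 : ℝ) / ((s : ℝ) + 2) ≤ 2 * Real.sqrt m := by
  induction m with
  | zero => simp
  | succ n ih =>
    rw [sum_range_succ]
    have hn0 : (0 : ℝ) ≤ n := Nat.cast_nonneg n
    have h1 : Real.sqrt n ^ 2 = n := Real.sq_sqrt hn0
    have h2 : Real.sqrt ((n + 1 : ℕ) : ℝ) ^ 2 = (n : ℝ) + 1 := by
      rw [Real.sq_sqrt (Nat.cast_nonneg _)]
      push_cast
      ring
    have h3 : 0 ≤ Real.sqrt n := Real.sqrt_nonneg _
    have h4 : 1 ≤ Real.sqrt ((n + 1 : ℕ) : ℝ) := by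
      rw [Real.one_le_sqrt]
      push_cast
      linarith
    have h5 : Real.sqrt n ≤ Real.sqrt ((n + 1 : ℕ) : ℝ) := by
      apply Real.sqrt_le_sqrt
      push_cast
      linarith
    have h6 : Real.sqrt ((n + 1 : ℕ) : ℝ) ≤ (n : ℝ) + 1 := by nlinarith
    set a := Real.sqrt n with ha
    set b := Real.sqrt ((n + 1 : ℕ) : ℝ) with hb
    have h7 : (b - a) * (b + a) = 1 := by nlinarith
    have h8 : 1 / ((n : ℝ) + 2) ≤ 2 * (b - a) := by
      rw [div_le_iff₀ (by positivity)]
      have h9 : 0 ≤ b - a := by linarith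
      nlinarith
    linarith

private lemma WLow_lim {A : Set ℕ} {α : ℝ}
    (hA : Tendsto (fun x : ℕ => (cntB A x : ℝ) / cntB Set.univ x) atTop (𝓝 α)) :
    0 ≤ α ∧ α ≤ 1 := by
  constructor
  · exact ge_of_tendsto' hA (fun x => by positivity)
  · refine le_of_tendsto' hA (fun x => ?_)
    apply div_le_one_of_le₀ _ (Nat.cast_nonneg _)
    unfold cntB
    norm_cast
    apply card_le_card
    intro p hp
    simp only [mem_filter, Set.mem_univ, and_true] at hp ⊢
    exact ⟨hp.1, hp.2.1⟩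

private lemma WLow_nonneg (v N D : ℕ) (hv : 2 ≤ v) (A B : Set ℕ) : 0 ≤ WW v N D A B := by
  unfold WW
  apply sum_nonneg
  intro p _
  apply sum_nonneg
  intro q _
  split_ifs
  · have := one_le_sig v (p + q) hv
    exact div_nonneg (sq_nonneg _) (mul_nonneg (by positivity) (by linarith))
  · exact le_rfl

private lemma WLow_sum (m s₁ : ℕ) :
    (m : ℝ) - 1 - s₁ - 2 * Real.sqrt m ≤
      ∑ s ∈ (range (m - 1)).filter (fun s => s₁ ≤ s), ((s : ℝ) + 1) / ((s : ℝ) + 2) := by
  have h0 : ∀ s : ℕ, ((s : ℝ) + 1) / ((s : ℝ) + 2) = 1 - 1 / ((s : ℝ) + 2) := by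
    intro s
    have : (s : ℝ) + 2 ≠ 0 := by positivity
    field_simp
    ring
  rw [sum_congr rfl fun s _ => h0 s, sum_sub_distrib]
  have h1 : ∑ s ∈ (range (m - 1)).filter (fun s => s₁ ≤ s), (1 : ℝ) / ((s : ℝ) + 2) ≤
      2 * Real.sqrt m := by
    refine le_trans ?_ (WLow_harm m)
    apply sum_le_sum_of_subset_of_nonneg
    · intro s hs
      rw [mem_filter, mem_range] at hs
      rw [mem_range]
      omega
    · intro s _ _
      positivity
  have h2 : (m : ℝ) - 1 - s₁ ≤ ∑ s ∈ (range (m - 1)).filter (fun s => s₁ ≤ s), (1 : ℝ) := by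
    rw [sum_const, nsmul_eq_mul, mul_one]
    have h3 : (range (m - 1)).filter (fun s => s₁ ≤ s) = Ico s₁ (m - 1) := by
      ext s
      simp only [mem_filter, mem_range, mem_Ico]
      tauto
    rw [h3, Nat.card_Ico]
    have h4 : (m : ℝ) ≤ ((m - 1 - s₁ : ℕ) : ℝ) + 1 + s₁ := by
      have : m ≤ (m - 1 - s₁) + 1 + s₁ := by omega
      exact_mod_cast this
    linarith
  linarith

/-- `m` large, `h = N / m`, `s₁ = ⌈2 δ m⌉ + 1` would do with `2 δ`; better `s₁ = ⌈δ m⌉ + 1`
(`h ≥ N/m - 1`, so `s₁ h ≥ δ N` for `N` large). `cover_low`, `pieceT` with a small `ε'`. If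
`αβ ≤ θ` the claim is trivial (`WW ≥ 0`). Otherwise the sum is at least
`(h/2) (αβ - θ) ∑_{s₁ ≤ s ≤ m-2} (s+1)/(s+2) - ε' N² ∑ (s+1)/((s+2) h)`, where
`∑ (s+1)/(s+2) ≥ (m - 1 - s₁) - ∑ 1/(s+2) ≥ m - δ m - 4 - 2 sqrt m`, `h m ≥ N - m`, `αβ - θ ≤ 1`. -/
theorem w_low (v : ℕ) (hv : 2 ≤ v) (A B : Set ℕ) (α β : ℝ)
    (hA : Tendsto (fun x : ℕ => (cntB A x : ℝ) / cntB Set.univ x) atTop (𝓝 α))
    (hB : Tendsto (fun x : ℕ => (cntB B x : ℝ) / cntB Set.univ x) atTop (𝓝 β))
    (δ ε : ℝ) (hδ : 0 < δ) (hε : 0 < ε) : ∃ N₀ : ℕ, ∀ N : ℕ, N₀ ≤ N →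
      (α * β - theta α β) / 2 * N - (δ + ε) * N ≤ WW v N ⌊δ * N⌋₊ A B := by
  obtain ⟨hα0, hα1⟩ := WLow_lim hA
  obtain ⟨hβ0, hβ1⟩ := WLow_lim hB
  have hθ0 : 0 ≤ theta α β := by unfold theta; positivity
  rcases le_or_gt (α * β) (theta α β) with hc | hc
  · refine ⟨0, fun N _ => ?_⟩
    have h1 := WLow_nonneg v N ⌊δ * N⌋₊ hv A B
    have h2 : (0 : ℝ) ≤ N := Nat.cast_nonneg N
    nlinarith [mul_nonneg (sub_nonneg.2 hc) h2, mul_nonneg (add_pos hδ hε).le h2]
  set c := α * β - theta α β with hcdef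
  have hc0 : 0 < c := by rw [hcdef]; linarith
  have hc1 : c ≤ 1 := by
    have : α * β ≤ 1 := by nlinarith
    rw [hcdef]; linarith
  -- the number of steps
  obtain ⟨m, hm1, hm2⟩ : ∃ m : ℕ, 2 ≤ m ∧ 4 + 2 * Real.sqrt m ≤ ε / 4 * m := by
    obtain ⟨K, hK⟩ := exists_nat_gt (8 / ε + 8 / ε + 2)
    have hε8 : 0 < 8 / ε := by positivity
    have hKε : 16 ≤ ε * K := by
      have h1 : ε * (8 / ε + 8 / ε + 2) ≤ ε * K := mul_le_mul_of_nonneg_left hK.le hε.le
      have h2 : ε * (8 / ε + 8 / ε + 2) = 16 + 2 * ε := by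
        field_simp
        ring
      linarith
    have hK2 : (2 : ℝ) < K := by linarith
    refine ⟨K ^ 2, ?_, ?_⟩
    · have : 2 < K := by exact_mod_cast hK2
      nlinarith
    · have h3 : Real.sqrt ((K ^ 2 : ℕ) : ℝ) = K := by
        rw [Nat.cast_pow]
        exact Real.sqrt_sq (Nat.cast_nonneg K)
      rw [h3]
      push_cast
      nlinarith
  have hmR : (2 : ℝ) ≤ m := by exact_mod_cast hm1
  have hm0 : (0 : ℝ) < m := by linarith
  set s₁ : ℕ := ⌈δ * m⌉₊ + 1 with hs₁
  have hs₁a : δ * m + 1 ≤ s₁ := by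
    rw [hs₁]
    push_cast
    linarith [Nat.le_ceil (δ * m)]
  have hs₁b : (s₁ : ℝ) ≤ δ * m + 2 := by
    rw [hs₁]
    push_cast
    linarith [Nat.ceil_lt_add_one (show 0 ≤ δ * m by positivity)]
  set e : ℝ := ε / (8 * m ^ 2) with he
  have he0 : 0 < e := by positivity
  obtain ⟨N₁, hN₁⟩ := pieceT v hv A B α β hA hB e he0
  obtain ⟨N₂, hN₂⟩ := exists_nat_gt ((m : ℝ) * (δ * m + 1) + 2 * m + 4 * m / ε)
  refine ⟨max N₁ N₂, fun N hN => ?_⟩
  have hNN1 : N₁ ≤ N := le_trans (le_max_left _ _) hN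
  have hNN2 : (m : ℝ) * (δ * m + 1) + 2 * m + 4 * m / ε < N := by
    have : (N₂ : ℝ) ≤ N := by exact_mod_cast le_trans (le_max_right _ _) hN
    linarith
  have hN0 : (0 : ℝ) ≤ N := Nat.cast_nonneg N
  have hNa : (m : ℝ) * (δ * m + 1) ≤ N := by
    have : 0 ≤ 4 * (m : ℝ) / ε := by positivity
    linarith
  have hNb : 2 * (m : ℝ) ≤ N := by
    have h1 : 0 ≤ 4 * (m : ℝ) / ε := by positivity
    have h2 : 0 ≤ (m : ℝ) * (δ * m + 1) := by positivity
    linarith
  have hNc : (m : ℝ) ≤ ε / 4 * N := by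
    have h2 : 0 ≤ (m : ℝ) * (δ * m + 1) := by positivity
    have h3 : 4 * (m : ℝ) / ε ≤ N := by linarith
    rw [div_le_iff₀ hε] at h3
    linarith
  set h := N / m with hh
  have hhm : m * h ≤ N := by rw [hh]; exact Nat.mul_div_le N m
  have hh2 : N < m * (h + 1) := by
    rw [hh]; exact Nat.lt_mul_div_succ N (by omega)
  have hh2R : (N : ℝ) < m * (h + 1) := by exact_mod_cast hh2
  have hhmR : (m : ℝ) * h ≤ N := by exact_mod_cast hhm
  have hh1 : 1 ≤ h := by
    rw [hh]
    apply (Nat.one_le_div_iff (by omega)).2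
    have : (m : ℝ) ≤ N := by linarith
    exact_mod_cast this
  have hh1R : (1 : ℝ) ≤ h := by exact_mod_cast hh1
  have hD : ⌊δ * N⌋₊ ≤ s₁ * h := by
    have h1 : δ * N ≤ s₁ * h := by
      have h2 : (δ * m + 1) * h ≤ s₁ * h := mul_le_mul_of_nonneg_right hs₁a (by linarith)
      have h3 : δ * N ≤ (δ * m + 1) * h := by
        have h4 : (m : ℝ) * (δ * N) ≤ m * ((δ * m + 1) * h) := by
          have h5 : (δ * m + 1) * (N - m) ≤ (δ * m + 1) * (m * h) :=
            mul_le_mul_of_nonneg_left (by linarith) (by positivity)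
          nlinarith
        exact le_of_mul_le_mul_left h4 hm0
      linarith
    have h2 : ((⌊δ * N⌋₊ : ℕ) : ℝ) ≤ ((s₁ * h : ℕ) : ℝ) := by
      push_cast
      exact le_trans (Nat.floor_le (by positivity)) h1
    exact_mod_cast h2
  have hcov := cover_low v N ⌊δ * N⌋₊ h m s₁ hv hh1 hD hhm A B
  -- lower bound of the pieces
  have hT : ∀ s ∈ (range (m - 1)).filter (fun s => s₁ ≤ s), ∀ i ∈ range (s + 1),
      (c / 2 * (h : ℝ) ^ 2 - e * (N : ℝ) ^ 2) / (((s : ℝ) + 2) * h) ≤
      TT v N A B (i * h) ((s - i) * h) h / (((s : ℝ) + 2) * h) := by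
    intro s hs i hi
    rw [mem_filter, mem_range] at hs
    rw [mem_range] at hi
    have hih : i * h + h ≤ 2 * N := by
      have : (i + 1) * h ≤ m * h := Nat.mul_le_mul_right h (by omega)
      have h2 : (i + 1) * h = i * h + h := by ring
      omega
    have hjh : (s - i) * h + h ≤ 2 * N := by
      have : (s - i + 1) * h ≤ m * h := Nat.mul_le_mul_right h (by omega)
      have h2 : (s - i + 1) * h = (s - i) * h + h := by ring
      omega
    have h1 := (abs_le.1 (hN₁ N hNN1 (i * h) ((s - i) * h) h hih hjh)).1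
    apply div_le_div_of_nonneg_right _ (by positivity)
    have h2 : c / 2 * (h : ℝ) ^ 2 = α * β / 2 * (h : ℝ) ^ 2 - theta α β / 2 * (h : ℝ) ^ 2 := by
      rw [hcdef]; ring
    linarith
  set Sg := ∑ s ∈ (range (m - 1)).filter (fun s => s₁ ≤ s), ((s : ℝ) + 1) / ((s : ℝ) + 2) with hSg
  have hlow : (c / 2 * h - e * (N : ℝ) ^ 2 / h) * Sg ≤ WW v N ⌊δ * N⌋₊ A B := by
    refine le_trans ?_ hcov
    rw [hSg, mul_sum]
    apply sum_le_sum
    intro s hs
    refine le_trans (le_of_eq ?_) (sum_le_sum (hT s hs))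
    rw [sum_const, card_range, nsmul_eq_mul]
    push_cast
    have : (s : ℝ) + 2 ≠ 0 := by positivity
    have : (h : ℝ) ≠ 0 := by positivity
    field_simp
  have hSg0 : 0 ≤ Sg := sum_nonneg fun s _ => by positivity
  have hSgm : Sg ≤ m := by
    have h1 : Sg ≤ ∑ s ∈ (range (m - 1)).filter (fun s => s₁ ≤ s), (1 : ℝ) := by
      apply sum_le_sum
      intro s _
      rw [div_le_one (by positivity)]
      linarith
    have h2 : ∑ s ∈ (range (m - 1)).filter (fun s => s₁ ≤ s), (1 : ℝ) ≤ m := by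
      rw [sum_const, nsmul_eq_mul, mul_one]
      have : ((range (m - 1)).filter (fun s => s₁ ≤ s)).card ≤ m :=
        le_trans (card_filter_le _ _) (by rw [card_range]; omega)
      exact_mod_cast this
    linarith
  have hSglow := WLow_sum m s₁
  rw [← hSg] at hSglow
  -- the error term
  have herr : e * (N : ℝ) ^ 2 / h * Sg ≤ ε / 4 * N := by
    have h1 : (N : ℝ) ≤ 2 * m * h := by nlinarith
    have h2 : e * (N : ℝ) ^ 2 / h * Sg ≤ e * (N : ℝ) ^ 2 / h * m :=
      mul_le_mul_of_nonneg_left hSgm (by positivity)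
    have h3 : e * (N : ℝ) ^ 2 / h * m ≤ ε / 4 * N := by
      have hh0 : (0 : ℝ) < h := by linarith
      rw [div_mul_eq_mul_div, div_le_iff₀ hh0]
      have h4 : e * (m : ℝ) ^ 2 = ε / 8 := by
        rw [he]
        field_simp
      have h5 : e * (N : ℝ) ^ 2 * m ≤ e * (N * (2 * m * h)) * m := by
        have : (N : ℝ) ^ 2 ≤ N * (2 * m * h) := by nlinarith
        exact mul_le_mul_of_nonneg_right (mul_le_mul_of_nonneg_left this he0.le) hm0.le
      have h6 : e * (N * (2 * m * h)) * m = 2 * (e * (m : ℝ) ^ 2) * N * h := by ring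
      rw [h6, h4] at h5
      linarith
    linarith
  -- the main term
  have hmain : (c / 2) * N - (δ + ε / 2) * N ≤ c / 2 * h * Sg ∨ (c / 2) * N - (δ + ε) * N ≤ 0 := by
    rcases le_or_gt (δ * m + 4 + 2 * Real.sqrt m) m with hT0 | hT0
    · left
      have h1 : (m : ℝ) - δ * m - 4 - 2 * Real.sqrt m ≤ Sg := by linarith
      set T := (m : ℝ) - δ * m - 4 - 2 * Real.sqrt m with hTdef
      have hT1 : 0 ≤ T := by rw [hTdef]; linarith
      have hT2 : T ≤ m := by
        rw [hTdef]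
        have := Real.sqrt_nonneg (m : ℝ)
        have : 0 ≤ δ * m := by positivity
        linarith
      have hT3 : m * (1 - δ - ε / 4) ≤ T := by rw [hTdef]; linarith
      -- `h * T * m ≥ (N - m) T`
      have h2 : N * (1 - δ - ε / 4) - m ≤ h * T := by
        have h3 : (N - m) * T ≤ (m * h) * T := mul_le_mul_of_nonneg_right (by linarith) hT1
        have h4 : (N : ℝ) * (m * (1 - δ - ε / 4)) ≤ N * T := mul_le_mul_of_nonneg_left hT3 hN0
        have h5 : (m : ℝ) * T ≤ m * m := mul_le_mul_of_nonneg_left hT2 hm0.le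
        have h6 : (m : ℝ) * (N * (1 - δ - ε / 4) - m) ≤ m * (h * T) := by nlinarith
        exact le_of_mul_le_mul_left h6 hm0
      have h3 : h * T ≤ h * Sg := mul_le_mul_of_nonneg_left h1 (by linarith)
      have h4 : N * (1 - δ - ε / 2) ≤ h * Sg := by nlinarith
      have h5 : c / 2 * (N * (1 - δ - ε / 2)) ≤ c / 2 * (h * Sg) :=
        mul_le_mul_of_nonneg_left h4 (by linarith)
      have h6 : c / 2 * ((δ + ε / 2) * N) ≤ 1 * ((δ + ε / 2) * N) :=
        mul_le_mul_of_nonneg_right (by linarith) (by positivity)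
      nlinarith
    · right
      have h1 : (m : ℝ) * 1 < m * (δ + ε / 4) := by nlinarith
      have h2 : 1 < δ + ε / 4 := lt_of_mul_lt_mul_left h1 hm0.le
      have h3 : c / 2 ≤ δ + ε := by linarith
      nlinarith [mul_le_mul_of_nonneg_right h3 hN0]
  have hW0 := WLow_nonneg v N ⌊δ * N⌋₊ hv A B
  rcases hmain with h1 | h1
  · have h2 : (c / 2 * h - e * (N : ℝ) ^ 2 / h) * Sg =
        c / 2 * h * Sg - e * (N : ℝ) ^ 2 / h * Sg := by ring
    rw [h2] at hlow
    have h3 : 0 ≤ ε * N := by positivity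
    nlinarith
  · linarith

end Pool.Agent.Lib.MP_629a14_nt.Col
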