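import Pool.Agent.Lib.MP_629a14_nt.Col.PieceT
import Pool.Agent.Lib.MP_629a14_nt.Rob.SigLow

/-! Upper bound for the weighted sum. -/

set_option autoImplicit false

namespace Pool.Agent.Lib.MP_629a14_nt.Col

open Finset Filter Topology Pool.Agent.Lib.MP_629a14_nt Pool.Agent.Lib.MP_629a14_nt.Rob

/-- Covering by squares. If `1 ≤ h`, `2 h ≤ D` and `N < h (m + 1)`: a pair `(p, q)` of primes with
`D < p + q ≤ N` lies in exactly one square `(i h, (i+1) h] × (j h, (j+1) h]`; `s = i + j` satisfies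
`s h < p + q ≤ (s + 2) h`, so `1 ≤ s ≤ m`, and `1/(p + q) ≤ 1/(s h)`. -/
theorem cover_up (v N D h m : ℕ) (hv : 2 ≤ v) (hh : 1 ≤ h) (hD : 2 * h ≤ D) (hm : N < h * (m + 1))
    (A B : Set ℕ) :
    WW v N D A B ≤ ∑ s ∈ Icc 1 m, ∑ i ∈ range (s + 1),
      TT v N A B (i * h) ((s - i) * h) h / ((s : ℝ) * h) := by
  classical
  set F : ℕ → ℕ → ℝ := fun p q => Real.log N ^ 2 / sig v (p + q) with hF
  have hsig : ∀ p q : ℕ, 0 < sig v (p + q) := fun p q => by
    have := one_le_sig v (p + q) hv
    linarith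
  have hF0 : ∀ p q, 0 ≤ F p q := fun p q => div_nonneg (sq_nonneg _) (hsig p q).le
  have hG0 : ∀ (p q s : ℕ), 0 ≤ F p q / ((s : ℝ) * h) := fun p q s =>
    div_nonneg (hF0 p q) (by positivity)
  have hite : ∀ (p q s i : ℕ), 0 ≤ (if (p ∈ PP v A (i * h) h ∧ q ∈ PP v B ((s - i) * h) h)
      then F p q / ((s : ℝ) * h) else 0) := by
    intro p q s i
    split_ifs
    · exact hG0 p q s
    · exact le_refl _
  have hR : ∀ s ∈ Icc 1 m, ∀ i ∈ range (s + 1),
      (∑ p ∈ PP v A 0 N, ∑ q ∈ PP v B 0 N,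
        if (p ∈ PP v A (i * h) h ∧ q ∈ PP v B ((s - i) * h) h)
        then F p q / ((s : ℝ) * h) else 0) ≤
      TT v N A B (i * h) ((s - i) * h) h / ((s : ℝ) * h) := by
    intro s hs i hi
    have h1 : TT v N A B (i * h) ((s - i) * h) h / ((s : ℝ) * h) =
        ∑ p ∈ PP v A (i * h) h, ∑ q ∈ PP v B ((s - i) * h) h, F p q / ((s : ℝ) * h) := by
      unfold TT
      rw [Finset.sum_div]
      exact sum_congr rfl fun p _ => by rw [Finset.sum_div]
    rw [h1]
    calc (∑ p ∈ PP v A 0 N, ∑ q ∈ PP v B 0 N,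
        if (p ∈ PP v A (i * h) h ∧ q ∈ PP v B ((s - i) * h) h)
        then F p q / ((s : ℝ) * h) else 0)
        = ∑ p ∈ (PP v A 0 N).filter (fun p => p ∈ PP v A (i * h) h),
            ∑ q ∈ (PP v B 0 N).filter (fun q => q ∈ PP v B ((s - i) * h) h),
              F p q / ((s : ℝ) * h) := by
          rw [sum_filter]
          refine sum_congr rfl fun p _ => ?_
          by_cases hp : p ∈ PP v A (i * h) h
          · simp only [hp, true_and, if_true]
            rw [sum_filter]
          · simp [hp]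
      _ ≤ ∑ p ∈ PP v A (i * h) h,
            ∑ q ∈ (PP v B 0 N).filter (fun q => q ∈ PP v B ((s - i) * h) h),
              F p q / ((s : ℝ) * h) := by
          apply sum_le_sum_of_subset_of_nonneg
          · intro p hp
            exact (mem_filter.1 hp).2
          · intro p _ _
            exact sum_nonneg fun q _ => hG0 p q s
      _ ≤ _ := by
          apply sum_le_sum
          intro p _
          apply sum_le_sum_of_subset_of_nonneg
          · intro q hq
            exact (mem_filter.1 hq).2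
          · intro q _ _
            exact hG0 p q s
  calc WW v N D A B ≤ ∑ p ∈ PP v A 0 N, ∑ q ∈ PP v B 0 N, ∑ s ∈ Icc 1 m, ∑ i ∈ range (s + 1),
        (if (p ∈ PP v A (i * h) h ∧ q ∈ PP v B ((s - i) * h) h)
          then F p q / ((s : ℝ) * h) else 0) := by
        unfold WW
        apply sum_le_sum
        intro p hp
        apply sum_le_sum
        intro q hq
        split_ifs with hc
        · obtain ⟨hc1, hc2⟩ := hc
          have hp' := hp
          have hq' := hq
          unfold PP at hp' hq'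
          rw [mem_filter, mem_Ioc] at hp' hq'
          have hp1 : 1 ≤ p := hp'.1.1
          have hq1 : 1 ≤ q := hq'.1.1
          obtain ⟨i, hi⟩ : ∃ i, i = (p - 1) / h := ⟨_, rfl⟩
          obtain ⟨j, hj⟩ : ∃ j, j = (q - 1) / h := ⟨_, rfl⟩
          have hi1 : i * h ≤ p - 1 := by rw [hi]; exact Nat.div_mul_le_self _ _
          have hj1 : j * h ≤ q - 1 := by rw [hj]; exact Nat.div_mul_le_self _ _
          have hi2 : p - 1 < h * (i + 1) := by
            rw [hi]; exact Nat.lt_mul_div_succ _ (by omega)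
          have hj2 : q - 1 < h * (j + 1) := by
            rw [hj]; exact Nat.lt_mul_div_succ _ (by omega)
          have hi3 : p ≤ i * h + h := by
            have : h * (i + 1) = i * h + h := by ring
            omega
          have hj3 : q ≤ j * h + h := by
            have : h * (j + 1) = j * h + h := by ring
            omega
          have hs1 : 1 ≤ i + j := by
            by_contra hcon
            have hi0 : i = 0 := by omega
            have hj0 : j = 0 := by omega
            rw [hi0] at hi3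
            rw [hj0] at hj3
            omega
          have hsh : (i + j) * h < p + q := by
            have : (i + j) * h = i * h + j * h := by ring
            omega
          have hsm : i + j ≤ m := by
            by_contra hcon
            have h1 : m + 1 ≤ i + j := by omega
            have h2 : h * (m + 1) ≤ (i + j) * h := by
              rw [mul_comm]
              exact Nat.mul_le_mul_right h h1
            omega
          have hpm : p ∈ PP v A (i * h) h := by
            unfold PP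
            rw [mem_filter, mem_Ioc]
            exact ⟨⟨by omega, hi3⟩, hp'.2⟩
          have hqm : q ∈ PP v B (((i + j) - i) * h) h := by
            unfold PP
            rw [mem_filter, mem_Ioc, Nat.add_sub_cancel_left]
            exact ⟨⟨by omega, hj3⟩, hq'.2⟩
          have hhR : (0 : ℝ) < h := by exact_mod_cast hh
          have hsR : (0 : ℝ) < ((i + j : ℕ) : ℝ) := by exact_mod_cast hs1
          calc Real.log N ^ 2 / (((p : ℝ) + q) * sig v (p + q))
              ≤ F p q / (((i + j : ℕ) : ℝ) * h) := by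
                rw [hF]
                simp only
                rw [div_div]
                have hle : ((i + j : ℕ) : ℝ) * h ≤ (p : ℝ) + q := by
                  have : (((i + j) * h : ℕ) : ℝ) ≤ ((p + q : ℕ) : ℝ) := by
                    exact_mod_cast hsh.le
                  push_cast at this ⊢
                  exact this
                apply div_le_div_of_nonneg_left (sq_nonneg _)
                · exact mul_pos (hsig p q) (mul_pos hsR hhR)
                · rw [mul_comm (sig v (p + q))]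
                  exact mul_le_mul_of_nonneg_right hle (hsig p q).le
            _ = (if (p ∈ PP v A (i * h) h ∧ q ∈ PP v B (((i + j) - i) * h) h)
                  then F p q / (((i + j : ℕ) : ℝ) * h) else 0) := by
                rw [if_pos ⟨hpm, hqm⟩]
            _ ≤ ∑ i' ∈ range ((i + j) + 1),
                (if (p ∈ PP v A (i' * h) h ∧ q ∈ PP v B (((i + j) - i') * h) h)
                  then F p q / (((i + j : ℕ) : ℝ) * h) else 0) := by
                refine single_le_sum (f := fun i' : ℕ =>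
                  (if (p ∈ PP v A (i' * h) h ∧ q ∈ PP v B (((i + j) - i') * h) h)
                    then F p q / (((i + j : ℕ) : ℝ) * h) else 0)) (fun i' _ => hite p q (i + j) i') ?_
                rw [mem_range]
                omega
            _ ≤ _ := by
                refine single_le_sum (f := fun s' : ℕ => ∑ i' ∈ range (s' + 1),
                  (if (p ∈ PP v A (i' * h) h ∧ q ∈ PP v B ((s' - i') * h) h)
                    then F p q / ((s' : ℝ) * h) else 0)) (fun s' _ => sum_nonneg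
                      fun i' _ => hite p q s' i') ?_
                rw [mem_Icc]
                exact ⟨hs1, hsm⟩
        · exact sum_nonneg fun s _ => sum_nonneg fun i _ => hite p q s i
    _ = ∑ s ∈ Icc 1 m, ∑ i ∈ range (s + 1), ∑ p ∈ PP v A 0 N, ∑ q ∈ PP v B 0 N,
        (if (p ∈ PP v A (i * h) h ∧ q ∈ PP v B ((s - i) * h) h)
          then F p q / ((s : ℝ) * h) else 0) := by
        have e1 : ∀ p ∈ PP v A 0 N, (∑ q ∈ PP v B 0 N, ∑ s ∈ Icc 1 m, ∑ i ∈ range (s + 1),
            (if (p ∈ PP v A (i * h) h ∧ q ∈ PP v B ((s - i) * h) h)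
              then F p q / ((s : ℝ) * h) else 0)) =
            ∑ s ∈ Icc 1 m, ∑ i ∈ range (s + 1), ∑ q ∈ PP v B 0 N,
            (if (p ∈ PP v A (i * h) h ∧ q ∈ PP v B ((s - i) * h) h)
              then F p q / ((s : ℝ) * h) else 0) := by
          intro p _
          rw [sum_comm]
          exact sum_congr rfl fun s _ => sum_comm
        rw [sum_congr rfl e1, sum_comm]
        exact sum_congr rfl fun s _ => sum_comm
    _ ≤ _ := sum_le_sum fun s hs => sum_le_sum fun i hi => hR s hs i hi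

private theorem WUp_harm (m : ℕ) : ∑ s ∈ Icc 1 m, (1 : ℝ) / s ≤ 2 * Real.sqrt m := by
  induction m with
  | zero => simp
  | succ n ih =>
    rw [Finset.sum_Icc_succ_top (by omega)]
    have hn0 : (0 : ℝ) ≤ n := Nat.cast_nonneg n
    have h1 : Real.sqrt n ^ 2 = n := Real.sq_sqrt hn0
    have h2 : Real.sqrt ((n + 1 : ℕ) : ℝ) ^ 2 = (n : ℝ) + 1 := by
      rw [Real.sq_sqrt (Nat.cast_nonneg _)]
      push_cast
      ring
    have h3 : 0 ≤ Real.sqrt n := Real.sqrt_nonneg _
    have h4 : 1 ≤ Real.sqrt ((n + 1 : ℕ) : ℝ) := by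
      rw [Real.one_le_sqrt]
      push_cast
      linarith
    have h5 : Real.sqrt n ≤ Real.sqrt ((n + 1 : ℕ) : ℝ) := by
      apply Real.sqrt_le_sqrt
      push_cast
      linarith
    have h6 : Real.sqrt ((n + 1 : ℕ) : ℝ) ≤ (n : ℝ) + 1 := by nlinarith
    set a := Real.sqrt n with ha
    set b := Real.sqrt ((n + 1 : ℕ) : ℝ) with hb
    have h7 : (1 : ℝ) / ((n + 1 : ℕ) : ℝ) ≤ 2 * b - 2 * a := by
      have hb0 : 0 < b := by linarith
      have : (1 : ℝ) / ((n + 1 : ℕ) : ℝ) ≤ 1 / b := by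
        apply one_div_le_one_div_of_le hb0
        push_cast
        exact h6
      refine le_trans this ?_
      rw [div_le_iff₀ hb0]
      nlinarith
    linarith

private theorem WUp_lim01 (A : Set ℕ) (α : ℝ)
    (hA : Tendsto (fun x : ℕ => (cntB A x : ℝ) / cntB Set.univ x) atTop (𝓝 α)) :
    0 ≤ α ∧ α ≤ 1 := by
  classical
  constructor
  · exact ge_of_tendsto' hA fun x => by positivity
  · refine le_of_tendsto' hA fun x => ?_
    have h1 : cntB A x ≤ cntB Set.univ x := by
      unfold cntB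
      apply card_le_card
      intro p hp
      simp only [mem_filter, Set.mem_univ, and_true] at hp ⊢
      exact ⟨hp.1, hp.2.1⟩
    exact div_le_one_of_le₀ (by exact_mod_cast h1) (Nat.cast_nonneg _)

private theorem WUp_theta (α β : ℝ) (hα : 0 ≤ α ∧ α ≤ 1) (hβ : 0 ≤ β ∧ β ≤ 1) :
    0 ≤ α * β + theta α β ∧ α * β + theta α β ≤ 2 := by
  obtain ⟨ha0, ha1⟩ := hα
  obtain ⟨hb0, hb1⟩ := hβ
  have h1 : α * (1 - α) ≤ 1 := by nlinarith
  have h2 : 0 ≤ α * (1 - α) := mul_nonneg ha0 (by linarith)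
  have h3 : β * (1 - β) ≤ 1 := by nlinarith
  have h4 : 0 ≤ β * (1 - β) := mul_nonneg hb0 (by linarith)
  have h5 : Real.sqrt (α * (1 - α) * (β * (1 - β))) ≤ 1 := by
    rw [Real.sqrt_le_one]
    exact mul_le_one₀ h1 h4 h3
  have h6 := Real.sqrt_nonneg (α * (1 - α) * (β * (1 - β)))
  have h7 : α * β ≤ 1 := mul_le_one₀ ha1 hb0 hb1
  have h8 : 0 ≤ α * β := mul_nonneg ha0 hb0
  unfold theta
  constructor <;> linarith

/-- Choose `m` large in terms of `δ` and `ε` (`m ≥ 4/δ`, `(4 + 4 sqrt m)/m ≤ ε/2` say), `h = N / m`, so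
`h ≤ N/m`, `h ≥ N/(2m)`, `2 h ≤ ⌊δ N⌋`, `N < h (m + 1)` for `N ≥ 2 m (m + 1)`. By `cover_up` and `pieceT` with a small
`ε'` the sum is at most `(h/2) (αβ + θ) ∑_{1≤s≤m} (s+1)/s + ε' N² ∑ (s+1)/(s h)`, where
`∑ (s+1)/s = m + ∑ 1/s ≤ m + 2 sqrt m`, `h m ≤ N`, `αβ + θ ≤ 2`, `∑ (s+1)/(s h) ≤ 2 m/h ≤ 4 m²/N`. -/
theorem w_up (v : ℕ) (hv : 2 ≤ v) (A B : Set ℕ) (α β : ℝ)
    (hA : Tendsto (fun x : ℕ => (cntB A x : ℝ) / cntB Set.univ x) atTop (𝓝 α))
    (hB : Tendsto (fun x : ℕ => (cntB B x : ℝ) / cntB Set.univ x) atTop (𝓝 β))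
    (δ ε : ℝ) (hδ : 0 < δ) (hε : 0 < ε) : ∃ N₀ : ℕ, ∀ N : ℕ, N₀ ≤ N →
      WW v N ⌊δ * N⌋₊ A B ≤ (α * β + theta α β) / 2 * N + ε * N := by
  classical
  obtain ⟨hc0, hc2⟩ := WUp_theta α β (WUp_lim01 A α hA) (WUp_lim01 B β hB)
  set c : ℝ := α * β + theta α β with hc
  obtain ⟨m, hm⟩ := exists_nat_ge (16 / ε ^ 2 + 2 / δ + 2)
  have hεδ1 : 0 < 16 / ε ^ 2 := by positivity
  have hεδ2 : 0 < 2 / δ := by positivity
  have hm2 : (2 : ℝ) ≤ m := by linarith
  have hm2' : 2 ≤ m := by exact_mod_cast hm2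
  have hmR : (0 : ℝ) < m := by linarith
  have hmδ : 2 / δ ≤ m := by linarith
  have hmε : 16 / ε ^ 2 ≤ m := by linarith
  obtain ⟨N₁, hN₁⟩ := pieceT v hv A B α β hA hB (ε / (12 * (m : ℝ) ^ 2)) (by positivity)
  refine ⟨max N₁ (m ^ 2), fun N hN => ?_⟩
  have hNN₁ : N₁ ≤ N := le_trans (le_max_left _ _) hN
  have hNm : m ^ 2 ≤ N := le_trans (le_max_right _ _) hN
  have hNmR : (m : ℝ) ^ 2 ≤ N := by exact_mod_cast hNm
  have hNR : (0 : ℝ) < N := lt_of_lt_of_le (by positivity) hNmR
  obtain ⟨h, hhdef⟩ : ∃ h, h = N / m := ⟨_, rfl⟩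
  have hhm : h * m ≤ N := by rw [hhdef]; exact Nat.div_mul_le_self _ _
  have hNh : N < m * (h + 1) := by rw [hhdef]; exact Nat.lt_mul_div_succ _ (by omega)
  have hmh : m ≤ h := by
    rw [hhdef, Nat.le_div_iff_mul_le (by omega)]
    calc m * m = m ^ 2 := by ring
      _ ≤ N := hNm
  have hh1 : 1 ≤ h := by omega
  have hcov : N < h * (m + 1) := by
    have : m * (h + 1) ≤ h * (m + 1) := by
      have e1 : m * (h + 1) = m * h + m := by ring
      have e2 : h * (m + 1) = m * h + h := by ring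
      omega
    omega
  have hhmR : (h : ℝ) * m ≤ N := by exact_mod_cast hhm
  have hhR : (0 : ℝ) < h := by exact_mod_cast hh1
  have hNhR : (N : ℝ) < m * (h + 1) := by exact_mod_cast hNh
  have hh2 : (N : ℝ) ≤ 2 * m * h := by
    have : (1 : ℝ) ≤ h := by exact_mod_cast hh1
    nlinarith
  have hD : 2 * h ≤ ⌊δ * N⌋₊ := by
    apply Nat.le_floor
    push_cast
    have h1 : 2 ≤ δ * m := by
      rw [div_le_iff₀ hδ] at hmδ
      linarith
    nlinarith
  have hcu := cover_up v N ⌊δ * N⌋₊ h m hv hh1 hD hcov A B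
  refine le_trans hcu ?_
  have hterm : ∀ s ∈ Icc 1 m, ∑ i ∈ range (s + 1),
      TT v N A B (i * h) ((s - i) * h) h / ((s : ℝ) * h) ≤
      (1 + 1 / (s : ℝ)) * ((c / 2 * (h : ℝ) ^ 2 + ε / (12 * (m : ℝ) ^ 2) * (N : ℝ) ^ 2) / h) := by
    intro s hs
    rw [mem_Icc] at hs
    have hsR : (0 : ℝ) < s := by exact_mod_cast hs.1
    have h1 : ∀ i ∈ range (s + 1), TT v N A B (i * h) ((s - i) * h) h / ((s : ℝ) * h) ≤
        (c / 2 * (h : ℝ) ^ 2 + ε / (12 * (m : ℝ) ^ 2) * (N : ℝ) ^ 2) / ((s : ℝ) * h) := by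
      intro i hi
      rw [mem_range] at hi
      have hb : (m + 1) * h ≤ 2 * N := by
        have e1 : (m + 1) * h = h * m + h := by ring
        have e2 : h ≤ h * m := Nat.le_mul_of_pos_right h (by omega)
        omega
      have hx : i * h + h ≤ 2 * N := by
        calc i * h + h = (i + 1) * h := by ring
          _ ≤ (m + 1) * h := Nat.mul_le_mul_right h (by omega)
          _ ≤ 2 * N := hb
      have hy : (s - i) * h + h ≤ 2 * N := by
        calc (s - i) * h + h = (s - i + 1) * h := by ring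
          _ ≤ (m + 1) * h := Nat.mul_le_mul_right h (by omega)
          _ ≤ 2 * N := hb
      have hp := hN₁ N hNN₁ (i * h) ((s - i) * h) h hx hy
      have hp2 := (abs_le.1 hp).2
      apply div_le_div_of_nonneg_right _ (by positivity)
      rw [hc]
      linarith
    calc ∑ i ∈ range (s + 1), TT v N A B (i * h) ((s - i) * h) h / ((s : ℝ) * h)
        ≤ ∑ i ∈ range (s + 1),
          (c / 2 * (h : ℝ) ^ 2 + ε / (12 * (m : ℝ) ^ 2) * (N : ℝ) ^ 2) / ((s : ℝ) * h) :=
          sum_le_sum h1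
      _ = (1 + 1 / (s : ℝ)) *
          ((c / 2 * (h : ℝ) ^ 2 + ε / (12 * (m : ℝ) ^ 2) * (N : ℝ) ^ 2) / h) := by
          rw [sum_const, card_range, nsmul_eq_mul]
          push_cast
          field_simp
  refine le_trans (sum_le_sum hterm) ?_
  rw [← Finset.sum_mul, Finset.sum_add_distrib]
  have hsum1 : ∑ _s ∈ Icc 1 m, (1 : ℝ) = m := by simp
  rw [hsum1]
  have hharm := WUp_harm m
  have hsq0 : 0 < Real.sqrt m := Real.sqrt_pos.2 hmR
  have hsq : Real.sqrt m ^ 2 = m := Real.sq_sqrt hmR.le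
  have hsqm : Real.sqrt m ≤ m := by
    have : 1 ≤ Real.sqrt m := by
      rw [Real.one_le_sqrt]
      linarith
    nlinarith
  set K : ℝ := (c / 2 * (h : ℝ) ^ 2 + ε / (12 * (m : ℝ) ^ 2) * (N : ℝ) ^ 2) / h with hK
  have hK0 : 0 ≤ K := by rw [hK]; positivity
  have h1 : ((m : ℝ) + ∑ s ∈ Icc 1 m, 1 / (s : ℝ)) * K ≤ (m + 2 * Real.sqrt m) * K :=
    mul_le_mul_of_nonneg_right (by linarith) hK0
  refine le_trans h1 ?_
  have hK2 : K = c / 2 * h + ε / (12 * (m : ℝ) ^ 2) * (N : ℝ) ^ 2 / h := by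
    rw [hK]
    field_simp
  rw [hK2]
  -- the first part
  have hsε : 4 ≤ ε * Real.sqrt m := by
    rw [div_le_iff₀ (by positivity)] at hmε
    have h16 : (4 : ℝ) ^ 2 ≤ (ε * Real.sqrt m) ^ 2 := by
      rw [mul_pow, hsq]
      linarith
    exact le_of_sq_le_sq h16 (by positivity)
  have p1 : (m + 2 * Real.sqrt m) * (c / 2 * h) ≤ c / 2 * N + ε / 2 * N := by
    have q1 : (m : ℝ) * (c / 2 * h) ≤ c / 2 * N := by
      calc (m : ℝ) * (c / 2 * h) = c / 2 * (h * m) := by ring
        _ ≤ c / 2 * N := mul_le_mul_of_nonneg_left hhmR (by positivity)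
    have q2 : 2 * Real.sqrt m * (c / 2 * h) ≤ ε / 2 * N := by
      have q3 : 2 * Real.sqrt m * (c / 2 * h) ≤ 2 * Real.sqrt m * h := by
        apply mul_le_mul_of_nonneg_left _ (by positivity)
        nlinarith
      have q4 : 2 * Real.sqrt m * h ≤ ε / 2 * (h * m) := by
        calc 2 * Real.sqrt m * h = (4 * Real.sqrt m) / 2 * h := by ring
          _ ≤ (ε * Real.sqrt m * Real.sqrt m) / 2 * h := by
              apply mul_le_mul_of_nonneg_right _ hhR.le
              apply div_le_div_of_nonneg_right _ (by norm_num)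
              exact mul_le_mul_of_nonneg_right hsε hsq0.le
          _ = ε / 2 * (h * Real.sqrt m ^ 2) := by ring
          _ = ε / 2 * (h * m) := by rw [hsq]
      have q5 : ε / 2 * (h * m) ≤ ε / 2 * N := mul_le_mul_of_nonneg_left hhmR (by positivity)
      linarith
    linarith
  have p2 : (m + 2 * Real.sqrt m) * (ε / (12 * (m : ℝ) ^ 2) * (N : ℝ) ^ 2 / h) ≤ ε / 2 * N := by
    have q1 : (m : ℝ) + 2 * Real.sqrt m ≤ 3 * m := by linarith
    calc (m + 2 * Real.sqrt m) * (ε / (12 * (m : ℝ) ^ 2) * (N : ℝ) ^ 2 / h)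
        ≤ (3 * m) * (ε / (12 * (m : ℝ) ^ 2) * (N : ℝ) ^ 2 / h) := by
          apply mul_le_mul_of_nonneg_right q1
          positivity
      _ = ε / (4 * m) * N * (N / h) := by
          field_simp
          ring
      _ ≤ ε / (4 * m) * N * (2 * m) := by
          apply mul_le_mul_of_nonneg_left _ (by positivity)
          rw [div_le_iff₀ hhR]
          linarith
      _ = ε / 2 * N := by
          field_simp
          ring
  have p3 : (m + 2 * Real.sqrt m) * (c / 2 * h + ε / (12 * (m : ℝ) ^ 2) * (N : ℝ) ^ 2 / h) =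
      (m + 2 * Real.sqrt m) * (c / 2 * h) +
      (m + 2 * Real.sqrt m) * (ε / (12 * (m : ℝ) ^ 2) * (N : ℝ) ^ 2 / h) := by ring
  rw [p3]
  linarith

end Pool.Agent.Lib.MP_629a14_nt.Col
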