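import Pool.Agent.Lib.MP_629a14_nt.Col.Asym
import Pool.Agent.Lib.MP_629a14_nt.Col.WUp
import Pool.Agent.Lib.MP_629a14_nt.Col.WLow
import Pool.Agent.Lib.MP_629a14_nt.Rob.SigLow
import Pool.Agent.Lib.MP_629a14_nt.Sm.Cnt

/-! The average of the proportions. -/

set_option autoImplicit false

namespace Pool.Agent.Lib.MP_629a14_nt.Col

open Finset Filter Topology Pool.Agent.Lib.MP_629a14_nt Pool.Agent.Lib.MP_629a14_nt.Rob

open Classical in
private noncomputable def rT (v N : ℕ) (A B : Set ℕ) (n : ℕ) : Finset (ℕ × ℕ) :=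
  (PP v A 0 N ×ˢ PP v B 0 N).filter (fun x => x.1 + x.2 = n)

open Classical in
private noncomputable def rP (N : ℕ) : Finset ℕ :=
  (Icc 1 N).filter (fun p => p.Prime ∧ p ∈ (Set.univ : Set ℕ))

open Classical in
private noncomputable def rU (v N : ℕ) (n : ℕ) : Finset (ℕ × ℕ) :=
  (range (v + 1) ×ˢ rP N).filter (fun x => x.1 + x.2 = n)

open Classical in
private noncomputable def rU' (v N : ℕ) (n : ℕ) : Finset (ℕ × ℕ) :=
  (rP N ×ˢ range (v + 1)).filter (fun x => x.1 + x.2 = n)

private theorem rT_le (v N : ℕ) (A B : Set ℕ) (n : ℕ) :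
    (rT v N A B n).card ≤ Sm.repsIn A B n := by
  classical
  unfold Sm.repsIn
  apply Finset.card_le_card_of_injOn (fun x => x.1)
  · intro x hx
    simp only [rT, PP, Finset.coe_filter, Finset.mem_product, Finset.mem_filter, Finset.mem_Ioc,
      Set.mem_ofPred_eq] at hx
    obtain ⟨⟨⟨_, hp, hpA, _⟩, ⟨_, hq, hqB, _⟩⟩, hs⟩ := hx
    have h2 : n - x.1 = x.2 := by omega
    simp only [Finset.coe_filter, Finset.mem_range, Set.mem_ofPred_eq, h2]
    exact ⟨by omega, hp, hq, hpA, hqB⟩
  · intro x hx y hy hxy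
    simp only [rT, Finset.coe_filter, Set.mem_ofPred_eq] at hx hy
    have h1 := hx.2
    have h2 := hy.2
    simp only at hxy
    ext <;> omega

private theorem le_rT (v N : ℕ) (A B : Set ℕ) (n : ℕ) (hn : n ≤ N) :
    Sm.repsIn A B n ≤ (rT v N A B n).card + ((rU v N n).card + (rU' v N n).card) := by
  classical
  have h1 : Sm.repsIn A B n ≤ (rT v N A B n ∪ (rU v N n ∪ rU' v N n)).card := by
    unfold Sm.repsIn
    apply Finset.card_le_card_of_injOn (fun p => (p, n - p))
    · intro p hp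
      simp only [Finset.coe_filter, Finset.mem_range, Set.mem_ofPred_eq] at hp
      obtain ⟨hpn, hp1, hp2, hpA, hpB⟩ := hp
      have e1 := hp1.pos
      have e2 := hp2.pos
      simp only [rT, rU, rU', rP, PP, Finset.coe_union, Finset.coe_filter, Finset.mem_product,
        Finset.mem_filter, Finset.mem_Ioc, Finset.mem_Icc, Finset.mem_range, Set.mem_union,
        Set.mem_ofPred_eq, Set.mem_univ, and_true]
      by_cases c1 : v < p
      · by_cases c2 : v < n - p
        · left
          refine ⟨⟨⟨by omega, hp1, hpA, c1⟩, ⟨by omega, hp2, hpB, c2⟩⟩, by omega⟩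
        · right; right
          refine ⟨⟨⟨by omega, hp1⟩, by omega⟩, by omega⟩
      · right; left
        refine ⟨⟨by omega, ⟨by omega, hp2⟩⟩, by omega⟩
    · intro p _ q _ h
      simpa using congrArg Prod.fst h
  refine h1.trans ((Finset.card_union_le _ _).trans ?_)
  have := Finset.card_union_le (rU v N n) (rU' v N n)
  omega

private theorem sum_rU (v N : ℕ) (E : Finset ℕ) :
    ∑ n ∈ E, ((rU v N n).card : ℝ) ≤ ((v : ℝ) + 1) * cntB Set.univ N := by
  classical
  have h1 : ∑ n ∈ E, (rU v N n).card ≤ (range (v + 1) ×ˢ rP N).card := by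
    have := Finset.sum_card_fiberwise_eq_card_filter (range (v + 1) ×ˢ rP N) E
      (fun x => x.1 + x.2)
    simp only [rU]
    rw [this]
    exact Finset.card_filter_le _ _
  rw [Finset.card_product, Finset.card_range] at h1
  have h2 : cntB Set.univ N = (rP N).card := by
    unfold cntB rP
    congr
  rw [h2]
  exact_mod_cast h1

private theorem sum_rU' (v N : ℕ) (E : Finset ℕ) :
    ∑ n ∈ E, ((rU' v N n).card : ℝ) ≤ ((v : ℝ) + 1) * cntB Set.univ N := by
  classical
  have h1 : ∑ n ∈ E, (rU' v N n).card ≤ (rP N ×ˢ range (v + 1)).card := by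
    have := Finset.sum_card_fiberwise_eq_card_filter (rP N ×ˢ range (v + 1)) E
      (fun x => x.1 + x.2)
    simp only [rU']
    rw [this]
    exact Finset.card_filter_le _ _
  rw [Finset.card_product, Finset.card_range, mul_comm] at h1
  have h2 : cntB Set.univ N = (rP N).card := by
    unfold cntB rP
    congr
  rw [h2]
  exact_mod_cast h1

private theorem ww_eq (v N D : ℕ) (hv : 2 ≤ v) (A B : Set ℕ) :
    WW v N D A B = ∑ n ∈ (Icc 1 N).filter (fun n => 2 ∣ n),
      (if D < n then ((rT v N A B n).card : ℝ) * (Real.log N ^ 2 / ((n : ℝ) * sig v n)) else 0) := by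
  classical
  have h1 : ∀ n ∈ (Icc 1 N).filter (fun n => 2 ∣ n),
      (if D < n then ((rT v N A B n).card : ℝ) * (Real.log N ^ 2 / ((n : ℝ) * sig v n)) else 0) =
      ∑ x ∈ PP v A 0 N ×ˢ PP v B 0 N, (if x.1 + x.2 = n then
        (if D < n then (Real.log N ^ 2 / ((n : ℝ) * sig v n)) else 0) else 0) := by
    intro n _
    rw [← Finset.sum_filter, Finset.sum_const, nsmul_eq_mul]
    by_cases c : D < n
    · rw [if_pos c, if_pos c]; rfl
    · rw [if_neg c, if_neg c, mul_zero]
  rw [Finset.sum_congr rfl h1, Finset.sum_comm]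
  unfold WW
  rw [← Finset.sum_product']
  refine Finset.sum_congr rfl fun x hx => ?_
  rw [Finset.sum_ite_eq]
  simp only [PP, Finset.mem_product, Finset.mem_filter, Finset.mem_Ioc] at hx
  obtain ⟨⟨_, hp, _, hp2⟩, ⟨_, hq, _, hq2⟩⟩ := hx
  have o1 : Odd x.1 := hp.odd_of_ne_two (by omega)
  have o2 : Odd x.2 := hq.odd_of_ne_two (by omega)
  have he : 2 ∣ x.1 + x.2 := (o1.add_odd o2).two_dvd
  have hpos := hp.pos
  by_cases c : x.1 + x.2 ≤ N
  · rw [if_pos (show x.1 + x.2 ∈ (Icc 1 N).filter (fun n => 2 ∣ n) from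
      Finset.mem_filter.mpr ⟨Finset.mem_Icc.mpr ⟨by omega, c⟩, he⟩)]
    by_cases c2 : D < x.1 + x.2
    · rw [if_pos ⟨c2, c⟩, if_pos c2]
      push_cast
      rfl
    · rw [if_neg (fun h => c2 h.1), if_neg c2]
  · rw [if_neg (fun h => c h.2), if_neg]
    intro h
    exact c (Finset.mem_Icc.mp (Finset.mem_filter.mp h).1).2

private theorem reps_mono (A B : Set ℕ) (n : ℕ) :
    Sm.repsIn A B n ≤ Sm.repsIn Set.univ Set.univ n := by
  classical
  unfold Sm.repsIn
  apply Finset.card_le_card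
  intro p hp
  simp only [Finset.mem_filter, Set.mem_univ, and_true] at hp ⊢
  exact ⟨hp.1, hp.2.1, hp.2.2.1⟩

/-- For even `n > D`, `n ≤ N`: `|R_AB/R - log² N R_AB/(n sig)| ≤ |n sig - log² N R|/(n sig) ≤ |n sig - log² N R|/D`
(`R_AB ≤ R`, `one_le_sig`), and the `n ≤ D` contribute at most `D`. The sum of
`log² N R_AB(n)/(n sig v n)` over the even `n` in `(D, N]` is `WW` plus the contribution of the pairs with
`p ≤ v` or `q ≤ v`, at most `2 (v + 1) N log² N · (1/D)`... more precisely at most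
`2 (v + 1) #{primes ≤ N} log² N / D`. (Odd `n`: a pair in `WW` has `p, q > v ≥ 2`, so `p + q` is even.) -/
theorem sr_ww (v N D : ℕ) (hv : 2 ≤ v) (hD : 1 ≤ D) (hDN : D ≤ N) (A B : Set ℕ) :
    |SR N A B - WW v N D A B| ≤ D +
      (∑ n ∈ (Icc 1 N).filter (fun n => 2 ∣ n),
        |Real.log N ^ 2 * (Sm.repsIn Set.univ Set.univ n : ℝ) - n * sig v n|) / D +
      2 * ((v : ℝ) + 1) * (cntB Set.univ N * Real.log N ^ 2) / D := by
  classical
  have hD0 : (0 : ℝ) < D := by exact_mod_cast hD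
  rw [ww_eq v N D hv A B, SR, ← Finset.sum_sub_distrib]
  refine (Finset.abs_sum_le_sum_abs _ _).trans ?_
  set E := (Icc 1 N).filter (fun n => 2 ∣ n) with hE
  have key : ∀ n ∈ E, |(Sm.repsIn A B n : ℝ) / (Sm.repsIn Set.univ Set.univ n : ℝ) -
      (if D < n then ((rT v N A B n).card : ℝ) * (Real.log N ^ 2 / ((n : ℝ) * sig v n)) else 0)| ≤
      (if n ≤ D then (1 : ℝ) else 0) +
      |Real.log N ^ 2 * (Sm.repsIn Set.univ Set.univ n : ℝ) - n * sig v n| / D +
      (((rU v N n).card : ℝ) + (rU' v N n).card) * (Real.log N ^ 2 / D) := by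
    intro n hn
    have hn1 := Finset.mem_Icc.mp (Finset.mem_filter.mp hn).1
    have hR : (Sm.repsIn A B n : ℝ) ≤ (Sm.repsIn Set.univ Set.univ n : ℝ) := by
      exact_mod_cast reps_mono A B n
    have hA0 : (0 : ℝ) ≤ (Sm.repsIn A B n : ℝ) := Nat.cast_nonneg _
    have hR0 : (0 : ℝ) ≤ (Sm.repsIn Set.univ Set.univ n : ℝ) := Nat.cast_nonneg _
    have t2 : 0 ≤ |Real.log N ^ 2 * (Sm.repsIn Set.univ Set.univ n : ℝ) - n * sig v n| / D := by
      positivity
    have t3 : 0 ≤ (((rU v N n).card : ℝ) + (rU' v N n).card) * (Real.log N ^ 2 / D) := by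
      positivity
    by_cases c : n ≤ D
    · rw [if_neg (by omega), if_pos c, sub_zero, abs_of_nonneg (div_nonneg hA0 hR0)]
      have := div_le_one_of_le₀ hR hR0
      linarith
    · rw [if_pos (by omega), if_neg c, zero_add]
      have hs := one_le_sig v n hv
      have hnD : (D : ℝ) < n := by exact_mod_cast (not_le.mp c)
      have hns : (D : ℝ) ≤ n * sig v n := by nlinarith
      have hns0 : 0 < n * sig v n := lt_of_lt_of_le hD0 hns
      have hta : ((rT v N A B n).card : ℝ) ≤ (Sm.repsIn A B n : ℝ) := by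
        exact_mod_cast rT_le v N A B n
      have hat' : (Sm.repsIn A B n : ℝ) ≤ ((rT v N A B n).card : ℝ) +
          (((rU v N n).card : ℝ) + (rU' v N n).card) := by
        exact_mod_cast le_rT v N A B n hn1.2
      have hn0 : (n : ℝ) ≠ 0 := by linarith
      have hs0 : sig v n ≠ 0 := by linarith
      set L := Real.log N ^ 2 with hL
      have hL0 : 0 ≤ L := by positivity
      set a := (Sm.repsIn A B n : ℝ)
      set r := (Sm.repsIn Set.univ Set.univ n : ℝ)
      set t := ((rT v N A B n).card : ℝ)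
      have hat : a - t ≤ ((rU v N n).card : ℝ) + (rU' v N n).card := by linarith
      have e1 : a / r - t * (L / (n * sig v n)) = (a / r - a * (L / (n * sig v n))) +
          (a - t) * (L / (n * sig v n)) := by ring
      rw [e1]
      refine (abs_add_le _ _).trans (add_le_add ?_ ?_)
      · rcases hR0.eq_or_lt with h0 | h0
        · have ha : a = 0 := le_antisymm (hR.trans h0.symm.le) hA0
          rw [ha]
          simpa using t2
        · have e2 : a / r - a * (L / (n * sig v n)) =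
              (a / r) * (-(L * r - n * sig v n) / (n * sig v n)) := by
            field_simp
            ring
          rw [e2, abs_mul, abs_of_nonneg (div_nonneg hA0 hR0), abs_div, abs_neg, abs_of_pos hns0]
          have h3 : a / r ≤ 1 := div_le_one_of_le₀ hR hR0
          have h4 : |L * r - n * sig v n| / (n * sig v n) ≤ |L * r - n * sig v n| / D :=
            div_le_div_of_nonneg_left (abs_nonneg _) hD0 hns
          have h5 : 0 ≤ |L * r - n * sig v n| / (n * sig v n) := by positivity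
          calc a / r * (|L * r - n * sig v n| / (n * sig v n)) ≤
              1 * (|L * r - n * sig v n| / (n * sig v n)) :=
                mul_le_mul_of_nonneg_right h3 h5
            _ ≤ _ := by rw [one_mul]; exact h4
      · rw [abs_of_nonneg (mul_nonneg (by linarith) (by positivity))]
        apply mul_le_mul hat (div_le_div_of_nonneg_left hL0 hD0 hns) (by positivity)
        positivity
  refine (Finset.sum_le_sum key).trans ?_
  rw [Finset.sum_add_distrib, Finset.sum_add_distrib, ← Finset.sum_div, ← Finset.sum_mul,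
    Finset.sum_add_distrib]
  have k1 : ∑ n ∈ E, (if n ≤ D then (1 : ℝ) else 0) ≤ D := by
    rw [Finset.sum_boole]
    have : (E.filter (fun n => n ≤ D)).card ≤ (Icc 1 D).card := by
      apply Finset.card_le_card
      intro n hn
      obtain ⟨h1, h2⟩ := Finset.mem_filter.mp hn
      have h3 := Finset.mem_Icc.mp (Finset.mem_filter.mp h1).1
      exact Finset.mem_Icc.mpr ⟨h3.1, h2⟩
    rw [Nat.card_Icc] at this
    have h4 : (E.filter (fun n => n ≤ D)).card ≤ D := by omega
    exact_mod_cast h4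
  have k2 : (∑ n ∈ E, ((rU v N n).card : ℝ) + ∑ n ∈ E, ((rU' v N n).card : ℝ)) *
      (Real.log N ^ 2 / D) ≤ 2 * ((v : ℝ) + 1) * (cntB Set.univ N * Real.log N ^ 2) / D := by
    have h1 := sum_rU v N E
    have h2 := sum_rU' v N E
    calc _ ≤ (((v : ℝ) + 1) * cntB Set.univ N + ((v : ℝ) + 1) * cntB Set.univ N) *
        (Real.log N ^ 2 / D) := mul_le_mul_of_nonneg_right (add_le_add h1 h2) (by positivity)
      _ = _ := by ring
  linarith

/-- Given `ε`: `δ = ε/8`, `v` from `asym (δ ε/8)`, then `w_up`, `w_low` with `δ`, `ε/8`, and `sr_ww` with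
`D = ⌊δ N⌋`; the last term of `sr_ww` is `O(log N)` (`cntB univ N ≤ 2 N/log N` by `Sm.cnt_univ`). -/
theorem ratio (A B : Set ℕ) (α β : ℝ)
    (hA : Tendsto (fun x : ℕ => (cntB A x : ℝ) / cntB Set.univ x) atTop (𝓝 α))
    (hB : Tendsto (fun x : ℕ => (cntB B x : ℝ) / cntB Set.univ x) atTop (𝓝 β))
    (ε : ℝ) (hε : 0 < ε) : ∃ N₀ : ℕ, ∀ N : ℕ, N₀ ≤ N →
      |2 / (N : ℝ) * SR N A B - α * β| ≤ theta α β + ε := by
  set δ : ℝ := min (ε / 32) (1 / 2) with hδd
  have hδ : 0 < δ := lt_min (by positivity) (by norm_num)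
  have hδ1 : δ ≤ ε / 32 := min_le_left _ _
  have hδ2 : δ ≤ 1 / 2 := min_le_right _ _
  obtain ⟨v₀, hv₀⟩ := asym (δ * ε / 64) (by positivity)
  set v := max v₀ 2 with hvd
  have hv : 2 ≤ v := le_max_right _ _
  obtain ⟨N₁, hN₁⟩ := hv₀ v (le_max_left _ _)
  obtain ⟨N₂, hN₂⟩ := w_up v hv A B α β hA hB δ (ε / 32) hδ (by positivity)
  obtain ⟨N₃, hN₃⟩ := w_low v hv A B α β hA hB δ (ε / 32) hδ (by positivity)
  obtain ⟨N₄, hN₄⟩ := Sm.cnt_univ 1 one_pos
  have hc : 0 < ε * δ / (256 * ((v : ℝ) + 1)) := by positivity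
  have hlog := (Real.isLittleO_log_id_atTop.comp_tendsto tendsto_natCast_atTop_atTop).def hc
  obtain ⟨N₅, hN₅⟩ := Filter.eventually_atTop.mp hlog
  obtain ⟨N₆, hN₆⟩ := exists_nat_ge (2 / δ)
  refine ⟨max (max (max N₁ N₂) (max N₃ N₄)) (max (max N₅ N₆) 1), fun N hN => ?_⟩
  simp only [max_le_iff] at hN
  obtain ⟨⟨⟨n1, n2⟩, n3, n4⟩, ⟨n5, n6⟩, n7⟩ := hN
  have hNpos : (0 : ℝ) < N := by exact_mod_cast n7
  have hN6' : 2 / δ ≤ N := hN₆.trans (by exact_mod_cast n6)
  have hδN : 2 ≤ δ * N := by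
    rw [div_le_iff₀ hδ] at hN6'
    linarith
  set D := ⌊δ * N⌋₊ with hDd
  have hD1 : (D : ℝ) ≤ δ * N := Nat.floor_le (by positivity)
  have hD2 : δ * N < D + 1 := Nat.lt_floor_add_one _
  have hD3 : δ * N / 2 ≤ D := by linarith
  have hD4 : 1 ≤ D := by
    have : (0 : ℝ) < D := by linarith
    exact_mod_cast this
  have hD5 : D ≤ N := by
    have : (D : ℝ) ≤ N := by nlinarith
    exact_mod_cast this
  have s1 := sr_ww v N D hv hD4 hD5 A B
  have s2 := hN₁ N n1
  have s3 := hN₂ N n2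
  have s4 := hN₃ N n3
  have s5 := hN₄ N n4 N le_rfl
  have s6 := hN₅ N n5
  have hL0 : 0 ≤ Real.log N := Real.log_natCast_nonneg N
  simp only [Function.comp, id, Real.norm_eq_abs, abs_of_nonneg hL0, Nat.abs_cast] at s6
  have hDpos : (0 : ℝ) < D := by linarith
  set S := ∑ n ∈ (Icc 1 N).filter (fun n => 2 ∣ n),
        |Real.log N ^ 2 * (Sm.repsIn Set.univ Set.univ n : ℝ) - n * sig v n| with hS
  have b1 : S / D ≤ ε / 32 * N := by
    rw [div_le_iff₀ hDpos]
    calc S ≤ δ * ε / 64 * (N : ℝ) ^ 2 := s2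
      _ = ε / 32 * N * (δ * N / 2) := by ring
      _ ≤ ε / 32 * N * D := mul_le_mul_of_nonneg_left hD3 (by positivity)
  have s5' : Real.log N * (cntB Set.univ N : ℝ) ≤ 2 * N := by
    have := (abs_le.mp s5).2
    linarith
  have b2 : 2 * ((v : ℝ) + 1) * (cntB Set.univ N * Real.log N ^ 2) / D ≤ ε / 32 * N := by
    rw [div_le_iff₀ hDpos]
    have e1 : 2 * ((v : ℝ) + 1) * (cntB Set.univ N * Real.log N ^ 2) =
        2 * ((v : ℝ) + 1) * Real.log N * (Real.log N * (cntB Set.univ N : ℝ)) := by ring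
    rw [e1]
    calc 2 * ((v : ℝ) + 1) * Real.log N * (Real.log N * (cntB Set.univ N : ℝ)) ≤
        2 * ((v : ℝ) + 1) * Real.log N * (2 * N) :=
          mul_le_mul_of_nonneg_left s5' (by positivity)
      _ ≤ 2 * ((v : ℝ) + 1) * (ε * δ / (256 * ((v : ℝ) + 1)) * N) * (2 * N) := by
          apply mul_le_mul_of_nonneg_right _ (by positivity)
          exact mul_le_mul_of_nonneg_left s6 (by positivity)
      _ = ε / 32 * N * (δ * N / 2) := by
          field_simp
          ring
      _ ≤ ε / 32 * N * D := mul_le_mul_of_nonneg_left hD3 (by positivity)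
  have b3 : (D : ℝ) ≤ ε / 32 * N := hD1.trans (mul_le_mul_of_nonneg_right hδ1 hNpos.le)
  have b4 : |SR N A B - WW v N D A B| ≤ 3 * (ε / 32 * N) := by linarith
  have b5 : δ * N ≤ ε / 32 * N := mul_le_mul_of_nonneg_right hδ1 hNpos.le
  have b6 : |SR N A B - α * β / 2 * N| ≤ theta α β / 2 * N + 5 * (ε / 32 * N) := by
    rw [abs_le] at b4 ⊢
    constructor
    · have : (α * β - theta α β) / 2 * N = α * β / 2 * N - theta α β / 2 * N := by ring
      have h2 : (δ + ε / 32) * N = δ * N + ε / 32 * N := by ring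
      linarith [b4.1]
    · have : (α * β + theta α β) / 2 * N = α * β / 2 * N + theta α β / 2 * N := by ring
      have h3 : 0 < ε / 32 * N := by positivity
      linarith [b4.2]
  have e2 : 2 / (N : ℝ) * SR N A B - α * β = 2 / N * (SR N A B - α * β / 2 * N) := by
    field_simp
  rw [e2, abs_mul, abs_of_pos (by positivity : (0 : ℝ) < 2 / N)]
  calc 2 / (N : ℝ) * |SR N A B - α * β / 2 * N| ≤
      2 / N * (theta α β / 2 * N + 5 * (ε / 32 * N)) :=
        mul_le_mul_of_nonneg_left b6 (by positivity)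
    _ = theta α β + 5 / 16 * ε := by field_simp; ring
    _ ≤ theta α β + ε := by linarith

end Pool.Agent.Lib.MP_629a14_nt.Col
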