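import Pool.Agent.Lib.MP_629a14_nt.Col.Crtp
import Pool.Agent.Lib.MP_629a14_nt.Col.Defs
import Pool.Agent.Lib.MP_629a14_nt.Rob.SigLow

/-! The sum of the kernel over the residues. -/

set_option autoImplicit false

namespace Pool.Agent.Lib.MP_629a14_nt.Col

open Finset Pool.Agent.Lib.MP_629a14_nt Pool.Agent.Lib.MP_629a14_nt.Rob

private theorem rs_range (p : ℕ) [NeZero p] (F : ZMod p → ℝ) :
    ∑ x ∈ range p, F (x : ZMod p) = ∑ x : ZMod p, F x := by
  refine Finset.sum_nbij' (fun x => (x : ZMod p)) ZMod.val (fun _ _ => mem_univ _)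
    (fun x _ => mem_range.2 (ZMod.val_lt x)) ?_ (fun x _ => ZMod.natCast_zmod_val x) (fun _ _ => rfl)
  intro x hx
  exact ZMod.val_cast_of_lt (mem_range.1 hx)

private theorem rs_card_ne (p : ℕ) [NeZero p] :
    ∑ x : ZMod p, (if x ≠ 0 then (1 : ℝ) else 0) = (p : ℝ) - 1 := by
  classical
  have h : ∀ x : ZMod p, (if x ≠ 0 then (1 : ℝ) else 0) = 1 - if x = 0 then 1 else 0 := by
    intro x
    by_cases h : x = 0 <;> simp [h]
  rw [Finset.sum_congr rfl fun x _ => h x, Finset.sum_sub_distrib, Finset.sum_ite_eq' univ (0 : ZMod p)]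
  simp [ZMod.card]

private theorem rs_locB (p n : ℕ) [NeZero p] (hp : p.Prime) :
    ∑ x : ZMod p, (if x ≠ 0 ∧ (n : ZMod p) - x ≠ 0 then (1 : ℝ) else 0) =
      if p ∣ n then (p : ℝ) - 1 else (p : ℝ) - 2 := by
  classical
  by_cases hn : p ∣ n
  · rw [if_pos hn, ← rs_card_ne p]
    have h0 : (n : ZMod p) = 0 := (ZMod.natCast_eq_zero_iff n p).2 hn
    refine Finset.sum_congr rfl fun x _ => ?_
    rw [h0]
    by_cases h : x = 0 <;> simp [h]
  · rw [if_neg hn]
    have h0 : (n : ZMod p) ≠ 0 := fun h => hn ((ZMod.natCast_eq_zero_iff n p).1 h)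
    have h : ∀ x : ZMod p, (if x ≠ 0 ∧ (n : ZMod p) - x ≠ 0 then (1 : ℝ) else 0) =
        (if x ≠ 0 then (1 : ℝ) else 0) - if x = (n : ZMod p) then 1 else 0 := by
      intro x
      by_cases h : x = 0
      · rw [if_neg (by simp [h]), if_neg (by simp [h]), if_neg (by rw [h]; exact h0.symm)]
        simp
      · by_cases h1 : x = (n : ZMod p)
        · rw [if_neg (by simp [h1]), if_pos h, if_pos h1]
          simp
        · rw [if_pos ⟨h, fun h2 => h1 (sub_eq_zero.1 h2).symm⟩, if_pos h, if_neg h1]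
          simp
    rw [Finset.sum_congr rfl fun x _ => h x, Finset.sum_sub_distrib, rs_card_ne p,
      Finset.sum_ite_eq' univ (n : ZMod p)]
    simp
    ring

private theorem rs_locA (p n : ℕ) [NeZero p] (hp : p.Prime) (h3 : 3 ≤ p) :
    ∑ x : ZMod p, (if x ≠ 0 ∧ (n : ZMod p) - x ≠ 0 then kapp p x ((n : ZMod p) - x) else 0) =
      ((p : ℝ) - 1) ^ 2 / p := by
  classical
  have : Fact p.Prime := ⟨hp⟩
  have hpR : (p : ℝ) ≠ 0 := by exact_mod_cast hp.ne_zero
  have h2 : (2 : ZMod p) ≠ 0 := by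
    intro h
    have h4 : ((2 : ℕ) : ZMod p) = 0 := by exact_mod_cast h
    have := (ZMod.natCast_eq_zero_iff 2 p).1 h4
    exact absurd (Nat.le_of_dvd (by norm_num) this) (by omega)
  by_cases hn : p ∣ n
  · have h0 : (n : ZMod p) = 0 := (ZMod.natCast_eq_zero_iff n p).2 hn
    have h : ∀ x : ZMod p, (if x ≠ 0 ∧ (n : ZMod p) - x ≠ 0 then kapp p x ((n : ZMod p) - x) else 0) =
        (((p : ℝ) - 1) * (1 / p)) * (if x ≠ 0 then (1 : ℝ) else 0) := by
      intro x
      rw [h0, zero_sub]
      by_cases h : x = 0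
      · simp [h]
      · rw [if_pos ⟨h, by simpa using h⟩, if_pos h]
        unfold kapp
        have h4 : x ≠ -x := by
          intro h5
          have h6 : 2 * x = 0 := by
            linear_combination h5
          rcases mul_eq_zero.1 h6 with h7 | h7
          · exact h2 h7
          · exact h h7
        rw [if_neg h4, if_pos (by ring)]
        ring
    rw [Finset.sum_congr rfl fun x _ => h x, ← Finset.mul_sum, rs_card_ne p]
    field_simp
  · have h0 : (n : ZMod p) ≠ 0 := fun h => hn ((ZMod.natCast_eq_zero_iff n p).1 h)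
    have h : ∀ x : ZMod p, (if x ≠ 0 ∧ (n : ZMod p) - x ≠ 0 then kapp p x ((n : ZMod p) - x) else 0) =
        if x = (n : ZMod p) / 2 then ((p : ℝ) - 1) * (1 - 1 / p) else 0 := by
      intro x
      have hsum : x + ((n : ZMod p) - x) ≠ 0 := by
        rw [add_sub_cancel]
        exact h0
      by_cases h : x = (n : ZMod p) / 2
      · have h5 : (n : ZMod p) = 2 * x := by
          rw [h]
          field_simp
        have hx : x ≠ 0 := by
          intro h6
          rw [h6, mul_zero] at h5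
          exact h0 h5
        have h6 : (n : ZMod p) - x = x := by
          rw [h5]
          ring
        rw [if_pos ⟨hx, by rw [h6]; exact hx⟩, if_pos h]
        unfold kapp
        rw [if_neg hsum, if_pos h6.symm]
        ring
      · rw [if_neg h]
        split_ifs with h7
        · unfold kapp
          have h8 : x ≠ (n : ZMod p) - x := by
            intro h9
            apply h
            have h10 : (n : ZMod p) = 2 * x := by linear_combination -h9
            rw [h10]
            field_simp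
          rw [if_neg hsum, if_neg h8]
          ring
        · rfl
    rw [Finset.sum_congr rfl fun x _ => h x, Finset.sum_ite_eq' univ ((n : ZMod p) / 2)]
    simp only [mem_univ, if_true]
    field_simp

open Classical in
/-- the local functions -/
private noncomputable def rs_f (w n p : ℕ) (x : ZMod p) : ℝ :=
  if x ≠ 0 ∧ (n : ZMod p) - x ≠ 0 then (if p ∈ OP w then kapp p x ((n : ZMod p) - x) else 1) else 0

private theorem rs_loc (w n p : ℕ) (hp : p.Prime) (hn : 2 ∣ n) (hw : 2 ≤ w) :
    ((p : ℝ) / ((p : ℝ) - 1) ^ 2) * ∑ x ∈ range p, rs_f w n p (x : ZMod p) =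
      if p = 2 then 2 else if p ≤ w then 1 else
        (if p ∣ n then (p : ℝ) / ((p : ℝ) - 1) else (p : ℝ) * ((p : ℝ) - 2) / ((p : ℝ) - 1) ^ 2) := by
  classical
  have : NeZero p := ⟨hp.ne_zero⟩
  have hpR : (2 : ℝ) ≤ p := by exact_mod_cast hp.two_le
  have hp1 : (p : ℝ) - 1 ≠ 0 := by
    intro h
    linarith
  have hp0 : (p : ℝ) ≠ 0 := by
    intro h
    linarith
  rw [rs_range p (fun x => rs_f w n p x)]
  by_cases h1 : p ∈ OP w
  · have h3 : 3 ≤ p ∧ p ≤ w := by
      unfold OP at h1
      rw [mem_filter, mem_Icc] at h1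
      exact h1.1
    have e : ∑ x : ZMod p, rs_f w n p x = ((p : ℝ) - 1) ^ 2 / p := by
      rw [← rs_locA p n hp h3.1]
      refine Finset.sum_congr rfl fun x _ => ?_
      unfold rs_f
      rw [if_pos h1]
    rw [e, if_neg (by omega), if_pos h3.2]
    field_simp
  · have e : ∑ x : ZMod p, rs_f w n p x = if p ∣ n then (p : ℝ) - 1 else (p : ℝ) - 2 := by
      rw [← rs_locB p n hp]
      refine Finset.sum_congr rfl fun x _ => ?_
      unfold rs_f
      rw [if_neg h1]
    rw [e]
    by_cases h2 : p = 2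
    · rw [if_pos h2, h2, if_pos hn]
      norm_num
    · have h3 : 3 ≤ p := by
        have := hp.two_le
        omega
      have h4 : ¬ p ≤ w := by
        intro h5
        apply h1
        unfold OP
        rw [mem_filter, mem_Icc]
        exact ⟨⟨h3, h5⟩, hp⟩
      rw [if_neg h2, if_neg h4]
      by_cases h5 : p ∣ n
      · rw [if_pos h5, if_pos h5]
        field_simp
      · rw [if_neg h5, if_neg h5]
        field_simp

/-- `crt_prod` for the set of primes up to `v` (`primorial v` is their product) and the local functions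
`[x ≠ 0] [n - x ≠ 0] kapp p x (n - x)` for `3 ≤ p ≤ w`, `[x ≠ 0] [n - x ≠ 0]` for the other `p`. Local
sums: `1` for `p = 2` (`n` even); `(p-1)²/p` for `3 ≤ p ≤ w` (if `p ∤ n`: only `x = n/2`, weight
`(p-1)(1-1/p)`; if `p ∣ n`: `n - x = -x ≠ x`, the `p - 1` nonzero `x` have weight `(p-1)/p` each); for
`w < p ≤ v`: `p - 1` if `p ∣ n`, `p - 2` otherwise. Finally `primorial v / φ² = 2 ∏_{3 ≤ p ≤ v} p/(p-1)²`
(compare `SigLow.ratio_primorial`). -/
theorem res_sum (w v n : ℕ) (hw : 2 ≤ w) (hwv : w ≤ v) (hn : 2 ∣ n) :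
    ((primorial v : ℝ) / ((primorial v).totient : ℝ) ^ 2) *
      ∑ b ∈ (range (primorial v)).filter (fun b => Nat.Coprime b (primorial v) ∧
        IsCoprime ((n : ℤ) - b) (primorial v : ℤ)), KK w (b : ℤ) ((n : ℤ) - b) =
      2 * Pi2 w v n := by
  classical
  set S : Finset ℕ := (range (v + 1)).filter Nat.Prime with hS
  have hSp : ∀ p ∈ S, p.Prime := fun p hp => (mem_filter.1 hp).2
  have hM : primorial v = ∏ p ∈ S, p := rfl
  have hOS : OP w ⊆ S := by
    intro p hp
    unfold OP at hp
    rw [mem_filter, mem_Icc] at hp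
    rw [hS, mem_filter, mem_range]
    exact ⟨by omega, hp.2⟩
  -- the sum over the residues as a full sum
  have hsum : ∑ b ∈ (range (primorial v)).filter (fun b => Nat.Coprime b (primorial v) ∧
        IsCoprime ((n : ℤ) - b) (primorial v : ℤ)), KK w (b : ℤ) ((n : ℤ) - b) =
      ∑ b ∈ range (∏ p ∈ S, p), ∏ p ∈ S, rs_f w n p (b : ZMod p) := by
    rw [Finset.sum_filter]
    rw [← hM]
    refine Finset.sum_congr rfl fun b _ => ?_
    have hiff : (Nat.Coprime b (primorial v) ∧ IsCoprime ((n : ℤ) - b) (primorial v : ℤ)) ↔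
        ∀ p ∈ S, (b : ZMod p) ≠ 0 ∧ (n : ZMod p) - (b : ZMod p) ≠ 0 := by
      rw [hM, Nat.cast_prod, IsCoprime.prod_right_iff, Nat.coprime_prod_right_iff, ← forall₂_and]
      refine forall₂_congr fun p hp => ?_
      have hpp := hSp p hp
      have e1 : Nat.Coprime b p ↔ (b : ZMod p) ≠ 0 := by
        rw [Nat.coprime_comm, hpp.coprime_iff_not_dvd, Ne, ZMod.natCast_eq_zero_iff]
      have e2 : IsCoprime ((n : ℤ) - b) (p : ℤ) ↔ (n : ZMod p) - (b : ZMod p) ≠ 0 := by
        rw [isCoprime_comm, (Nat.prime_iff_prime_int.1 hpp).coprime_iff_not_dvd, Ne,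
          ← ZMod.intCast_zmod_eq_zero_iff_dvd]
        push_cast
        rfl
      rw [e1, e2]
    by_cases hc : ∀ p ∈ S, (b : ZMod p) ≠ 0 ∧ (n : ZMod p) - (b : ZMod p) ≠ 0
    · rw [if_pos (hiff.2 hc)]
      unfold KK
      rw [← Finset.prod_subset hOS (f := fun p => rs_f w n p (b : ZMod p))]
      · refine Finset.prod_congr rfl fun p hp => ?_
        unfold rs_f
        rw [if_pos (hc p (hOS hp)), if_pos hp]
        push_cast
        rfl
      · intro p hp hp2
        unfold rs_f
        rw [if_pos (hc p hp), if_neg hp2]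
    · rw [if_neg (fun h => hc (hiff.1 h))]
      push Not at hc
      obtain ⟨p, hp, hp2⟩ := hc
      symm
      refine Finset.prod_eq_zero hp ?_
      unfold rs_f
      rw [if_neg]
      rintro ⟨h1, h2⟩
      exact h2 (hp2 h1)
  rw [hsum, crt_prod S hSp (fun p x => rs_f w n p x)]
  -- the ratio
  have hratio : (primorial v : ℝ) / ((primorial v).totient : ℝ) ^ 2 =
      ∏ p ∈ S, ((p : ℝ) / ((p : ℝ) - 1) ^ 2) := by
    have h1 := SigLow.ratio_eq (primorial v) (primorial_pos v)
    have h2 : (primorial v).primeFactors = S := by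
      rw [primeFactors_primorial]
      rfl
    rw [h2] at h1
    have hMR : (primorial v : ℝ) = ∏ p ∈ S, (p : ℝ) := by rw [hM, Nat.cast_prod]
    have hM0 : (primorial v : ℝ) ≠ 0 := by exact_mod_cast (primorial_pos v).ne'
    have h3 : (primorial v : ℝ) / ((primorial v).totient : ℝ) ^ 2 =
        ((primorial v : ℝ) / (primorial v).totient) ^ 2 / (primorial v : ℝ) := by
      rw [div_pow]
      field_simp
    rw [h3, h1, hMR, ← Finset.prod_pow, ← Finset.prod_div_distrib]
    refine Finset.prod_congr rfl fun p hp => ?_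
    have hp0 : (p : ℝ) ≠ 0 := by exact_mod_cast (hSp p hp).ne_zero
    rw [div_pow]
    field_simp
  rw [hratio, ← Finset.prod_mul_distrib]
  rw [Finset.prod_congr rfl fun p hp => rs_loc w n p (hSp p hp) hn hw]
  -- split the product
  have hS2 : S = insert 2 (OP w ∪ (Ioc w v).filter Nat.Prime) := by
    ext p
    rw [hS, mem_insert, mem_union, OP, mem_filter, mem_filter, mem_filter, mem_range, mem_Icc, mem_Ioc]
    constructor
    · rintro ⟨h1, h2⟩
      have := h2.two_le
      by_cases h3 : p = 2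
      · exact Or.inl h3
      · right
        by_cases h4 : p ≤ w
        · exact Or.inl ⟨⟨by omega, h4⟩, h2⟩
        · exact Or.inr ⟨⟨by omega, by omega⟩, h2⟩
    · rintro (rfl | ⟨h1, h2⟩ | ⟨h1, h2⟩)
      · exact ⟨by omega, Nat.prime_two⟩
      · exact ⟨by omega, h2⟩
      · exact ⟨by omega, h2⟩
  have hnot : 2 ∉ OP w ∪ (Ioc w v).filter Nat.Prime := by
    rw [mem_union, OP, mem_filter, mem_filter, mem_Icc, mem_Ioc]
    omega
  have hdisj : Disjoint (OP w) ((Ioc w v).filter Nat.Prime) := by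
    rw [Finset.disjoint_left]
    intro p h1 h2
    rw [OP, mem_filter, mem_Icc] at h1
    rw [mem_filter, mem_Ioc] at h2
    omega
  rw [hS2, Finset.prod_insert hnot, Finset.prod_union hdisj, if_pos rfl]
  have h1 : ∏ p ∈ OP w, (if p = 2 then (2 : ℝ) else if p ≤ w then 1 else
        (if p ∣ n then (p : ℝ) / ((p : ℝ) - 1) else (p : ℝ) * ((p : ℝ) - 2) / ((p : ℝ) - 1) ^ 2)) = 1 := by
    refine Finset.prod_eq_one fun p hp => ?_
    rw [OP, mem_filter, mem_Icc] at hp
    rw [if_neg (by omega), if_pos hp.1.2]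
  rw [h1, one_mul]
  congr 1
  unfold Pi2
  refine Finset.prod_congr rfl fun p hp => ?_
  rw [mem_filter, mem_Ioc] at hp
  rw [if_neg (by omega), if_neg (by omega)]

end Pool.Agent.Lib.MP_629a14_nt.Col
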