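import Pool.Agent.Lib.MP_629a14_nt.Col.MixAll

/-! The correlation inequality modulo the primorial. -/

set_option autoImplicit false

namespace Pool.Agent.Lib.MP_629a14_nt.Col

open Finset Pool.Agent.Lib.MP_629a14_nt Pool.Agent.Lib.MP_629a14_nt.Rob

private theorem Spec_UM (m : ℕ) [NeZero m] (F : ZMod m → ℝ) :
    ∑ a ∈ Sm.UM m, F a = ∑ u : (ZMod m)ˣ, F u := by
  classical
  symm
  refine Finset.sum_bij (fun u _ => (u : ZMod m)) ?_ ?_ ?_ ?_
  · intro u _
    unfold Sm.UM
    simp
  · intro u _ u' _ h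
    exact Units.ext h
  · intro a ha
    unfold Sm.UM at ha
    have h : IsUnit a := by simpa using ha
    exact ⟨h.unit, mem_univ _, h.unit_spec⟩
  · intro u _
    rfl

private theorem Spec_filter (v : ℕ) (hv : 2 ≤ v) :
    (primorial v).primeFactors.filter (fun r => 3 ≤ r) = OP v := by
  rw [SigLow.primesLE_eq v hv]
  ext p
  simp only [mem_filter, mem_insert, SigLow.od, OP, mem_Icc]
  constructor
  · rintro ⟨h | h, h3⟩
    · omega
    · exact h
  · intro h
    exact ⟨Or.inr h, h.1.1⟩

/-- `mix_sqf` for `m = primorial v` (squarefree; its odd prime factors are `OP v`; `two_div_sig`), applied to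
`f - μ`, `g - ν` on the units (`Sm.UM`, `ZMod.card_units_eq_totient`); as the rows of the kernel have sum
`φ` and `f - μ`, `g - ν` have sum zero, the bilinear form of `f`, `g` is `μ ν φ²` plus that of `f - μ`,
`g - ν`. -/
theorem spec (v : ℕ) (hv : 2 ≤ v) (f g : ZMod (primorial v) → ℝ) (μ ν : ℝ)
    (hf : ∑ a ∈ Sm.UM (primorial v), f a = μ * (primorial v).totient)
    (hg : ∑ a ∈ Sm.UM (primorial v), g a = ν * (primorial v).totient) :
    |∑ a ∈ Sm.UM (primorial v), ∑ b ∈ Sm.UM (primorial v),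
        (2 / sig v (a.val + b.val)) * (f a * g b) - μ * ν * ((primorial v).totient : ℝ) ^ 2| ≤
      (1 / 3) * (primorial v).totient *
        (Real.sqrt (∑ a ∈ Sm.UM (primorial v), (f a - μ) ^ 2) *
          Real.sqrt (∑ b ∈ Sm.UM (primorial v), (g b - ν) ^ 2)) := by
  classical
  have hsq : Squarefree (primorial v) := squarefree_primorial v
  obtain ⟨-, hsym, hrow, hbil⟩ := mix_sqf (primorial v) hsq
  have hcard : (Fintype.card (ZMod (primorial v))ˣ : ℝ) = (primorial v).totient := by
    rw [ZMod.card_units_eq_totient]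
  set φ : ℝ := ((primorial v).totient : ℝ) with hφ
  set κ := km (primorial v) with hκ
  rw [hcard] at hrow hbil
  have hker : ∀ a b : (ZMod (primorial v))ˣ,
      2 / sig v ((a : ZMod (primorial v)).val + (b : ZMod (primorial v)).val) = κ a b := by
    intro a b
    rw [two_div_sig v _ hv, hκ]
    unfold km
    rw [Spec_filter v hv]
    refine Finset.prod_congr rfl fun r _ => ?_
    rw [Nat.cast_add]
  have hF : ∑ u : (ZMod (primorial v))ˣ, (f u - μ) = 0 := by
    rw [Finset.sum_sub_distrib, ← Spec_UM _ f, hf, Finset.sum_const, Finset.card_univ, nsmul_eq_mul, hcard]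
    ring
  have hG : ∑ u : (ZMod (primorial v))ˣ, (g u - ν) = 0 := by
    rw [Finset.sum_sub_distrib, ← Spec_UM _ g, hg, Finset.sum_const, Finset.card_univ, nsmul_eq_mul, hcard]
    ring
  have hb := hbil (fun u => f u - μ) (fun u => g u - ν) hF hG
  have e1 : ∑ a ∈ Sm.UM (primorial v), ∑ b ∈ Sm.UM (primorial v),
        (2 / sig v (a.val + b.val)) * (f a * g b) =
      ∑ a : (ZMod (primorial v))ˣ, ∑ b : (ZMod (primorial v))ˣ, κ a b * (f a * g b) := by
    rw [Spec_UM]
    refine Finset.sum_congr rfl fun a _ => ?_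
    rw [Spec_UM]
    refine Finset.sum_congr rfl fun b _ => ?_
    rw [hker]
  have e2 : ∑ a : (ZMod (primorial v))ˣ, ∑ b : (ZMod (primorial v))ˣ, κ a b * (f a * g b) =
      ∑ a : (ZMod (primorial v))ˣ, ∑ b : (ZMod (primorial v))ˣ, κ a b * ((f a - μ) * (g b - ν)) + μ * ν * φ ^ 2 := by
    have h1 : ∀ a b : (ZMod (primorial v))ˣ, κ a b * (f a * g b) = κ a b * ((f a - μ) * (g b - ν)) +
        (ν * ((f a - μ) * κ a b) + μ * ((g b - ν) * κ a b) + μ * ν * κ a b) := by
      intro a b
      ring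
    have h2 : ∑ a : (ZMod (primorial v))ˣ, ∑ b : (ZMod (primorial v))ˣ, ν * ((f a - μ) * κ a b) = 0 := by
      have : ∀ a : (ZMod (primorial v))ˣ, ∑ b : (ZMod (primorial v))ˣ, ν * ((f a - μ) * κ a b) = ν * φ * (f a - μ) := by
        intro a
        rw [← Finset.mul_sum, ← Finset.mul_sum, hrow a]
        ring
      rw [Finset.sum_congr rfl fun a _ => this a, ← Finset.mul_sum, hF, mul_zero]
    have h3 : ∑ a : (ZMod (primorial v))ˣ, ∑ b : (ZMod (primorial v))ˣ, μ * ((g b - ν) * κ a b) = 0 := by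
      rw [Finset.sum_comm]
      have : ∀ b : (ZMod (primorial v))ˣ, ∑ a : (ZMod (primorial v))ˣ, μ * ((g b - ν) * κ a b) = μ * φ * (g b - ν) := by
        intro b
        rw [← Finset.mul_sum, ← Finset.mul_sum]
        rw [Finset.sum_congr rfl fun a _ => hsym a b, hrow b]
        ring
      rw [Finset.sum_congr rfl fun a _ => this a, ← Finset.mul_sum, hG, mul_zero]
    have h4 : ∑ a : (ZMod (primorial v))ˣ, ∑ b : (ZMod (primorial v))ˣ, μ * ν * κ a b = μ * ν * φ ^ 2 := by
      have : ∀ a : (ZMod (primorial v))ˣ, ∑ b : (ZMod (primorial v))ˣ, μ * ν * κ a b = μ * ν * φ := by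
        intro a
        rw [← Finset.mul_sum, hrow a]
      rw [Finset.sum_congr rfl fun a _ => this a, Finset.sum_const, Finset.card_univ, nsmul_eq_mul, hcard]
      ring
    simp only [h1, Finset.sum_add_distrib]
    rw [h2, h3, h4]
    ring
  rw [e1, e2, add_sub_cancel_right, Spec_UM _ (fun a => (f a - μ) ^ 2), Spec_UM _ (fun b => (g b - ν) ^ 2)]
  exact hb

end Pool.Agent.Lib.MP_629a14_nt.Col
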