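import Pool.Agent.Lib.MP_629a14_nt.Col.Asym

/-! The classes modulo `3`. -/

set_option autoImplicit false

namespace Pool.Agent.Lib.MP_629a14_nt.Col

open Finset Filter Topology Pool.Agent.Lib.MP_629a14_nt Pool.Agent.Lib.MP_629a14_nt.Rob

/-- The primes `≡ 1` modulo `3`. -/
def A3 : Set ℕ := {p | p % 3 = 1}

private theorem Three_univ :
    Tendsto (fun x : ℕ => (cntB Set.univ x : ℝ) * Real.log x / (x : ℝ)) atTop (𝓝 1) := by
  classical
  have h := pi_ap 1 0 le_rfl (by simp)
  simp only [Nat.totient_one, Nat.cast_one, div_one] at h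
  refine h.congr fun x => ?_
  have : (Icc 1 x).filter (fun n => n.Prime ∧ n ≡ 0 [MOD 1]) =
      (Icc 1 x).filter (fun p => p.Prime ∧ p ∈ Set.univ) := by
    apply Finset.filter_congr
    intro n _
    simp [Nat.modEq_one]
  unfold cntB
  rw [this]
  congr!

/-- `pi_ap 3 1` and `pi_ap 1 0` (compare `sharp_dens` in `Sm/Sharp.lean`). -/
theorem a3_dens : Tendsto (fun x : ℕ => (cntB A3 x : ℝ) / cntB Set.univ x) atTop (𝓝 (1 / 2)) := by
  classical
  have h1 := Three_univ
  have h2 : Tendsto (fun x : ℕ => (cntB A3 x : ℝ) * Real.log x / (x : ℝ)) atTop (𝓝 (1 / 2)) := by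
    have h := pi_ap 3 1 (by norm_num) (by norm_num)
    have h3 : (((3 : ℕ).totient : ℕ) : ℝ) = 2 := by
      rw [Nat.totient_prime Nat.prime_three]
      norm_num
    rw [h3] at h
    refine h.congr fun x => ?_
    have : (Icc 1 x).filter (fun n => n.Prime ∧ n ≡ 1 [MOD 3]) =
        (Icc 1 x).filter (fun p => p.Prime ∧ p ∈ A3) := by
      apply Finset.filter_congr
      intro n _
      have : n ≡ 1 [MOD 3] ↔ n ∈ A3 := by
        show n % 3 = 1 % 3 ↔ n % 3 = 1
        norm_num
      rw [this]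
    unfold cntB
    rw [this]
  have h3 := h2.div h1 one_ne_zero
  rw [div_one] at h3
  refine h3.congr' ?_
  filter_upwards [eventually_ge_atTop 2] with x hx
  have hx0 : (0 : ℝ) < x := by
    have : 0 < x := by omega
    exact_mod_cast this
  have hlog : 0 < Real.log x := Real.log_pos (by exact_mod_cast (by omega : 1 < x))
  have h6 : Real.log x / (x : ℝ) ≠ 0 := by positivity
  simp only [Pi.div_apply]
  rw [mul_div_assoc, mul_div_assoc (cntB Set.univ x : ℝ), mul_div_mul_right _ _ h6]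

/-- The complement. -/
theorem a3c_dens :
    Tendsto (fun x : ℕ => (cntB A3ᶜ x : ℝ) / cntB Set.univ x) atTop (𝓝 (1 / 2)) := by
  classical
  have h1 := a3_dens
  have h2 : Tendsto (fun x : ℕ => 1 - (cntB A3 x : ℝ) / cntB Set.univ x) atTop (𝓝 (1 - 1 / 2)) :=
    h1.const_sub 1
  have h3 : (1 : ℝ) - 1 / 2 = 1 / 2 := by norm_num
  rw [h3] at h2
  refine h2.congr' ?_
  filter_upwards [eventually_ge_atTop 2] with x hx
  have h4 : cntB A3 x + cntB A3ᶜ x = cntB Set.univ x := by
    unfold cntB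
    rw [← Finset.card_union_of_disjoint]
    · congr 1
      ext p
      simp only [Finset.mem_union, Finset.mem_filter, Set.mem_compl_iff, Set.mem_univ, and_true]
      tauto
    · rw [Finset.disjoint_left]
      intro p hp hq
      simp only [Finset.mem_filter] at hp hq
      exact hq.2.2 hp.2.2
  have h5 : 0 < cntB Set.univ x := by
    unfold cntB
    rw [Finset.card_pos]
    exact ⟨2, by simp only [Finset.mem_filter, Finset.mem_Icc]; exact ⟨⟨by norm_num, hx⟩, Nat.prime_two, Set.mem_univ _⟩⟩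
  have h6 : (0 : ℝ) < (cntB Set.univ x : ℝ) := by exact_mod_cast h5
  have h7 : (cntB A3 x : ℝ) + cntB A3ᶜ x = cntB Set.univ x := by exact_mod_cast h4
  field_simp
  linarith

/-- By `asym` (`n sig v n ≥ n` by `one_le_sig`): if `n > δ N` and `repsIn univ univ n ≤ K` then the term of
`n` in `asym` is at least `δ N - K log² N ≥ δ N/2`. -/
theorem few (K : ℕ) (ε : ℝ) (hε : 0 < ε) : ∃ N₀ : ℕ, ∀ N : ℕ, N₀ ≤ N →
    (((Icc 1 N).filter (fun n => 2 ∣ n ∧ Sm.repsIn Set.univ Set.univ n ≤ K)).card : ℝ) ≤ ε * N := by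
  classical
  set δ : ℝ := ε / 2 with hδ
  have hδ0 : 0 < δ := by positivity
  obtain ⟨v₀, hv₀⟩ := asym (δ ^ 2 / 2) (by positivity)
  obtain ⟨N₁, hN₁⟩ := hv₀ (max v₀ 2) (le_max_left _ _)
  have hlog : ∀ᶠ N : ℕ in atTop, (K : ℝ) * Real.log N ^ 2 ≤ δ / 2 * N := by
    have h1 := (Real.isLittleO_pow_log_id_atTop (n := 2)).comp_tendsto tendsto_natCast_atTop_atTop
    have h2 := h1.bound (show (0 : ℝ) < δ / 2 / (K + 1) by positivity)
    filter_upwards [h2] with N hN
    simp only [Function.comp_apply, id_eq, Real.norm_eq_abs] at hN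
    rw [abs_of_nonneg (by positivity : (0 : ℝ) ≤ Real.log N ^ 2), abs_of_nonneg (Nat.cast_nonneg N)] at hN
    have h3 : (0 : ℝ) ≤ Real.log N ^ 2 := by positivity
    calc (K : ℝ) * Real.log N ^ 2 ≤ (K + 1) * Real.log N ^ 2 := by nlinarith
      _ ≤ (K + 1) * (δ / 2 / (K + 1) * N) := by
          apply mul_le_mul_of_nonneg_left hN
          positivity
      _ = δ / 2 * N := by field_simp
  obtain ⟨N₂, hN₂⟩ := eventually_atTop.1 hlog
  refine ⟨max N₁ (max N₂ 1), fun N hN => ?_⟩
  have hN1 : N₁ ≤ N := (le_max_left _ _).trans hN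
  have hN2 : N₂ ≤ N := ((le_max_left _ _).trans (le_max_right _ _)).trans hN
  have hN3 : 1 ≤ N := ((le_max_right _ _).trans (le_max_right _ _)).trans hN
  have hNr : (0 : ℝ) < N := by exact_mod_cast hN3
  have h1 := hN₁ N hN1
  have h2 := hN₂ N hN2
  set S := (Icc 1 N).filter (fun n => 2 ∣ n ∧ Sm.repsIn Set.univ Set.univ n ≤ K) with hS
  have hsplit : S ⊆ Icc 1 ⌊δ * N⌋₊ ∪ S.filter (fun n : ℕ => δ * N < (n : ℝ)) := by
    intro n hn
    rw [Finset.mem_union]
    by_cases h : δ * N < (n : ℝ)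
    · exact Or.inr (Finset.mem_filter.2 ⟨hn, h⟩)
    · left
      rw [Finset.mem_Icc]
      refine ⟨(Finset.mem_Icc.1 (Finset.mem_filter.1 hn).1).1, Nat.le_floor (not_lt.1 h)⟩
  have hc1 : ((Icc 1 ⌊δ * N⌋₊).card : ℝ) ≤ δ * N := by
    rw [Nat.card_Icc, Nat.add_sub_cancel]
    exact Nat.floor_le (by positivity)
  have hc2 : ((S.filter (fun n : ℕ => δ * N < (n : ℝ))).card : ℝ) * (δ * N / 2) ≤ δ ^ 2 / 2 * (N : ℝ) ^ 2 := by
    refine le_trans ?_ h1
    calc ((S.filter (fun n : ℕ => δ * N < (n : ℝ))).card : ℝ) * (δ * N / 2) =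
          ∑ n ∈ S.filter (fun n : ℕ => δ * N < (n : ℝ)), δ * N / 2 := by
            rw [Finset.sum_const, nsmul_eq_mul]
      _ ≤ ∑ n ∈ S.filter (fun n : ℕ => δ * N < (n : ℝ)),
          |Real.log N ^ 2 * (Sm.repsIn Set.univ Set.univ n : ℝ) - n * sig (max v₀ 2) n| := by
            apply Finset.sum_le_sum
            intro n hn
            rw [Finset.mem_filter, hS, Finset.mem_filter] at hn
            obtain ⟨⟨-, -, hr⟩, hnN⟩ := hn
            have h3 := one_le_sig (max v₀ 2) n (le_max_right _ _)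
            have h4 : (Sm.repsIn Set.univ Set.univ n : ℝ) ≤ K := by exact_mod_cast hr
            have h5 : Real.log N ^ 2 * (Sm.repsIn Set.univ Set.univ n : ℝ) ≤ K * Real.log N ^ 2 := by
              rw [mul_comm]
              exact mul_le_mul_of_nonneg_right h4 (by positivity)
            have h6 : (n : ℝ) ≤ n * sig (max v₀ 2) n := by
              have : (0 : ℝ) ≤ n := Nat.cast_nonneg n
              nlinarith
            rw [abs_sub_comm]
            refine le_trans ?_ (le_abs_self _)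
            linarith
      _ ≤ ∑ n ∈ (Icc 1 N).filter (fun n => 2 ∣ n),
          |Real.log N ^ 2 * (Sm.repsIn Set.univ Set.univ n : ℝ) - n * sig (max v₀ 2) n| := by
            apply Finset.sum_le_sum_of_subset_of_nonneg
            · intro n hn
              rw [Finset.mem_filter, hS, Finset.mem_filter] at hn
              exact Finset.mem_filter.2 ⟨hn.1.1, hn.1.2.1⟩
            · intro n _ _
              exact abs_nonneg _
  have hc3 : ((S.filter (fun n : ℕ => δ * N < (n : ℝ))).card : ℝ) ≤ δ * N := by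
    have h3 : (0 : ℝ) < δ * N / 2 := by positivity
    have h4 : δ ^ 2 / 2 * (N : ℝ) ^ 2 = δ * N * (δ * N / 2) := by ring
    rw [h4] at hc2
    exact le_of_mul_le_mul_right hc2 h3
  have h5 : (S.card : ℝ) ≤ ((Icc 1 ⌊δ * N⌋₊).card : ℝ) + ((S.filter (fun n : ℕ => δ * N < (n : ℝ))).card : ℝ) := by
    have := (Finset.card_le_card hsplit).trans (Finset.card_union_le _ _)
    exact_mod_cast this
  have h6 : ε * N = δ * N + δ * N := by rw [hδ]; ring
  have h7 : (S.card : ℝ) ≤ ε * N := by rw [h6]; linarith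
  convert h7 using 2

end Pool.Agent.Lib.MP_629a14_nt.Col
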