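import Pool.Agent.Lib.MP_629a14_nt.Col.Three

/-! The classes modulo `3`. -/

set_option autoImplicit false

namespace Pool.Agent.Lib.MP_629a14_nt.Col

open Finset Filter Topology Pool.Agent.Lib.MP_629a14_nt Pool.Agent.Lib.MP_629a14_nt.Rob

/-- the set counted by `repsIn` -/
private noncomputable def ThreeLim_F (A B : Set ℕ) (n : ℕ) : Finset ℕ := by
  classical exact ((range (n + 1)).filter
    (fun p => p.Prime ∧ (n - p).Prime ∧ p ∈ A ∧ n - p ∈ B))

private theorem ThreeLim_mem {A B : Set ℕ} {n p : ℕ} : p ∈ ThreeLim_F A B n ↔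
    p < n + 1 ∧ p.Prime ∧ (n - p).Prime ∧ p ∈ A ∧ n - p ∈ B := by
  simp only [ThreeLim_F, Finset.mem_filter, Finset.mem_range]

private theorem ThreeLim_card (A B : Set ℕ) (n : ℕ) : Sm.repsIn A B n = (ThreeLim_F A B n).card := rfl

private theorem ThreeLim_le (A B : Set ℕ) (n : ℕ) : Sm.repsIn A B n ≤ Sm.repsIn Set.univ Set.univ n := by
  rw [ThreeLim_card, ThreeLim_card]
  apply Finset.card_le_card
  intro p hp
  rw [ThreeLim_mem] at hp ⊢
  exact ⟨hp.1, hp.2.1, hp.2.2.1, Set.mem_univ _, Set.mem_univ _⟩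

private theorem ThreeLim_three {p : ℕ} (hp : p.Prime) (h : p % 3 = 0) : p = 3 :=
  ((Nat.prime_dvd_prime_iff_eq Nat.prime_three hp).1 (Nat.dvd_of_mod_eq_zero h)).symm

private theorem ThreeLim_same0 (n : ℕ) (h : n % 3 ≠ 2) : Sm.repsIn A3 A3 n = 0 := by
  rw [ThreeLim_card, Finset.card_eq_zero, Finset.eq_empty_iff_forall_notMem]
  intro p hp
  rw [ThreeLim_mem] at hp
  obtain ⟨hp, _, _, h1, h2⟩ := hp
  have h1' : p % 3 = 1 := h1
  have h2' : (n - p) % 3 = 1 := h2
  omega

private theorem ThreeLim_same2 (n : ℕ) (h : n % 3 = 2) :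
    Sm.repsIn Set.univ Set.univ n ≤ Sm.repsIn A3 A3 n + 2 := by
  have h1 : Sm.repsIn Set.univ Set.univ n ≤ (ThreeLim_F A3 A3 n ∪ ({3, n - 3} : Finset ℕ)).card := by
    rw [ThreeLim_card]
    apply Finset.card_le_card
    intro p hp
    rw [ThreeLim_mem] at hp
    obtain ⟨hp0, hp1, hp2, -, -⟩ := hp
    rw [Finset.mem_union, ThreeLim_mem, Finset.mem_insert, Finset.mem_singleton]
    by_cases h3 : p % 3 = 0
    · right; left; exact ThreeLim_three hp1 h3
    · by_cases h4 : (n - p) % 3 = 0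
      · right; right
        have := ThreeLim_three hp2 h4
        omega
      · left
        refine ⟨hp0, hp1, hp2, ?_, ?_⟩
        · show p % 3 = 1
          omega
        · show (n - p) % 3 = 1
          omega
  have h3 := Finset.card_union_le (ThreeLim_F A3 A3 n) ({3, n - 3} : Finset ℕ)
  have h4 : ({3, n - 3} : Finset ℕ).card ≤ 2 := Finset.card_le_two
  rw [ThreeLim_card A3 A3]
  omega

private theorem ThreeLim_diff2 (n : ℕ) (h : n % 3 = 2) : Sm.repsIn A3 A3ᶜ n = 0 := by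
  rw [ThreeLim_card, Finset.card_eq_zero, Finset.eq_empty_iff_forall_notMem]
  intro p hp
  rw [ThreeLim_mem] at hp
  obtain ⟨hp, _, _, h1, h2⟩ := hp
  have h1' : p % 3 = 1 := h1
  have h2' : ¬ (n - p) % 3 = 1 := h2
  omega

private theorem ThreeLim_diff1 (n : ℕ) (h : n % 3 = 1) : Sm.repsIn A3 A3ᶜ n ≤ 1 := by
  rw [ThreeLim_card, Finset.card_le_one]
  intro a ha b hb
  rw [ThreeLim_mem] at ha hb
  obtain ⟨a0, a1, a2, a3, a4⟩ := ha
  obtain ⟨b0, b1, b2, b3, b4⟩ := hb
  have a3' : a % 3 = 1 := a3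
  have b3' : b % 3 = 1 := b3
  have e1 := ThreeLim_three a2 (by omega)
  have e2 := ThreeLim_three b2 (by omega)
  omega

private theorem ThreeLim_diff0 (n : ℕ) (h : n % 3 = 0) (h6 : n ≠ 6) :
    Sm.repsIn Set.univ Set.univ n = 2 * Sm.repsIn A3 A3ᶜ n := by
  have h1 : ThreeLim_F A3 A3ᶜ n = (ThreeLim_F Set.univ Set.univ n).filter (fun p => p % 3 = 1) := by
    ext p
    rw [Finset.mem_filter, ThreeLim_mem, ThreeLim_mem]
    constructor
    · rintro ⟨c0, c1, c2, c3, _⟩
      exact ⟨⟨c0, c1, c2, Set.mem_univ _, Set.mem_univ _⟩, c3⟩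
    · rintro ⟨⟨c0, c1, c2, _, _⟩, c3⟩
      refine ⟨c0, c1, c2, c3, ?_⟩
      show ¬ (n - p) % 3 = 1
      omega
  have h2 : ((ThreeLim_F Set.univ Set.univ n).filter (fun p => ¬ p % 3 = 1)).card =
      ((ThreeLim_F Set.univ Set.univ n).filter (fun p => p % 3 = 1)).card := by
    apply Finset.card_bij (fun p _ => n - p)
    · intro p hp
      rw [Finset.mem_filter, ThreeLim_mem] at hp ⊢
      obtain ⟨⟨p0, p1, p2, _, _⟩, p3⟩ := hp
      have e0 : n - (n - p) = p := by omega
      have e1 : p % 3 ≠ 0 := by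
        intro hc
        have e2 := ThreeLim_three p1 hc
        have e3 := ThreeLim_three p2 (by omega)
        omega
      exact ⟨⟨by omega, p2, by rwa [e0], Set.mem_univ _, Set.mem_univ _⟩, by omega⟩
    · intro a ha b hb hab
      rw [Finset.mem_filter, ThreeLim_mem] at ha hb
      have hab' : n - a = n - b := hab
      omega
    · intro p hp
      rw [Finset.mem_filter, ThreeLim_mem] at hp
      obtain ⟨⟨p0, p1, p2, _, _⟩, p3⟩ := hp
      have e0 : n - (n - p) = p := by omega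
      refine ⟨n - p, ?_, e0⟩
      rw [Finset.mem_filter, ThreeLim_mem]
      exact ⟨⟨by omega, p2, by rwa [e0], Set.mem_univ _, Set.mem_univ _⟩, by omega⟩
  have h3 := Finset.card_filter_add_card_filter_not (s := ThreeLim_F Set.univ Set.univ n) (fun p => p % 3 = 1)
  rw [ThreeLim_card, ThreeLim_card, h1]
  omega

private theorem ThreeLim_cnt (r N : ℕ) (hr : r < 6) :
    N ≤ 6 * ((Icc 1 N).filter (fun n => n % 6 = r)).card + 6 ∧
      6 * ((Icc 1 N).filter (fun n => n % 6 = r)).card ≤ N + 6 := by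
  have h : ((Icc 1 N).filter (fun n => n % 6 = r)).card + (if r = 0 then 1 else 0) =
      N / 6 + (if r ≤ N % 6 then 1 else 0) := by
    induction N with
    | zero =>
      by_cases h0 : r = 0
      · simp [h0]
      · have : ¬ r ≤ 0 := by omega
        simp [h0]
    | succ N ih =>
      rw [← Finset.insert_Icc_right_eq_Icc_add_one (by omega), Finset.filter_insert]
      split_ifs at ih ⊢ <;> first | omega | (rw [Finset.card_insert_of_notMem (by simp)]; omega)
  split_ifs at h <;> omega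

private theorem ThreeLim_sum1 (r N : ℕ) (hr : r % 2 = 0) (c : ℝ) :
    ∑ n ∈ (Icc 1 N).filter (fun n => 2 ∣ n), (if n % 6 = r then c else 0) =
      (((Icc 1 N).filter (fun n => n % 6 = r)).card : ℝ) * c := by
  rw [Finset.sum_ite, Finset.sum_const_zero, add_zero, Finset.sum_const, nsmul_eq_mul, Finset.filter_filter]
  congr 3
  apply Finset.filter_congr
  intro n _
  omega

private theorem ThreeLim_sum2 (K N : ℕ) :
    ∑ n ∈ (Icc 1 N).filter (fun n => 2 ∣ n), (if Sm.repsIn Set.univ Set.univ n ≤ K then (1 : ℝ) else 0) =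
      (((Icc 1 N).filter (fun n => 2 ∣ n ∧ Sm.repsIn Set.univ Set.univ n ≤ K)).card : ℝ) := by
  rw [Finset.sum_ite, Finset.sum_const_zero, add_zero, Finset.sum_const, nsmul_eq_mul, Finset.filter_filter,
    mul_one]

/-- For even `n` not `≡ 2` modulo `3` there is no representation with both primes `≡ 1`. For
`n ≡ 2` modulo `3` a representation `n = p + q` has `p ≡ q ≡ 1`, or `p = 3`, or `q = 3`: so
`repsIn A3 A3 n ≥ repsIn univ univ n - 2` and the proportion is at least `1 - 2/K` unless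
`repsIn univ univ n ≤ K` (`few`). The even `n ≤ N` with `n ≡ 2` modulo `3` are the `n ≡ 2` modulo `6`. -/
theorem lim_same : Tendsto (fun N : ℕ => 2 / (N : ℝ) * SR N A3 A3) atTop (𝓝 (1 / 3)) := by
  rw [Metric.tendsto_atTop]
  intro ε hε
  obtain ⟨K, hK⟩ := exists_nat_ge (max 1 (8 / ε))
  have hK1 : (1 : ℝ) ≤ K := le_trans (le_max_left _ _) hK
  have hK2 : 8 / ε ≤ K := le_trans (le_max_right _ _) hK
  have hK3 : 8 ≤ K * ε := by rwa [div_le_iff₀ hε] at hK2
  obtain ⟨N₀, hN₀⟩ := few K (ε / 8) (by positivity)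
  obtain ⟨N₁, hN₁⟩ := exists_nat_ge (max 1 (16 / ε))
  refine ⟨max N₀ N₁, fun N hN => ?_⟩
  have hNa : N₀ ≤ N := le_trans (le_max_left _ _) hN
  have hNb : (N₁ : ℝ) ≤ N := by exact_mod_cast le_trans (le_max_right _ _) hN
  have hN1 : (1 : ℝ) ≤ N := le_trans (le_trans (le_max_left _ _) hN₁) hNb
  have hN2 : 16 ≤ N * ε := by
    rw [← div_le_iff₀ hε]
    exact le_trans (le_trans (le_max_right _ _) hN₁) hNb
  have hF := hN₀ N hNa
  obtain ⟨c1, c2⟩ := ThreeLim_cnt 2 N (by norm_num)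
  have c1' : (N : ℝ) ≤ 6 * (((Icc 1 N).filter (fun n => n % 6 = 2)).card : ℝ) + 6 := by exact_mod_cast c1
  have c2' : 6 * (((Icc 1 N).filter (fun n => n % 6 = 2)).card : ℝ) ≤ N + 6 := by exact_mod_cast c2
  have hup : SR N A3 A3 ≤ (((Icc 1 N).filter (fun n => n % 6 = 2)).card : ℝ) := by
    have h1 : SR N A3 A3 ≤ ∑ n ∈ (Icc 1 N).filter (fun n => 2 ∣ n), (if n % 6 = 2 then (1 : ℝ) else 0) := by
      apply Finset.sum_le_sum
      intro n hn
      rw [Finset.mem_filter] at hn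
      by_cases h2 : n % 3 = 2
      · rw [if_pos (by omega)]
        apply div_le_one_of_le₀ _ (Nat.cast_nonneg _)
        exact_mod_cast ThreeLim_le A3 A3 n
      · rw [ThreeLim_same0 n h2]
        simp only [Nat.cast_zero, zero_div]
        split_ifs <;> norm_num
    rw [ThreeLim_sum1 2 N rfl, mul_one] at h1
    exact h1
  have hlo : (((Icc 1 N).filter (fun n => n % 6 = 2)).card : ℝ) * (1 - 2 / K) -
      (((Icc 1 N).filter (fun n => 2 ∣ n ∧ Sm.repsIn Set.univ Set.univ n ≤ K)).card : ℝ) ≤ SR N A3 A3 := by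
    rw [← ThreeLim_sum1 2 N rfl, ← ThreeLim_sum2, ← Finset.sum_sub_distrib]
    apply Finset.sum_le_sum
    intro n hn
    rw [Finset.mem_filter] at hn
    have h0 : (0 : ℝ) ≤ (Sm.repsIn A3 A3 n : ℝ) / (Sm.repsIn Set.univ Set.univ n : ℝ) := by positivity
    have hKp : (0 : ℝ) ≤ 2 / K := by positivity
    by_cases h2 : n % 3 = 2
    · rw [if_pos (by omega)]
      by_cases h3 : Sm.repsIn Set.univ Set.univ n ≤ K
      · rw [if_pos h3]
        linarith
      · rw [if_neg h3, sub_zero]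
        push Not at h3
        have h4 : (K : ℝ) < Sm.repsIn Set.univ Set.univ n := by exact_mod_cast h3
        have h5 : (Sm.repsIn Set.univ Set.univ n : ℝ) ≤ Sm.repsIn A3 A3 n + 2 := by
          exact_mod_cast ThreeLim_same2 n h2
        have h6 : (0 : ℝ) < Sm.repsIn Set.univ Set.univ n := by linarith
        have h7 : 2 ≤ 2 / (K : ℝ) * Sm.repsIn Set.univ Set.univ n := by
          rw [div_mul_eq_mul_div, le_div_iff₀ (by linarith)]
          nlinarith
        rw [le_div_iff₀ h6]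
        nlinarith
    · rw [if_neg (by omega)]
      split_ifs <;> linarith
  have hNp : (0 : ℝ) < N := by linarith
  have hKp : (0 : ℝ) < K := by linarith
  rw [Real.dist_eq, abs_lt]
  have e1 : 2 / (N : ℝ) * SR N A3 A3 - 1 / 3 = (6 * SR N A3 A3 - N) / (3 * N) := by
    field_simp
    ring
  have e2 : (((Icc 1 N).filter (fun n => n % 6 = 2)).card : ℝ) * (1 - 2 / K) =
      (((Icc 1 N).filter (fun n => n % 6 = 2)).card : ℝ) -
        2 * (((Icc 1 N).filter (fun n => n % 6 = 2)).card : ℝ) / K := by ring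
  have e3 : 2 * (((Icc 1 N).filter (fun n => n % 6 = 2)).card : ℝ) / K ≤ (N / 3 + 2) * (ε / 8) := by
    rw [div_le_iff₀ hKp]
    have : (N / 3 + 2) * (ε / 8) * K = (N / 3 + 2) * (K * ε) / 8 := by ring
    rw [this]
    nlinarith
  rw [e2] at hlo
  rw [e1]
  constructor
  · rw [lt_div_iff₀ (by positivity)]
    nlinarith
  · rw [div_lt_iff₀ (by positivity)]
    nlinarith

/-- For even `n ≡ 0` modulo `3`, `n ≠ 6`, a representation has `{p, q} ≡ {1, 2}` (neither is `3`), and
`p ↦ n - p` exchanges the two kinds, so the proportion is `1/2` (if there is a representation; `few`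
with `K = 0`). For `n ≡ 1`: `p ≡ 1` and `q ∉ A3` force `q = 3`: at most one, so the proportion is at most
`1/K` unless `repsIn univ univ n ≤ K`. For `n ≡ 2`: `p ≡ 1` forces `q ≡ 1`: none. -/
theorem lim_diff : Tendsto (fun N : ℕ => 2 / (N : ℝ) * SR N A3 A3ᶜ) atTop (𝓝 (1 / 6)) := by
  rw [Metric.tendsto_atTop]
  intro ε hε
  obtain ⟨K, hK⟩ := exists_nat_ge (max 1 (8 / ε))
  have hK1 : (1 : ℝ) ≤ K := le_trans (le_max_left _ _) hK
  have hK2 : 8 / ε ≤ K := le_trans (le_max_right _ _) hK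
  have hK3 : 8 ≤ K * ε := by rwa [div_le_iff₀ hε] at hK2
  obtain ⟨N₀, hN₀⟩ := few K (ε / 8) (by positivity)
  obtain ⟨N₁, hN₁⟩ := exists_nat_ge (max 1 (16 / ε))
  refine ⟨max N₀ N₁, fun N hN => ?_⟩
  have hNa : N₀ ≤ N := le_trans (le_max_left _ _) hN
  have hNb : (N₁ : ℝ) ≤ N := by exact_mod_cast le_trans (le_max_right _ _) hN
  have hN1 : (1 : ℝ) ≤ N := le_trans (le_trans (le_max_left _ _) hN₁) hNb
  have hN2 : 16 ≤ N * ε := by
    rw [← div_le_iff₀ hε]
    exact le_trans (le_trans (le_max_right _ _) hN₁) hNb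
  have hF := hN₀ N hNa
  obtain ⟨c1, c2⟩ := ThreeLim_cnt 0 N (by norm_num)
  have c1' : (N : ℝ) ≤ 6 * (((Icc 1 N).filter (fun n => n % 6 = 0)).card : ℝ) + 6 := by exact_mod_cast c1
  have c2' : 6 * (((Icc 1 N).filter (fun n => n % 6 = 0)).card : ℝ) ≤ N + 6 := by exact_mod_cast c2
  have h6s : ∑ n ∈ (Icc 1 N).filter (fun n => 2 ∣ n), (if n = 6 then (1 : ℝ) else 0) ≤ 1 := by
    rw [Finset.sum_ite_eq']
    split_ifs <;> norm_num
  have hcd : (((Icc 1 N).filter (fun n => 2 ∣ n)).card : ℝ) ≤ N := by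
    have := Finset.card_filter_le (Icc 1 N) (fun n => 2 ∣ n)
    rw [Nat.card_Icc] at this
    have h : ((Icc 1 N).filter (fun n => 2 ∣ n)).card ≤ N := by omega
    exact_mod_cast h
  have hKp : (0 : ℝ) < K := by linarith
  have hval : ∀ n : ℕ, 2 ∣ n →
      (Sm.repsIn A3 A3ᶜ n : ℝ) / (Sm.repsIn Set.univ Set.univ n : ℝ) ≤
        ((if n % 6 = 0 then (1 / 2 : ℝ) else 0) + (if Sm.repsIn Set.univ Set.univ n ≤ K then (1 : ℝ) else 0)) +
          (1 / K + (if n = 6 then (1 : ℝ) else 0)) ∧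
      ((if n % 6 = 0 then (1 / 2 : ℝ) else 0) - (if Sm.repsIn Set.univ Set.univ n ≤ K then (1 : ℝ) else 0)) -
          (if n = 6 then (1 : ℝ) else 0) ≤
        (Sm.repsIn A3 A3ᶜ n : ℝ) / (Sm.repsIn Set.univ Set.univ n : ℝ) := by
    intro n hn
    have h0 : (0 : ℝ) ≤ (Sm.repsIn A3 A3ᶜ n : ℝ) / (Sm.repsIn Set.univ Set.univ n : ℝ) := by positivity
    have h1 : (Sm.repsIn A3 A3ᶜ n : ℝ) / (Sm.repsIn Set.univ Set.univ n : ℝ) ≤ 1 := by
      apply div_le_one_of_le₀ _ (Nat.cast_nonneg _)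
      exact_mod_cast ThreeLim_le A3 A3ᶜ n
    have hKq : (0 : ℝ) ≤ 1 / K := by positivity
    by_cases h6 : n = 6
    · rw [if_pos h6]
      split_ifs <;> constructor <;> linarith
    · rw [if_neg h6]
      by_cases h3 : n % 3 = 0
      · rw [if_pos (by omega)]
        have h4 := ThreeLim_diff0 n h3 h6
        by_cases h5 : Sm.repsIn A3 A3ᶜ n = 0
        · rw [if_pos (by omega)]
          constructor <;> linarith
        · have h7 : (Sm.repsIn A3 A3ᶜ n : ℝ) / (Sm.repsIn Set.univ Set.univ n : ℝ) = 1 / 2 := by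
            rw [h4]
            push_cast
            have : (Sm.repsIn A3 A3ᶜ n : ℝ) ≠ 0 := by exact_mod_cast h5
            field_simp
          rw [h7]
          split_ifs <;> constructor <;> linarith
      · rw [if_neg (by omega)]
        by_cases h4 : n % 3 = 1
        · have h5 : (Sm.repsIn A3 A3ᶜ n : ℝ) ≤ 1 := by exact_mod_cast ThreeLim_diff1 n h4
          by_cases h7 : Sm.repsIn Set.univ Set.univ n ≤ K
          · rw [if_pos h7]
            constructor <;> linarith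
          · rw [if_neg h7]
            push Not at h7
            have h8 : (K : ℝ) < Sm.repsIn Set.univ Set.univ n := by exact_mod_cast h7
            have h9 : (Sm.repsIn A3 A3ᶜ n : ℝ) / (Sm.repsIn Set.univ Set.univ n : ℝ) ≤ 1 / K :=
              div_le_div₀ (by norm_num) h5 hKp h8.le
            constructor <;> linarith
        · rw [ThreeLim_diff2 n (by omega)]
          simp only [Nat.cast_zero, zero_div]
          split_ifs <;> constructor <;> linarith
  have hup : SR N A3 A3ᶜ ≤ (((Icc 1 N).filter (fun n => n % 6 = 0)).card : ℝ) * (1 / 2) +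
      (((Icc 1 N).filter (fun n => 2 ∣ n ∧ Sm.repsIn Set.univ Set.univ n ≤ K)).card : ℝ) + (N / K + 1) := by
    have h1 : SR N A3 A3ᶜ ≤ ∑ n ∈ (Icc 1 N).filter (fun n => 2 ∣ n),
        (((if n % 6 = 0 then (1 / 2 : ℝ) else 0) + (if Sm.repsIn Set.univ Set.univ n ≤ K then (1 : ℝ) else 0)) +
          (1 / K + (if n = 6 then (1 : ℝ) else 0))) := by
      apply Finset.sum_le_sum
      intro n hn
      rw [Finset.mem_filter] at hn
      exact (hval n hn.2).1
    rw [Finset.sum_add_distrib, Finset.sum_add_distrib, Finset.sum_add_distrib, ThreeLim_sum1 0 N rfl,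
      ThreeLim_sum2, Finset.sum_const, nsmul_eq_mul] at h1
    have h2 : (((Icc 1 N).filter (fun n => 2 ∣ n)).card : ℝ) * (1 / K) ≤ N / K := by
      rw [mul_one_div]
      exact div_le_div_of_nonneg_right hcd hKp.le
    linarith
  have hlo : (((Icc 1 N).filter (fun n => n % 6 = 0)).card : ℝ) * (1 / 2) -
      (((Icc 1 N).filter (fun n => 2 ∣ n ∧ Sm.repsIn Set.univ Set.univ n ≤ K)).card : ℝ) - 1 ≤ SR N A3 A3ᶜ := by
    have h1 : ∑ n ∈ (Icc 1 N).filter (fun n => 2 ∣ n),
        (((if n % 6 = 0 then (1 / 2 : ℝ) else 0) - (if Sm.repsIn Set.univ Set.univ n ≤ K then (1 : ℝ) else 0)) -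
          (if n = 6 then (1 : ℝ) else 0)) ≤ SR N A3 A3ᶜ := by
      apply Finset.sum_le_sum
      intro n hn
      rw [Finset.mem_filter] at hn
      exact (hval n hn.2).2
    rw [Finset.sum_sub_distrib, Finset.sum_sub_distrib, ThreeLim_sum1 0 N rfl, ThreeLim_sum2] at h1
    linarith
  have hNp : (0 : ℝ) < N := by linarith
  rw [Real.dist_eq, abs_lt]
  have e1 : 2 / (N : ℝ) * SR N A3 A3ᶜ - 1 / 6 = (12 * SR N A3 A3ᶜ - N) / (6 * N) := by
    field_simp
    ring
  have e3 : N / K ≤ N * (ε / 8) := by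
    rw [div_le_iff₀ hKp]
    nlinarith
  rw [e1]
  constructor
  · rw [lt_div_iff₀ (by positivity)]
    nlinarith
  · rw [div_lt_iff₀ (by positivity)]
    nlinarith

end Pool.Agent.Lib.MP_629a14_nt.Col
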