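import Pool.Agent.Lib.MP_629a14_nt.Col.Fin
import Pool.Agent.Lib.MP_629a14_nt.Col.Crtp
import Pool.Agent.Lib.MP_629a14_nt.Rob.PiAP

/-! Colourings with few monochromatic sums. -/

set_option autoImplicit false

namespace Pool.Agent.Lib.MP_629a14_nt.Col

open Finset Filter Topology Pool.Agent.Lib.MP_629a14_nt Pool.Agent.Lib.MP_629a14_nt.Rob

open Classical in
private noncomputable def Up_f (p : ℕ) (t : ZMod p) : ℝ := if 4 * t + 2 = 0 then 0 else 1

open Classical in
private lemma Up_local (p : ℕ) (hp : p.Prime) (h3 : 3 ≤ p) :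
    ∑ x ∈ range p, Up_f p (x : ZMod p) = (p : ℝ) - 1 := by
  haveI : Fact p.Prime := ⟨hp⟩
  have h4 : (4 : ZMod p) ≠ 0 := by
    intro h
    have : ((4 : ℕ) : ZMod p) = 0 := by exact_mod_cast h
    rw [ZMod.natCast_eq_zero_iff] at this
    have h5 : p ∣ 2 ^ 2 := by simpa using this
    have h6 := Nat.le_of_dvd (by norm_num) (hp.dvd_of_dvd_pow h5)
    omega
  have hsum : ∑ x ∈ range p, Up_f p (x : ZMod p) = ∑ t : ZMod p, Up_f p t := by
    refine Finset.sum_nbij' (fun x => (x : ZMod p)) (fun t => t.val) ?_ ?_ ?_ ?_ ?_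
    · intro x _; exact mem_univ _
    · intro t _; exact mem_range.2 (ZMod.val_lt t)
    · intro x hx; exact ZMod.val_cast_of_lt (mem_range.1 hx)
    · intro t _; exact ZMod.natCast_zmod_val t
    · intro x _; rfl
  rw [hsum]
  unfold Up_f
  have hz : ∀ t : ZMod p, 4 * t + 2 = 0 ↔ t = -2 / 4 := by
    intro t
    rw [eq_div_iff h4]
    constructor
    · intro h; linear_combination h
    · intro h; linear_combination h
  have h1 : ∀ t : ZMod p, (if 4 * t + 2 = 0 then (0 : ℝ) else 1) = 1 - (if t = -2 / 4 then 1 else 0) := by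
    intro t
    by_cases h : t = -2 / 4
    · rw [if_pos ((hz t).2 h), if_pos h]; norm_num
    · rw [if_neg (fun h' => h ((hz t).1 h')), if_neg h]; norm_num
  rw [Finset.sum_congr rfl fun t _ => h1 t, Finset.sum_sub_distrib, Finset.sum_ite_eq' univ]
  simp [ZMod.card]

private lemma Up_per (P : ℕ) (g : ℕ → ℝ) (hg : ∀ n, g (n + P) = g n) (k : ℕ) :
    ∑ x ∈ range (k * P), g x = k * ∑ x ∈ range P, g x := by
  have hk : ∀ k x, g (k * P + x) = g x := by
    intro k
    induction k with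
    | zero => intro x; simp
    | succ k ih =>
      intro x
      rw [show (k + 1) * P + x = (k * P + x) + P by ring, hg, ih]
  induction k with
  | zero => simp
  | succ k ih =>
    rw [show (k + 1) * P = k * P + P by ring, Finset.sum_range_add, ih,
      Finset.sum_congr rfl fun x _ => hk k x]
    push_cast
    ring

/-- A period `4 M`, `M = ∏ p ∈ S, p`, contains `∏ p ∈ S, (p - 1)` such `n` (`crt_prod` for `insert 2 S` after
`n = 2 k`, `k` odd: `k ≤ N / 2`, `k` odd, `p ∤ k`; period `2 M`, or any other argument). -/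
theorem up_count (S : Finset ℕ) (hS : ∀ p ∈ S, p.Prime ∧ 3 ≤ p) : ∃ C : ℝ, ∀ N : ℕ,
    (((Icc 1 N).filter (fun n => n % 4 = 2 ∧ ∀ p ∈ S, ¬ p ∣ n)).card : ℝ) ≤
      (1 / 4) * (∏ p ∈ S, (1 - 1 / (p : ℝ))) * N + C := by
  classical
  set P := ∏ p ∈ S, p with hP
  set g : ℕ → ℝ := fun n => ∏ p ∈ S, Up_f p (n : ZMod p) with hgdef
  have hPpos : 0 < P := Finset.prod_pos fun p hp => (hS p hp).1.pos
  have hgP : ∀ n, g (n + P) = g n := by
    intro n
    refine Finset.prod_congr rfl fun p hp => ?_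
    congr 1
    have : ((P : ℕ) : ZMod p) = 0 := by
      rw [ZMod.natCast_eq_zero_iff]
      exact Finset.dvd_prod_of_mem (fun p => p) hp
    rw [Nat.cast_add, this, add_zero]
  have hg0 : ∀ n, 0 ≤ g n := fun n => Finset.prod_nonneg fun p _ => by
    unfold Up_f; split_ifs <;> norm_num
  have hg1 : ∀ n, (∀ p ∈ S, ¬ p ∣ 4 * n + 2) → g n = 1 := by
    intro n hn
    refine Finset.prod_eq_one fun p hp => ?_
    unfold Up_f
    rw [if_neg]
    intro h
    apply hn p hp
    rw [← ZMod.natCast_eq_zero_iff]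
    push_cast
    exact h
  have hgs : ∑ x ∈ range P, g x = ∏ p ∈ S, ((p : ℝ) - 1) := by
    rw [hP, hgdef, crt_prod S (fun p hp => (hS p hp).1) Up_f]
    exact Finset.prod_congr rfl fun p hp => Up_local p (hS p hp).1 (hS p hp).2
  have hprod : ∏ p ∈ S, (1 - 1 / (p : ℝ)) = (∏ p ∈ S, ((p : ℝ) - 1)) / P := by
    rw [hP, Nat.cast_prod, ← Finset.prod_div_distrib]
    refine Finset.prod_congr rfl fun p hp => ?_
    have : (p : ℝ) ≠ 0 := by exact_mod_cast (hS p hp).1.ne_zero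
    field_simp
  set Q : ℝ := ∏ p ∈ S, ((p : ℝ) - 1) with hQ
  have hQ0 : 0 ≤ Q := Finset.prod_nonneg fun p hp => by
    have : (3 : ℝ) ≤ p := by exact_mod_cast (hS p hp).2
    linarith
  refine ⟨Q + Q, fun N => ?_⟩
  have hPr : (1 : ℝ) ≤ P := by exact_mod_cast hPpos
  set J := (N + 2) / 4 with hJ
  have h1 : (((Icc 1 N).filter (fun n => n % 4 = 2 ∧ ∀ p ∈ S, ¬ p ∣ n)).card : ℝ) ≤
      ∑ x ∈ range J, g x := by
    have hinj : ((Icc 1 N).filter (fun n => n % 4 = 2 ∧ ∀ p ∈ S, ¬ p ∣ n)).card ≤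
        ((range J).filter (fun x => ∀ p ∈ S, ¬ p ∣ 4 * x + 2)).card := by
      refine Finset.card_le_card_of_injOn (fun n => n / 4) ?_ ?_
      · intro n hn
        rw [mem_coe, mem_filter, mem_Icc] at hn
        obtain ⟨⟨h1, h2⟩, h3, h4⟩ := hn
        rw [mem_coe, mem_filter, mem_range]
        have e1 : n / 4 < J := by omega
        refine ⟨e1, ?_⟩
        have : 4 * (n / 4) + 2 = n := by omega
        show ∀ p ∈ S, ¬ p ∣ 4 * (n / 4) + 2
        rw [this]
        exact h4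
      · intro n hn m hm h
        rw [mem_coe, mem_filter, mem_Icc] at hn hm
        have h' : n / 4 = m / 4 := h
        obtain ⟨-, hn3, -⟩ := hn
        obtain ⟨-, hm3, -⟩ := hm
        omega
    calc (((Icc 1 N).filter (fun n => n % 4 = 2 ∧ ∀ p ∈ S, ¬ p ∣ n)).card : ℝ)
        ≤ (((range J).filter (fun x => ∀ p ∈ S, ¬ p ∣ 4 * x + 2)).card : ℝ) := by exact_mod_cast hinj
      _ = ∑ x ∈ (range J).filter (fun x => ∀ p ∈ S, ¬ p ∣ 4 * x + 2), (1 : ℝ) := by simp
      _ = ∑ x ∈ (range J).filter (fun x => ∀ p ∈ S, ¬ p ∣ 4 * x + 2), g x :=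
          Finset.sum_congr rfl fun x hx => (hg1 x (mem_filter.1 hx).2).symm
      _ ≤ ∑ x ∈ range J, g x :=
          Finset.sum_le_sum_of_subset_of_nonneg (filter_subset _ _) fun x _ _ => hg0 x
  have h2 : ∑ x ∈ range J, g x ≤ ((J / P + 1 : ℕ) : ℝ) * Q := by
    rw [← hgs, ← Up_per P g hgP]
    refine Finset.sum_le_sum_of_subset_of_nonneg ?_ fun x _ _ => hg0 x
    refine Finset.range_subset_range.2 ?_
    have := Nat.lt_div_mul_add (a := J) hPpos
    nlinarith [this]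
  have h3 : ((J / P + 1 : ℕ) : ℝ) ≤ ((N : ℝ) + 2) / 4 / P + 1 := by
    have e1 : ((J / P : ℕ) : ℝ) ≤ (J : ℝ) / P := Nat.cast_div_le
    have e2 : (J : ℝ) ≤ ((N : ℝ) + 2) / 4 := by
      have := @Nat.cast_div_le ℝ _ _ _ (N + 2) 4
      push_cast at this
      exact this
    have e3 : (J : ℝ) / P ≤ ((N : ℝ) + 2) / 4 / P := by gcongr
    push_cast
    linarith
  have h4 : ((J / P + 1 : ℕ) : ℝ) * Q ≤ (((N : ℝ) + 2) / 4 / P + 1) * Q :=
    mul_le_mul_of_nonneg_right h3 hQ0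
  have h5 : (((N : ℝ) + 2) / 4 / P + 1) * Q = (1 / 4) * (Q / P) * N + (1 / 2) * (Q / P) + Q := by
    field_simp
    ring
  have h6 : Q / P ≤ Q := div_le_self hQ0 hPr
  rw [hprod]
  linarith [h1, h2, h4, h5, h6, hQ0]

/-- A colouring with `2 ^ (|S| + 1)` colours recording whether `a ≡ 1` modulo `4` and, for `p ∈ S`, whether
`2 (a % p) < p` (`Fintype.card` of `Option S → Bool`, or by induction on `S`). -/
theorem up_col (S : Finset ℕ) : ∃ χ : ℕ → Fin (2 ^ (S.card + 1)), ∀ a b : ℕ, χ a = χ b →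
    ((a % 4 = 1 ↔ b % 4 = 1) ∧ ∀ p ∈ S, (2 * (a % p) < p ↔ 2 * (b % p) < p)) := by
  classical
  have hcard : Fintype.card (Option S → Bool) = 2 ^ (S.card + 1) := by
    rw [Fintype.card_fun, Fintype.card_option, Fintype.card_bool, Fintype.card_coe]
  set F : ℕ → Option S → Bool := fun a o => match o with
    | none => decide (a % 4 = 1)
    | some p => decide (2 * (a % (p : ℕ)) < (p : ℕ)) with hF
  refine ⟨fun a => Fintype.equivFinOfCardEq hcard (F a), fun a b hab => ?_⟩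
  have h := (Fintype.equivFinOfCardEq hcard).injective hab
  constructor
  · have h1 : F a none = F b none := by rw [h]
    have h2 : decide (a % 4 = 1) = decide (b % 4 = 1) := h1
    exact decide_eq_decide.1 h2
  · intro p hp
    have h1 : F a (some ⟨p, hp⟩) = F b (some ⟨p, hp⟩) := by rw [h]
    have h2 : decide (2 * (a % p) < p) = decide (2 * (b % p) < p) := h1
    exact decide_eq_decide.1 h2

private lemma Up_repsIn_pos (A B : Set ℕ) (n : ℕ) (h : 0 < Sm.repsIn A B n) :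
    ∃ p, p ≤ n ∧ p.Prime ∧ (n - p).Prime ∧ p ∈ A ∧ n - p ∈ B := by
  classical
  unfold Sm.repsIn at h
  rw [Finset.card_pos] at h
  obtain ⟨p, hp⟩ := h
  rw [Finset.mem_filter, Finset.mem_range] at hp
  exact ⟨p, by omega, hp.2⟩

private lemma Up_halves (p a b : ℕ) (hp : p.Prime) (h3 : 3 ≤ p) (ha : ¬ p ∣ a) (hb : ¬ p ∣ b)
    (h : 2 * (a % p) < p ↔ 2 * (b % p) < p) : ¬ p ∣ a + b := by
  intro hd
  have ha' : a % p ≠ 0 := fun h => ha (Nat.dvd_of_mod_eq_zero h)
  have hb' : b % p ≠ 0 := fun h => hb (Nat.dvd_of_mod_eq_zero h)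
  have hal := Nat.mod_lt a hp.pos
  have hbl := Nat.mod_lt b hp.pos
  have hodd : p % 2 = 1 := by
    rcases hp.eq_two_or_odd with h5 | h5
    · omega
    · exact h5
  have hs : (a % p + b % p) % p = 0 := by
    rw [← Nat.add_mod]
    exact Nat.mod_eq_zero_of_dvd hd
  have hs2 : p ∣ a % p + b % p := Nat.dvd_of_mod_eq_zero hs
  obtain ⟨k, hk⟩ := hs2
  have hk1 : k = 1 := by
    have hk0 : k ≠ 0 := by
      rintro rfl
      omega
    have hk2 : k < 2 := by
      by_contra hcon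
      have : p * 2 ≤ p * k := Nat.mul_le_mul_left p (by omega)
      omega
    omega
  rw [hk1, mul_one] at hk
  by_cases hc : 2 * (a % p) < p
  · have := h.1 hc
    omega
  · have : ¬ 2 * (b % p) < p := fun h' => hc (h.2 h')
    omega

open Classical in
private lemma Up_sub (S : Finset ℕ) (hS : ∀ p ∈ S, p.Prime ∧ 3 ≤ p) (χ : ℕ → Fin (2 ^ (S.card + 1)))
    (hχ : ∀ a b : ℕ, χ a = χ b →
      ((a % 4 = 1 ↔ b % 4 = 1) ∧ ∀ p ∈ S, (2 * (a % p) < p ↔ 2 * (b % p) < p))) (N : ℕ) :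
    (Icc 1 N).filter (fun n => Even n ∧ ∃ i, 0 < Sm.repsIn (χ ⁻¹' {i}) (χ ⁻¹' {i}) n) ⊆
      ({4} ∪ (Icc 1 N).filter (fun n => n % 4 = 2 ∧ ∀ p ∈ S, ¬ p ∣ n)) ∪
        (S ×ˢ (Icc 1 N).filter (fun n => n.Prime ∧ n ≡ 0 [MOD 1])).image (fun v => v.1 + v.2) := by
  intro n hn
  rw [mem_filter, mem_Icc] at hn
  obtain ⟨⟨hn1, hn2⟩, hev, i, hi⟩ := hn
  obtain ⟨a, ha, hap, hbp, hai, hbi⟩ := Up_repsIn_pos _ _ _ hi
  have hai' : χ a = i := hai
  have hbi' : χ (n - a) = i := hbi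
  obtain ⟨h4, hp⟩ := hχ a (n - a) (hai'.trans hbi'.symm)
  have hev2 : n % 2 = 0 := Nat.even_iff.mp hev
  rw [mem_union, mem_union, mem_singleton, mem_filter, mem_Icc, mem_image]
  by_cases haS : a ∈ S
  · right
    refine ⟨(a, n - a), ?_, by show a + (n - a) = n; omega⟩
    rw [mem_product, mem_filter, mem_Icc]
    exact ⟨haS, ⟨by have := hbp.pos; omega, by omega⟩, hbp, Nat.modEq_one⟩
  by_cases hbS : n - a ∈ S
  · right
    refine ⟨(n - a, a), ?_, by show (n - a) + a = n; omega⟩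
    rw [mem_product, mem_filter, mem_Icc]
    exact ⟨hbS, ⟨hap.pos, by omega⟩, hap, Nat.modEq_one⟩
  left
  by_cases h44 : n = 4
  · left; exact h44
  right
  refine ⟨⟨hn1, hn2⟩, ?_, ?_⟩
  · rcases hap.eq_two_or_odd with h5 | h5
    · rcases hbp.eq_two_or_odd with h6 | h6
      · omega
      · omega
    · rcases hbp.eq_two_or_odd with h6 | h6
      · omega
      · omega
  · intro p hpS
    have h1 : ¬ p ∣ a := by
      intro hd
      have := (Nat.prime_dvd_prime_iff_eq (hS p hpS).1 hap).1 hd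
      exact haS (this ▸ hpS)
    have h2 : ¬ p ∣ n - a := by
      intro hd
      have := (Nat.prime_dvd_prime_iff_eq (hS p hpS).1 hbp).1 hd
      exact hbS (this ▸ hpS)
    have h3 := Up_halves p a (n - a) (hS p hpS).1 (hS p hpS).2 h1 h2 (hp p hpS)
    rwa [show a + (n - a) = n by omega] at h3

/-- For the colouring of `up_col`: a monochromatic even `n = a + b` (`a`, `b` prime) is `4`, or one of `a`, `b`
lies in `S` (at most `|S|` times the number of primes up to `N`, `o(N)`, e.g. by `pi_ap 1 0`), or `n ≡ 2`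
modulo `4` and no `p ∈ S` divides `n` (otherwise `b % p = p - a % p`, both nonzero, `p` odd); `up_count`. -/
theorem up_dens (S : Finset ℕ) (hS : ∀ p ∈ S, p.Prime ∧ 3 ≤ p) :
    ∃ χ : ℕ → Fin (2 ^ (S.card + 1)),
      monoDens (2 ^ (S.card + 1)) χ ≤ (1 / 4) * ∏ p ∈ S, (1 - 1 / (p : ℝ)) := by
  classical
  obtain ⟨χ, hχ⟩ := up_col S
  refine ⟨χ, ?_⟩
  obtain ⟨C, hC⟩ := up_count S hS
  have hpi := pi_ap 1 0 le_rfl (Nat.coprime_one_right 0)
  set π : ℕ → ℝ := fun N =>
    (((Icc 1 N).filter (fun n => n.Prime ∧ n ≡ 0 [MOD 1])).card : ℝ) with hπ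
  have hlog : Tendsto (fun N : ℕ => Real.log N) atTop atTop :=
    Real.tendsto_log_atTop.comp tendsto_natCast_atTop_atTop
  have hpi0 : Tendsto (fun N : ℕ => π N / N) atTop (𝓝 0) := by
    have h1 : Tendsto (fun N : ℕ => (π N * Real.log N / (N : ℝ)) * (Real.log N)⁻¹) atTop
        (𝓝 (1 / ((1 : ℕ).totient : ℝ) * 0)) := hpi.mul hlog.inv_tendsto_atTop
    rw [mul_zero] at h1
    refine h1.congr' ?_
    filter_upwards [hlog.eventually_gt_atTop 0] with N hN
    field_simp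
  set δ : ℝ := (1 / 4) * ∏ p ∈ S, (1 - 1 / (p : ℝ)) with hδ
  have ht : Tendsto (fun N : ℕ => δ + (1 + C) / N + S.card * (π N / N)) atTop
      (𝓝 (δ + 0 + S.card * 0)) :=
    (tendsto_const_nhds.add (tendsto_const_div_atTop_nhds_zero_nat (1 + C))).add
      (hpi0.const_mul _)
  rw [mul_zero, add_zero, add_zero] at ht
  have hl := ht.liminf_eq
  rw [← hl]
  unfold monoDens
  refine liminf_le_liminf ?_ ?_ ?_
  · filter_upwards [eventually_ge_atTop 1] with N hN
    have hN' : (0 : ℝ) < N := by exact_mod_cast hN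
    rw [div_le_iff₀ hN']
    have h1 := Finset.card_le_card (Up_sub S hS χ hχ N)
    have h2 := (Finset.card_union_le _ _).trans (Nat.add_le_add_right (Finset.card_union_le
      ({4} : Finset ℕ) ((Icc 1 N).filter (fun n => n % 4 = 2 ∧ ∀ p ∈ S, ¬ p ∣ n))) _) |> h1.trans
    have h3 : ((S ×ˢ (Icc 1 N).filter (fun n => n.Prime ∧ n ≡ 0 [MOD 1])).image
        (fun v => v.1 + v.2)).card ≤
        S.card * ((Icc 1 N).filter (fun n => n.Prime ∧ n ≡ 0 [MOD 1])).card := by
      refine Finset.card_image_le.trans ?_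
      rw [Finset.card_product]
    have h4 := h2.trans (Nat.add_le_add_left h3 _)
    rw [card_singleton] at h4
    have h5 : (((Icc 1 N).filter (fun n => Even n ∧
        ∃ i, 0 < Sm.repsIn (χ ⁻¹' {i}) (χ ⁻¹' {i}) n)).card : ℝ) ≤
        1 + (((Icc 1 N).filter (fun n => n % 4 = 2 ∧ ∀ p ∈ S, ¬ p ∣ n)).card : ℝ) +
          S.card * π N := by
      have h4' : (((Icc 1 N).filter (fun n => Even n ∧
        ∃ i, 0 < Sm.repsIn (χ ⁻¹' {i}) (χ ⁻¹' {i}) n)).card : ℝ) ≤
        ((1 + ((Icc 1 N).filter (fun n => n % 4 = 2 ∧ ∀ p ∈ S, ¬ p ∣ n)).card +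
          S.card * ((Icc 1 N).filter (fun n => n.Prime ∧ n ≡ 0 [MOD 1])).card : ℕ) : ℝ) := by
        exact_mod_cast h4
      rw [Nat.cast_add, Nat.cast_add, Nat.cast_mul, Nat.cast_one] at h4'
      exact h4'
    have h6 := hC N
    have h7 : (δ + (1 + C) / N + S.card * (π N / N)) * N = δ * N + (1 + C) + S.card * π N := by
      field_simp
    rw [h7]
    refine h5.trans ?_
    linarith
  · exact ⟨0, by
      rw [eventually_map]
      exact Eventually.of_forall fun N => by positivity⟩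
  · exact ht.isBoundedUnder_le.isCoboundedUnder_ge

end Pool.Agent.Lib.MP_629a14_nt.Col
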