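import Pool.Agent.Lib.MP_629a14_nt.Col.PsdAll

/-! The sum of the kernel over a set of integers. -/

set_option autoImplicit false

namespace Pool.Agent.Lib.MP_629a14_nt.Col

open Finset

/-- The number of `t` with `x ≤ t < x + H`, `y ≤ t < y + H`. -/
theorem hat_sum (M H x y : ℕ) (hx : x ≤ M) (hy : y ≤ M) :
    hat H x y = ∑ t ∈ range (M + H),
      (if x ≤ t ∧ t < x + H then (1 : ℝ) else 0) * (if y ≤ t ∧ t < y + H then 1 else 0) := by
  have h1 : ∀ t : ℕ, (if x ≤ t ∧ t < x + H then (1 : ℝ) else 0) *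
      (if y ≤ t ∧ t < y + H then 1 else 0) =
      if (x ≤ t ∧ t < x + H) ∧ (y ≤ t ∧ t < y + H) then 1 else 0 := by
    intro t
    split_ifs <;> first | (exfalso; tauto) | norm_num
  simp only [h1]
  rw [← Finset.sum_filter, Finset.sum_const, nsmul_eq_mul, mul_one]
  have h2 : (range (M + H)).filter (fun t => (x ≤ t ∧ t < x + H) ∧ (y ≤ t ∧ t < y + H)) =
      Ico (max x y) (min x y + H) := by
    ext t
    simp only [mem_filter, mem_range, mem_Ico]
    omega
  rw [h2, Nat.card_Ico]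
  unfold hat
  rcases le_total x y with h | h
  · rw [max_eq_right h, min_eq_left h]
    have h3 : |(x : ℝ) - y| = (y : ℝ) - x := by
      rw [abs_sub_comm, abs_of_nonneg]
      have : (x : ℝ) ≤ y := by exact_mod_cast h
      linarith
    rw [h3]
    rcases le_total y (x + H) with h4 | h4
    · rw [Nat.cast_sub h4]
      have h5 : (y : ℝ) ≤ x + H := by exact_mod_cast h4
      rw [max_eq_right (by linarith)]
      push_cast
      ring
    · rw [Nat.sub_eq_zero_of_le h4]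
      have h5 : (x : ℝ) + H ≤ y := by exact_mod_cast h4
      rw [max_eq_left (by linarith)]
      simp
  · rw [max_eq_left h, min_eq_right h]
    have h3 : |(x : ℝ) - y| = (x : ℝ) - y := by
      rw [abs_of_nonneg]
      have : (y : ℝ) ≤ x := by exact_mod_cast h
      linarith
    rw [h3]
    rcases le_total x (y + H) with h4 | h4
    · rw [Nat.cast_sub h4]
      have h5 : (x : ℝ) ≤ y + H := by exact_mod_cast h4
      rw [max_eq_right (by linarith)]
      push_cast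
      ring
    · rw [Nat.sub_eq_zero_of_le h4]
      have h5 : (y : ℝ) + H ≤ x := by exact_mod_cast h4
      rw [max_eq_left (by linarith)]
      simp

/-- `hat_sum`, `kk_psd` for the indicator function of `x ≤ t < x + H` for each `t`, and Cauchy-Schwarz
over the `M + H` values of `t` (`∑_t ∑_x [x ≤ t < x + H] = H |Ω|`). -/
theorem kk_mass (w H M : ℕ) (hH : 1 ≤ H) (Ω : Finset ℕ) (hΩ : ∀ x ∈ Ω, ∀ r ∈ OP w, ¬ r ∣ x)
    (hM : ∀ x ∈ Ω, x ≤ M) :
    ((H : ℝ) * Ω.card) ^ 2 / ((M : ℝ) + H) ≤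
      ∑ x ∈ Ω, ∑ y ∈ Ω, KK w (x : ℤ) (y : ℤ) * hat H x y := by
  set J : ℕ → ℕ → ℝ := fun t x => if x ≤ t ∧ t < x + H then (1 : ℝ) else 0 with hJ
  have h1 : ∑ x ∈ Ω, ∑ y ∈ Ω, KK w (x : ℤ) (y : ℤ) * hat H x y =
      ∑ t ∈ range (M + H), ∑ x ∈ Ω, ∑ y ∈ Ω, KK w (x : ℤ) (y : ℤ) * (J t x * J t y) := by
    have h2 : ∀ x ∈ Ω, ∑ y ∈ Ω, KK w (x : ℤ) (y : ℤ) * hat H x y =
        ∑ t ∈ range (M + H), ∑ y ∈ Ω, KK w (x : ℤ) (y : ℤ) * (J t x * J t y) := by
      intro x hx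
      rw [Finset.sum_comm]
      refine Finset.sum_congr rfl fun y hy => ?_
      rw [hat_sum M H x y (hM x hx) (hM y hy), Finset.mul_sum]
    rw [Finset.sum_congr rfl h2, Finset.sum_comm]
  have h3 : ∑ t ∈ range (M + H), (∑ x ∈ Ω, J t x) ^ 2 ≤
      ∑ t ∈ range (M + H), ∑ x ∈ Ω, ∑ y ∈ Ω, KK w (x : ℤ) (y : ℤ) * (J t x * J t y) :=
    Finset.sum_le_sum fun t _ => kk_psd w Ω hΩ (J t)
  have h4 : ∑ t ∈ range (M + H), ∑ x ∈ Ω, J t x = (H : ℝ) * Ω.card := by
    rw [Finset.sum_comm]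
    have h5 : ∀ x ∈ Ω, ∑ t ∈ range (M + H), J t x = (H : ℝ) := by
      intro x hx
      have hxM := hM x hx
      rw [hJ]
      simp only
      rw [← Finset.sum_filter, Finset.sum_const, nsmul_eq_mul, mul_one]
      have h6 : (range (M + H)).filter (fun t => x ≤ t ∧ t < x + H) = Ico x (x + H) := by
        ext t
        simp only [mem_filter, mem_range, mem_Ico]
        omega
      rw [h6, Nat.card_Ico]
      simp
    rw [Finset.sum_congr rfl h5, Finset.sum_const, nsmul_eq_mul, mul_comm]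
  have h5 := sq_sum_le_card_mul_sum_sq (s := range (M + H)) (f := fun t => ∑ x ∈ Ω, J t x)
  rw [h4, card_range] at h5
  push_cast at h5
  have hMH : (0 : ℝ) < (M : ℝ) + H := by
    have : (1 : ℝ) ≤ H := by exact_mod_cast hH
    positivity
  rw [h1, div_le_iff₀ hMH]
  calc ((H : ℝ) * Ω.card) ^ 2 ≤ ((M : ℝ) + H) * ∑ t ∈ range (M + H), (∑ x ∈ Ω, J t x) ^ 2 := h5
    _ ≤ ((M : ℝ) + H) * ∑ t ∈ range (M + H), ∑ x ∈ Ω, ∑ y ∈ Ω,
        KK w (x : ℤ) (y : ℤ) * (J t x * J t y) := mul_le_mul_of_nonneg_left h3 hMH.le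
    _ = _ := mul_comm _ _

end Pool.Agent.Lib.MP_629a14_nt.Col
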